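import Pool.Agent.Lib.MP_e426f4_ag.G.Basic

/-! Module G-ALG: algebra of forms. -/

namespace GenHP

open Finset

section ALG
variable {n d : ℕ} {R : Type*} [CommRing R]

theorem mon_mk (x : Fin (n + 1) → R) (c : Fin d → Fin (n + 1)) :
    mon x (mk c).1 = ∏ i, x (c i) := by
  unfold mon mk
  rw [← Finset.prod_fiberwise univ c (fun i => x (c i))]
  refine Finset.prod_congr rfl fun j _ => ?_
  rw [Finset.prod_congr rfl (g := fun _ => x j)
    (fun i hi => by rw [(Finset.mem_filter.mp hi).2]), Finset.prod_const]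

theorem F_T (l : Fin d → Fin (n + 1) → R) (x : Fin (n + 1) → R) :
    F (T l) x = ∏ i, ∑ a, l i a * x a := by
  unfold F T
  calc ∑ t, (∑ c : Fin d → Fin (n + 1), if mk c = t then ∏ i, l i (c i) else 0) * mon x t.1
      = ∑ c : Fin d → Fin (n + 1), ∑ t, (if mk c = t then ∏ i, l i (c i) else 0) * mon x t.1 := by
        simp only [Finset.sum_mul]
        rw [Finset.sum_comm]
    _ = ∑ c : Fin d → Fin (n + 1), ∏ i, (l i (c i) * x (c i)) := by
        refine Finset.sum_congr rfl fun c _ => ?_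
        rw [Finset.sum_eq_single (mk c)]
        · rw [if_pos rfl, mon_mk, Finset.prod_mul_distrib]
        · intro t _ ht
          rw [if_neg (Ne.symm ht), zero_mul]
        · simp
    _ = _ := by
        rw [Finset.prod_univ_sum]
        simp [Fintype.piFinset_univ]

theorem F_add (A B : Idx n d → R) (x : Fin (n + 1) → R) :
    F (fun t => A t + B t) x = F A x + F B x := by
  simp only [F, add_mul, Finset.sum_add_distrib]

theorem F_smul (c : R) (A : Idx n d → R) (x : Fin (n + 1) → R) :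
    F (fun t => c * A t) x = c * F A x := by
  simp only [F, mul_assoc, Finset.mul_sum]

theorem D_smul (c : R) (A : Idx n d → R) (x : Fin (n + 1) → R) (j : Fin (n + 1)) :
    D (fun t => c * A t) x j = c * D A x j := by
  simp only [D, mul_assoc, Finset.mul_sum]

theorem mon_scale {ι : Type*} [Fintype ι] (c : R) (x : ι → R) (t : ι → ℕ) :
    mon (fun i => c * x i) t = c ^ (∑ i, t i) * mon x t := by
  unfold mon
  rw [← Finset.prod_pow_eq_pow_sum, ← Finset.prod_mul_distrib]
  exact Finset.prod_congr rfl fun i _ => by rw [mul_pow]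

theorem F_scale (c : R) (A : Idx n d → R) (x : Fin (n + 1) → R) :
    F A (fun i => c * x i) = c ^ d * F A x := by
  simp only [F, Finset.mul_sum]
  refine Finset.sum_congr rfl fun t _ => ?_
  rw [mon_scale, t.2]
  ring

/-- total degree of the derivative of a monomial -/
theorem sum_sub_one {ι : Type*} [Fintype ι] [DecidableEq ι] (t : ι → ℕ) (j : ι) (h : t j ≠ 0) :
    ∑ i, (if i = j then t i - 1 else t i) = ∑ i, t i - 1 := by
  have h1 : ∑ i, t i = ∑ i, (if i = j then t i - 1 else t i) + 1 := by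
    have : ∑ i, (if i = j then 1 else 0 : ℕ) = 1 := by simp
    rw [← this, ← Finset.sum_add_distrib]
    refine Finset.sum_congr rfl fun i _ => ?_
    by_cases hi : i = j
    · subst hi
      rw [if_pos rfl, if_pos rfl]
      omega
    · rw [if_neg hi, if_neg hi]
      rfl
  omega

theorem dmon_scale {ι : Type*} [Fintype ι] [DecidableEq ι] (c : R) (x : ι → R) (j : ι)
    (t : ι → ℕ) : dmon (fun i => c * x i) j t = c ^ (∑ i, t i - 1) * dmon x j t := by
  unfold dmon
  by_cases h : t j = 0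
  · simp [h]
  · rw [← sum_sub_one t j h, ← Finset.prod_pow_eq_pow_sum]
    simp only [mul_pow]
    rw [Finset.prod_mul_distrib]
    ring

theorem D_scale (c : R) (A : Idx n d → R) (x : Fin (n + 1) → R) (j : Fin (n + 1)) :
    D A (fun i => c * x i) j = c ^ (d - 1) * D A x j := by
  simp only [D, Finset.mul_sum]
  refine Finset.sum_congr rfl fun t _ => ?_
  rw [dmon_scale, t.2]
  ring

/-- Euler's identity for a monomial -/
theorem mul_dmon {ι : Type*} [Fintype ι] [DecidableEq ι] (x : ι → R) (j : ι) (t : ι → ℕ) :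
    x j * dmon x j t = (t j : R) * mon x t := by
  unfold dmon mon
  by_cases h : t j = 0
  · simp [h]
  · rw [← Finset.mul_prod_erase univ (fun i => x i ^ (if i = j then t i - 1 else t i))
      (Finset.mem_univ j), ← Finset.mul_prod_erase univ (fun i => x i ^ t i) (Finset.mem_univ j)]
    have h1 : ∏ i ∈ univ.erase j, x i ^ (if i = j then t i - 1 else t i) =
        ∏ i ∈ univ.erase j, x i ^ t i := by
      refine Finset.prod_congr rfl fun i hi => ?_
      rw [if_neg (Finset.ne_of_mem_erase hi)]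
    rw [h1, if_pos rfl]
    have h2 : x j ^ t j = x j * x j ^ (t j - 1) := by
      rw [← pow_succ', Nat.sub_add_cancel (Nat.one_le_iff_ne_zero.mpr h)]
    rw [h2]
    ring

/-- Euler's identity -/
theorem euler (A : Idx n d → R) (x : Fin (n + 1) → R) :
    ∑ j, x j * D A x j = d * F A x := by
  simp only [D, F, Finset.mul_sum]
  rw [Finset.sum_comm]
  refine Finset.sum_congr rfl fun t _ => ?_
  have h1 : ∀ j, x j * (A t * dmon x j t.1) = (t.1 j : R) * (A t * mon x t.1) := by
    intro j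
    have := mul_dmon x j t.1
    calc x j * (A t * dmon x j t.1) = A t * (x j * dmon x j t.1) := by ring
      _ = _ := by rw [this]; ring
  rw [Finset.sum_congr rfl fun j _ => h1 j, ← Finset.sum_mul, ← Nat.cast_sum, t.2]

/-- first order expansion of a power -/
theorem pow_add_mul (x h c : R) (k : ℕ) :
    ∃ r : R, (x + c * h) ^ k = x ^ k + c * ((k : R) * x ^ (k - 1) * h) + c ^ 2 * r := by
  induction k with
  | zero => exact ⟨0, by simp⟩
  | succ k ih =>
    obtain ⟨r, hr⟩ := ih
    cases k with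
    | zero => exact ⟨0, by simp⟩
    | succ k =>
      refine ⟨((k + 1 : ℕ) : R) * x ^ k * h * h + r * (x + c * h), ?_⟩
      rw [pow_succ, hr]
      simp only [Nat.add_sub_cancel]
      push_cast
      ring

theorem mon_add_mul_finset {ι : Type*} [DecidableEq ι] (s : Finset ι) (x h : ι → R) (c : R)
    (t : ι → ℕ) :
    ∃ r : R, ∏ i ∈ s, (x i + c * h i) ^ t i = ∏ i ∈ s, x i ^ t i +
      c * (∑ j ∈ s, (t j : R) * (∏ i ∈ s, x i ^ (if i = j then t i - 1 else t i)) * h j)
      + c ^ 2 * r := by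
  induction s using Finset.induction_on with
  | empty => exact ⟨0, by simp⟩
  | insert a s ha ih =>
    obtain ⟨r, hr⟩ := ih
    obtain ⟨q, hq⟩ := pow_add_mul (x a) (h a) c (t a)
    rw [Finset.prod_insert ha, Finset.prod_insert ha, Finset.sum_insert ha, hr, hq,
      Finset.prod_insert ha, if_pos rfl]
    have h1 : ∏ i ∈ s, x i ^ (if i = a then t i - 1 else t i) = ∏ i ∈ s, x i ^ t i := by
      refine Finset.prod_congr rfl fun i hi => ?_
      rw [if_neg]
      rintro rfl
      exact ha hi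
    have h2 : ∑ j ∈ s, (t j : R) *
        (∏ i ∈ insert a s, x i ^ (if i = j then t i - 1 else t i)) * h j =
        x a ^ t a * ∑ j ∈ s, (t j : R) *
        (∏ i ∈ s, x i ^ (if i = j then t i - 1 else t i)) * h j := by
      rw [Finset.mul_sum]
      refine Finset.sum_congr rfl fun j hj => ?_
      rw [Finset.prod_insert ha, if_neg (by rintro rfl; exact ha hj)]
      ring
    rw [h1, h2]
    refine ⟨x a ^ t a * r + ((t a : R) * x a ^ (t a - 1) * h a) *
      (∑ j ∈ s, (t j : R) * (∏ i ∈ s, x i ^ (if i = j then t i - 1 else t i)) * h j)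
      + c * ((t a : R) * x a ^ (t a - 1) * h a) * r + q * (∏ i ∈ s, x i ^ t i +
      c * (∑ j ∈ s, (t j : R) * (∏ i ∈ s, x i ^ (if i = j then t i - 1 else t i)) * h j)
      + c ^ 2 * r), ?_⟩
    ring

/-- Taylor expansion with divisible remainder (general exponents). -/
theorem Fg_add_smul {I ι : Type*} [Fintype I] [Fintype ι] [DecidableEq ι] (e : I → ι → ℕ)
    (A : I → R) (x h : ι → R) (c : R) :
    ∃ r : R, Fg e A (fun i => x i + c * h i) = Fg e A x + c * (∑ j, Dg e A x j * h j) + c ^ 2 * r := by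
  have h1 : ∀ t : I, ∃ r : R, mon (fun i => x i + c * h i) (e t) = mon x (e t) +
      c * (∑ j, dmon x j (e t) * h j) + c ^ 2 * r := fun t =>
    mon_add_mul_finset univ x h c (e t)
  choose r hr using h1
  refine ⟨∑ t, A t * r t, ?_⟩
  have h2 : ∑ j, Dg e A x j * h j = ∑ t, A t * ∑ j, dmon x j (e t) * h j := by
    simp only [Dg, Finset.sum_mul, Finset.mul_sum]
    rw [Finset.sum_comm]
    refine Finset.sum_congr rfl fun t _ => Finset.sum_congr rfl fun j _ => by ring
  rw [h2]
  unfold Fg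
  rw [Finset.mul_sum, Finset.mul_sum, ← Finset.sum_add_distrib, ← Finset.sum_add_distrib]
  refine Finset.sum_congr rfl fun t _ => ?_
  rw [hr t]
  ring

theorem F_add_smul (A : Idx n d → R) (x h : Fin (n + 1) → R) (c : R) :
    ∃ r : R, F A (fun i => x i + c * h i) = F A x + c * (∑ j, D A x j * h j) + c ^ 2 * r :=
  Fg_add_smul (fun t : Idx n d => t.1) A x h c

theorem dvd_mul_sub_mul' (N a b a' b' : ℤ) (h : N ∣ a - a') (h' : N ∣ b - b') :
    N ∣ a * b - a' * b' := by
  obtain ⟨u, hu⟩ := h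
  obtain ⟨v, hv⟩ := h'
  exact ⟨u * b + a' * v, by linear_combination b * hu + a' * hv⟩

theorem prod_pow_congr {ι : Type*} (s : Finset ι) (N : ℤ) (x x' : ι → ℤ) (t : ι → ℕ)
    (hx : ∀ i, N ∣ x i - x' i) : N ∣ ∏ i ∈ s, x i ^ t i - ∏ i ∈ s, x' i ^ t i := by
  classical
  induction s using Finset.induction_on with
  | empty => simp
  | insert a s ha ih =>
    rw [Finset.prod_insert ha, Finset.prod_insert ha]
    exact dvd_mul_sub_mul' _ _ _ _ _ ((hx a).trans (sub_dvd_pow_sub_pow _ _ _)) ih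

theorem Fg_congr_mod {I ι : Type*} [Fintype I] [Fintype ι] (e : I → ι → ℕ) (N : ℤ)
    (A A' : I → ℤ) (x x' : ι → ℤ) (hA : ∀ m, N ∣ A m - A' m) (hx : ∀ i, N ∣ x i - x' i) :
    N ∣ Fg e A x - Fg e A' x' := by
  unfold Fg mon
  rw [← Finset.sum_sub_distrib]
  exact Finset.dvd_sum fun t _ => dvd_mul_sub_mul' _ _ _ _ _ (hA t) (prod_pow_congr _ _ _ _ _ hx)

theorem Dg_congr_mod {I ι : Type*} [Fintype I] [Fintype ι] [DecidableEq ι] (e : I → ι → ℕ) (N : ℤ)
    (A A' : I → ℤ) (x x' : ι → ℤ) (j : ι) (hA : ∀ m, N ∣ A m - A' m) (hx : ∀ i, N ∣ x i - x' i) :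
    N ∣ Dg e A x j - Dg e A' x' j := by
  unfold Dg dmon
  rw [← Finset.sum_sub_distrib]
  refine Finset.dvd_sum fun t _ => dvd_mul_sub_mul' _ _ _ _ _ (hA t)
    (dvd_mul_sub_mul' _ _ _ _ _ (by simp) (prod_pow_congr _ _ _ _ _ hx))

theorem F_congr_mod (N : ℤ) (A A' : Idx n d → ℤ) (x x' : Fin (n + 1) → ℤ)
    (hA : ∀ m, N ∣ A m - A' m) (hx : ∀ i, N ∣ x i - x' i) : N ∣ F A x - F A' x' :=
  Fg_congr_mod (fun t : Idx n d => t.1) N A A' x x' hA hx

theorem D_congr_mod (N : ℤ) (A A' : Idx n d → ℤ) (x x' : Fin (n + 1) → ℤ) (j : Fin (n + 1))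
    (hA : ∀ m, N ∣ A m - A' m) (hx : ∀ i, N ∣ x i - x' i) : N ∣ D A x j - D A' x' j :=
  Dg_congr_mod (fun t : Idx n d => t.1) N A A' x x' j hA hx

theorem Fg_map {S : Type*} [CommRing S] (f : R →+* S) {I ι : Type*} [Fintype I] [Fintype ι]
    (e : I → ι → ℕ) (A : I → R) (x : ι → R) :
    Fg e (fun t => f (A t)) (fun i => f (x i)) = f (Fg e A x) := by
  simp [Fg, mon, map_sum, map_prod]

theorem Dg_map {S : Type*} [CommRing S] (f : R →+* S) {I ι : Type*} [Fintype I] [Fintype ι]
    [DecidableEq ι] (e : I → ι → ℕ) (A : I → R) (x : ι → R) (j : ι) :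
    Dg e (fun t => f (A t)) (fun i => f (x i)) j = f (Dg e A x j) := by
  simp only [Dg, dmon, map_sum, map_mul, map_natCast, map_prod, map_pow]

theorem F_map {S : Type*} [CommRing S] (f : R →+* S) (A : Idx n d → R) (x : Fin (n + 1) → R) :
    F (fun t => f (A t)) (fun i => f (x i)) = f (F A x) := by
  simp [F, mon, map_sum, map_prod]

theorem D_map {S : Type*} [CommRing S] (f : R →+* S) (A : Idx n d → R) (x : Fin (n + 1) → R)
    (j : Fin (n + 1)) : D (fun t => f (A t)) (fun i => f (x i)) j = f (D A x j) := by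
  simp only [D, dmon, map_sum, map_mul, map_natCast, map_prod, map_pow]

theorem F_cast (A : Idx n d → ℤ) (x : Fin (n + 1) → ℤ) :
    F (fun t => (A t : ℝ)) (fun i => (x i : ℝ)) = ((F A x : ℤ) : ℝ) := by
  simp only [F, mon]
  push_cast
  rfl

end ALG

end GenHP
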