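import Pool.Agent.Lib.MP_e426f4_ag.G.Defs

/-! Finiteness of the basic sets, first facts. -/

namespace GenHP

open Finset

variable {n d : ℕ}

theorem finite_of_abs_le {ι : Type*} [Finite ι] (S : Set (ι → ℤ)) (C : ℝ)
    (h : ∀ x ∈ S, ∀ i, |(x i : ℝ)| ≤ C) : S.Finite := by
  have : Fintype ι := Fintype.ofFinite ι
  refine (Set.Finite.pi' (fun _ : ι => Set.finite_Icc (-⌈C⌉) ⌈C⌉)).subset ?_
  intro x hx i
  have h1 := h x hx i
  rw [abs_le] at h1
  have h2 : (x i : ℝ) ≤ (⌈C⌉ : ℝ) := h1.2.trans (Int.le_ceil C)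
  have h3 : (-(⌈C⌉ : ℝ)) ≤ (x i : ℝ) := (neg_le_neg (Int.le_ceil C)).trans h1.1
  exact ⟨by exact_mod_cast h3, by exact_mod_cast h2⟩

theorem Cl_finite (p : Par n d) (r H : ℝ) : (p.Cl r H).Finite := by
  obtain ⟨C, hC⟩ : ∃ C : ℝ, ∀ m, |H * p.AC m| ≤ C := by
    refine ⟨∑ m, |H * p.AC m|, fun m => ?_⟩
    exact Finset.single_le_sum (f := fun m => |H * p.AC m|) (fun _ _ => abs_nonneg _)
      (Finset.mem_univ m)
  refine finite_of_abs_le _ (C + r * H) ?_
  intro A hA m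
  have h1 := hA.1 m
  calc |(A m : ℝ)| = |H * p.AC m + ((A m : ℝ) - H * p.AC m)| := by ring_nf
    _ ≤ |H * p.AC m| + |(A m : ℝ) - H * p.AC m| := abs_add_le _ _
    _ ≤ C + r * H := add_le_add (hC m) h1

theorem Reg_finite (xi : Fin (n + 1) → ℝ) (j : Fin (n + 1)) (kap : ℝ) (B : ℕ) :
    (Reg xi j kap B).Finite := by
  obtain ⟨C, hC⟩ : ∃ C : ℝ, ∀ m, |(B : ℝ) * xi m| + |(if m = j then kap else kap ^ 2) * B| ≤ C := by
    refine ⟨∑ m, (|(B : ℝ) * xi m| + |(if m = j then kap else kap ^ 2) * B|), fun m => ?_⟩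
    exact Finset.single_le_sum
      (f := fun m => |(B : ℝ) * xi m| + |(if m = j then kap else kap ^ 2) * B|)
      (fun _ _ => by positivity) (Finset.mem_univ m)
  refine finite_of_abs_le _ C ?_
  intro x hx i
  have h1 := hx i
  calc |(x i : ℝ)| = |B * xi i + ((x i : ℝ) - B * xi i)| := by ring_nf
    _ ≤ |(B : ℝ) * xi i| + |(x i : ℝ) - B * xi i| := abs_add_le _ _
    _ ≤ |(B : ℝ) * xi i| + |(if i = j then kap else kap ^ 2) * B| :=
        add_le_add le_rfl (h1.trans (le_abs_self _))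
    _ ≤ C := hC i

theorem XX_finite (p : Par n d) (B : ℕ) : (p.XX B).Finite :=
  (Reg_finite p.xi p.j p.kap B).subset fun _ hx => hx.1

theorem GG_finite (p : Par n d) (K : ℝ) (B : ℕ) : (p.GG K B).Finite :=
  (XX_finite p B).subset fun _ hx => hx.1

theorem GG_subset_XX (p : Par n d) (K : ℝ) (B : ℕ) : p.GG K B ⊆ p.XX B := fun _ hx => hx.1

theorem Pairs_finite (p : Par n d) (r K H : ℝ) : (p.Pairs r K H).Finite :=
  ((Cl_finite p r H).prod (GG_finite p K (Bf n d H))).subset fun _ hq => ⟨hq.1, hq.2.1⟩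

theorem LP_finite (p : Par n d) (r th : ℝ) (s : ℕ) (S : Set (Fin (n + 1) → ℤ)) (hS : S.Finite)
    (H : ℝ) : (p.LP r th s S H).Finite :=
  ((Cl_finite p r H).prod hS).subset fun _ hq => ⟨hq.1, hq.2.1⟩

theorem TBad_finite (p : Par n d) (K : ℝ) (G : ℕ) (tau H : ℝ) : (p.TBad K G tau H).Finite :=
  ((Cl_finite p p.rho H).prod ((GG_finite p K (Bf n d H)).prod (GG_finite p K (Bf n d H)))).subset
    fun _ hq => ⟨hq.1, hq.2.1, hq.2.2.1⟩

theorem TMain_finite (p : Par n d) (K : ℝ) (G : ℕ) (tau H : ℝ) : (p.TMain K G tau H).Finite :=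
  ((Cl_finite p p.rho H).prod ((GG_finite p K (Bf n d H)).prod (GG_finite p K (Bf n d H)))).subset
    fun _ hq => ⟨hq.1, hq.2.1, hq.2.2.1⟩

theorem mem_boxn {m : ℕ} {x : Fin (n + 1) → ℤ} : x ∈ boxn n m ↔ ∀ i, |x i| ≤ m := by
  simp [boxn, Fintype.mem_piFinset, abs_le]

theorem card_boxn (n m : ℕ) : (boxn n m).card = (2 * m + 1) ^ (n + 1) := by
  rw [boxn, Fintype.card_piFinset]
  simp only [Int.card_Icc, Finset.prod_const, Finset.card_univ, Fintype.card_fin]
  congr 1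
  omega

/-- every exponent vector is `mk c` for some `c` -/
theorem exists_mk (t : Idx n d) : ∃ c : Fin d → Fin (n + 1), mk c = t := by
  obtain ⟨t, ht⟩ := t
  -- the multiset with multiplicities `t`
  set s : Multiset (Fin (n + 1)) := ∑ j, Multiset.replicate (t j) j with hs
  have hcard : s.card = d := by
    rw [hs, Multiset.card_sum]
    simpa using ht
  have hcount : ∀ j, s.count j = t j := by
    intro j
    rw [hs, Multiset.count_sum']
    simp [Multiset.count_replicate]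
  obtain ⟨l, hl⟩ : ∃ l : List (Fin (n + 1)), (l : Multiset (Fin (n + 1))) = s := Quot.exists_rep s
  have hlen : l.length = d := by
    rw [← hcard, ← hl]
    rfl
  refine ⟨fun i => l.get (i.cast hlen.symm), ?_⟩
  apply Subtype.ext
  funext j
  show ((univ : Finset (Fin d)).filter fun i => l.get (i.cast hlen.symm) = j).card = t j
  rw [← hcount j, ← hl, Multiset.coe_count]
  subst hlen
  exact Fin.card_filter_univ_eq_vector_get_eq_count j (⟨l, rfl⟩ : List.Vector (Fin (n + 1)) l.length)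

theorem NN_pos (n d : ℕ) : 0 < NN n d := by
  unfold NN
  have : Nonempty (Idx n d) := ⟨mk fun _ => 0⟩
  exact Fintype.card_pos

end GenHP
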