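import Mathlib

/-!
# Forms of degree `d` in `n + 1` variables over `ℤ`: definitions

A form of degree `d` in the variables `x_0, …, x_n` is given by its coefficient vector `A : Idx n d → R`,
`F A x = ∑_{|t| = d} A_t x^t`.
-/

namespace GenHP

open Finset

/-- Exponent vectors of the monomials of degree `d` in `x_0, …, x_n`. -/
abbrev Idx (n d : ℕ) : Type := {t : Fin (n + 1) → ℕ // ∑ i, t i = d}

instance instFintypeIdx (n d : ℕ) : Fintype (Idx n d) :=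
  Fintype.subtype (Finset.Nat.antidiagonalTuple (n + 1) d) fun _ =>
    Finset.Nat.mem_antidiagonalTuple

/-- Number of monomials. -/
def NN (n d : ℕ) : ℕ := Fintype.card (Idx n d)

section ring
variable {R : Type*} [CommRing R]

/-- The monomial `x^t`. -/
def mon {ι : Type*} [Fintype ι] (x : ι → R) (t : ι → ℕ) : R := ∏ i, x i ^ t i

/-- The partial derivative of the monomial `x^t` with respect to `x_j`. -/
def dmon {ι : Type*} [Fintype ι] [DecidableEq ι] (x : ι → R) (j : ι) (t : ι → ℕ) : R :=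
  (t j : R) * ∏ i, x i ^ (if i = j then t i - 1 else t i)

/-- A polynomial with given exponents: `∑_t A_t x^{e(t)}`. -/
def Fg {I ι : Type*} [Fintype I] [Fintype ι] (e : I → ι → ℕ) (A : I → R) (x : ι → R) : R :=
  ∑ t, A t * mon x (e t)

/-- Its partial derivatives. -/
def Dg {I ι : Type*} [Fintype I] [Fintype ι] [DecidableEq ι] (e : I → ι → ℕ) (A : I → R)
    (x : ι → R) (j : ι) : R :=
  ∑ t, A t * dmon x j (e t)

variable {n d : ℕ}

/-- The form `∑_{|t| = d} A_t x^t`. -/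
def F (A : Idx n d → R) (x : Fin (n + 1) → R) : R := ∑ t, A t * mon x t.1

/-- The partial derivative of the form `F A` with respect to `x_j`. -/
def D (A : Idx n d → R) (x : Fin (n + 1) → R) (j : Fin (n + 1)) : R := ∑ t, A t * dmon x j t.1

theorem sum_card_fiber (c : Fin d → Fin (n + 1)) :
    ∑ j, ((univ : Finset (Fin d)).filter fun i => c i = j).card = d := by
  rw [← Finset.card_eq_sum_card_fiberwise (f := c) (s := univ) (t := univ) (fun _ _ => mem_coe.mpr (mem_univ _))]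
  simp

/-- The exponent vector of the monomial `x_{c_1} ⋯ x_{c_d}`. -/
def mk (c : Fin d → Fin (n + 1)) : Idx n d :=
  ⟨fun j => ((univ : Finset (Fin d)).filter fun i => c i = j).card, sum_card_fiber c⟩

/-- The coefficient vector of the product of the `d` linear forms `l i`. -/
def T (l : Fin d → Fin (n + 1) → R) : Idx n d → R :=
  fun t => ∑ c : Fin d → Fin (n + 1), if mk c = t then ∏ i, l i (c i) else 0

end ring

/-! ### Integer vectors -/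

/-- Primitive integer vectors. -/
def Prim {n : ℕ} (x : Fin (n + 1) → ℤ) : Prop := ∃ c : Fin (n + 1) → ℤ, ∑ i, c i * x i = 1

/-- `2 × 2` minors of the pair `x, y`. -/
def minor {n : ℕ} (x y : Fin (n + 1) → ℤ) (a b : Fin (n + 1)) : ℤ := x a * y b - x b * y a

/-- The greatest common divisor of the `2 × 2` minors. -/
def mg {n : ℕ} (x y : Fin (n + 1) → ℤ) : ℕ :=
  (univ : Finset (Fin (n + 1) × Fin (n + 1))).gcd fun p => (minor x y p.1 p.2).natAbs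

/-- The largest `2 × 2` minor. -/
def dl {n : ℕ} (x y : Fin (n + 1) → ℤ) : ℕ :=
  (univ : Finset (Fin (n + 1) × Fin (n + 1))).sup fun p => (minor x y p.1 p.2).natAbs

/-- `x` is orthogonal to `n` linearly independent integer vectors of size `≤ μ`. -/
def Ortho {n : ℕ} (μ : ℝ) (x : Fin (n + 1) → ℤ) : Prop :=
  ∃ l : Fin n → Fin (n + 1) → ℤ,
    LinearIndependent ℝ (fun k : Fin n => fun i : Fin (n + 1) => (l k i : ℝ)) ∧
    (∀ k, ∑ i, l k i * x i = 0) ∧ ∀ k i, |(l k i : ℝ)| ≤ μ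

/-- Well-rounded points of size `B`. -/
def Good {n : ℕ} (K : ℝ) (B : ℕ) (x : Fin (n + 1) → ℤ) : Prop :=
  Ortho (K * (B : ℝ) ^ (1 / (n : ℝ))) x

/-- The box `[-m, m]^(n+1)`. -/
noncomputable def boxn (n m : ℕ) : Finset (Fin (n + 1) → ℤ) :=
  Fintype.piFinset fun _ => Icc (-(m : ℤ)) m

/-- The form has a rational zero. -/
def Soluble {n d : ℕ} (A : Idx n d → ℤ) : Prop :=
  ∃ x : Fin (n + 1) → ℚ, x ≠ 0 ∧ F (fun t => (A t : ℚ)) x = 0

/-! ### Parameters of a local class -/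

/-- Data of a local class: a real approximation and congruence conditions. -/
structure Par (n d : ℕ) where
  /-- real form with an approximate nonsingular zero `xi` -/
  Ainf : Idx n d → ℝ
  /-- centre of the cube of forms -/
  AC : Idx n d → ℝ
  /-- real zero -/
  xi : Fin (n + 1) → ℝ
  /-- direction of large derivative -/
  j : Fin (n + 1)
  /-- half side of the box of points -/
  kap : ℝ
  /-- half side of the cube of forms -/
  rho : ℝ
  /-- product of the small primes -/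
  W : ℕ
  /-- modulus for the points -/
  P : ℕ
  /-- modulus for the forms -/
  Q : ℕ
  /-- residue class of the forms -/
  A0 : Idx n d → ℤ
  /-- residue class of the points -/
  x0 : Fin (n + 1) → ℤ

variable {n d : ℕ}

/-- the derivative of the real form at the real zero -/
def Par.gam (p : Par n d) : ℝ := D p.Ainf p.xi p.j

/-- Forms of the class in the cube with centre `H * AC` and half side `r * H`. -/
def Par.Cl (p : Par n d) (r H : ℝ) : Set (Idx n d → ℤ) :=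
  {A | (∀ m, |(A m : ℝ) - H * p.AC m| ≤ r * H) ∧ ∀ m, (p.Q : ℤ) ∣ A m - p.A0 m}

/-- The real box of integer points around `B * xi`. -/
def Reg (xi : Fin (n + 1) → ℝ) (j : Fin (n + 1)) (kap : ℝ) (B : ℕ) : Set (Fin (n + 1) → ℤ) :=
  {x | ∀ i, |(x i : ℝ) - B * xi i| ≤ (if i = j then kap else kap ^ 2) * B}

/-- Points of the class. -/
def Par.XX (p : Par n d) (B : ℕ) : Set (Fin (n + 1) → ℤ) :=
  {x | x ∈ Reg p.xi p.j p.kap B ∧ ∀ i, (p.P : ℤ) ∣ x i - p.x0 i}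

/-- Primitive well-rounded points of the class. -/
def Par.GG (p : Par n d) (K : ℝ) (B : ℕ) : Set (Fin (n + 1) → ℤ) :=
  {x | x ∈ p.XX B ∧ Prim x ∧ Good K B x}

/-- The exponent of the height function: between `1 / (n + 1 - d)` and `n / 2`. -/
noncomputable def cc (n d : ℕ) : ℝ := (1 / ((n : ℝ) + 1 - d) + (n : ℝ) / 2) / 2

/-- The height of the points: `H ^ c`. -/
noncomputable def Bf (n d : ℕ) (H : ℝ) : ℕ := ⌊H ^ cc n d⌋₊

/-- Real part of the main term. -/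
noncomputable def Vol (n : ℕ) (gam kap th : ℝ) (B : ℕ) : ℝ :=
  2 ^ (n + 1) * kap ^ (2 * n) * th * (B : ℝ) ^ (n + 1) / |gam|

/-- Real counting property: for all forms near `H * Ainf` the number of points of a residue class
modulo `M` in the box `Reg` with `|F A x| ≤ θ H B^d` is `(1 ± ε) V / M^(n+1)`. -/
def RC (Ainf : Idx n d → ℝ) (xi : Fin (n + 1) → ℝ) (j : Fin (n + 1)) (kap rho bet eps : ℝ) : Prop :=
  ∀ th : ℝ, 0 < th → th ≤ kap * bet / 4 → ∀ M : ℕ, 1 ≤ M → ∃ B0 : ℕ, ∀ B : ℕ, B0 ≤ B →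
    ∀ H : ℝ, 0 < H → ∀ A : Idx n d → ℤ, (∀ m, |(A m : ℝ) - H * Ainf m| ≤ 3 * rho * H) →
    ∀ r : Fin (n + 1) → ℤ,
    (1 - eps) * Vol n (D Ainf xi j) kap th B / (M : ℝ) ^ (n + 1) ≤
        (Set.ncard {x : Fin (n + 1) → ℤ | x ∈ Reg xi j kap B ∧ (∀ i, (M : ℤ) ∣ x i - r i) ∧
          |((F A x : ℤ) : ℝ)| ≤ th * H * (B : ℝ) ^ d} : ℝ) ∧
      (Set.ncard {x : Fin (n + 1) → ℤ | x ∈ Reg xi j kap B ∧ (∀ i, (M : ℤ) ∣ x i - r i) ∧
          |((F A x : ℤ) : ℝ)| ≤ th * H * (B : ℝ) ^ d} : ℝ) ≤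
        (1 + eps) * Vol n (D Ainf xi j) kap th B / (M : ℝ) ^ (n + 1)

/-- Hensel data: on the class `A ≡ A0 (Q)`, `x ≡ x0 (P)` the values `F A x` are divisible by `Q`,
and along the direction `P * h` the quotient moves with unit speed at all primes dividing `W`. -/
def Hens (P Q W : ℕ) (A0 : Idx n d → ℤ) (x0 : Fin (n + 1) → ℤ) : Prop :=
  P ∣ Q ∧ (∃ m : ℕ, Q = W ^ m) ∧
  (∀ A : Idx n d → ℤ, (∀ m, (Q : ℤ) ∣ A m - A0 m) → ∀ u : Fin (n + 1) → ℤ,
    (Q : ℤ) ∣ F A (fun i => x0 i + P * u i)) ∧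
  (∀ u : Fin (n + 1) → ℤ, ∃ c : Fin (n + 1) → ℤ,
    IsCoprime (∑ i, c i * (x0 i + P * u i)) (W : ℤ)) ∧
  ∃ h : Fin (n + 1) → ℤ,
    ∀ A : Idx n d → ℤ, (∀ m, (Q : ℤ) ∣ A m - A0 m) → ∀ u : Fin (n + 1) → ℤ, ∀ c : ℤ, ∃ e : ℤ,
      IsCoprime e (W : ℤ) ∧
      F A (fun i => x0 i + P * (u i + c * h i)) - F A (fun i => x0 i + P * u i) = Q * c * e

/-- Validity of the data of a class. -/
structure Par.Valid (p : Par n d) (eps bet : ℝ) (w : ℕ) : Prop where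
  n_ge : 3 ≤ n
  d_ge : 2 ≤ d
  d_le : d ≤ n
  eps_pos : 0 < eps
  eps_le : eps ≤ 1 / 10
  bet_pos : 0 < bet
  bet_le : bet ≤ 1
  w_two : 2 ≤ w
  kap_pos : 0 < p.kap
  kap_le : p.kap ≤ 1 / 10
  rho_pos : 0 < p.rho
  rho_le : p.rho ≤ 1
  Ainf_le : ∀ m, |p.Ainf m| ≤ 1
  AC_near : ∀ m, |p.AC m - p.Ainf m| ≤ p.rho
  xi_le : ∀ i, |p.xi i| ≤ 1
  xi_eq : ∃ i, |p.xi i| = 1
  gam_ge : bet ≤ |p.gam|
  rc : RC p.Ainf p.xi p.j p.kap p.rho bet eps
  W_pos : 0 < p.W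
  W_primes : ∀ q : ℕ, q.Prime → (q ∣ p.W ↔ q ≤ w)
  Q_pos : 0 < p.Q
  P_pos : 0 < p.P
  hens : Hens p.P p.Q p.W p.A0 p.x0

/-- Expected number of points. -/
noncomputable def Par.TT (p : Par n d) (H : ℝ) : ℝ :=
  2 ^ n * p.kap ^ (2 * n) * p.Q * (Bf n d H : ℝ) ^ (n + 1 - d) / (|p.gam| * (p.P : ℝ) ^ (n + 1) * H)

/-- Expected number of forms. -/
noncomputable def Par.Xn (p : Par n d) (H : ℝ) : ℝ := (2 * p.rho * H / p.Q) ^ NN n d

/-- pairs (form, point) -/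
def Par.Pairs (p : Par n d) (r K H : ℝ) : Set ((Idx n d → ℤ) × (Fin (n + 1) → ℤ)) :=
  {q | q.1 ∈ p.Cl r H ∧ q.2 ∈ p.GG K (Bf n d H) ∧ F q.1 q.2 = 0}

/-- triples (form, two distinct points) with bad pair of points -/
def Par.TBad (p : Par n d) (K : ℝ) (G : ℕ) (tau H : ℝ) :
    Set ((Idx n d → ℤ) × (Fin (n + 1) → ℤ) × (Fin (n + 1) → ℤ)) :=
  {q | q.1 ∈ p.Cl p.rho H ∧ q.2.1 ∈ p.GG K (Bf n d H) ∧ q.2.2 ∈ p.GG K (Bf n d H) ∧
    F q.1 q.2.1 = 0 ∧ F q.1 q.2.2 = 0 ∧ q.2.1 ≠ q.2.2 ∧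
    (G < mg q.2.1 q.2.2 ∨ (dl q.2.1 q.2.2 : ℝ) < tau * (Bf n d H : ℝ) ^ 2)}

/-- triples (form, two points) with good pair of points -/
def Par.TMain (p : Par n d) (K : ℝ) (G : ℕ) (tau H : ℝ) :
    Set ((Idx n d → ℤ) × (Fin (n + 1) → ℤ) × (Fin (n + 1) → ℤ)) :=
  {q | q.1 ∈ p.Cl p.rho H ∧ q.2.1 ∈ p.GG K (Bf n d H) ∧ q.2.2 ∈ p.GG K (Bf n d H) ∧
    F q.1 q.2.1 = 0 ∧ F q.1 q.2.2 = 0 ∧
    mg q.2.1 q.2.2 ≤ G ∧ tau * (Bf n d H : ℝ) ^ 2 ≤ (dl q.2.1 q.2.2 : ℝ)}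

/-- local pairs: forms and points with `W^s ∣ F A x` and `|F A x| ≤ θ H B^d`. -/
def Par.LP (p : Par n d) (r th : ℝ) (s : ℕ) (S : Set (Fin (n + 1) → ℤ)) (H : ℝ) :
    Set ((Idx n d → ℤ) × (Fin (n + 1) → ℤ)) :=
  {q | q.1 ∈ p.Cl r H ∧ q.2 ∈ S ∧ ((p.W : ℤ) ^ s) ∣ F q.1 q.2 ∧
    |((F q.1 q.2 : ℤ) : ℝ)| ≤ th * H * (Bf n d H : ℝ) ^ d}

/-- number of multiples of `M` in `[-θ H B^d, θ H B^d]` -/
noncomputable def Lev (n d : ℕ) (th : ℝ) (M : ℕ) (H : ℝ) : ℝ :=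
  2 * (⌊th * H * (Bf n d H : ℝ) ^ d / M⌋₊ : ℝ) + 1

/-- the local main term `T' X` -/
noncomputable def Par.MT (p : Par n d) (th : ℝ) (s : ℕ) (H : ℝ) : ℝ :=
  Vol n p.gam p.kap th (Bf n d H) * p.Q / ((p.P : ℝ) ^ (n + 1) * (p.W : ℝ) ^ s) * p.Xn H

/-! ### Constants -/

/-- constant of the translation by one vector -/
noncomputable def c1 (n d : ℕ) : ℝ := (n : ℝ) * ((n : ℝ) + 1) ^ (d - 1) * ((n : ℝ) + 1)

/-- constant of the translation by a vector for two points -/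
noncomputable def c2 (n d : ℕ) : ℝ := (n : ℝ) * (n : ℝ) * ((n : ℝ) + 1) ^ (d - 2) * ((n : ℝ) + 1) ^ 2

/-- sup norm of an integer vector -/
def nn {n : ℕ} (z : Fin n → ℤ) : ℕ := (univ : Finset (Fin n)).sup fun k => (z k).natAbs

end GenHP
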