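import Pool.Agent.Lib.MP_e426f4_ag.G.Alg

/-! Module MG: elementary facts on minors. -/

namespace GenHP

open Finset

variable {n d : ℕ}

theorem mg_dvd_minor (x y : Fin (n + 1) → ℤ) (a b : Fin (n + 1)) : (mg x y : ℤ) ∣ minor x y a b := by
  have h : mg x y ∣ (minor x y a b).natAbs :=
    Finset.gcd_dvd (f := fun p : Fin (n + 1) × Fin (n + 1) => (minor x y p.1 p.2).natAbs)
      (Finset.mem_univ ((a, b) : Fin (n + 1) × Fin (n + 1)))
  exact Int.natCast_dvd.mpr h

theorem dvd_mg (x y : Fin (n + 1) → ℤ) (q : ℤ) (h : ∀ a b, q ∣ minor x y a b) : q ∣ (mg x y : ℤ) := by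
  have : q.natAbs ∣ mg x y := by
    refine Finset.dvd_gcd fun p _ => ?_
    exact Int.natAbs_dvd_natAbs.mpr (h p.1 p.2)
  exact Int.dvd_natCast.mpr this

theorem minor_le_dl (x y : Fin (n + 1) → ℤ) (a b : Fin (n + 1)) : (minor x y a b).natAbs ≤ dl x y :=
  Finset.le_sup (f := fun p : Fin (n + 1) × Fin (n + 1) => (minor x y p.1 p.2).natAbs)
    (Finset.mem_univ ((a, b) : Fin (n + 1) × Fin (n + 1)))

theorem exists_minor_eq_dl (x y : Fin (n + 1) → ℤ) :
    ∃ a b, (minor x y a b).natAbs = dl x y ∧ ∀ a' b', (minor x y a' b').natAbs ≤ dl x y := by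
  obtain ⟨p, _, hp⟩ := Finset.exists_mem_eq_sup (univ : Finset (Fin (n + 1) × Fin (n + 1)))
    Finset.univ_nonempty (fun p : Fin (n + 1) × Fin (n + 1) => (minor x y p.1 p.2).natAbs)
  exact ⟨p.1, p.2, hp.symm, minor_le_dl x y⟩

theorem exists_minor_ne_zero (x y : Fin (n + 1) → ℤ) (h : 0 < dl x y) :
    ∃ a b, minor x y a b ≠ 0 := by
  obtain ⟨a, b, hab, -⟩ := exists_minor_eq_dl x y
  refine ⟨a, b, fun h0 => ?_⟩
  rw [h0] at hab
  simp at hab
  omega

/-- congruence `y ≡ l x` from divisibility of all minors -/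
theorem exists_mod_of_dvd_minor (x y : Fin (n + 1) → ℤ) (hx : Prim x) (q : ℤ)
    (hq : ∀ a b, q ∣ minor x y a b) : ∃ l : ℤ, ∀ i, q ∣ y i - l * x i := by
  obtain ⟨c, hc⟩ := hx
  refine ⟨∑ i, c i * y i, fun j => ?_⟩
  have : y j - (∑ i, c i * y i) * x j = ∑ i, c i * minor x y i j := by
    calc y j - (∑ i, c i * y i) * x j = (∑ i, c i * x i) * y j - (∑ i, c i * y i) * x j := by
          rw [hc]; ring
      _ = _ := by
        rw [Finset.sum_mul, Finset.sum_mul, ← Finset.sum_sub_distrib]
        refine Finset.sum_congr rfl fun i _ => ?_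
        unfold minor
        ring
  rw [this]
  exact Finset.dvd_sum fun i _ => Dvd.dvd.mul_left (hq i j) _

/-- If `q` divides all minors and `x` is primitive, `y` is a multiple of `x` modulo `q`. -/
theorem exists_mod_of_dvd_mg (x y : Fin (n + 1) → ℤ) (hx : Prim x) (q : ℕ) (hq : q ∣ mg x y) :
    ∃ l : ℤ, ∀ i, (q : ℤ) ∣ y i - l * x i :=
  exists_mod_of_dvd_minor x y hx q fun a b =>
    (Int.natCast_dvd_natCast.mpr hq).trans (mg_dvd_minor x y a b)

theorem mg_pos_of_dl_pos (x y : Fin (n + 1) → ℤ) (h : 0 < dl x y) : 0 < mg x y := by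
  obtain ⟨a, b, hab⟩ := exists_minor_ne_zero x y h
  rcases Nat.eq_zero_or_pos (mg x y) with h0 | h0
  · exfalso
    have := mg_dvd_minor x y a b
    rw [h0] at this
    exact hab (by simpa using this)
  · exact h0

/-- Two primitive vectors which are not equal or opposite are independent. -/
theorem dl_pos (x y : Fin (n + 1) → ℤ) (hx : Prim x) (hy : Prim y) (h1 : y ≠ x) (h2 : y ≠ -x) :
    0 < dl x y := by
  by_contra h0
  have h0 : dl x y = 0 := by omega
  have hm : ∀ a b, (0 : ℤ) ∣ minor x y a b := by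
    intro a b
    have := minor_le_dl x y a b
    rw [h0] at this
    have : minor x y a b = 0 := by
      rw [← Int.natAbs_eq_zero]; omega
    rw [this]
  obtain ⟨l, hl⟩ := exists_mod_of_dvd_minor x y hx 0 hm
  have hl' : ∀ i, y i = l * x i := by
    intro i
    have := hl i
    rw [zero_dvd_iff] at this
    linarith
  obtain ⟨c, hc⟩ := hy
  have hu : l * (∑ i, c i * x i) = 1 := by
    rw [← hc, Finset.mul_sum]
    refine Finset.sum_congr rfl fun i _ => ?_
    rw [hl' i]; ring
  have hl1 : IsUnit l := IsUnit.of_mul_eq_one _ hu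
  rcases Int.isUnit_iff.mp hl1 with h | h
  · apply h1
    funext i
    rw [hl' i, h, one_mul]
  · apply h2
    funext i
    rw [hl' i, h]
    simp

theorem F_single {R : Type*} [CommRing R] (m : Idx n d) (c : R) (x : Fin (n + 1) → R) :
    F (Pi.single m c) x = c * mon x m.1 := by
  unfold F
  rw [Finset.sum_eq_single m]
  · simp
  · intro t _ ht
    rw [Pi.single_eq_of_ne ht, zero_mul]
  · simp

/-- The minors of the vectors of monomials generate the same ideal (we need one inclusion). -/
theorem exists_vec_mg (hd : 1 ≤ d) (x y : Fin (n + 1) → ℤ) (hx : Prim x) (hy : Prim y)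
    (h : 0 < dl x y) : ∃ t : Idx n d → ℤ, F t x = 0 ∧ F t y = mg x y := by
  -- the subgroup of values
  let I : Ideal ℤ :=
    { carrier := {z | ∃ t : Idx n d → ℤ, F t x = 0 ∧ F t y = z}
      add_mem' := by
        rintro a b ⟨t, ht, ht'⟩ ⟨s, hs, hs'⟩
        exact ⟨fun m => t m + s m, by rw [F_add, ht, hs, add_zero], by rw [F_add, ht', hs']⟩
      zero_mem' := ⟨fun _ => 0, by simp [F], by simp [F]⟩
      smul_mem' := by
        rintro c a ⟨t, ht, ht'⟩
        exact ⟨fun m => c * t m, by rw [F_smul, ht, mul_zero], by rw [F_smul, ht', smul_eq_mul]⟩ }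
  have hIg : I = Ideal.span {Submodule.IsPrincipal.generator I} :=
    (Ideal.span_singleton_generator I).symm
  set g := Submodule.IsPrincipal.generator I with hg
  have hmem : ∀ z, z ∈ I ↔ g ∣ z := by
    intro z
    conv_lhs => rw [hIg]
    exact Ideal.mem_span_singleton
  -- minors of the monomial vectors
  have hmin : ∀ m m' : Idx n d, g ∣ mon x m.1 * mon y m'.1 - mon x m'.1 * mon y m.1 := by
    intro m m'
    rw [← hmem]
    refine ⟨fun t => mon x m.1 * (Pi.single m' 1 : Idx n d → ℤ) t
      + (-mon x m'.1) * (Pi.single m 1 : Idx n d → ℤ) t, ?_, ?_⟩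
    · rw [F_add, F_smul, F_smul, F_single, F_single]; ring
    · rw [F_add, F_smul, F_smul, F_single, F_single]; ring
  obtain ⟨c, hc⟩ := hx
  obtain ⟨c', hc'⟩ := hy
  -- the constant
  set L : ℤ := F (T fun _ : Fin d => c) y with hL
  have hT : F (T fun _ : Fin d => c) x = 1 := by rw [F_T, hc]; simp
  have hLam : ∀ m : Idx n d, g ∣ mon y m.1 - L * mon x m.1 := by
    intro m
    have : mon y m.1 - L * mon x m.1
        = ∑ t : Idx n d, T (fun _ : Fin d => c) t *
          (mon x t.1 * mon y m.1 - mon x m.1 * mon y t.1) := by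
      calc mon y m.1 - L * mon x m.1
          = F (T fun _ : Fin d => c) x * mon y m.1 - L * mon x m.1 := by rw [hT]; ring
        _ = _ := by
          rw [hL, F, F, Finset.sum_mul, Finset.sum_mul, ← Finset.sum_sub_distrib]
          exact Finset.sum_congr rfl fun t _ => by ring
    rw [this]
    exact Finset.dvd_sum fun t _ => Dvd.dvd.mul_left (hmin t m) _
  obtain ⟨e, rfl⟩ : ∃ e, d = e + 1 := ⟨d - 1, by omega⟩
  have hLamc : ∀ (a : Fin (n + 1)) (f : Fin e → Fin (n + 1)),
      g ∣ y a * ∏ i, y (f i) - L * (x a * ∏ i, x (f i)) := by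
    intro a f
    have h1 := hLam (mk (Fin.cons a f : Fin (e + 1) → Fin (n + 1)))
    rw [mon_mk, mon_mk, Fin.prod_univ_succ, Fin.prod_univ_succ] at h1
    simpa using h1
  have hgm : ∀ a b, g ∣ minor x y a b := by
    intro a b
    have h1 : ∀ f : Fin e → Fin (n + 1), g ∣ minor x y a b * ∏ i, y (f i) := by
      intro f
      have e1 := hLamc b f
      have e2 := hLamc a f
      have : minor x y a b * ∏ i, y (f i)
          = x a * (y b * ∏ i, y (f i) - L * (x b * ∏ i, x (f i)))
          - x b * (y a * ∏ i, y (f i) - L * (x a * ∏ i, x (f i))) := by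
        unfold minor; ring
      rw [this]
      exact dvd_sub (Dvd.dvd.mul_left e1 _) (Dvd.dvd.mul_left e2 _)
    have h2 : minor x y a b =
        ∑ f : Fin e → Fin (n + 1), (∏ i, c' (f i)) * (minor x y a b * ∏ i, y (f i)) := by
      have h3 : ∑ f : Fin e → Fin (n + 1), ∏ i, (c' (f i) * y (f i)) = 1 := by
        have h4 := Finset.prod_univ_sum (fun _ : Fin e => (univ : Finset (Fin (n + 1))))
          (fun (_ : Fin e) (a : Fin (n + 1)) => c' a * y a)
        rw [Fintype.piFinset_univ] at h4
        rw [← h4, hc']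
        simp
      calc minor x y a b
          = minor x y a b * ∑ f : Fin e → Fin (n + 1), ∏ i, (c' (f i) * y (f i)) := by
            rw [h3, mul_one]
        _ = _ := by
          rw [Finset.mul_sum]
          refine Finset.sum_congr rfl fun f _ => ?_
          rw [Finset.prod_mul_distrib]
          ring
    rw [h2]
    exact Finset.dvd_sum fun f _ => Dvd.dvd.mul_left (h1 f) _
  exact (hmem _).mpr (dvd_mg x y g hgm)

/-- A non-primitive integer vector is divisible by a prime. -/
theorem exists_prime_of_not_prim (x : Fin (n + 1) → ℤ) (hx : ¬ Prim x) :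
    ∃ p : ℕ, p.Prime ∧ ∀ i, (p : ℤ) ∣ x i := by
  have h1 : Ideal.span (Set.range x) ≠ ⊤ := by
    intro h
    have : (1 : ℤ) ∈ Ideal.span (Set.range x) := by rw [h]; trivial
    rw [Ideal.mem_span_range_iff_exists_fun] at this
    exact hx this
  obtain ⟨M, hM, hle⟩ := Ideal.exists_le_maximal _ h1
  have hMg : M = Ideal.span {Submodule.IsPrincipal.generator M} :=
    (Ideal.span_singleton_generator M).symm
  set g := Submodule.IsPrincipal.generator M with hg
  by_cases h0 : g = 0
  · refine ⟨2, Nat.prime_two, fun i => ?_⟩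
    have : x i ∈ M := hle (Ideal.subset_span ⟨i, rfl⟩)
    rw [hMg, h0, Ideal.mem_span_singleton, zero_dvd_iff] at this
    rw [this]; exact dvd_zero _
  · have hprime : Prime g := by
      have : M.IsPrime := hM.isPrime
      rw [hMg] at this
      exact (Ideal.span_singleton_prime h0).mp this
    refine ⟨g.natAbs, Int.prime_iff_natAbs_prime.mp hprime, fun i => ?_⟩
    have : x i ∈ M := hle (Ideal.subset_span ⟨i, rfl⟩)
    rw [hMg, Ideal.mem_span_singleton] at this
    exact Int.natAbs_dvd.mpr this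

end GenHP
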