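import Pool.Agent.Lib.MP_e426f4_ag.G.Defs
import Pool.Agent.Lib.MP_e426f4_ag.G.Basic
import Pool.Agent.Lib.MP_e426f4_ag.AP

/-! # Module G-NG2: few points are orthogonal to a short vector -/

namespace GenHP

open Finset

/-- The points of a box orthogonal to a fixed primitive vector. -/
theorem card_orth_box (n : ℕ) (B k : ℕ) (hk : 1 ≤ k) (hkB : k ≤ B) (l : Fin (n + 1) → ℤ)
    (a : Fin (n + 1)) (hla : |l a| = k) (hl : Prim l) :
    (((boxn n (2 * B)).filter (fun x => ∑ i, l i * x i = 0)).card : ℝ) * k ≤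
      5 ^ n * (B : ℝ) ^ n := by
  classical
  set S := (boxn n (2 * B)).filter (fun x => ∑ i, l i * x i = 0) with hS
  have hkR : (0 : ℝ) < k := by exact_mod_cast hk
  have hkZ : (0 : ℤ) < k := by exact_mod_cast hk
  have hkBR : (k : ℝ) ≤ B := by exact_mod_cast hkB
  have hkla : (k : ℤ) ∣ l a := by rw [← hla]; exact (abs_dvd_self (l a))
  have hla0 : l a ≠ 0 := by
    intro h
    rw [h, abs_zero] at hla
    omega
  -- residue classes
  let v : {i : Fin (n + 1) // i ≠ a} → ℤ := fun i => l i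
  obtain ⟨c, hc⟩ := hl
  have hv : ∃ c : {i : Fin (n + 1) // i ≠ a} → ℤ, IsCoprime (∑ i, c i * v i) (k : ℤ) := by
    refine ⟨fun i => c i, ?_⟩
    have h1 : ∑ i : {i : Fin (n + 1) // i ≠ a}, c i * v i = 1 - c a * l a := by
      have h3 : ∑ i ∈ univ.erase a, c i * l i = 1 - c a * l a := by
        rw [← hc, ← Finset.add_sum_erase univ (fun i => c i * l i) (mem_univ a)]
        ring
      rw [← h3]
      rw [Finset.sum_subtype (univ.erase a) (p := fun i => i ≠ a) (by simp)]
    rw [h1]
    obtain ⟨m, hm⟩ := hkla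
    refine ⟨1, c a * m, ?_⟩
    rw [hm]
    ring
  have hR := CubicHP.card_lin_congr_le k hk v hv 0
  set R := {A : {i : Fin (n + 1) // i ≠ a} → ℤ | (∀ i, 0 ≤ A i ∧ A i < k) ∧
    (k : ℤ) ∣ ∑ i, A i * v i - 0} with hRdef
  have hcard3 : Fintype.card {i : Fin (n + 1) // i ≠ a} = n := by
    rw [Fintype.card_subtype_compl, Fintype.card_subtype_eq]
    simp
  rw [hcard3] at hR
  have hRfin : R.Finite := by
    refine (Set.Finite.pi' (fun _ : {i : Fin (n + 1) // i ≠ a} => Set.finite_Icc (0 : ℤ) k)).subset ?_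
    intro A hA i
    exact ⟨(hA.1 i).1, (hA.1 i).2.le⟩
  let f : (Fin (n + 1) → ℤ) → ({i : Fin (n + 1) // i ≠ a} → ℤ) := fun x i => x i % k
  have himg : ∀ x ∈ S, f x ∈ R := by
    intro x hx
    rw [hS, mem_filter] at hx
    refine ⟨fun i => ⟨Int.emod_nonneg _ hkZ.ne', Int.emod_lt_of_pos _ hkZ⟩, ?_⟩
    rw [sub_zero]
    have h1 : ∑ i : {i : Fin (n + 1) // i ≠ a}, x i * v i = - (l a * x a) := by
      have h3 : ∑ i ∈ univ.erase a, l i * x i = - (l a * x a) := by
        have := Finset.add_sum_erase univ (fun i => l i * x i) (mem_univ a)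
        rw [hx.2] at this
        linarith
      rw [← h3, Finset.sum_subtype (univ.erase a) (p := fun i => i ≠ a) (by simp)]
      exact Finset.sum_congr rfl fun i _ => mul_comm _ _
    have h2 : (k : ℤ) ∣ ∑ i : {i : Fin (n + 1) // i ≠ a}, x i * v i := by
      rw [h1, dvd_neg]
      exact hkla.mul_right _
    have h3 : (k : ℤ) ∣ ∑ i : {i : Fin (n + 1) // i ≠ a}, x i * v i -
        ∑ i : {i : Fin (n + 1) // i ≠ a}, (f x i) * v i := by
      rw [← Finset.sum_sub_distrib]
      refine Finset.dvd_sum fun i _ => ?_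
      rw [← sub_mul]
      refine Dvd.dvd.mul_right ?_ _
      show (k : ℤ) ∣ x i - x i % k
      exact Int.dvd_self_sub_emod
    exact (dvd_sub_right h2).1 (by simpa using h3) |> fun h => by simpa using h
  -- fibres
  have hfib : ∀ r ∈ S.image f, ((S.filter (fun x => f x = r)).card : ℝ) ≤ (5 * B / k) ^ n := by
    intro r _
    let T : {i : Fin (n + 1) // i ≠ a} → Finset ℤ := fun i =>
      (Icc (-((2 * B : ℕ) : ℤ)) ((2 * B : ℕ) : ℤ)).filter (fun y => (k : ℤ) ∣ y - r i)
    have hT : ∀ i, ((T i).card : ℝ) ≤ 5 * B / k := by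
      intro i
      have h1 := CubicHP.ncard_AP (-(2 * B : ℝ)) (2 * B)
        (by nlinarith [(Nat.cast_nonneg B : (0 : ℝ) ≤ B)]) k hk (r i)
      have h2 : {x : ℤ | -(2 * B : ℝ) ≤ x ∧ (x : ℝ) ≤ 2 * B ∧ (k : ℤ) ∣ x - r i} = (T i : Set ℤ) := by
        ext y
        simp only [Set.mem_ofPred_eq, T, coe_filter, Finset.mem_Icc]
        constructor
        · rintro ⟨h1, h2, h3⟩
          refine ⟨⟨?_, ?_⟩, h3⟩
          · have : ((-((2 * B : ℕ) : ℤ) : ℤ) : ℝ) ≤ (y : ℝ) := by push_cast; linarith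
            exact_mod_cast this
          · have : (y : ℝ) ≤ (((2 * B : ℕ) : ℤ) : ℝ) := by push_cast; linarith
            exact_mod_cast this
        · rintro ⟨⟨h1, h2⟩, h3⟩
          refine ⟨?_, ?_, h3⟩
          · have : ((-((2 * B : ℕ) : ℤ) : ℤ) : ℝ) ≤ (y : ℝ) := by exact_mod_cast h1
            push_cast at this; linarith
          · have : (y : ℝ) ≤ (((2 * B : ℕ) : ℤ) : ℝ) := by exact_mod_cast h2
            push_cast at this; linarith
      rw [h2, Set.ncard_coe_finset] at h1
      refine h1.2.2.trans ?_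
      rw [div_add_one hkR.ne', div_le_div_iff_of_pos_right hkR]
      linarith
    have h1 : (S.filter (fun x => f x = r)).card ≤ (Fintype.piFinset T).card := by
      refine Finset.card_le_card_of_injOn (fun x i => x i) ?_ ?_
      · intro x hx
        rw [mem_coe, mem_filter] at hx
        rw [mem_coe, Fintype.mem_piFinset]
        intro i
        have h3 := (mem_filter.1 hx.1).1
        rw [mem_boxn] at h3
        have h4 := abs_le.1 (h3 i)
        rw [mem_filter, Finset.mem_Icc]
        refine ⟨⟨h4.1, h4.2⟩, ?_⟩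
        have h5 : x i % k = r i := congrFun hx.2 i
        rw [← h5]
        exact Int.dvd_self_sub_emod
      · intro x hx y hy hxy
        rw [mem_coe, mem_filter] at hx hy
        have h3 := (mem_filter.1 hx.1).2
        have h4 := (mem_filter.1 hy.1).2
        have h5 : ∀ i, i ≠ a → x i = y i := fun i hi => congrFun hxy ⟨i, hi⟩
        have h6 : x a = y a := by
          rw [← Finset.add_sum_erase univ (fun i => l i * x i) (mem_univ a)] at h3
          rw [← Finset.add_sum_erase univ (fun i => l i * y i) (mem_univ a)] at h4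
          have h7 : ∑ i ∈ univ.erase a, l i * x i = ∑ i ∈ univ.erase a, l i * y i := by
            refine Finset.sum_congr rfl fun i hi => ?_
            rw [h5 i (Finset.ne_of_mem_erase hi)]
          have h8 : l a * x a = l a * y a := by linarith
          exact mul_left_cancel₀ hla0 h8
        funext i
        by_cases hi : i = a
        · rw [hi]; exact h6
        · exact h5 i hi
    have h2 : ((Fintype.piFinset T).card : ℝ) ≤ (5 * B / k) ^ n := by
      rw [Fintype.card_piFinset]
      push_cast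
      calc ∏ i, ((T i).card : ℝ) ≤ ∏ _i : {i : Fin (n + 1) // i ≠ a}, (5 * B / k : ℝ) :=
            Finset.prod_le_prod (fun i _ => Nat.cast_nonneg _) (fun i _ => hT i)
        _ = (5 * B / k) ^ n := by rw [Finset.prod_const, Finset.card_univ, hcard3]
    exact (by exact_mod_cast h1 : ((S.filter (fun x => f x = r)).card : ℝ) ≤ _).trans h2
  have hsum : (S.card : ℝ) ≤ (S.image f).card * (5 * B / k) ^ n := by
    rw [Finset.card_eq_sum_card_image f S]
    push_cast
    calc ∑ r ∈ S.image f, ((S.filter (fun x => f x = r)).card : ℝ)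
        ≤ ∑ _r ∈ S.image f, ((5 * B / k : ℝ)) ^ n := Finset.sum_le_sum hfib
      _ = (S.image f).card * (5 * B / k) ^ n := by rw [Finset.sum_const, nsmul_eq_mul]
  have himc : (S.image f).card ≤ R.ncard := by
    rw [← Set.ncard_coe_finset]
    refine Set.ncard_le_ncard ?_ hRfin
    intro r hr
    rw [mem_coe, mem_image] at hr
    obtain ⟨x, hx, rfl⟩ := hr
    exact himg x hx
  have h9 : ((S.image f).card : ℝ) * k ≤ k ^ n := by
    have : ((S.image f).card : ℝ) ≤ R.ncard := by exact_mod_cast himc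
    have h2 : (R.ncard : ℝ) * k ≤ k ^ n := by exact_mod_cast hR
    nlinarith
  calc (S.card : ℝ) * k ≤ ((S.image f).card * (5 * B / k) ^ n) * k :=
        mul_le_mul_of_nonneg_right hsum hkR.le
    _ = ((S.image f).card * k) * (5 * B / k) ^ n := by ring
    _ ≤ k ^ n * (5 * B / k) ^ n := mul_le_mul_of_nonneg_right h9 (by positivity)
    _ = 5 ^ n * (B : ℝ) ^ n := by
        rw [← mul_pow, ← mul_pow]
        congr 1
        field_simp

/-- A nonzero integer vector is a positive multiple of a primitive one. -/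
theorem exists_prim_of_ne_zero {n : ℕ} (l : Fin (n + 1) → ℤ) (hl : l ≠ 0) :
    ∃ (g : ℤ) (l' : Fin (n + 1) → ℤ), 0 < g ∧ (∀ i, l i = g * l' i) ∧ Prim l' := by
  classical
  -- the ideal generated by the coordinates is principal
  let I : Ideal ℤ := Ideal.span (Set.range l)
  obtain ⟨g0, hg0⟩ := (IsPrincipalIdealRing.principal I).principal
  have hI : I = Ideal.span {g0} := hg0
  have hmem : ∀ i, l i ∈ Ideal.span {g0} := fun i => by
    rw [← hI]
    exact Ideal.subset_span ⟨i, rfl⟩
  have hg0ne : g0 ≠ 0 := by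
    intro h
    apply hl
    funext i
    have := hmem i
    rw [h, Ideal.mem_span_singleton, zero_dvd_iff] at this
    exact this
  have hgmem : g0 ∈ I := by rw [hI]; exact Ideal.mem_span_singleton_self g0
  have hc : ∃ c : Fin (n + 1) → ℤ, ∑ i, c i * l i = g0 := by
    have := (Submodule.mem_span_range_iff_exists_fun ℤ).1 hgmem
    simpa using this
  obtain ⟨c, hc⟩ := hc
  have hdvd : ∀ i, |g0| ∣ l i := fun i => by
    rw [abs_dvd]
    exact Ideal.mem_span_singleton.1 (hmem i)
  choose l' hl' using hdvd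
  refine ⟨|g0|, l', abs_pos.2 hg0ne, hl', ?_⟩
  have h1 : |g0| * ∑ i, c i * l' i = g0 := by
    rw [Finset.mul_sum, ← hc]
    refine Finset.sum_congr rfl fun i _ => ?_
    rw [hc, hl' i]
    ring
  rcases abs_choice g0 with h | h
  · refine ⟨c, ?_⟩
    rw [h] at h1
    exact mul_left_cancel₀ hg0ne (by rw [h1, mul_one])
  · refine ⟨fun i => - c i, ?_⟩
    rw [h] at h1
    have h2 : ∑ i, -c i * l' i = - ∑ i, c i * l' i := by
      rw [← Finset.sum_neg_distrib]
      exact Finset.sum_congr rfl fun i _ => by ring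
    rw [h2]
    apply mul_left_cancel₀ hg0ne
    linarith

/-- NG2 (CardShort.lean) -/
theorem card_short_le (n : ℕ) (hn : 1 ≤ n) : ∃ C : ℝ, 0 < C ∧ ∀ B Y : ℕ, Y ≤ B →
    (Set.ncard {x : Fin (n + 1) → ℤ | x ∈ boxn n (2 * B) ∧ ∃ l : Fin (n + 1) → ℤ, l ≠ 0 ∧
      (∀ i, |l i| ≤ Y) ∧ ∑ i, l i * x i = 0} : ℝ) ≤ C * (B : ℝ) ^ n * (Y : ℝ) ^ n := by
  classical
  refine ⟨((n : ℝ) + 1) * (2 * 15 ^ n), by positivity, ?_⟩
  intro B Y hY
  let L : Fin (n + 1) → ℕ → Finset (Fin (n + 1) → ℤ) := fun a k =>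
    (Fintype.piFinset (fun i => if i = a then ({(k : ℤ), -(k : ℤ)} : Finset ℤ)
      else Icc (-(k : ℤ)) k)).filter (fun l => Prim l)
  let U : Finset (Fin (n + 1) → ℤ) := univ.biUnion fun a => (Icc 1 Y).biUnion fun k =>
    (L a k).biUnion fun l => (boxn n (2 * B)).filter (fun x => ∑ i, l i * x i = 0)
  have hsub : {x : Fin (n + 1) → ℤ | x ∈ boxn n (2 * B) ∧ ∃ l : Fin (n + 1) → ℤ, l ≠ 0 ∧
      (∀ i, |l i| ≤ Y) ∧ ∑ i, l i * x i = 0} ⊆ (U : Set (Fin (n + 1) → ℤ)) := by
    rintro x ⟨hx, l, hl0, hlY, hlx⟩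
    -- divide by the gcd
    obtain ⟨g, l', hg, hgl, hprim⟩ := exists_prim_of_ne_zero l hl0
    have hl'x : ∑ i, l' i * x i = 0 := by
      have h1 : g * ∑ i, l' i * x i = 0 := by
        rw [Finset.mul_sum, ← hlx]
        exact Finset.sum_congr rfl fun i _ => by rw [hgl i]; ring
      exact (mul_eq_zero.1 h1).resolve_left hg.ne'
    have hl'Y : ∀ i, |l' i| ≤ Y := by
      intro i
      refine le_trans ?_ (hlY i)
      rw [hgl i, abs_mul, abs_of_pos hg]
      nlinarith [abs_nonneg (l' i)]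
    obtain ⟨a, -, ha⟩ := Finset.exists_max_image (univ : Finset (Fin (n + 1))) (fun i => |l' i|)
      ⟨0, mem_univ _⟩
    have hk0 : l' a ≠ 0 := by
      intro h0
      obtain ⟨c, hc⟩ := hprim
      have : ∀ i, l' i = 0 := by
        intro i
        have := ha i (mem_univ i)
        rw [h0, abs_zero] at this
        exact abs_nonpos_iff.1 this
      simp [this] at hc
    rw [mem_coe]
    simp only [U, mem_biUnion, mem_univ, true_and]
    refine ⟨a, (l' a).natAbs, ?_, l', ?_, ?_⟩
    · rw [Finset.mem_Icc]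
      have h1 := hl'Y a
      have h2 : 0 < |l' a| := abs_pos.2 hk0
      rw [Int.abs_eq_natAbs] at h1 h2
      omega
    · rw [mem_filter, Fintype.mem_piFinset]
      refine ⟨fun i => ?_, hprim⟩
      by_cases hi : i = a
      · rw [if_pos hi, hi]
        simp only [mem_insert, mem_singleton]
        omega
      · rw [if_neg hi, Finset.mem_Icc]
        have := ha i (mem_univ i)
        rw [Int.abs_eq_natAbs, Int.abs_eq_natAbs] at this
        omega
    · rw [mem_filter]
      exact ⟨hx, hl'x⟩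
  have hcardL : ∀ a k, 1 ≤ k → ((L a k).card : ℝ) ≤ 2 * 3 ^ n * (k : ℝ) ^ n := by
    intro a k hk
    have h1 : (L a k).card ≤ (Fintype.piFinset (fun i => if i = a then
        ({(k : ℤ), -(k : ℤ)} : Finset ℤ) else Icc (-(k : ℤ)) k)).card := card_filter_le _ _
    rw [Fintype.card_piFinset] at h1
    have h2 : ∏ i, ((if i = a then ({(k : ℤ), -(k : ℤ)} : Finset ℤ) else
        Icc (-(k : ℤ)) k).card) ≤ 2 * (3 * k) ^ n := by
      rw [← Finset.mul_prod_erase univ _ (mem_univ a)]
      refine Nat.mul_le_mul ?_ ?_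
      · rw [if_pos rfl]
        exact card_le_two
      · have h4 : (univ.erase a).card = n := by
          rw [card_erase_of_mem (mem_univ a), card_univ, Fintype.card_fin]
          omega
        calc ∏ i ∈ univ.erase a, ((if i = a then ({(k : ℤ), -(k : ℤ)} : Finset ℤ) else
              Icc (-(k : ℤ)) k).card) ≤ ∏ _i ∈ univ.erase a, (3 * k) := by
              refine Finset.prod_le_prod' fun i hi => ?_
              rw [if_neg (Finset.ne_of_mem_erase hi), Int.card_Icc]
              omega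
          _ = (3 * k) ^ n := by rw [Finset.prod_const, h4]
    have h3 : ((L a k).card : ℝ) ≤ ((2 * (3 * k) ^ n : ℕ) : ℝ) := by exact_mod_cast h1.trans h2
    refine h3.trans (le_of_eq ?_)
    push_cast
    rw [mul_pow]
    ring
  have h1 : (Set.ncard {x : Fin (n + 1) → ℤ | x ∈ boxn n (2 * B) ∧ ∃ l : Fin (n + 1) → ℤ, l ≠ 0 ∧
      (∀ i, |l i| ≤ Y) ∧ ∑ i, l i * x i = 0}) ≤ U.card := by
    rw [← Set.ncard_coe_finset]
    exact Set.ncard_le_ncard hsub (U.finite_toSet)
  have h2 : (U.card : ℝ) ≤ ∑ _a : Fin (n + 1), ∑ k ∈ Icc 1 Y, (2 * 3 ^ n * (k : ℝ) ^ n) *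
      (5 ^ n * (B : ℝ) ^ n / k) := by
    calc (U.card : ℝ) ≤ ((∑ a : Fin (n + 1), ((Icc 1 Y).biUnion fun k =>
          (L a k).biUnion fun l => (boxn n (2 * B)).filter
            (fun x => ∑ i, l i * x i = 0)).card : ℕ) : ℝ) := by
          exact_mod_cast card_biUnion_le
      _ = ∑ a : Fin (n + 1), ((((Icc 1 Y).biUnion fun k =>
          (L a k).biUnion fun l => (boxn n (2 * B)).filter
            (fun x => ∑ i, l i * x i = 0)).card : ℕ) : ℝ) := by
          push_cast; rfl
      _ ≤ _ := by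
          refine Finset.sum_le_sum fun a _ => ?_
          calc ((((Icc 1 Y).biUnion fun k =>
              (L a k).biUnion fun l => (boxn n (2 * B)).filter
                (fun x => ∑ i, l i * x i = 0)).card : ℕ) : ℝ) ≤
              ((∑ k ∈ Icc 1 Y, ((L a k).biUnion fun l => (boxn n (2 * B)).filter
                (fun x => ∑ i, l i * x i = 0)).card : ℕ) : ℝ) := by
                exact_mod_cast card_biUnion_le
            _ = ∑ k ∈ Icc 1 Y, ((((L a k).biUnion fun l => (boxn n (2 * B)).filter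
                (fun x => ∑ i, l i * x i = 0)).card : ℕ) : ℝ) := by push_cast; rfl
            _ ≤ _ := by
              refine Finset.sum_le_sum fun k hk => ?_
              rw [Finset.mem_Icc] at hk
              have hkR : (0 : ℝ) < k := by exact_mod_cast hk.1
              calc ((((L a k).biUnion fun l => (boxn n (2 * B)).filter
                  (fun x => ∑ i, l i * x i = 0)).card : ℕ) : ℝ) ≤
                  ((∑ l ∈ L a k, ((boxn n (2 * B)).filter
                    (fun x => ∑ i, l i * x i = 0)).card : ℕ) : ℝ) := by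
                    exact_mod_cast card_biUnion_le
                _ = ∑ l ∈ L a k, ((((boxn n (2 * B)).filter
                    (fun x => ∑ i, l i * x i = 0)).card : ℕ) : ℝ) := by push_cast; rfl
                _ ≤ ∑ _l ∈ L a k, (5 ^ n * (B : ℝ) ^ n / k) := by
                    refine Finset.sum_le_sum fun l hl => ?_
                    rw [mem_filter, Fintype.mem_piFinset] at hl
                    have h5 : |l a| = k := by
                      have := hl.1 a
                      rw [if_pos rfl] at this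
                      simp only [mem_insert, mem_singleton] at this
                      rcases this with h | h <;> rw [h] <;> simp
                    have h6 := card_orth_box n B k hk.1 (hk.2.trans hY) l a h5 hl.2
                    rw [le_div_iff₀ hkR]
                    exact h6
                _ = (L a k).card * (5 ^ n * (B : ℝ) ^ n / k) := by
                    rw [Finset.sum_const, nsmul_eq_mul]
                _ ≤ _ := mul_le_mul_of_nonneg_right (hcardL a k hk.1) (by positivity)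
  have h3 : ∑ _a : Fin (n + 1), ∑ k ∈ Icc 1 Y, (2 * 3 ^ n * (k : ℝ) ^ n) *
      (5 ^ n * (B : ℝ) ^ n / k) ≤ ((n : ℝ) + 1) * (2 * 15 ^ n) * (B : ℝ) ^ n * (Y : ℝ) ^ n := by
    rw [Finset.sum_const, card_univ, Fintype.card_fin, nsmul_eq_mul]
    have h5 : ∑ k ∈ Icc 1 Y, (2 * 3 ^ n * (k : ℝ) ^ n) * (5 ^ n * (B : ℝ) ^ n / k) ≤
        ∑ _k ∈ Icc 1 Y, (2 * 15 ^ n * (B : ℝ) ^ n * (Y : ℝ) ^ (n - 1)) := by
      refine Finset.sum_le_sum fun k hk => ?_
      rw [Finset.mem_Icc] at hk
      have hkR : (0 : ℝ) < k := by exact_mod_cast hk.1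
      have hkY : (k : ℝ) ≤ Y := by exact_mod_cast hk.2
      have h6 : (2 * 3 ^ n * (k : ℝ) ^ n) * (5 ^ n * (B : ℝ) ^ n / k) =
          2 * 15 ^ n * (B : ℝ) ^ n * (k : ℝ) ^ (n - 1) := by
        have h7 : (k : ℝ) ^ n = (k : ℝ) ^ (n - 1) * k := by
          rw [← pow_succ]
          congr 1
          omega
        have h8 : (15 : ℝ) ^ n = 3 ^ n * 5 ^ n := by rw [← mul_pow]; norm_num
        rw [h7, h8]
        field_simp
      rw [h6]
      gcongr
    rw [Finset.sum_const, Nat.card_Icc, nsmul_eq_mul] at h5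
    have h7 : ((Y + 1 - 1 : ℕ) : ℝ) = Y := by simp
    rw [h7] at h5
    have h8 : (Y : ℝ) ^ n = Y * (Y : ℝ) ^ (n - 1) := by
      rw [← pow_succ']
      congr 1
      omega
    push_cast
    calc ((n : ℝ) + 1) * ∑ k ∈ Icc 1 Y, (2 * 3 ^ n * (k : ℝ) ^ n) * (5 ^ n * (B : ℝ) ^ n / k) ≤
          ((n : ℝ) + 1) * (Y * (2 * 15 ^ n * (B : ℝ) ^ n * (Y : ℝ) ^ (n - 1))) :=
          mul_le_mul_of_nonneg_left h5 (by positivity)
      _ = ((n : ℝ) + 1) * (2 * 15 ^ n) * (B : ℝ) ^ n * (Y : ℝ) ^ n := by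
          rw [h8]
          ring
  calc (Set.ncard {x : Fin (n + 1) → ℤ | x ∈ boxn n (2 * B) ∧ ∃ l : Fin (n + 1) → ℤ, l ≠ 0 ∧
      (∀ i, |l i| ≤ Y) ∧ ∑ i, l i * x i = 0} : ℝ) ≤ U.card := by exact_mod_cast h1
    _ ≤ _ := h2.trans h3

end GenHP
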