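import Pool.Agent.Lib.MP_e426f4_ag.G.NotGood
import Pool.Agent.Lib.MP_e426f4_ag.G.CardShort

/-! Module G-NG3: most points are well-rounded. -/

namespace GenHP

open Finset

theorem few_not_good (n : ℕ) (hn : 2 ≤ n) (eps : ℝ) (heps : 0 < eps) :
    ∃ K0 : ℝ, 1 ≤ K0 ∧ ∀ K, K0 ≤ K → ∀ B : ℕ, 1 ≤ B →
      (Set.ncard {x : Fin (n + 1) → ℤ | x ∈ boxn n (2 * B) ∧ ¬ Good K B x} : ℝ) ≤
        eps * (B : ℝ) ^ (n + 1) := by
  obtain ⟨C, K1, hC, hK1, hshort⟩ := short_of_not_good n hn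
  obtain ⟨C', hC', hcard⟩ := card_short_le n (by omega)
  have hn2 : (2 : ℝ) ≤ n := by exact_mod_cast hn
  have hnne : (n : ℝ) ≠ 0 := by positivity
  have hn1 : (0 : ℝ) < (n : ℝ) - 1 := by linarith
  -- the threshold for `s = K^(1/(n-1))`
  obtain ⟨s0, hs01, hs0C, hs0e⟩ : ∃ s0 : ℝ, 1 ≤ s0 ∧ C ≤ s0 ∧ C' * C ^ n / eps ≤ s0 :=
    ⟨max 1 (max C (C' * C ^ n / eps)), le_max_left _ _,
      (le_max_left _ _).trans (le_max_right _ _), (le_max_right _ _).trans (le_max_right _ _)⟩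
  refine ⟨max K1 (s0 ^ ((n : ℝ) - 1)), hK1.trans (le_max_left _ _), ?_⟩
  intro K hK B hB
  have hKK1 : K1 ≤ K := (le_max_left _ _).trans hK
  have hKs : s0 ^ ((n : ℝ) - 1) ≤ K := (le_max_right _ _).trans hK
  have hK0 : (0 : ℝ) < K := by linarith
  have hs00 : 0 < s0 := by linarith
  obtain ⟨s, hs⟩ : ∃ s : ℝ, s = K ^ (1 / ((n : ℝ) - 1)) := ⟨_, rfl⟩
  have hss0 : s0 ≤ s := by
    rw [hs]
    have h1 : (s0 ^ ((n : ℝ) - 1)) ^ (1 / ((n : ℝ) - 1)) ≤ K ^ (1 / ((n : ℝ) - 1)) :=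
      Real.rpow_le_rpow (by positivity) hKs (by positivity)
    rwa [← Real.rpow_mul hs00.le, mul_one_div_cancel hn1.ne', Real.rpow_one] at h1
  have hs1 : 1 ≤ s := hs01.trans hss0
  have hs0 : 0 < s := by linarith
  have hBr : (1 : ℝ) ≤ (B : ℝ) := by exact_mod_cast hB
  obtain ⟨b, hb⟩ : ∃ b : ℝ, b = (B : ℝ) ^ (1 / (n : ℝ)) := ⟨_, rfl⟩
  have hbn : b ^ n = B := by
    rw [hb, ← Real.rpow_natCast, ← Real.rpow_mul (by linarith), one_div,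
      inv_mul_cancel₀ hnne, Real.rpow_one]
  have hb1 : 1 ≤ b := by
    rw [hb]
    exact Real.one_le_rpow hBr (by positivity)
  have hbB : b ≤ B := by
    rw [← hbn]
    calc b = b ^ 1 := (pow_one b).symm
      _ ≤ b ^ n := pow_le_pow_right₀ hb1 (by omega)
  obtain ⟨Y, hY⟩ : ∃ Y : ℕ, Y = ⌊C * b / s⌋₊ := ⟨_, rfl⟩
  have hY1 : (Y : ℝ) ≤ C * b / s := by rw [hY]; exact Nat.floor_le (by positivity)
  have hY2 : Y ≤ B := by
    have : (Y : ℝ) ≤ (B : ℝ) := by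
      refine hY1.trans ?_
      rw [div_le_iff₀ hs0]
      have : C ≤ s := hs0C.trans hss0
      calc C * b ≤ s * B := mul_le_mul this hbB (by positivity) hs0.le
        _ = B * s := mul_comm _ _
    exact_mod_cast this
  have hsub : {x : Fin (n + 1) → ℤ | x ∈ boxn n (2 * B) ∧ ¬ Good K B x} ⊆
      {x : Fin (n + 1) → ℤ | x ∈ boxn n (2 * B) ∧ ∃ l : Fin (n + 1) → ℤ, l ≠ 0 ∧
      (∀ i, |l i| ≤ Y) ∧ ∑ i, l i * x i = 0} := by
    rintro x ⟨hx, hg⟩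
    refine ⟨hx, ?_⟩
    have hx2 : ∀ i, |(x i : ℝ)| ≤ 2 * B := by
      intro i
      have := (mem_boxn.mp hx) i
      exact_mod_cast this
    obtain ⟨l, hl, hlx, hls⟩ := hshort K hKK1 B hB x hx2 hg
    refine ⟨l, hl, fun i => ?_, hlx⟩
    have h1 := hls i
    rw [← hs, ← hb] at h1
    have h2 : |(l i : ℝ)| ≤ C * b / s := by
      rw [le_div_iff₀ hs0]
      exact h1
    have h3 : ((l i).natAbs : ℝ) ≤ C * b / s := by
      rw [Nat.cast_natAbs, Int.cast_abs]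
      exact h2
    have h4 : (l i).natAbs ≤ Y := by
      rw [hY]
      exact Nat.le_floor h3
    rw [Int.abs_eq_natAbs]
    exact_mod_cast h4
  have hfin : {x : Fin (n + 1) → ℤ | x ∈ boxn n (2 * B) ∧ ∃ l : Fin (n + 1) → ℤ, l ≠ 0 ∧
      (∀ i, |l i| ≤ Y) ∧ ∑ i, l i * x i = 0}.Finite :=
    (boxn n (2 * B)).finite_toSet.subset fun _ h => h.1
  have h1 : (Set.ncard {x : Fin (n + 1) → ℤ | x ∈ boxn n (2 * B) ∧ ¬ Good K B x} : ℝ) ≤
      C' * (B : ℝ) ^ n * (Y : ℝ) ^ n :=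
    le_trans (by exact_mod_cast Set.ncard_le_ncard hsub hfin) (hcard B Y hY2)
  refine h1.trans ?_
  have h2 : (Y : ℝ) ^ n ≤ (C * b / s) ^ n := pow_le_pow_left₀ (by positivity) hY1 n
  have h3 : (C * b / s) ^ n = C ^ n * B / s ^ n := by
    rw [div_pow, mul_pow, hbn]
  rw [h3] at h2
  have h4 : C' * (B : ℝ) ^ n * (Y : ℝ) ^ n ≤ C' * (B : ℝ) ^ n * (C ^ n * B / s ^ n) :=
    mul_le_mul_of_nonneg_left h2 (by positivity)
  refine h4.trans ?_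
  have h5 : C' * (B : ℝ) ^ n * (C ^ n * B / s ^ n) = (C' * C ^ n / s ^ n) * (B : ℝ) ^ (n + 1) := by
    ring
  rw [h5]
  refine mul_le_mul_of_nonneg_right ?_ (by positivity)
  rw [div_le_iff₀ (by positivity)]
  have h6 : s ≤ s ^ n := by
    calc s = s ^ 1 := (pow_one s).symm
      _ ≤ s ^ n := pow_le_pow_right₀ hs1 (by omega)
  rw [div_le_iff₀ heps] at hs0e
  calc C' * C ^ n ≤ s0 * eps := hs0e
    _ ≤ s ^ n * eps := mul_le_mul_of_nonneg_right (hss0.trans h6) heps.le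
    _ = eps * s ^ n := by ring

end GenHP
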