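import Pool.Agent.Lib.MP_e426f4_ag.G.Alg

/-! p-adic counting for a fixed form of the class. -/

namespace GenHP

open Finset

theorem pc_F_congr {n d : ℕ} (N : ℤ) (A : Idx n d → ℤ) (x x' : Fin (n + 1) → ℤ)
    (hx : ∀ i, N ∣ x i - x' i) : N ∣ F A x - F A x' :=
  F_congr_mod N A A x x' (fun m => by simp) hx

/-- double counting: a periodic condition which holds exactly once on each segment -/
theorem pc_count {m : ℕ} (N L : ℕ) [NeZero N] [NeZero L] (good : (Fin m → ℤ) → Prop)
    (hper : ∀ v v' : Fin m → ℤ, (∀ i, (N : ℤ) ∣ v i - v' i) → good v → good v')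
    (h : Fin m → ℤ)
    (hone : ∀ v : Fin m → ℤ, ∃! c : ZMod L, good (fun i => v i + (c.val : ℤ) * h i)) :
    Set.ncard {u : Fin m → ZMod N | good (fun i => ((u i).val : ℤ))} * L = N ^ m := by
  classical
  have h1 : Set.ncard {u : Fin m → ZMod N | good (fun i => ((u i).val : ℤ))} =
      (univ.filter fun u : Fin m → ZMod N => good (fun i => ((u i).val : ℤ))).card := by
    rw [← Set.ncard_coe_finset]
    congr 1
    ext u
    simp
  rw [h1]
  have h2 : ∀ c : ZMod L,
      (univ.filter fun u : Fin m → ZMod N => good (fun i => ((u i).val : ℤ))).card =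
      (univ.filter fun u : Fin m → ZMod N =>
        good (fun i => ((u i).val : ℤ) + (c.val : ℤ) * h i)).card := by
    intro c
    symm
    refine Finset.card_bij (fun u _ => fun i => u i + (((c.val : ℤ) * h i : ℤ) : ZMod N)) ?_ ?_ ?_
    · intro u hu
      simp only [Finset.mem_filter, Finset.mem_univ, true_and] at hu ⊢
      refine hper _ _ (fun i => ?_) hu
      rw [← ZMod.intCast_eq_intCast_iff_dvd_sub]
      push_cast
      simp
    · intro u _ u' _ huu
      funext i
      have := congrFun huu i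
      simpa using this
    · intro u hu
      refine ⟨fun i => u i - (((c.val : ℤ) * h i : ℤ) : ZMod N), ?_, ?_⟩
      · simp only [Finset.mem_filter, Finset.mem_univ, true_and] at hu ⊢
        refine hper _ _ (fun i => ?_) hu
        rw [← ZMod.intCast_eq_intCast_iff_dvd_sub]
        push_cast
        simp
      · funext i
        simp
  have h3 : ∑ c : ZMod L, (univ.filter fun u : Fin m → ZMod N =>
        good (fun i => ((u i).val : ℤ) + (c.val : ℤ) * h i)).card = N ^ m := by
    simp only [Finset.card_filter]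
    rw [Finset.sum_comm]
    have h4 : ∀ u : Fin m → ZMod N,
        (∑ c : ZMod L, if good (fun i => ((u i).val : ℤ) + (c.val : ℤ) * h i) then 1 else 0) = 1 := by
      intro u
      obtain ⟨c, hc, hc2⟩ := hone (fun i => ((u i).val : ℤ))
      rw [Finset.sum_eq_single c]
      · rw [if_pos hc]
      · intro c' _ hne
        rw [if_neg]
        intro hg
        exact hne (hc2 c' hg)
      · intro hcn
        exact absurd (Finset.mem_univ c) hcn
    rw [Finset.sum_congr rfl fun u _ => h4 u]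
    simp [ZMod.card]
  rw [← h3, ← Finset.sum_congr rfl fun c _ => h2 c]
  simp [ZMod.card, mul_comm]

theorem padic_count {n d : ℕ} (P Q W : ℕ) (hW : 0 < W) (hP : 0 < P) (A0 : Idx n d → ℤ)
    (x0 : Fin (n + 1) → ℤ) (hH : Hens P Q W A0 x0) (s : ℕ) (hQ : Q ∣ W ^ s) (A : Idx n d → ℤ)
    (hA : ∀ m, (Q : ℤ) ∣ A m - A0 m) :
    Set.ncard {r : Fin (n + 1) → ℤ | (∀ i, 0 ≤ r i ∧ r i < (W : ℤ) ^ s) ∧
      (∀ i, (P : ℤ) ∣ r i - x0 i) ∧ ((W : ℤ) ^ s) ∣ F A r} * (P ^ (n + 1) * W ^ s) =
      (W ^ s) ^ (n + 1) * Q := by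
  classical
  obtain ⟨hPQ, -, hdiv, -, h, hspeed⟩ := hH
  have hM : 0 < W ^ s := pow_pos hW s
  have hMc : ((W : ℤ) ^ s) = ((W ^ s : ℕ) : ℤ) := by push_cast; rfl
  have hcopM : ∀ e : ℤ, IsCoprime e (W : ℤ) → IsCoprime e ((W ^ s : ℕ) : ℤ) := by
    intro e he
    rw [← hMc]
    exact he.pow_right
  rw [hMc]
  generalize W ^ s = M at hQ hM hcopM ⊢
  obtain ⟨L, hL⟩ := hQ
  obtain ⟨N, hN⟩ : P ∣ M := hPQ.trans ⟨L, hL⟩
  have hQ0 : 0 < Q := Nat.pos_of_ne_zero (by rintro rfl; simp at hL; omega)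
  have hL0 : 0 < L := Nat.pos_of_ne_zero (by rintro rfl; simp at hL; omega)
  have hN0 : 0 < N := Nat.pos_of_ne_zero (by rintro rfl; simp at hN; omega)
  have : NeZero L := ⟨hL0.ne'⟩
  have : NeZero N := ⟨hN0.ne'⟩
  set good : (Fin (n + 1) → ℤ) → Prop := fun v => (M : ℤ) ∣ F A (fun i => x0 i + P * v i) with hgood
  have hper : ∀ v v' : Fin (n + 1) → ℤ, (∀ i, (N : ℤ) ∣ v i - v' i) → good v → good v' := by
    intro v v' hv hg
    have h1 : (M : ℤ) ∣ F A (fun i => x0 i + P * v i) - F A (fun i => x0 i + P * v' i) := by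
      refine pc_F_congr _ _ _ _ fun i => ?_
      obtain ⟨k, hk⟩ := hv i
      refine ⟨k, ?_⟩
      rw [hN]
      push_cast
      linear_combination (P : ℤ) * hk
    have := dvd_sub hg h1
    simpa using this
  have hone : ∀ v : Fin (n + 1) → ℤ, ∃! c : ZMod L, good (fun i => v i + (c.val : ℤ) * h i) := by
    intro v
    have hdv : ∀ c : ZMod L, (Q : ℤ) ∣ F A (fun i => x0 i + P * (v i + (c.val : ℤ) * h i)) :=
      fun c => hdiv A hA _
    choose G hG using hdv
    have key : ∀ c c' : ZMod L, (L : ℤ) ∣ G c - G c' → c = c' := by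
      intro c c' hcc
      obtain ⟨e, he, hee⟩ := hspeed A hA (fun i => v i + (c'.val : ℤ) * h i)
        ((c.val : ℤ) - (c'.val : ℤ))
      have h1 : (fun i => x0 i + (P : ℤ) * ((v i + (c'.val : ℤ) * h i) +
          ((c.val : ℤ) - (c'.val : ℤ)) * h i)) =
          fun i => x0 i + (P : ℤ) * (v i + (c.val : ℤ) * h i) := by
        funext i
        ring
      have h2 : F A (fun i => x0 i + (P : ℤ) * (v i + (c.val : ℤ) * h i)) -
          F A (fun i => x0 i + (P : ℤ) * (v i + (c'.val : ℤ) * h i)) =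
          Q * ((c.val : ℤ) - (c'.val : ℤ)) * e := by
        rw [← hee, h1]
      rw [hG c, hG c'] at h2
      have hQ1 : (Q : ℤ) ≠ 0 := by exact_mod_cast hQ0.ne'
      have h3 : G c - G c' = ((c.val : ℤ) - (c'.val : ℤ)) * e := by
        apply mul_left_cancel₀ hQ1
        linear_combination h2
      have h4 : IsCoprime (L : ℤ) e := by
        refine ((hcopM e he).symm).of_isCoprime_of_dvd_left ?_
        rw [hL]
        push_cast
        exact dvd_mul_left _ _
      have h5 : (L : ℤ) ∣ (c.val : ℤ) - (c'.val : ℤ) := by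
        rw [h3] at hcc
        exact h4.dvd_of_dvd_mul_right hcc
      have h6 : ((c'.val : ℤ) : ZMod L) = ((c.val : ℤ) : ZMod L) :=
        (ZMod.intCast_eq_intCast_iff_dvd_sub _ _ _).mpr h5
      simpa using h6.symm
    have hinj : Function.Injective (fun c : ZMod L => ((G c : ℤ) : ZMod L)) := by
      intro c c' hcc
      refine (key c' c ?_).symm
      exact (ZMod.intCast_eq_intCast_iff_dvd_sub _ _ _).mp hcc
    have hsurj := Finite.surjective_of_injective hinj
    have hiff : ∀ c : ZMod L, good (fun i => v i + (c.val : ℤ) * h i) ↔ (L : ℤ) ∣ G c := by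
      intro c
      have hQ1 : (Q : ℤ) ≠ 0 := by exact_mod_cast hQ0.ne'
      simp only [hgood]
      rw [hG c, hL]
      push_cast
      exact mul_dvd_mul_iff_left hQ1
    obtain ⟨c, hc⟩ := hsurj 0
    have hc1 : (L : ℤ) ∣ G c := (ZMod.intCast_zmod_eq_zero_iff_dvd _ _).mp hc
    refine ⟨c, (hiff c).mpr hc1, fun c' hc' => ?_⟩
    exact key c' c (dvd_sub ((hiff c').mp hc') hc1)
  have hcount := pc_count N L good hper h hone
  have hcard : Set.ncard {r : Fin (n + 1) → ℤ | (∀ i, 0 ≤ r i ∧ r i < ((M : ℕ) : ℤ)) ∧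
      (∀ i, (P : ℤ) ∣ r i - x0 i) ∧ ((M : ℕ) : ℤ) ∣ F A r} =
      Set.ncard {u : Fin (n + 1) → ZMod N | good (fun i => ((u i).val : ℤ))} := by
    have hM1 : (0 : ℤ) < (M : ℤ) := by exact_mod_cast hM
    have hMN : (M : ℤ) = P * N := by rw [hN]; push_cast; ring
    symm
    refine Set.ncard_congr (fun u _ => fun i => (x0 i + P * ((u i).val : ℤ)) % (M : ℤ)) ?_ ?_ ?_
    · intro u hu
      have hmod : ∀ i, (M : ℤ) ∣ (x0 i + P * ((u i).val : ℤ)) % (M : ℤ) -
          (x0 i + P * ((u i).val : ℤ)) := by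
        intro i
        have h0 : (x0 i + P * ((u i).val : ℤ)) % (M : ℤ) ≡ x0 i + P * ((u i).val : ℤ)
            [ZMOD (M : ℤ)] := Int.mod_modEq _ _
        exact h0.symm.dvd
      refine ⟨fun i => ⟨Int.emod_nonneg _ hM1.ne', Int.emod_lt_of_pos _ hM1⟩, fun i => ?_, ?_⟩
      · have h1 : (P : ℤ) ∣ (x0 i + P * ((u i).val : ℤ)) % (M : ℤ) -
          (x0 i + P * ((u i).val : ℤ)) := (Dvd.intro _ hMN.symm).trans (hmod i)
        have h2 := dvd_add h1 (dvd_mul_right (P : ℤ) ((u i).val : ℤ))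
        have h3 : (x0 i + P * ((u i).val : ℤ)) % (M : ℤ) - (x0 i + P * ((u i).val : ℤ)) +
            P * ((u i).val : ℤ) = (x0 i + P * ((u i).val : ℤ)) % (M : ℤ) - x0 i := by ring
        rwa [h3] at h2
      · have h1 := pc_F_congr (M : ℤ) A _ _ hmod
        have h2 := dvd_add h1 hu
        simpa using h2
    · intro u u' _ _ huu
      funext i
      have h1 := congrFun huu i
      have h2 : (M : ℤ) ∣ (x0 i + P * ((u' i).val : ℤ)) - (x0 i + P * ((u i).val : ℤ)) :=
        Int.ModEq.dvd h1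
      have h3 : (N : ℤ) ∣ ((u' i).val : ℤ) - ((u i).val : ℤ) := by
        have hP1 : (P : ℤ) ≠ 0 := by exact_mod_cast hP.ne'
        rw [hMN] at h2
        have h4 : (x0 i + P * ((u' i).val : ℤ)) - (x0 i + P * ((u i).val : ℤ)) =
            P * (((u' i).val : ℤ) - ((u i).val : ℤ)) := by ring
        rw [h4] at h2
        exact (mul_dvd_mul_iff_left hP1).mp h2
      have h6 : (((u i).val : ℤ) : ZMod N) = (((u' i).val : ℤ) : ZMod N) :=
        (ZMod.intCast_eq_intCast_iff_dvd_sub _ _ _).mpr h3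
      simpa using h6
    · intro r hr
      obtain ⟨hr1, hr2, hr3⟩ := hr
      choose k hk using hr2
      have hval : ∀ i, (((k i : ZMod N)).val : ℤ) = k i % N := fun i => ZMod.val_intCast (k i)
      have hmod : ∀ i, (x0 i + P * ((((k i : ZMod N)).val : ℕ) : ℤ)) % (M : ℤ) = r i := by
        intro i
        have h1 : (x0 i + P * ((((k i : ZMod N)).val : ℕ) : ℤ)) ≡ r i [ZMOD (M : ℤ)] := by
          rw [hval i, Int.modEq_iff_dvd]
          refine ⟨k i / N, ?_⟩
          have h2 := Int.emod_add_mul_ediv (k i) N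
          rw [hMN]
          linear_combination hk i - (P : ℤ) * h2
        have h2 : (x0 i + P * ((((k i : ZMod N)).val : ℕ) : ℤ)) % (M : ℤ) = r i % (M : ℤ) := h1
        rw [h2]
        exact Int.emod_eq_of_lt (hr1 i).1 (hr1 i).2
      refine ⟨fun i => (k i : ZMod N), ?_, funext hmod⟩
      show (M : ℤ) ∣ F A (fun i => x0 i + P * ((((k i : ZMod N)).val : ℕ) : ℤ))
      have h1 : (M : ℤ) ∣ F A (fun i => x0 i + P * ((((k i : ZMod N)).val : ℕ) : ℤ)) - F A r := by
        refine pc_F_congr _ _ _ _ fun i => ?_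
        conv_rhs => rw [← hmod i]
        rw [← Int.emod_add_mul_ediv (x0 i + P * ((((k i : ZMod N)).val : ℕ) : ℤ)) (M : ℤ)]
        simp
      have h2 := dvd_add h1 hr3
      simpa using h2
  rw [hcard]
  have hfin : Set.ncard {u : Fin (n + 1) → ZMod N | good (fun i => ((u i).val : ℤ))} * (P ^ (n + 1) * M) =
      (Set.ncard {u : Fin (n + 1) → ZMod N | good (fun i => ((u i).val : ℤ))} * L) * (P ^ (n + 1) * Q) := by
    rw [hL]
    ring
  rw [hfin, hcount, hN]
  ring

end GenHP
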