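import Pool.Agent.Lib.MP_e426f4_ag.G.Basic

/-! Auxiliary facts for the first moment (all degrees and dimensions). -/

namespace GenHP

open Finset Filter Topology

theorem ncard_pairs_eq {α β : Type*} (C : Set α) (hC : C.Finite) (S : Set β) (hS : S.Finite)
    (p : α → β → Prop) :
    ((Set.ncard {q : α × β | q.1 ∈ C ∧ q.2 ∈ S ∧ p q.1 q.2} : ℕ) : ℝ) =
      ∑ A ∈ hC.toFinset, ((Set.ncard {x : β | x ∈ S ∧ p A x} : ℕ) : ℝ) := by
  classical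
  have e1 : Set.ncard {q : α × β | q.1 ∈ C ∧ q.2 ∈ S ∧ p q.1 q.2} =
      ((hC.toFinset ×ˢ hS.toFinset).filter (fun q => p q.1 q.2)).card := by
    rw [← Set.ncard_coe_finset]
    congr 1
    ext q
    simp only [Finset.coe_filter, Finset.mem_product, Set.mem_ofPred_eq, Set.Finite.mem_toFinset]
    tauto
  have e2 : ∀ A, Set.ncard {x : β | x ∈ S ∧ p A x} = (hS.toFinset.filter (fun x => p A x)).card := by
    intro A
    rw [← Set.ncard_coe_finset]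
    congr 1
    ext q
    simp only [Finset.coe_filter, Set.mem_ofPred_eq, Set.Finite.mem_toFinset]
  rw [e1, Finset.card_filter]
  push_cast
  rw [Finset.sum_product]
  refine Finset.sum_congr rfl fun A _ => ?_
  rw [e2, Finset.card_filter]
  push_cast
  rfl

theorem le_ncard_pairs {α β : Type*} (C : Set α) (hC : C.Finite) (S : Set β) (hS : S.Finite)
    (p : α → β → Prop) (a : ℝ)
    (h : ∀ A ∈ C, a ≤ ((Set.ncard {x : β | x ∈ S ∧ p A x} : ℕ) : ℝ)) :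
    (C.ncard : ℝ) * a ≤ ((Set.ncard {q : α × β | q.1 ∈ C ∧ q.2 ∈ S ∧ p q.1 q.2} : ℕ) : ℝ) := by
  rw [ncard_pairs_eq C hC S hS p, Set.ncard_eq_toFinset_card C hC, ← nsmul_eq_mul]
  exact Finset.card_nsmul_le_sum _ _ _ fun A hA => h A ((Set.Finite.mem_toFinset hC).1 hA)

theorem ncard_pairs_le {α β : Type*} (C : Set α) (hC : C.Finite) (S : Set β) (hS : S.Finite)
    (p : α → β → Prop) (b : ℝ)
    (h : ∀ A ∈ C, ((Set.ncard {x : β | x ∈ S ∧ p A x} : ℕ) : ℝ) ≤ b) :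
    ((Set.ncard {q : α × β | q.1 ∈ C ∧ q.2 ∈ S ∧ p q.1 q.2} : ℕ) : ℝ) ≤ (C.ncard : ℝ) * b := by
  rw [ncard_pairs_eq C hC S hS p, Set.ncard_eq_toFinset_card C hC, ← nsmul_eq_mul]
  exact Finset.sum_le_card_nsmul _ _ _ fun A hA => h A ((Set.Finite.mem_toFinset hC).1 hA)

theorem Lev_pos (n d : ℕ) (th : ℝ) (M : ℕ) (H : ℝ) : 0 < Lev n d th M H := by
  unfold Lev
  positivity

theorem Lev_upper (n d : ℕ) (eps th : ℝ) (hth : 0 ≤ th) (M : ℕ) (H : ℝ) (hH : 0 ≤ H)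
    (hy : 1 ≤ eps * (2 * (th * H * (Bf n d H : ℝ) ^ d / M))) :
    Lev n d th M H ≤ (1 + eps) * (2 * (th * H * (Bf n d H : ℝ) ^ d / M)) := by
  have h1 : (⌊th * H * (Bf n d H : ℝ) ^ d / M⌋₊ : ℝ) ≤ th * H * (Bf n d H : ℝ) ^ d / M :=
    Nat.floor_le (by positivity)
  unfold Lev
  linarith

theorem Lev_lower (n d : ℕ) (eps th : ℝ) (M : ℕ) (H : ℝ)
    (hy : 1 ≤ eps * (2 * (th * H * (Bf n d H : ℝ) ^ d / M))) :
    (1 - eps) * (2 * (th * H * (Bf n d H : ℝ) ^ d / M)) ≤ Lev n d th M H := by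
  have h1 : th * H * (Bf n d H : ℝ) ^ d / M < (⌊th * H * (Bf n d H : ℝ) ^ d / M⌋₊ : ℝ) + 1 :=
    Nat.lt_floor_add_one _
  unfold Lev
  linarith

variable {n d : ℕ}

/-- `T' = T * 2 θ H B^d / M` -/
theorem main_term_eq (p : Par n d) (hdn : d ≤ n) (th : ℝ) (s : ℕ) (H : ℝ) (hH : 0 < H)
    (hW : 0 < p.W) :
    Vol n p.gam p.kap th (Bf n d H) * p.Q / ((p.P : ℝ) ^ (n + 1) * (p.W : ℝ) ^ s) =
      2 * (th * H * (Bf n d H : ℝ) ^ d / (p.W : ℝ) ^ s) * p.TT H := by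
  have hW' : (0 : ℝ) < p.W := by exact_mod_cast hW
  have hB : (Bf n d H : ℝ) ^ (n + 1) = (Bf n d H : ℝ) ^ d * (Bf n d H : ℝ) ^ (n + 1 - d) := by
    rw [← pow_add]
    congr 1
    omega
  have h2 : (2 : ℝ) ^ (n + 1) = 2 * 2 ^ n := by ring
  unfold Vol Par.TT
  rw [hB, h2]
  by_cases hg : |p.gam| = 0
  · rw [hg]
    simp
  by_cases hP : (p.P : ℝ) = 0
  · rw [hP]
    simp
  field_simp

theorem near_Ainf (p : Par n d) (eps bet : ℝ) (w : ℕ) (hp : p.Valid eps bet w) (r H : ℝ)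
    (hH0 : 0 ≤ H) (hr : r ≤ 2 * p.rho) (A : Idx n d → ℤ) (hA : A ∈ p.Cl r H) :
    ∀ m, |(A m : ℝ) - H * p.Ainf m| ≤ 3 * p.rho * H := by
  intro m
  have h1 := hA.1 m
  have h2 := hp.AC_near m
  calc |(A m : ℝ) - H * p.Ainf m| = |((A m : ℝ) - H * p.AC m) + H * (p.AC m - p.Ainf m)| := by
        ring_nf
    _ ≤ |(A m : ℝ) - H * p.AC m| + |(H : ℝ) * (p.AC m - p.Ainf m)| := abs_add_le _ _
    _ = |(A m : ℝ) - H * p.AC m| + H * |p.AC m - p.Ainf m| := by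
        rw [abs_mul, abs_of_nonneg hH0]
    _ ≤ r * H + H * p.rho := add_le_add h1 (mul_le_mul_of_nonneg_left h2 hH0)
    _ ≤ 3 * p.rho * H := by nlinarith

theorem one_sub_le_pow (N : ℕ) (hN : 0 < N) (e : ℝ) (he1 : e ≤ 1) :
    1 - e ≤ (1 - e / N) ^ N := by
  have hN' : (1 : ℝ) ≤ N := by exact_mod_cast hN
  have hN0 : (0 : ℝ) < N := by linarith
  have h1 : e / N ≤ 1 := by
    rw [div_le_one hN0]
    linarith
  have := one_add_mul_le_pow (a := -(e / N)) (by linarith) N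
  have e1 : 1 + -(e / N) = 1 - e / N := by ring
  have e2 : (N : ℝ) * -(e / N) = -e := by field_simp
  rw [e1, e2] at this
  linarith

theorem pow_le_quad (N : ℕ) (hN : 0 < N) (e : ℝ) (he : 0 < e) (he1 : e ≤ 1) :
    (1 + e / N) ^ N ≤ 1 + e + e ^ 2 := by
  have hN0 : (0 : ℝ) < N := by exact_mod_cast hN
  have h2 : 1 + e / N ≤ Real.exp (e / N) := by
    have := Real.add_one_le_exp (e / N)
    linarith
  have h3 : (1 + e / N) ^ N ≤ Real.exp (e / N) ^ N := pow_le_pow_left₀ (by positivity) h2 N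
  rw [← Real.exp_nat_mul] at h3
  have h4 : (N : ℝ) * (e / N) = e := by field_simp
  rw [h4] at h3
  have h5 := Real.abs_exp_sub_one_sub_id_le (x := e) (by rw [abs_of_pos he]; linarith)
  rw [abs_le] at h5
  linarith

/-- `1 ≤ ε · 2 y` for large `H`. -/
theorem one_le_eps_y (th eps : ℝ) (hth : 0 < th) (he : 0 < eps) (W s : ℕ) (hW : 0 < W) (H : ℝ)
    (hH0 : 0 < H) (hB1 : (1 : ℝ) ≤ Bf n d H) (hH2 : (W : ℝ) ^ s / (2 * th * eps) ≤ H) :
    1 ≤ eps * (2 * (th * H * (Bf n d H : ℝ) ^ d / ((W ^ s : ℕ) : ℝ))) := by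
  have hW' : (0 : ℝ) < W := by exact_mod_cast hW
  have hB3 : (1 : ℝ) ≤ (Bf n d H : ℝ) ^ d := one_le_pow₀ hB1
  push_cast
  rw [div_le_iff₀ (by positivity)] at hH2
  have h1 : (W : ℝ) ^ s ≤ H * (Bf n d H : ℝ) ^ d * (2 * th * eps) := by
    calc (W : ℝ) ^ s ≤ H * (2 * th * eps) := hH2
      _ = H * 1 * (2 * th * eps) := by ring
      _ ≤ H * (Bf n d H : ℝ) ^ d * (2 * th * eps) := by gcongr
  have h2 : eps * (2 * (th * H * (Bf n d H : ℝ) ^ d / (W : ℝ) ^ s)) =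
      H * (Bf n d H : ℝ) ^ d * (2 * th * eps) / (W : ℝ) ^ s := by ring
  rw [h2, one_le_div (by positivity)]
  exact h1

end GenHP
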