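import Pool.Agent.Lib.MP_e426f4_ag.G.TLin

/-! Module G-SPAN1: forms vanishing at a point are spanned by products with a factor orthogonal to the point. -/

namespace GenHP

open Finset

section SPAN
variable {n d : ℕ}

/-- `n` independent vectors orthogonal to `x ≠ 0` span the orthogonal space -/
theorem mem_span_of_ortho (x : Fin (n + 1) → ℝ) (hx : x ≠ 0) (l : Fin n → Fin (n + 1) → ℝ)
    (hl : LinearIndependent ℝ l) (hlx : ∀ k, ∑ i, l k i * x i = 0) (u : Fin (n + 1) → ℝ)
    (hu : ∑ i, u i * x i = 0) : u ∈ Submodule.span ℝ (Set.range l) := by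
  set φ : (Fin (n + 1) → ℝ) →ₗ[ℝ] ℝ :=
    { toFun := fun u => ∑ i, u i * x i
      map_add' := fun u v => by
        rw [← Finset.sum_add_distrib]
        exact Finset.sum_congr rfl fun i _ => by rw [Pi.add_apply]; ring
      map_smul' := fun c u => by
        rw [RingHom.id_apply, smul_eq_mul, Finset.mul_sum]
        exact Finset.sum_congr rfl fun i _ => by rw [Pi.smul_apply, smul_eq_mul]; ring } with hφ
  have hle : Submodule.span ℝ (Set.range l) ≤ LinearMap.ker φ := by
    rw [Submodule.span_le]
    rintro _ ⟨k, rfl⟩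
    exact hlx k
  have hsurj : LinearMap.range φ = ⊤ := by
    rw [LinearMap.range_eq_top]
    obtain ⟨j, hj⟩ := Function.ne_iff.mp hx
    rw [Pi.zero_apply] at hj
    intro c
    refine ⟨Pi.single j (c / x j), ?_⟩
    show ∑ i, (Pi.single j (c / x j) : Fin (n + 1) → ℝ) i * x i = c
    rw [Finset.sum_eq_single j]
    · rw [Pi.single_eq_same]
      field_simp
    · intro i _ hi
      rw [Pi.single_eq_of_ne hi, zero_mul]
    · simp
  have h1 := φ.finrank_range_add_finrank_ker
  rw [hsurj, finrank_top, Module.finrank_self, Module.finrank_fin_fun] at h1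
  have h2 : Module.finrank ℝ (Submodule.span ℝ (Set.range l)) = n := by
    rw [finrank_span_eq_card hl]
    simp
  have heq := Submodule.eq_of_le_of_finrank_eq hle (by omega)
  rw [heq]
  exact hu

theorem eq_sum_smul_single (m : Fin (n + 1) → ℝ) :
    m = ∑ b, m b • (Pi.single b (1 : ℝ) : Fin (n + 1) → ℝ) := by
  funext i
  simp [Finset.sum_apply, Pi.single_apply]

/-- a multilinear map with values in a submodule on the standard basis has values in the submodule -/
theorem mem_of_basis {m : ℕ} (f : MultilinearMap ℝ (fun _ : Fin m => Fin (n + 1) → ℝ) (Idx n d → ℝ))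
    (S : Submodule ℝ (Idx n d → ℝ))
    (h : ∀ c : Fin m → Fin (n + 1), f (fun i => Pi.single (c i) 1) ∈ S)
    (N : Fin m → Fin (n + 1) → ℝ) : f N ∈ S := by
  have e : f N = f (fun i => ∑ b, N i b • (Pi.single b (1 : ℝ) : Fin (n + 1) → ℝ)) := by
    congr 1
    funext i
    exact eq_sum_smul_single (N i)
  rw [e, MultilinearMap.map_sum]
  refine Submodule.sum_mem _ fun r _ => ?_
  rw [MultilinearMap.map_smul_univ]
  exact Submodule.smul_mem _ _ (h r)

theorem dot_single' (z : Fin (n + 1) → ℝ) (a : Fin (n + 1)) :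
    ∑ i, (Pi.single a (1 : ℝ) : Fin (n + 1) → ℝ) i * z i = z a := by
  rw [Finset.sum_eq_single a]
  · simp
  · intro i _ hi
    simp [hi]
  · simp

theorem mon_mk_aux {R : Type*} [CommRing R] (x : Fin (n + 1) → R) (c : Fin d → Fin (n + 1)) :
    mon x (mk c).1 = ∏ i, x (c i) := by
  unfold mon mk
  simp only
  rw [← Finset.prod_fiberwise' (univ : Finset (Fin d)) c x]
  refine Finset.prod_congr rfl fun j _ => ?_
  rw [Finset.prod_const]

/-- the value of a monomial -/
theorem mon_eq_prod_choose {R : Type*} [CommRing R] (x : Fin (n + 1) → R) (t : Idx n d) :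
    mon x t.1 = ∏ i, x ((exists_mk t).choose i) := by
  conv_lhs => rw [← (exists_mk t).choose_spec]
  exact mon_mk_aux x _

/-- if one of the factors is orthogonal to `x`, then `T M` vanishes at `x` -/
theorem F_T_eq_zero {R : Type*} [CommRing R] (l : Fin d → Fin (n + 1) → R) (x : Fin (n + 1) → R) (i : Fin d)
    (h : ∑ a, l i a * x a = 0) : F (T l) x = 0 := by
  have key : F (T l) x = ∏ i, ∑ a, l i a * x a := by
    unfold F T
    simp only [Finset.sum_mul]
    rw [Finset.sum_comm, Finset.prod_univ_sum, Fintype.piFinset_univ]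
    refine Finset.sum_congr rfl fun c _ => ?_
    rw [Finset.sum_eq_single (mk c)]
    · rw [if_pos rfl, Finset.prod_mul_distrib]
      rw [mon_mk_aux]
    · intro t _ ht
      rw [if_neg (Ne.symm ht), zero_mul]
    · simp
  rw [key]
  exact Finset.prod_eq_zero (Finset.mem_univ i) h

/-- G-SPAN1 -/
theorem span_single (hd : 1 ≤ d) (x : Fin (n + 1) → ℤ) (hx : x ≠ 0) (mu : ℝ) (hmu : 1 ≤ mu)
    (hg : Ortho mu x) :
    ∃ g : Fin n × (Fin (d - 1) → Fin (n + 1)) → Idx n d → ℤ, (∀ q, F (g q) x = 0) ∧
      (∀ q m, |(g q m : ℝ)| ≤ ((n : ℝ) + 1) * mu) ∧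
      ∀ A : Idx n d → ℝ, F A (fun i => (x i : ℝ)) = 0 →
        ∃ r : Fin n × (Fin (d - 1) → Fin (n + 1)) → ℝ, ∀ m, A m = ∑ q, r q * (g q m : ℝ) := by
  obtain ⟨m, rfl⟩ : ∃ m, d = m + 1 := ⟨d - 1, by omega⟩
  obtain ⟨l, hl, hlx, hlmu⟩ := hg
  set xr : Fin (n + 1) → ℝ := fun i => (x i : ℝ) with hxr
  set lr : Fin n → Fin (n + 1) → ℝ := fun k i => (l k i : ℝ) with hlr
  have hlrx : ∀ k, ∑ i, lr k i * xr i = 0 := by
    intro k
    have := hlx k
    have h2 : ((∑ i, l k i * x i : ℤ) : ℝ) = 0 := by rw [this]; simp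
    push_cast at h2
    exact h2
  have hxr0 : xr ≠ 0 := by
    intro h0
    apply hx
    funext i
    have := congrFun h0 i
    simpa [hxr] using this
  set g : Fin n × (Fin m → Fin (n + 1)) → Idx n (m + 1) → ℤ := fun q =>
    T (Fin.cons (l q.1) (fun i => Pi.single (q.2 i) 1) : Fin (m + 1) → Fin (n + 1) → ℤ) with hg
  have hcast : ∀ q, (fun t => ((g q t : ℤ) : ℝ)) =
      T (Fin.cons (lr q.1) (fun i => Pi.single (q.2 i) 1) : Fin (m + 1) → Fin (n + 1) → ℝ) := by
    intro q
    funext t
    rw [hg]
    simp only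
    rw [← T_cast]
    congr 1
    funext i
    refine Fin.cases ?_ (fun j => ?_) i
    · simp [hlr]
    · funext a
      simp only [Fin.cons_succ]
      by_cases ha : a = q.2 j
      · subst ha; simp
      · rw [Pi.single_eq_of_ne ha, Pi.single_eq_of_ne ha]; simp
  refine ⟨g, ?_, ?_, ?_⟩
  · intro q
    refine F_T_eq_zero _ x 0 ?_
    rw [Fin.cons_zero]
    exact hlx q.1
  · intro q t
    have h1 := congrFun (hcast q) t
    rw [h1]
    refine (T_abs_le _ t).trans ?_
    rw [Fin.prod_univ_succ]
    simp only [Fin.cons_zero, Fin.cons_succ]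
    have h2 : ∀ j : Fin m, ∑ a, |(Pi.single (q.2 j) (1 : ℝ) : Fin (n + 1) → ℝ) a| = 1 := by
      intro j
      rw [Finset.sum_eq_single (q.2 j)]
      · simp
      · intro a _ ha
        rw [Pi.single_eq_of_ne ha, abs_zero]
      · simp
    rw [Finset.prod_congr rfl fun j _ => h2 j, Finset.prod_const_one, mul_one]
    calc ∑ a, |lr q.1 a| ≤ ∑ _a : Fin (n + 1), mu := Finset.sum_le_sum fun a _ => hlmu q.1 a
      _ = ((n : ℝ) + 1) * mu := by simp
  · intro A hA
    set S : Submodule ℝ (Idx n (m + 1) → ℝ) :=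
      Submodule.span ℝ (Set.range fun q => fun t => ((g q t : ℤ) : ℝ)) with hS
    have h1 : ∀ (k : Fin n) (N : Fin m → Fin (n + 1) → ℝ),
        (TM n (m + 1) ℝ).curryLeft (lr k) N ∈ S := by
      intro k N
      refine mem_of_basis _ S (fun c => ?_) N
      refine Submodule.subset_span ⟨(k, c), ?_⟩
      simp only
      rw [hcast (k, c)]
      rfl
    have h2 : ∀ u : Fin (n + 1) → ℝ, ∑ i, u i * xr i = 0 → ∀ N : Fin m → Fin (n + 1) → ℝ,
        (TM n (m + 1) ℝ).curryLeft u N ∈ S := by
      intro u hu N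
      have hu' := mem_span_of_ortho xr hxr0 lr hl hlrx u hu
      clear hu
      induction hu' using Submodule.span_induction with
      | mem v hv =>
        obtain ⟨k, rfl⟩ := hv
        exact h1 k N
      | zero => simp
      | add v w _ _ hv hw =>
        rw [map_add, add_apply]
        exact Submodule.add_mem _ hv hw
      | smul c v _ hv =>
        rw [map_smul, smul_apply]
        exact Submodule.smul_mem _ _ hv
    have h3 : ∀ (M : Fin (m + 1) → Fin (n + 1) → ℝ) (i : Fin (m + 1)), ∑ a, M i a * xr a = 0 →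
        T M ∈ S := by
      intro M i hi
      have e : T M = T (fun j => M (Equiv.swap 0 i j)) := (T_perm M (Equiv.swap 0 i)).symm
      rw [e]
      have h4 := h2 (M i) hi (fun j => M (Equiv.swap 0 i j.succ))
      rw [MultilinearMap.curryLeft_apply, TM_apply] at h4
      have e2 : (Fin.cons (M i) (fun j => M (Equiv.swap 0 i j.succ)) : Fin (m + 1) → Fin (n + 1) → ℝ) =
          fun j => M (Equiv.swap 0 i j) := by
        funext j
        refine Fin.cases ?_ (fun j => ?_) j
        · simp
        · simp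
      rw [e2] at h4
      exact h4
    obtain ⟨i0, hi0⟩ := Function.ne_iff.mp hxr0
    rw [Pi.zero_apply] at hi0
    set L : Fin (n + 1) → ℝ := (xr i0)⁻¹ • Pi.single i0 1 with hL
    have hdotL : ∑ i, L i * xr i = 1 := by
      have : ∑ i, L i * xr i = (xr i0)⁻¹ * ∑ i, (Pi.single i0 (1 : ℝ) : Fin (n + 1) → ℝ) i * xr i := by
        rw [Finset.mul_sum]
        exact Finset.sum_congr rfl fun i _ => by rw [hL, Pi.smul_apply, smul_eq_mul]; ring
      rw [this, dot_single']
      exact inv_mul_cancel₀ hi0
    have hkey : ∀ M : Fin (m + 1) → Fin (n + 1) → ℝ,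
        T M - (∏ i, ∑ a, M i a * xr a) • T (fun _ => L) ∈ S := by
      intro M
      set w : Fin (m + 1) → Fin 2 → (Fin (n + 1) → ℝ) := fun i =>
        ![(∑ a, M i a * xr a) • L, M i - (∑ a, M i a * xr a) • L] with hw
      have hsum : ∀ i, M i = ∑ r, w i r := by
        intro i
        rw [Fin.sum_univ_two, hw]
        simp
      have e : T M = ∑ r : Fin (m + 1) → Fin 2, T (fun i => w i (r i)) := by
        have := MultilinearMap.map_sum (TM n (m + 1) ℝ) w
        simp only [TM_apply] at this
        rw [← this]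
        congr 1
        funext i
        exact hsum i
      have e0 : T (fun i => w i 0) = (∏ i, ∑ a, M i a * xr a) • T (fun _ => L) := by
        have := MultilinearMap.map_smul_univ (TM n (m + 1) ℝ) (fun i => ∑ a, M i a * xr a) (fun _ => L)
        simp only [TM_apply] at this
        rw [← this]
        rfl
      rw [e, ← Finset.add_sum_erase _ _ (Finset.mem_univ (fun _ => (0 : Fin 2)))]
      rw [e0, add_sub_cancel_left]
      refine Submodule.sum_mem _ fun r hr => ?_
      obtain ⟨i, hi⟩ := Function.ne_iff.mp (Finset.ne_of_mem_erase hr)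
      have hi1 : r i = 1 := by omega
      refine h3 _ i ?_
      rw [hi1, hw]
      simp only [Matrix.cons_val_one, Matrix.cons_val_fin_one]
      have : ∑ a, (M i - (∑ a, M i a * xr a) • L) a * xr a =
          ∑ a, M i a * xr a - (∑ a, M i a * xr a) * ∑ a, L a * xr a := by
        rw [Finset.mul_sum, ← Finset.sum_sub_distrib]
        exact Finset.sum_congr rfl fun a _ => by rw [Pi.sub_apply, Pi.smul_apply, smul_eq_mul]; ring
      rw [this, hdotL, mul_one, sub_self]
    have hAS : A ∈ S := by
      have e : A = ∑ t : Idx n (m + 1), A t • (T (fun i => Pi.single ((exists_mk t).choose i) (1 : ℝ)) -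
          mon xr t.1 • T (fun _ => L)) := by
        have h5 : ∑ t : Idx n (m + 1), A t • (T (fun i => Pi.single ((exists_mk t).choose i) (1 : ℝ)) -
            mon xr t.1 • T (fun _ => L)) =
            ∑ t : Idx n (m + 1), A t • T (fun i => Pi.single ((exists_mk t).choose i) (1 : ℝ)) -
              (F A xr) • T (fun _ => L) := by
          unfold F
          rw [Finset.sum_smul, ← Finset.sum_sub_distrib]
          refine Finset.sum_congr rfl fun t _ => ?_
          rw [smul_sub, smul_smul]
        rw [h5, hA, zero_smul, sub_zero]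
        exact eq_sum_T A
      rw [e]
      refine Submodule.sum_mem _ fun t _ => Submodule.smul_mem _ _ ?_
      have h6 := hkey (fun i => Pi.single ((exists_mk t).choose i) (1 : ℝ))
      simp only [dot_single'] at h6
      rw [mon_eq_prod_choose]
      exact h6
    obtain ⟨r, hr⟩ := (Submodule.mem_span_range_iff_exists_fun ℝ).mp hAS
    refine ⟨r, fun t => ?_⟩
    rw [← hr, Finset.sum_apply]
    exact Finset.sum_congr rfl fun q _ => by rw [Pi.smul_apply, smul_eq_mul]

end SPAN

end GenHP
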