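import Pool.Agent.Lib.MP_e426f4_ag.G.Minors
import Pool.Agent.Lib.MP_e426f4_ag.G.Span1

/-! Module B1: short vectors for one point. -/

namespace GenHP

open Finset

variable {n d : ℕ}

/-- `F` is linear in the coefficient vector. -/
theorem F_sub_sum {R : Type*} [CommRing R] {ι : Type*} [Fintype ι] (V : ι → Idx n d → R)
    (t0 : Idx n d → R) (c : ι → R) (y : Fin (n + 1) → R) :
    F (fun m => t0 m - ∑ i, c i * V i m) y = F t0 y - ∑ i, c i * F (V i) y := by
  simp only [F, sub_mul, Finset.sum_sub_distrib, Finset.sum_mul, Finset.mul_sum]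
  congr 1
  rw [Finset.sum_comm]
  refine Finset.sum_congr rfl fun i _ => Finset.sum_congr rfl fun t _ => ?_
  ring

/-- rounding along a finite family of integer vectors -/
theorem round_family {ι : Type*} [Fintype ι] (V : ι → Idx n d → ℤ) (b : ℝ)
    (hV : ∀ i m, |(V i m : ℝ)| ≤ b) (t0 : Idx n d → ℤ) (tR : Idx n d → ℝ) (r : ι → ℝ)
    (h : ∀ m, (t0 m : ℝ) - tR m = ∑ i, r i * V i m) :
    ∃ t : Idx n d → ℤ, (∀ y : Fin (n + 1) → ℤ, (∀ i, F (V i) y = 0) → F t y = F t0 y) ∧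
      ∀ m, |(t m : ℝ)| ≤ |tR m| + Fintype.card ι * b := by
  refine ⟨fun m => t0 m - ∑ i, ⌊r i⌋ * V i m, ?_, ?_⟩
  · intro y hy
    rw [F_sub_sum, Finset.sum_eq_zero, sub_zero]
    intro i _
    rw [hy i, mul_zero]
  · intro m
    have h1 : ((t0 m - ∑ i, ⌊r i⌋ * V i m : ℤ) : ℝ) = tR m + ∑ i, Int.fract (r i) * V i m := by
      have h2 := h m
      push_cast
      simp only [Int.fract, sub_mul, Finset.sum_sub_distrib]
      linarith
    rw [h1]
    refine (abs_add_le _ _).trans ?_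
    gcongr
    refine (Finset.abs_sum_le_sum_abs _ _).trans ?_
    calc ∑ i, |Int.fract (r i) * (V i m : ℝ)| ≤ ∑ _i : ι, b := by
          refine Finset.sum_le_sum fun i _ => ?_
          rw [abs_mul, abs_of_nonneg (Int.fract_nonneg _)]
          calc Int.fract (r i) * |(V i m : ℝ)| ≤ 1 * |(V i m : ℝ)| := by
                gcongr
                exact (Int.fract_lt_one _).le
            _ ≤ b := by rw [one_mul]; exact hV i m
      _ = Fintype.card ι * b := by
          rw [Finset.sum_const, Finset.card_univ, nsmul_eq_mul]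

/-- the difference of an integer and a real coefficient vector -/
theorem F_cast_sub (t : Idx n d → ℤ) (u : Idx n d → ℝ) (z : Fin (n + 1) → ℤ) :
    F (fun m => ((t m : ℤ) : ℝ) - u m) (fun i => (z i : ℝ)) =
      ((F t z : ℤ) : ℝ) - F u (fun i => (z i : ℝ)) := by
  rw [← F_cast]
  simp only [F, sub_mul, Finset.sum_sub_distrib]

theorem card_fin_fun (n k : ℕ) : Fintype.card (Fin k → Fin (n + 1)) = (n + 1) ^ k := by
  simp

theorem short_single {n d : ℕ} (hd : 1 ≤ d) (B : ℕ) (hB : 1 ≤ B) (x : Fin (n + 1) → ℤ)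
    (hx : Prim x) (mu : ℝ) (hmu : 1 ≤ mu) (hg : Ortho mu x) (i0 : Fin (n + 1))
    (hi0 : (B : ℝ) / 2 ≤ |(x i0 : ℝ)|) (s : ℤ) :
    ∃ t : Idx n d → ℤ, F t x = s ∧
      ∀ m, |(t m : ℝ)| ≤ 2 ^ d * |(s : ℝ)| / (B : ℝ) ^ d + c1 n d * mu := by
  obtain ⟨c, hc⟩ := hx
  have hBpos : (0 : ℝ) < B := by exact_mod_cast hB
  have hx0 : (x i0 : ℝ) ≠ 0 := by
    intro h
    rw [h, abs_zero] at hi0
    linarith
  have hxne : x ≠ 0 := by
    intro h
    apply hx0
    rw [h]
    simp
  obtain ⟨g, hg0, hgm, hgs⟩ := span_single hd x hxne mu hmu hg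
  set tR : Idx n d → ℝ := Pi.single (mk fun _ => i0) ((s : ℝ) / (x i0 : ℝ) ^ d) with htR
  have hRx : F tR (fun i => (x i : ℝ)) = s := by
    rw [htR, F_single, mon_mk]
    simp only [Finset.prod_const, Finset.card_univ, Fintype.card_fin]
    field_simp
  have hTx : F (fun m => s * T (fun _ : Fin d => c) m) x = s := by
    rw [F_smul, F_T, hc]
    simp
  obtain ⟨r, hr⟩ := hgs (fun m => (((fun m => s * T (fun _ : Fin d => c) m : Idx n d → ℤ) m : ℤ) : ℝ)
    - tR m) (by rw [F_cast_sub, hRx, hTx, sub_self])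
  obtain ⟨t, ht1, ht2⟩ := round_family g (((n : ℝ) + 1) * mu) hgm
    (fun m => s * T (fun _ : Fin d => c) m) tR r hr
  refine ⟨t, ?_, fun m => (ht2 m).trans ?_⟩
  · rw [ht1 x hg0, hTx]
  · have h1 : |tR m| ≤ 2 ^ d * |(s : ℝ)| / (B : ℝ) ^ d := by
      rw [htR]
      by_cases hm : m = mk fun _ => i0
      · subst hm
        rw [Pi.single_eq_same, abs_div, abs_pow, div_le_div_iff₀ (by positivity) (by positivity)]
        have h2 : (B : ℝ) ^ d ≤ 2 ^ d * |(x i0 : ℝ)| ^ d := by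
          rw [← mul_pow]
          gcongr
          linarith
        calc |(s : ℝ)| * (B : ℝ) ^ d ≤ |(s : ℝ)| * (2 ^ d * |(x i0 : ℝ)| ^ d) := by gcongr
          _ = _ := by ring
      · rw [Pi.single_eq_of_ne hm, abs_zero]
        positivity
    have h2 : (Fintype.card (Fin n × (Fin (d - 1) → Fin (n + 1))) : ℝ) =
        n * ((n : ℝ) + 1) ^ (d - 1) := by
      rw [Fintype.card_prod, card_fin_fun]
      simp
    rw [h2, c1]
    linarith

end GenHP
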