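import Pool.Agent.Lib.MP_e426f4_ag.G.Minors

/-! Module BF: the height function and the points of a class. -/

namespace GenHP

open Finset Filter Topology

theorem Bf_le (n d : ℕ) {H : ℝ} (hH : 0 ≤ H) : (Bf n d H : ℝ) ≤ H ^ cc n d :=
  Nat.floor_le (Real.rpow_nonneg hH _)

theorem lt_Bf_add_one (n d : ℕ) (H : ℝ) : H ^ cc n d < (Bf n d H : ℝ) + 1 :=
  Nat.lt_floor_add_one _

theorem one_div_lt (n d : ℕ) (hn : 3 ≤ n) (hdn : d ≤ n) :
    1 ≤ (n : ℝ) + 1 - d ∧ 0 < 1 / ((n : ℝ) + 1 - d) ∧ 1 / ((n : ℝ) + 1 - d) < (n : ℝ) / 2 := by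
  have h1 : (d : ℝ) ≤ n := by exact_mod_cast hdn
  have h3 : (3 : ℝ) ≤ n := by exact_mod_cast hn
  have h2 : 1 ≤ (n : ℝ) + 1 - d := by linarith
  refine ⟨h2, by positivity, ?_⟩
  have : 1 / ((n : ℝ) + 1 - d) ≤ 1 := by
    rw [div_le_one (by linarith)]
    exact h2
  linarith

theorem cc_pos (n d : ℕ) (hn : 3 ≤ n) (hd : 2 ≤ d) (hdn : d ≤ n) : 0 < cc n d := by
  obtain ⟨_, h1, h2⟩ := one_div_lt n d hn hdn
  unfold cc
  linarith

theorem cc_mul_gt (n d : ℕ) (hn : 3 ≤ n) (hdn : d ≤ n) :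
    1 < cc n d * ((n + 1 - d : ℕ) : ℝ) := by
  obtain ⟨h0, h1, h2⟩ := one_div_lt n d hn hdn
  have e : ((n + 1 - d : ℕ) : ℝ) = (n : ℝ) + 1 - d := by
    rw [Nat.cast_sub (by omega)]
    push_cast
    ring
  rw [e]
  have h3 : 1 / ((n : ℝ) + 1 - d) < cc n d := by
    unfold cc
    linarith
  rwa [div_lt_iff₀ (by linarith)] at h3

theorem cc_lt (n d : ℕ) (hn : 3 ≤ n) (hdn : d ≤ n) : cc n d * (2 / (n : ℝ)) < 1 := by
  obtain ⟨h0, h1, h2⟩ := one_div_lt n d hn hdn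
  have h3 : (3 : ℝ) ≤ n := by exact_mod_cast hn
  have h4 : cc n d < (n : ℝ) / 2 := by
    unfold cc
    linarith
  calc cc n d * (2 / (n : ℝ)) < (n : ℝ) / 2 * (2 / (n : ℝ)) :=
        mul_lt_mul_of_pos_right h4 (by positivity)
    _ = 1 := by field_simp

theorem Bf_ge_half (n d : ℕ) (hn : 3 ≤ n) (hd : 2 ≤ d) (hdn : d ≤ n) :
    ∀ᶠ H : ℝ in atTop, H ^ cc n d / 2 ≤ (Bf n d H : ℝ) := by
  filter_upwards [(tendsto_rpow_atTop (cc_pos n d hn hd hdn)).eventually_ge_atTop 2] with H hH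
  have := lt_Bf_add_one n d H
  linarith

theorem Bf_tendsto (n d : ℕ) (hn : 3 ≤ n) (hd : 2 ≤ d) (hdn : d ≤ n) :
    Tendsto (fun H : ℝ => (Bf n d H : ℝ) ^ (n + 1 - d) / H) atTop atTop := by
  set k : ℕ := n + 1 - d with hk
  have h1 : Tendsto (fun H : ℝ => (1 / 2 : ℝ) ^ k * H ^ (cc n d * k - 1)) atTop atTop := by
    refine Tendsto.const_mul_atTop (by positivity) (tendsto_rpow_atTop ?_)
    have := cc_mul_gt n d hn hdn
    rw [← hk] at this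
    linarith
  refine tendsto_atTop_mono' _ ?_ h1
  filter_upwards [Bf_ge_half n d hn hd hdn, eventually_gt_atTop 0] with H hH hH0
  rw [le_div_iff₀ hH0]
  have h2 : H ^ (cc n d * k - 1) * H = (H ^ cc n d) ^ k := by
    rw [← Real.rpow_natCast (H ^ cc n d) k, ← Real.rpow_mul hH0.le]
    nth_rewrite 2 [← Real.rpow_one H]
    rw [← Real.rpow_add hH0]
    congr 1
    ring
  calc (1 / 2 : ℝ) ^ k * H ^ (cc n d * k - 1) * H = (1 / 2 : ℝ) ^ k * (H ^ (cc n d * k - 1) * H) := by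
        ring
    _ = (H ^ cc n d / 2) ^ k := by
        rw [h2, ← mul_pow]
        congr 1
        ring
    _ ≤ (Bf n d H : ℝ) ^ k := pow_le_pow_left₀ (by positivity) hH k

theorem Bf_atTop (n d : ℕ) (hn : 3 ≤ n) (hd : 2 ≤ d) (hdn : d ≤ n) :
    Tendsto (fun H : ℝ => Bf n d H) atTop atTop := by
  rw [← tendsto_natCast_atTop_iff (R := ℝ)]
  have h1 : Tendsto (fun H : ℝ => H ^ cc n d / 2) atTop atTop :=
    (tendsto_rpow_atTop (cc_pos n d hn hd hdn)).atTop_div_const (by norm_num)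
  exact tendsto_atTop_mono' _ (Bf_ge_half n d hn hd hdn) h1

theorem Bf_small (n d : ℕ) (hn : 3 ≤ n) (hd : 2 ≤ d) (hdn : d ≤ n) (c : ℝ) :
    ∀ᶠ H : ℝ in atTop, c * (Bf n d H : ℝ) ^ (2 / (n : ℝ)) ≤ H := by
  have h0 := cc_lt n d hn hdn
  have h1 : Tendsto (fun H : ℝ => H ^ (1 - cc n d * (2 / (n : ℝ)))) atTop atTop :=
    tendsto_rpow_atTop (by linarith)
  filter_upwards [h1.eventually_ge_atTop |c|, eventually_gt_atTop 0] with H hH hH0
  have h2 : (Bf n d H : ℝ) ^ (2 / (n : ℝ)) ≤ H ^ (cc n d * (2 / (n : ℝ))) := by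
    calc (Bf n d H : ℝ) ^ (2 / (n : ℝ)) ≤ (H ^ cc n d) ^ (2 / (n : ℝ)) :=
          Real.rpow_le_rpow (by positivity) (Bf_le n d hH0.le) (by positivity)
      _ = H ^ (cc n d * (2 / (n : ℝ))) := by
        rw [← Real.rpow_mul hH0.le]
  calc c * (Bf n d H : ℝ) ^ (2 / (n : ℝ)) ≤ |c| * (Bf n d H : ℝ) ^ (2 / (n : ℝ)) :=
        mul_le_mul_of_nonneg_right (le_abs_self c) (by positivity)
    _ ≤ H ^ (1 - cc n d * (2 / (n : ℝ))) * H ^ (cc n d * (2 / (n : ℝ))) :=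
        mul_le_mul hH h2 (by positivity) (by positivity)
    _ = H := by
      rw [← Real.rpow_add hH0]
      norm_num

theorem mem_XX_bounds {n d : ℕ} (p : Par n d) (eps bet : ℝ) (w : ℕ) (hp : p.Valid eps bet w)
    (B : ℕ) (x : Fin (n + 1) → ℤ) (hx : x ∈ p.XX B) :
    ∀ i, |(x i : ℝ)| ≤ 2 * B ∧ (|p.xi i| = 1 → (B : ℝ) / 2 ≤ |(x i : ℝ)|) := by
  intro i
  have h1 := hx.1 i
  have hk1 := hp.kap_pos
  have hk2 := hp.kap_le
  have hB : (0 : ℝ) ≤ B := by positivity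
  have h2 : |(x i : ℝ) - B * p.xi i| ≤ 1 / 10 * B := by
    refine h1.trans (mul_le_mul_of_nonneg_right ?_ hB)
    split_ifs
    · exact hk2
    · nlinarith
  have h3 : |(B : ℝ) * p.xi i| = B * |p.xi i| := by
    rw [abs_mul, abs_of_nonneg hB]
  constructor
  · have h4 : |(x i : ℝ)| ≤ |(x i : ℝ) - B * p.xi i| + |(B : ℝ) * p.xi i| := by
      have := abs_add_le ((x i : ℝ) - B * p.xi i) (B * p.xi i)
      simpa using this
    rw [h3] at h4
    have := mul_le_mul_of_nonneg_left (hp.xi_le i) hB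
    linarith
  · intro h
    have h4 : |(B : ℝ) * p.xi i| ≤ |(x i : ℝ) - B * p.xi i| + |(x i : ℝ)| := by
      have := abs_sub_abs_le_abs_sub ((B : ℝ) * p.xi i) (x i)
      rw [abs_sub_comm] at this
      linarith
    rw [h3, h] at h4
    linarith

theorem dl_pos_of_mem_GG {n d : ℕ} (p : Par n d) (eps bet : ℝ) (w : ℕ) (hp : p.Valid eps bet w)
    (K : ℝ) (B : ℕ) (hB : 1 ≤ B) (x y : Fin (n + 1) → ℤ) (hx : x ∈ p.GG K B) (hy : y ∈ p.GG K B)
    (h : x ≠ y) : 0 < dl x y := by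
  refine dl_pos x y hx.2.1 hy.2.1 (Ne.symm h) ?_
  intro hyx
  obtain ⟨i, hi⟩ := hp.xi_eq
  have hB' : (1 : ℝ) ≤ B := by exact_mod_cast hB
  have hk1 := hp.kap_pos
  have hk2 := hp.kap_le
  have hk : (if i = p.j then p.kap else p.kap ^ 2) ≤ 1 / 10 := by
    split_ifs
    · exact hk2
    · nlinarith
  have h1 := (hx.1.1 i).trans (mul_le_mul_of_nonneg_right hk (by positivity))
  have h2 := (hy.1.1 i).trans (mul_le_mul_of_nonneg_right hk (by positivity))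
  rw [hyx] at h2
  rw [abs_le] at h1 h2
  simp only [Pi.neg_apply, Int.cast_neg] at h2
  rcases (abs_eq (by norm_num : (0 : ℝ) ≤ 1)).mp hi with h3 | h3 <;> rw [h3] at h1 h2 <;>
    linarith [h1.1, h1.2, h2.1, h2.2]

end GenHP
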