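import Pool.Agent.Lib.MP_e426f4_ag.G.Alg
import Pool.Agent.Lib.MP_e426f4_ag.G.ShortOne
import Pool.Agent.Lib.MP_e426f4_ag.G.Heights

/-! Module TR: translation inequalities for pairs (form, point). -/

namespace GenHP

open Finset Filter Topology

/-- A short form of the class `0 (mod Q)` with a prescribed value at a well-rounded point. -/
theorem short_level {n d : ℕ} (p : Par n d) (eps bet : ℝ) (w : ℕ) (hp : p.Valid eps bet w) (K : ℝ)
    (hK : 1 ≤ K) (th : ℝ) (hth : 0 < th) :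
    ∀ᶠ H : ℝ in atTop, ∀ x ∈ p.GG K (Bf n d H), ∀ s : ℤ, (p.Q : ℤ) ∣ s →
      |(s : ℝ)| ≤ th * H * (Bf n d H : ℝ) ^ d →
      ∃ t : Idx n d → ℤ, F t x = s ∧ (∀ m, (p.Q : ℤ) ∣ t m) ∧
        ∀ m, |(t m : ℝ)| ≤ (2 ^ d + 1) * th * H := by
  have hn := hp.n_ge
  have hd := hp.d_ge
  have hdn := hp.d_le
  have h1 := Bf_small n d hn hd hdn (c1 n d * p.Q * K / th)
  have h2 := (Bf_atTop n d hn hd hdn).eventually_ge_atTop 1
  filter_upwards [h1, h2, eventually_gt_atTop 0] with H h1 hB1 hH0 x hx s hs hsb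
  have hB1r : (1 : ℝ) ≤ Bf n d H := by exact_mod_cast hB1
  obtain ⟨s', rfl⟩ := hs
  obtain ⟨i0, hi0⟩ := hp.xi_eq
  have hxb := (mem_XX_bounds p eps bet w hp (Bf n d H) x hx.1 i0).2 hi0
  have hn0 : (0 : ℝ) < n := by exact_mod_cast (by omega : 0 < n)
  have hmu : 1 ≤ K * (Bf n d H : ℝ) ^ (1 / (n : ℝ)) := by
    have : 1 ≤ (Bf n d H : ℝ) ^ (1 / (n : ℝ)) := Real.one_le_rpow hB1r (by positivity)
    nlinarith
  obtain ⟨t, ht, htb⟩ := short_single (by omega : 1 ≤ d) (Bf n d H) hB1 x hx.2.1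
    (K * (Bf n d H : ℝ) ^ (1 / (n : ℝ))) hmu hx.2.2 i0 hxb s'
  have hQ0 : (0 : ℝ) < p.Q := by exact_mod_cast hp.Q_pos
  have hc1 : 0 ≤ c1 n d := by unfold c1; positivity
  refine ⟨fun m => p.Q * t m, ?_, fun m => Dvd.intro _ rfl, fun m => ?_⟩
  · rw [F_smul, ht]
  · have hB0 : (0 : ℝ) < (Bf n d H : ℝ) ^ d := by positivity
    have h5 : (p.Q : ℝ) * |(s' : ℝ)| ≤ th * H * (Bf n d H : ℝ) ^ d := by
      have : |(((p.Q : ℤ) * s' : ℤ) : ℝ)| = (p.Q : ℝ) * |(s' : ℝ)| := by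
        push_cast
        rw [abs_mul, Nat.abs_cast]
      rw [← this]
      exact hsb
    have h6 : (p.Q : ℝ) * (2 ^ d * |(s' : ℝ)| / (Bf n d H : ℝ) ^ d) ≤ 2 ^ d * th * H := by
      have : (p.Q : ℝ) * (2 ^ d * |(s' : ℝ)| / (Bf n d H : ℝ) ^ d) =
          2 ^ d * ((p.Q : ℝ) * |(s' : ℝ)|) / (Bf n d H : ℝ) ^ d := by ring
      rw [this, div_le_iff₀ hB0]
      have := mul_le_mul_of_nonneg_left h5 (by positivity : (0 : ℝ) ≤ 2 ^ d)
      linarith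
    have h7 : (Bf n d H : ℝ) ^ (1 / (n : ℝ)) ≤ (Bf n d H : ℝ) ^ (2 / (n : ℝ)) :=
      Real.rpow_le_rpow_of_exponent_le hB1r (by gcongr; norm_num)
    have h8 : (p.Q : ℝ) * (c1 n d * (K * (Bf n d H : ℝ) ^ (1 / (n : ℝ)))) ≤ th * H := by
      have h9 : c1 n d * p.Q * K / th * (Bf n d H : ℝ) ^ (2 / (n : ℝ)) * th ≤ H * th :=
        mul_le_mul_of_nonneg_right h1 hth.le
      have h10 : c1 n d * p.Q * K / th * (Bf n d H : ℝ) ^ (2 / (n : ℝ)) * th =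
          c1 n d * p.Q * K * (Bf n d H : ℝ) ^ (2 / (n : ℝ)) := by
        field_simp
      rw [h10] at h9
      have h11 : c1 n d * (p.Q : ℝ) * K * (Bf n d H : ℝ) ^ (1 / (n : ℝ)) ≤
          c1 n d * p.Q * K * (Bf n d H : ℝ) ^ (2 / (n : ℝ)) :=
        mul_le_mul_of_nonneg_left h7 (by positivity)
      linarith
    push_cast
    rw [abs_mul, Nat.abs_cast]
    calc (p.Q : ℝ) * |(t m : ℝ)| ≤
        p.Q * (2 ^ d * |(s' : ℝ)| / (Bf n d H : ℝ) ^ d +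
          c1 n d * (K * (Bf n d H : ℝ) ^ (1 / (n : ℝ)))) :=
          mul_le_mul_of_nonneg_left (htb m) hQ0.le
      _ = p.Q * (2 ^ d * |(s' : ℝ)| / (Bf n d H : ℝ) ^ d) +
          p.Q * (c1 n d * (K * (Bf n d H : ℝ) ^ (1 / (n : ℝ)))) := mul_add _ _ _
      _ ≤ (2 ^ d + 1) * th * H := by linarith

/-- the levels: `k` with `|M k| ≤ X` -/
theorem level_iff (X : ℝ) (hX : 0 ≤ X) (M : ℕ) (hM : 0 < M) (k : ℤ) :
    k ∈ Icc (-(⌊X / M⌋₊ : ℤ)) (⌊X / M⌋₊ : ℤ) ↔ |(((M : ℤ) * k : ℤ) : ℝ)| ≤ X := by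
  have hM0 : (0 : ℝ) < M := by exact_mod_cast hM
  rw [Finset.mem_Icc, ← abs_le]
  push_cast
  rw [abs_mul, Nat.abs_cast]
  have h0 : 0 ≤ X / M := by positivity
  constructor
  · intro h
    have h1 : ((|k| : ℤ) : ℝ) ≤ (⌊X / M⌋₊ : ℝ) := by exact_mod_cast h
    have h2 := h1.trans (Nat.floor_le h0)
    rw [le_div_iff₀ hM0] at h2
    push_cast at h2
    linarith
  · intro h
    have h1 : |(k : ℝ)| ≤ X / M := by
      rw [le_div_iff₀ hM0]
      linarith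
    have h2 : ((k.natAbs : ℕ) : ℝ) ≤ X / M := by
      rw [Nat.cast_natAbs]
      push_cast
      exact h1
    have h3 := Nat.le_floor h2
    have h4 : (k.natAbs : ℤ) ≤ (⌊X / M⌋₊ : ℤ) := by exact_mod_cast h3
    rwa [Int.natCast_natAbs] at h4

theorem Lev_eq (n d : ℕ) (th : ℝ) (M : ℕ) (H : ℝ) : Lev n d th M H =
    ((Icc (-(⌊th * H * (Bf n d H : ℝ) ^ d / M⌋₊ : ℤ)) (⌊th * H * (Bf n d H : ℝ) ^ d / M⌋₊ : ℤ)).card : ℝ) := by
  rw [Int.card_Icc, Lev]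
  have : ((⌊th * H * (Bf n d H : ℝ) ^ d / M⌋₊ : ℤ) + 1 - -(⌊th * H * (Bf n d H : ℝ) ^ d / M⌋₊ : ℤ)) =
      ((2 * ⌊th * H * (Bf n d H : ℝ) ^ d / M⌋₊ + 1 : ℕ) : ℤ) := by
    push_cast
    ring
  rw [this, Int.toNat_natCast]
  push_cast
  ring

theorem trans_lower {n d : ℕ} (p : Par n d) (eps bet : ℝ) (w : ℕ)
    (hp : p.Valid eps bet w) (K : ℝ) (hK : 1 ≤ K)
    (r th : ℝ) (hth : 0 < th) (s : ℕ) (hs : p.Q ∣ p.W ^ s) :
    ∀ᶠ H : ℝ in atTop,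
      ((p.LP (r - (2 ^ d + 1) * th) th s (p.GG K (Bf n d H)) H).ncard : ℝ) ≤
        Lev n d th (p.W ^ s) H * ((p.Pairs r K H).ncard : ℝ) := by
  classical
  filter_upwards [short_level p eps bet w hp K hK th hth, eventually_gt_atTop 0] with H hH hH0
  obtain ⟨M, hM⟩ : ∃ M : ℕ, M = p.W ^ s := ⟨_, rfl⟩
  have hMpos : 0 < M := by rw [hM]; exact pow_pos hp.W_pos s
  have hMz : ((p.W : ℤ) ^ s) = (M : ℤ) := by rw [hM]; push_cast; rfl
  have hQM : (p.Q : ℤ) ∣ (M : ℤ) := by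
    rw [hM]
    exact Int.natCast_dvd_natCast.2 hs
  rw [← hM, Lev_eq n d]
  obtain ⟨X, hX⟩ : ∃ X : ℝ, X = th * H * (Bf n d H : ℝ) ^ d := ⟨_, rfl⟩
  have hX0 : 0 ≤ X := by rw [hX]; positivity
  rw [← hX]
  have hLPfin := LP_finite p (r - (2 ^ d + 1) * th) th s (p.GG K (Bf n d H)) (GG_finite p K (Bf n d H)) H
  have hPfin := Pairs_finite p r K H
  choose! t ht using hH
  let f : ((Idx n d → ℤ) × (Fin (n + 1) → ℤ)) → ((Idx n d → ℤ) × (Fin (n + 1) → ℤ)) × ℤ :=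
    fun q => ((fun m => q.1 m + (-1) * t q.2 (F q.1 q.2) m, q.2), F q.1 q.2 / M)
  have hmaps : ∀ q ∈ hLPfin.toFinset, f q ∈ hPfin.toFinset ×ˢ
      Icc (-(⌊X / M⌋₊ : ℤ)) (⌊X / M⌋₊ : ℤ) := by
    intro q hq
    rw [Set.Finite.mem_toFinset] at hq
    obtain ⟨h1, h2, h3, h4⟩ := hq
    rw [hMz] at h3
    have h5 := ht q.2 h2 (F q.1 q.2) (hQM.trans h3) h4
    rw [Finset.mem_product, Set.Finite.mem_toFinset]
    refine ⟨⟨⟨fun m => ?_, fun m => ?_⟩, h2, ?_⟩, ?_⟩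
    · have h6 := h1.1 m
      have h7 := h5.2.2 m
      have h8 : (((q.1 m + (-1) * t q.2 (F q.1 q.2) m : ℤ) : ℝ)) - H * p.AC m =
          ((q.1 m : ℝ) - H * p.AC m) - (t q.2 (F q.1 q.2) m : ℝ) := by
        push_cast
        ring
      simp only [f]
      rw [h8]
      refine (abs_sub _ _).trans ?_
      have h9 : (r - (2 ^ d + 1) * th) * H + (2 ^ d + 1) * th * H = r * H := by ring
      linarith
    · have h8 : q.1 m + (-1) * t q.2 (F q.1 q.2) m - p.A0 m =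
          (q.1 m - p.A0 m) - t q.2 (F q.1 q.2) m := by ring
      simp only [f]
      rw [h8]
      exact dvd_sub (h1.2 m) (h5.2.1 m)
    · simp only [f]
      rw [F_add q.1 (fun m => (-1) * t q.2 (F q.1 q.2) m), F_smul, h5.1]
      ring
    · simp only [f]
      rw [level_iff X hX0 M hMpos, Int.mul_ediv_cancel' h3, hX]
      exact h4
  have hinj : Set.InjOn f (hLPfin.toFinset : Set ((Idx n d → ℤ) × (Fin (n + 1) → ℤ))) := by
    intro q hq q' hq' hqq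
    rw [Finset.mem_coe, Set.Finite.mem_toFinset] at hq hq'
    obtain ⟨h1, h2, h3, h4⟩ := hq
    obtain ⟨h1', h2', h3', h4'⟩ := hq'
    rw [hMz] at h3 h3'
    simp only [f, Prod.mk.injEq] at hqq
    obtain ⟨⟨e1, e2⟩, e3⟩ := hqq
    have e4 : F q.1 q.2 = F q'.1 q'.2 := by
      rw [← Int.mul_ediv_cancel' h3, ← Int.mul_ediv_cancel' h3', e3]
    have e5 : q.1 = q'.1 := by
      funext m
      have h5 : q.1 m + (-1) * t q.2 (F q.1 q.2) m = q'.1 m + (-1) * t q'.2 (F q'.1 q'.2) m :=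
        congrFun e1 m
      rw [e4, e2] at h5
      linarith
    exact Prod.ext e5 e2
  have hcard := Finset.card_le_card_of_injOn f hmaps hinj
  rw [Finset.card_product, ← Set.ncard_eq_toFinset_card _ hLPfin,
    ← Set.ncard_eq_toFinset_card _ hPfin] at hcard
  calc ((p.LP (r - (2 ^ d + 1) * th) th s (p.GG K (Bf n d H)) H).ncard : ℝ) ≤
      (((p.Pairs r K H).ncard * (Icc (-(⌊X / M⌋₊ : ℤ)) (⌊X / M⌋₊ : ℤ)).card : ℕ) : ℝ) := by
        exact_mod_cast hcard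
    _ = _ := by
        push_cast
        ring

theorem trans_upper {n d : ℕ} (p : Par n d) (eps bet : ℝ) (w : ℕ)
    (hp : p.Valid eps bet w) (K : ℝ) (hK : 1 ≤ K)
    (r th : ℝ) (hth : 0 < th) (s : ℕ) (hs : p.Q ∣ p.W ^ s) :
    ∀ᶠ H : ℝ in atTop,
      Lev n d th (p.W ^ s) H * ((p.Pairs r K H).ncard : ℝ) ≤
        ((p.LP (r + (2 ^ d + 1) * th) th s (p.GG K (Bf n d H)) H).ncard : ℝ) := by
  classical
  filter_upwards [short_level p eps bet w hp K hK th hth, eventually_gt_atTop 0] with H hH hH0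
  obtain ⟨M, hM⟩ : ∃ M : ℕ, M = p.W ^ s := ⟨_, rfl⟩
  have hMpos : 0 < M := by rw [hM]; exact pow_pos hp.W_pos s
  have hMz : ((p.W : ℤ) ^ s) = (M : ℤ) := by rw [hM]; push_cast; rfl
  have hMz0 : (M : ℤ) ≠ 0 := by exact_mod_cast hMpos.ne'
  have hQM : (p.Q : ℤ) ∣ (M : ℤ) := by
    rw [hM]
    exact Int.natCast_dvd_natCast.2 hs
  rw [← hM, Lev_eq n d]
  obtain ⟨X, hX⟩ : ∃ X : ℝ, X = th * H * (Bf n d H : ℝ) ^ d := ⟨_, rfl⟩
  have hX0 : 0 ≤ X := by rw [hX]; positivity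
  rw [← hX]
  have hLPfin := LP_finite p (r + (2 ^ d + 1) * th) th s (p.GG K (Bf n d H)) (GG_finite p K (Bf n d H)) H
  have hPfin := Pairs_finite p r K H
  choose! t ht using hH
  let f : ((Idx n d → ℤ) × (Fin (n + 1) → ℤ)) × ℤ → ((Idx n d → ℤ) × (Fin (n + 1) → ℤ)) :=
    fun q => (fun m => q.1.1 m + t q.1.2 (M * q.2) m, q.1.2)
  have hF : ∀ q ∈ hPfin.toFinset ×ˢ Icc (-(⌊X / M⌋₊ : ℤ)) (⌊X / M⌋₊ : ℤ),
      F (f q).1 (f q).2 = M * q.2 := by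
    intro q hq
    rw [Finset.mem_product, Set.Finite.mem_toFinset, level_iff X hX0 M hMpos] at hq
    obtain ⟨⟨h1, h2, h3⟩, h4⟩ := hq
    have h5 := ht q.1.2 h2 (M * q.2) (hQM.trans (Dvd.intro _ rfl)) (hX ▸ h4)
    simp only [f]
    rw [F_add q.1.1 (fun m => t q.1.2 (M * q.2) m), h3, h5.1]
    ring
  have hmaps : ∀ q ∈ hPfin.toFinset ×ˢ Icc (-(⌊X / M⌋₊ : ℤ)) (⌊X / M⌋₊ : ℤ),
      f q ∈ hLPfin.toFinset := by
    intro q hq
    have hFq := hF q hq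
    rw [Finset.mem_product, Set.Finite.mem_toFinset, level_iff X hX0 M hMpos] at hq
    obtain ⟨⟨h1, h2, h3⟩, h4⟩ := hq
    have h5 := ht q.1.2 h2 (M * q.2) (hQM.trans (Dvd.intro _ rfl)) (hX ▸ h4)
    rw [Set.Finite.mem_toFinset]
    refine ⟨⟨fun m => ?_, fun m => ?_⟩, h2, ?_, ?_⟩
    · have h6 := h1.1 m
      have h7 := h5.2.2 m
      have h8 : (((q.1.1 m + t q.1.2 (M * q.2) m : ℤ) : ℝ)) - H * p.AC m =
          ((q.1.1 m : ℝ) - H * p.AC m) + (t q.1.2 (M * q.2) m : ℝ) := by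
        push_cast
        ring
      simp only [f]
      rw [h8]
      refine (abs_add_le _ _).trans ?_
      have h9 : (r + (2 ^ d + 1) * th) * H = r * H + (2 ^ d + 1) * th * H := by ring
      linarith
    · have h8 : q.1.1 m + t q.1.2 (M * q.2) m - p.A0 m =
          (q.1.1 m - p.A0 m) + t q.1.2 (M * q.2) m := by ring
      simp only [f]
      rw [h8]
      exact dvd_add (h1.2 m) (h5.2.1 m)
    · rw [hFq, hMz]
      exact Dvd.intro _ rfl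
    · rw [hFq, ← hX]
      exact h4
  have hinj : Set.InjOn f ((hPfin.toFinset ×ˢ Icc (-(⌊X / M⌋₊ : ℤ)) (⌊X / M⌋₊ : ℤ) :
      Finset (((Idx n d → ℤ) × (Fin (n + 1) → ℤ)) × ℤ)) : Set (((Idx n d → ℤ) × (Fin (n + 1) → ℤ)) × ℤ)) := by
    intro q hq q' hq' hqq
    have e1 := hF q hq
    have e2 := hF q' hq'
    rw [hqq, e2] at e1
    have e3 : q.2 = q'.2 := (mul_left_cancel₀ hMz0 e1).symm
    simp only [f, Prod.mk.injEq] at hqq
    have e4 : q.1.1 = q'.1.1 := by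
      funext m
      have := congrFun hqq.1 m
      simp only [e3, hqq.2] at this
      linarith
    exact Prod.ext (Prod.ext e4 hqq.2) e3
  have hcard := Finset.card_le_card_of_injOn f hmaps hinj
  rw [Finset.card_product, ← Set.ncard_eq_toFinset_card _ hLPfin,
    ← Set.ncard_eq_toFinset_card _ hPfin] at hcard
  calc _ = (((p.Pairs r K H).ncard * (Icc (-(⌊X / M⌋₊ : ℤ)) (⌊X / M⌋₊ : ℤ)).card : ℕ) : ℝ) := by
        push_cast
        ring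
    _ ≤ ((p.LP (r + (2 ^ d + 1) * th) th s (p.GG K (Bf n d H)) H).ncard : ℝ) := by exact_mod_cast hcard

end GenHP
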