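import Pool.Agent.Lib.MP_e426f4_ag.G.Defs

/-! Sums over integer vectors (module G-SB1). -/

namespace GenHP

open Finset Filter Topology

private noncomputable def sncube (n k : ℕ) : Finset (Fin n → ℤ) :=
  Fintype.piFinset fun _ : Fin n => Finset.Icc (-(k : ℤ)) k

private theorem mem_sncube {n k : ℕ} {z : Fin n → ℤ} : z ∈ sncube n k ↔ nn z ≤ k := by
  unfold sncube nn
  rw [Fintype.mem_piFinset, Finset.sup_le_iff]
  constructor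
  · intro h i _
    have := Finset.mem_Icc.1 (h i)
    omega
  · intro h i
    have := h i (Finset.mem_univ i)
    rw [Finset.mem_Icc]
    omega

private theorem card_sncube (n k : ℕ) : (sncube n k).card = (2 * k + 1) ^ n := by
  unfold sncube
  rw [Fintype.card_piFinset_const, Int.card_Icc]
  congr 1
  omega

private theorem sn_nn_pos {n : ℕ} {z : Fin n → ℤ} (hz : z ≠ 0) : 1 ≤ nn z := by
  by_contra h
  have h0 : nn z ≤ 0 := by omega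
  unfold nn at h0
  rw [Finset.sup_le_iff] at h0
  apply hz
  funext i
  have := h0 i (Finset.mem_univ i)
  have h2 : (z i).natAbs = 0 := by omega
  simpa using h2

private theorem sn_pow (b n : ℕ) : (b + 2) ^ (n + 1) ≤ b ^ (n + 1) + 2 * (n + 1) * (b + 2) ^ n := by
  induction n with
  | zero => simp
  | succ n ih =>
    have h1 : b ^ (n + 1) ≤ (b + 2) ^ (n + 1) := Nat.pow_le_pow_left (by omega) _
    calc (b + 2) ^ (n + 1 + 1) = (b + 2) * (b + 2) ^ (n + 1) := by ring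
      _ ≤ (b + 2) * (b ^ (n + 1) + 2 * (n + 1) * (b + 2) ^ n) := Nat.mul_le_mul_left _ ih
      _ = b ^ (n + 1 + 1) + 2 * b ^ (n + 1) + 2 * (n + 1) * (b + 2) ^ (n + 1) := by ring
      _ ≤ b ^ (n + 1 + 1) + 2 * (b + 2) ^ (n + 1) + 2 * (n + 1) * (b + 2) ^ (n + 1) := by omega
      _ = b ^ (n + 1 + 1) + 2 * (n + 1 + 1) * (b + 2) ^ (n + 1) := by ring

private theorem sn_fibre (n k : ℕ) (hk : 1 ≤ k) (S : Finset (Fin (n + 1) → ℤ)) :
    (((S.filter fun z => nn z = k).card : ℕ) : ℝ) ≤ 2 * (n + 1) * 3 ^ n * (k : ℝ) ^ n := by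
  obtain ⟨j, rfl⟩ : ∃ j, k = j + 1 := ⟨k - 1, by omega⟩
  have h1 : (S.filter fun z => nn z = j + 1) ⊆ sncube (n + 1) (j + 1) \ sncube (n + 1) j := by
    intro z hz
    rw [Finset.mem_filter] at hz
    rw [Finset.mem_sdiff, mem_sncube, mem_sncube]
    omega
  have h2 : sncube (n + 1) j ⊆ sncube (n + 1) (j + 1) := by
    intro z hz
    rw [mem_sncube] at hz ⊢
    omega
  have h3 := Finset.card_le_card h1
  rw [Finset.card_sdiff_of_subset h2, card_sncube, card_sncube] at h3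
  have h4 : (2 * (j + 1) + 1) ^ (n + 1) - (2 * j + 1) ^ (n + 1) ≤ 2 * (n + 1) * (2 * (j + 1) + 1) ^ n := by
    have h5 := sn_pow (2 * j + 1) n
    have h6 : 2 * j + 1 + 2 = 2 * (j + 1) + 1 := by ring
    rw [h6] at h5
    omega
  have h7 : (2 * (j + 1) + 1) ^ n ≤ (3 * (j + 1)) ^ n := Nat.pow_le_pow_left (by omega) _
  have h8 : (S.filter fun z => nn z = j + 1).card ≤ 2 * (n + 1) * (3 * (j + 1)) ^ n :=
    (h3.trans h4).trans (Nat.mul_le_mul_left _ h7)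
  have h9 : (2 * ((n : ℝ) + 1) * 3 ^ n * ((j + 1 : ℕ) : ℝ) ^ n) =
      ((2 * (n + 1) * (3 * (j + 1)) ^ n : ℕ) : ℝ) := by
    push_cast
    rw [mul_pow]
    ring
  rw [h9]
  exact_mod_cast h8

theorem sum_inv_nn (n : ℕ) (hn : 2 ≤ n) : ∃ C : ℝ, 0 < C ∧ ∀ (Y : ℝ) (S : Finset (Fin n → ℤ)),
    0 ≤ Y → (∀ z ∈ S, z ≠ 0 ∧ (nn z : ℝ) ≤ Y) → ∑ z ∈ S, (1 : ℝ) / nn z ≤ C * Y ^ (n - 1) := by
  obtain ⟨l, rfl⟩ : ∃ l, n = l + 2 := ⟨n - 2, by omega⟩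
  refine ⟨2 * ((l + 1 : ℕ) + 1) * 3 ^ (l + 1), by positivity, ?_⟩
  intro Y S hY0 hS
  have hmaps : ∀ z ∈ S, nn z ∈ Finset.Icc 1 ⌊Y⌋₊ := by
    intro z hz
    rw [Finset.mem_Icc]
    exact ⟨sn_nn_pos (hS z hz).1, Nat.le_floor (hS z hz).2⟩
  rw [← Finset.sum_fiberwise_of_maps_to hmaps]
  set C : ℝ := 2 * ((l + 1 : ℕ) + 1) * 3 ^ (l + 1) with hC
  have hC0 : 0 ≤ C := by positivity
  have h1 : ∀ k ∈ Finset.Icc 1 ⌊Y⌋₊, ∑ z ∈ S with nn z = k, (1 : ℝ) / nn z ≤ C * Y ^ l := by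
    intro k hk
    rw [Finset.mem_Icc] at hk
    have hk0 : (0 : ℝ) < k := by exact_mod_cast hk.1
    have hkY : (k : ℝ) ≤ Y := (Nat.le_floor_iff hY0).1 hk.2
    have h2 : ∑ z ∈ S with nn z = k, (1 : ℝ) / nn z = ∑ z ∈ S with nn z = k, (1 : ℝ) / k := by
      refine Finset.sum_congr rfl fun z hz => ?_
      rw [(Finset.mem_filter.1 hz).2]
    rw [h2, Finset.sum_const, nsmul_eq_mul]
    calc _ ≤ C * (k : ℝ) ^ (l + 1) * (1 / k) :=
          mul_le_mul_of_nonneg_right (sn_fibre (l + 1) k hk.1 S) (by positivity)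
      _ = C * (k : ℝ) ^ l := by
          rw [pow_succ]
          field_simp
      _ ≤ C * Y ^ l := mul_le_mul_of_nonneg_left (pow_le_pow_left₀ hk0.le hkY l) hC0
  refine (Finset.sum_le_card_nsmul _ _ _ h1).trans ?_
  rw [Nat.card_Icc, nsmul_eq_mul]
  have h3 : ((⌊Y⌋₊ + 1 - 1 : ℕ) : ℝ) ≤ Y := by
    rw [Nat.add_sub_cancel]
    exact Nat.floor_le hY0
  calc ((⌊Y⌋₊ + 1 - 1 : ℕ) : ℝ) * (C * Y ^ l) ≤ Y * (C * Y ^ l) :=
        mul_le_mul_of_nonneg_right h3 (by positivity)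
    _ = C * Y ^ (l + 2 - 1) := by
        have : l + 2 - 1 = l + 1 := by omega
        rw [this, pow_succ]
        ring

private theorem sn_group (n : ℕ) (hn : 3 ≤ n) (C : ℝ) (hC0 : 0 < C)
    (hC : ∀ (Y : ℝ) (S : Finset (Fin n → ℤ)),
      0 ≤ Y → (∀ z ∈ S, z ≠ 0 ∧ (nn z : ℝ) ≤ Y) → ∑ z ∈ S, (1 : ℝ) / nn z ≤ C * Y ^ (n - 1))
    (Y : ℝ) (hY : 0 ≤ Y) (T : Finset ℕ) (hT : ∀ m ∈ T, 1 ≤ m)
    (S : Finset (ℕ × (Fin n → ℤ)))
    (hS : ∀ p ∈ S, p.1 ∈ T ∧ p.2 ≠ 0 ∧ (p.1 : ℝ) * nn p.2 ≤ Y) :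
    ∑ p ∈ S, (1 : ℝ) / nn p.2 ≤ C * Y ^ (n - 1) * ∑ m ∈ T, ((m : ℝ) ^ 2)⁻¹ := by
  have hmaps : ∀ p ∈ S, p.1 ∈ T := fun p hp => (hS p hp).1
  rw [← Finset.sum_fiberwise_of_maps_to hmaps, Finset.mul_sum]
  refine Finset.sum_le_sum fun m hm => ?_
  have hm1 : (1 : ℝ) ≤ m := by exact_mod_cast hT m hm
  have hm0 : (0 : ℝ) < m := by linarith
  have hinj : Set.InjOn (fun p : ℕ × (Fin n → ℤ) => p.2) ↑(S.filter fun p => p.1 = m) := by
    intro p hp q hq hpq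
    have h1 := (Finset.mem_filter.1 hp).2
    have h2 := (Finset.mem_filter.1 hq).2
    exact Prod.ext (h1.trans h2.symm) hpq
  have h3 : ∑ p ∈ S with p.1 = m, (1 : ℝ) / nn p.2 =
      ∑ z ∈ (S.filter fun p => p.1 = m).image (fun p => p.2), (1 : ℝ) / nn z := by
    rw [Finset.sum_image hinj]
  rw [h3]
  refine (hC (Y / m) _ (by positivity) ?_).trans ?_
  · intro z hz
    rw [Finset.mem_image] at hz
    obtain ⟨p, hp, rfl⟩ := hz
    rw [Finset.mem_filter] at hp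
    have h4 := hS p hp.1
    refine ⟨h4.2.1, ?_⟩
    rw [le_div_iff₀ hm0, mul_comm, ← hp.2]
    exact h4.2.2
  · rw [div_pow, mul_assoc, div_eq_mul_inv]
    refine mul_le_mul_of_nonneg_left ?_ hC0.le
    refine mul_le_mul_of_nonneg_left ?_ (by positivity)
    refine inv_anti₀ (by positivity) ?_
    exact pow_le_pow_right₀ hm1 (by omega)

theorem sum_zm_large (n : ℕ) (hn : 3 ≤ n) : ∃ C : ℝ, 0 < C ∧ ∀ (G : ℕ), 1 ≤ G →
    ∀ (Y : ℝ) (S : Finset (ℕ × (Fin n → ℤ))), 0 ≤ Y →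
    (∀ p ∈ S, G < p.1 ∧ p.2 ≠ 0 ∧ (p.1 : ℝ) * nn p.2 ≤ Y) →
    ∑ p ∈ S, (1 : ℝ) / nn p.2 ≤ C * Y ^ (n - 1) / G := by
  obtain ⟨C, hC0, hC⟩ := sum_inv_nn n (by omega)
  refine ⟨C, hC0, ?_⟩
  intro G hG Y S hY hS
  have hG0 : (0 : ℝ) < G := by exact_mod_cast hG
  set N : ℕ := max G ⌊Y⌋₊ with hN
  have h1 := sn_group n hn C hC0 hC Y hY (Finset.Ioc G N)
    (fun m hm => by rw [Finset.mem_Ioc] at hm; omega) S
    (fun p hp => by
      have h2 := hS p hp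
      have h3 : (1 : ℝ) ≤ nn p.2 := by exact_mod_cast sn_nn_pos h2.2.1
      have h4 : (p.1 : ℝ) ≤ Y := by
        have h5 : (0 : ℝ) ≤ p.1 := Nat.cast_nonneg _
        have h6 := h2.2.2
        nlinarith
      refine ⟨?_, h2.2.1, h2.2.2⟩
      rw [Finset.mem_Ioc]
      exact ⟨h2.1, (Nat.le_floor h4).trans (le_max_right _ _)⟩)
  refine h1.trans ?_
  have h7 : ∑ m ∈ Finset.Ioc G N, ((m : ℝ) ^ 2)⁻¹ ≤ (G : ℝ)⁻¹ := by
    refine (sum_Ioc_inv_sq_le_sub (by omega) (le_max_left _ _)).trans ?_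
    have : (0 : ℝ) ≤ (N : ℝ)⁻¹ := by positivity
    linarith
  rw [div_eq_mul_inv]
  exact mul_le_mul_of_nonneg_left h7 (by positivity)

theorem sum_zm_all (n : ℕ) (hn : 3 ≤ n) : ∃ C : ℝ, 0 < C ∧
    ∀ (Y : ℝ) (S : Finset (ℕ × (Fin n → ℤ))), 0 ≤ Y →
    (∀ p ∈ S, 1 ≤ p.1 ∧ p.2 ≠ 0 ∧ (p.1 : ℝ) * nn p.2 ≤ Y) →
    ∑ p ∈ S, (1 : ℝ) / nn p.2 ≤ C * Y ^ (n - 1) := by
  obtain ⟨C, hC0, hC⟩ := sum_inv_nn n (by omega)
  refine ⟨2 * C, by positivity, ?_⟩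
  intro Y S hY hS
  set N : ℕ := max 1 ⌊Y⌋₊ with hN
  have hN1 : 1 ≤ N := le_max_left _ _
  have h1 := sn_group n hn C hC0 hC Y hY (Finset.Icc 1 N)
    (fun m hm => by rw [Finset.mem_Icc] at hm; omega) S
    (fun p hp => by
      have h2 := hS p hp
      have h3 : (1 : ℝ) ≤ nn p.2 := by exact_mod_cast sn_nn_pos h2.2.1
      have h4 : (p.1 : ℝ) ≤ Y := by
        have h5 : (0 : ℝ) ≤ p.1 := Nat.cast_nonneg _
        have h6 := h2.2.2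
        nlinarith
      refine ⟨?_, h2.2.1, h2.2.2⟩
      rw [Finset.mem_Icc]
      exact ⟨h2.1, (Nat.le_floor h4).trans (le_max_right _ _)⟩)
  refine h1.trans ?_
  have h7 : ∑ m ∈ Finset.Icc 1 N, ((m : ℝ) ^ 2)⁻¹ ≤ 2 := by
    have h8 : Finset.Icc 1 N = insert 1 (Finset.Ioc 1 N) := by
      rw [Finset.Icc_eq_cons_Ioc hN1, Finset.cons_eq_insert]
    rw [h8, Finset.sum_insert (by simp)]
    have h9 : ∑ m ∈ Finset.Ioc 1 N, ((m : ℝ) ^ 2)⁻¹ ≤ 1 := by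
      refine (sum_Ioc_inv_sq_le_sub (by norm_num) hN1).trans ?_
      have : (0 : ℝ) ≤ (N : ℝ)⁻¹ := by positivity
      norm_num
    norm_num
    linarith
  have h10 : 0 ≤ C * Y ^ (n - 1) := by positivity
  nlinarith

end GenHP
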