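import Pool.Agent.Lib.MP_e426f4_ag.G.Defs
import Pool.Agent.Lib.MP_e426f4_ag.G.Basic
import Pool.Agent.Lib.MP_e426f4_ag.G.Minors
import Pool.Agent.Lib.MP_e426f4_ag.G.SumNorm

/-! The sum over the second point of a bad pair. -/

namespace GenHP

open Finset

/-- Two vectors orthogonal to `n` independent vectors of `ℝ^(n+1)` are proportional. -/
theorem SB2_orth_prop {n : ℕ} (l : Fin n → Fin (n + 1) → ℝ) (hl : LinearIndependent ℝ l) (x y : Fin (n + 1) → ℝ)
    (hx : x ≠ 0) (hlx : ∀ k, ∑ i, l k i * x i = 0) (hly : ∀ k, ∑ i, l k i * y i = 0) :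
    ∃ c : ℝ, ∀ i, y i = c * x i := by
  classical
  set M : Matrix (Fin n) (Fin (n + 1)) ℝ := Matrix.of l with hM
  have hrank : M.rank = n := by
    have h := LinearIndependent.rank_matrix (M := M) hl
    simpa using h
  have h1 : Module.finrank ℝ (LinearMap.range M.mulVecLin) = n := hrank
  have h2 := LinearMap.finrank_range_add_finrank_ker M.mulVecLin
  rw [h1] at h2
  have h3 : Module.finrank ℝ (Fin (n + 1) → ℝ) = n + 1 := by simp
  rw [h3] at h2
  have h4 : Module.finrank ℝ (LinearMap.ker M.mulVecLin) = 1 := by omega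
  have hxk : x ∈ LinearMap.ker M.mulVecLin := by
    rw [LinearMap.mem_ker]
    ext k
    simpa [Matrix.mulVec, dotProduct, hM] using hlx k
  have hyk : y ∈ LinearMap.ker M.mulVecLin := by
    rw [LinearMap.mem_ker]
    ext k
    simpa [Matrix.mulVec, dotProduct, hM] using hly k
  have hx0 : (⟨x, hxk⟩ : LinearMap.ker M.mulVecLin) ≠ 0 := by
    intro h
    exact hx (congrArg Subtype.val h)
  obtain ⟨c, hc⟩ := (finrank_eq_one_iff_of_nonzero' _ hx0).1 h4 ⟨y, hyk⟩
  refine ⟨c, fun i => ?_⟩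
  have := congrArg (fun v : LinearMap.ker M.mulVecLin => (v : Fin (n + 1) → ℝ) i) hc
  simpa using this.symm

theorem SB2_sum_le_fibre {α β : Type*} [DecidableEq β] (S : Finset α) (g : α → β) (f : β → ℝ)
    (hf : ∀ b ∈ S.image g, 0 ≤ f b) (N : ℕ)
    (hN : ∀ b ∈ S.image g, (S.filter fun a => g a = b).card ≤ N) :
    ∑ a ∈ S, f (g a) ≤ N * ∑ b ∈ S.image g, f b := by
  rw [Finset.sum_comp, Finset.mul_sum]
  refine Finset.sum_le_sum fun b hb => ?_
  rw [nsmul_eq_mul]
  exact mul_le_mul_of_nonneg_right (by exact_mod_cast hN b hb) (hf b hb)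

theorem SB2_minor_le_dl {n : ℕ} (x y : Fin (n + 1) → ℤ) (a b : Fin (n + 1)) : |minor x y a b| ≤ (dl x y : ℤ) := by
  have h : (minor x y a b).natAbs ≤ dl x y :=
    Finset.le_sup (f := fun p : Fin (n + 1) × Fin (n + 1) => (minor x y p.1 p.2).natAbs)
      (Finset.mem_univ (a, b))
  rw [Int.abs_eq_natAbs]
  exact_mod_cast h

theorem SB2_dl_eq_zero_of {n : ℕ} (x y : Fin (n + 1) → ℤ) (h : ∀ a b, minor x y a b = 0) : dl x y = 0 := by
  unfold dl
  apply le_antisymm _ (Nat.zero_le _)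
  refine Finset.sup_le fun p _ => ?_
  rw [h p.1 p.2]
  simp

theorem SB2_nn_le {n : ℕ} (hn : 1 ≤ n) (z : Fin n → ℤ) (C : ℝ) (h : ∀ k, |(z k : ℝ)| ≤ C) :
    (nn z : ℝ) ≤ C := by
  obtain ⟨k, -, hk⟩ := Finset.exists_mem_eq_sup (univ : Finset (Fin n)) ⟨⟨0, hn⟩, mem_univ _⟩
    (fun k => (z k).natAbs)
  have : nn z = (z k).natAbs := hk
  rw [this, Nat.cast_natAbs]
  push_cast
  exact h k

theorem SB2_nn_pos {n : ℕ} (z : Fin n → ℤ) (h : z ≠ 0) : 0 < nn z := by
  obtain ⟨k, hk⟩ : ∃ k, z k ≠ 0 := by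
    by_contra hcon
    push Not at hcon
    exact h (funext hcon)
  have h1 : (z k).natAbs ≤ nn z :=
    Finset.le_sup (f := fun k : Fin n => (z k).natAbs) (Finset.mem_univ k)
  have h2 : 0 < (z k).natAbs := Int.natAbs_pos.2 hk
  omega

theorem SB2_nn_mul {n : ℕ} (hn : 1 ≤ n) (m : ℕ) (z : Fin n → ℤ) : nn (fun k => (m : ℤ) * z k) = m * nn z := by
  unfold nn
  apply le_antisymm
  · refine Finset.sup_le fun k _ => ?_
    rw [Int.natAbs_mul, Int.natAbs_natCast]
    exact Nat.mul_le_mul_left _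
      (Finset.le_sup (f := fun k : Fin n => (z k).natAbs) (Finset.mem_univ k))
  · obtain ⟨k, -, hk⟩ := Finset.exists_mem_eq_sup (univ : Finset (Fin n)) ⟨⟨0, hn⟩, mem_univ _⟩
      (fun k => (z k).natAbs)
    rw [hk]
    have := Finset.le_sup (f := fun k : Fin n => ((m : ℤ) * z k).natAbs) (Finset.mem_univ k)
    simpa [Int.natAbs_mul] using this

/-- The linear forms of `l` at `y`, divided by the gcd of the minors. -/
theorem SB2_exists_quot {n : ℕ} (x : Fin (n + 1) → ℤ) (hx : Prim x) (l : Fin n → Fin (n + 1) → ℤ)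
    (hlx : ∀ k, ∑ i, l k i * x i = 0) (y : Fin (n + 1) → ℤ) :
    ∃ z : Fin n → ℤ, ∀ k, ∑ i, l k i * y i = (mg x y : ℤ) * z k := by
  obtain ⟨c, hc⟩ := exists_mod_of_dvd_mg x y hx (mg x y) dvd_rfl
  have : ∀ k, ∃ z : ℤ, ∑ i, l k i * y i = (mg x y : ℤ) * z := by
    intro k
    have h1 : ∑ i, l k i * y i = ∑ i, l k i * (y i - c * x i) := by
      have h2 : ∑ i, l k i * (y i - c * x i) = ∑ i, l k i * y i - c * ∑ i, l k i * x i := by
        rw [Finset.mul_sum, ← Finset.sum_sub_distrib]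
        exact Finset.sum_congr rfl fun i _ => by ring
      rw [h2, hlx k]
      ring
    have h3 : (mg x y : ℤ) ∣ ∑ i, l k i * y i := by
      rw [h1]
      exact Finset.dvd_sum fun i _ => Dvd.dvd.mul_left (hc i) _
    exact h3
  choose z hz using this
  exact ⟨z, hz⟩

theorem sum_bad (n : ℕ) (hn : 3 ≤ n) : ∃ C : ℝ, 0 < C ∧ ∀ (K : ℝ), 1 ≤ K → ∀ B : ℕ, 1 ≤ B →
    ∀ x : Fin (n + 1) → ℤ, Prim x → (∀ i, |(x i : ℝ)| ≤ 2 * B) →
    ∀ i0 : Fin (n + 1), (B : ℝ) / 2 ≤ |(x i0 : ℝ)| → Good K B x → ∀ G : ℕ, 1 ≤ G →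
    ∀ tau : ℝ, 0 < tau → tau ≤ 1 →
    ∑ y ∈ (boxn n (2 * B)).filter
        (fun y => 0 < dl x y ∧ (G < mg x y ∨ (dl x y : ℝ) < tau * (B : ℝ) ^ 2)),
      (mg x y : ℝ) / dl x y ≤ C * K ^ n * (1 / G + tau) * (B : ℝ) ^ (n - 1) := by
  classical
  obtain ⟨Ca, hCa, hzl⟩ := sum_zm_large n hn
  obtain ⟨Cb, hCb, hza⟩ := sum_zm_all n hn
  obtain ⟨A, hA⟩ : ∃ A : ℝ, A = 2 * ((n : ℝ) + 1) := ⟨_, rfl⟩
  have hA0 : 0 < A := by rw [hA]; positivity
  refine ⟨17 * (Ca + Cb) * A ^ n, by positivity, ?_⟩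
  intro K hK B hB x hx hx2 i0 hi0 hg G hG tau ht ht1
  obtain ⟨l, hl, hlx, hlmu⟩ := hg
  set mu : ℝ := K * (B : ℝ) ^ (1 / (n : ℝ)) with hmu
  have hB0 : (0 : ℝ) < B := by exact_mod_cast hB
  have hmu0 : 0 < mu := by positivity
  have hn0 : (n : ℝ) ≠ 0 := by
    have : n ≠ 0 := by omega
    exact_mod_cast this
  have hmu3 : mu ^ n = K ^ n * B := by
    rw [hmu, mul_pow, ← Real.rpow_natCast ((B : ℝ) ^ (1 / (n : ℝ))) n, ← Real.rpow_mul hB0.le,
      one_div_mul_cancel hn0, Real.rpow_one]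
  choose z hz using SB2_exists_quot x hx l hlx
  have hx0 : (fun i => (x i : ℝ)) ≠ 0 := by
    intro h
    have h1 := congrFun h i0
    simp only [Pi.zero_apply] at h1
    rw [h1, abs_zero] at hi0
    linarith
  have hlxR : ∀ k, ∑ i, (l k i : ℝ) * (x i : ℝ) = 0 := fun k => by exact_mod_cast hlx k
  -- basic facts for a single point
  have hzne : ∀ y, 0 < dl x y → z y ≠ 0 := by
    intro y hy hzero
    have h1 : ∀ k, ∑ i, (l k i : ℝ) * (y i : ℝ) = 0 := by
      intro k
      have := hz y k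
      rw [hzero] at this
      simp only [Pi.zero_apply, mul_zero] at this
      exact_mod_cast this
    obtain ⟨c, hc⟩ := SB2_orth_prop _ hl _ _ hx0 hlxR h1
    have h2 : dl x y = 0 := by
      apply SB2_dl_eq_zero_of
      intro a b
      have : ((minor x y a b : ℤ) : ℝ) = 0 := by
        unfold minor
        push_cast
        rw [hc a, hc b]
        ring
      exact_mod_cast this
    omega
  have hzdl : ∀ y k, |((mg x y : ℝ) * (z y k : ℝ))| ≤ A * mu * dl x y / B := by
    intro y k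
    have h1 : (x i0 : ℝ) * ((mg x y : ℝ) * (z y k : ℝ)) =
        ∑ a, (l k a : ℝ) * ((minor x y i0 a : ℤ) : ℝ) := by
      have h2 : ((mg x y : ℝ) * (z y k : ℝ)) = ∑ i, (l k i : ℝ) * (y i : ℝ) := by
        have := hz y k
        have h3 : (((∑ i, l k i * y i : ℤ)) : ℝ) = (((mg x y : ℤ) * z y k : ℤ) : ℝ) := by
          rw [this]
        push_cast at h3
        exact h3.symm
      have h4 : ∑ a, (l k a : ℝ) * ((minor x y i0 a : ℤ) : ℝ) =
          (x i0 : ℝ) * ∑ i, (l k i : ℝ) * (y i : ℝ) - (y i0 : ℝ) * ∑ i, (l k i : ℝ) * (x i : ℝ) := by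
        rw [Finset.mul_sum, Finset.mul_sum, ← Finset.sum_sub_distrib]
        refine Finset.sum_congr rfl fun i _ => ?_
        unfold minor
        push_cast
        ring
      rw [h4, hlxR k, h2]
      ring
    have h5 : |(x i0 : ℝ) * ((mg x y : ℝ) * (z y k : ℝ))| ≤ ((n : ℝ) + 1) * mu * dl x y := by
      rw [h1]
      calc |∑ a, (l k a : ℝ) * ((minor x y i0 a : ℤ) : ℝ)|
          ≤ ∑ a : Fin (n + 1), |(l k a : ℝ) * ((minor x y i0 a : ℤ) : ℝ)| :=
            Finset.abs_sum_le_sum_abs _ _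
        _ ≤ ∑ _a : Fin (n + 1), mu * dl x y := by
            refine Finset.sum_le_sum fun a _ => ?_
            rw [abs_mul]
            have h6 : |((minor x y i0 a : ℤ) : ℝ)| ≤ (dl x y : ℝ) := by
              have := SB2_minor_le_dl x y i0 a
              exact_mod_cast this
            exact mul_le_mul (hlmu k a) h6 (abs_nonneg _) hmu0.le
        _ = ((n : ℝ) + 1) * mu * dl x y := by simp; ring
    rw [abs_mul] at h5
    have h6 : (B : ℝ) / 2 * |(mg x y : ℝ) * (z y k : ℝ)| ≤ ((n : ℝ) + 1) * mu * dl x y :=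
      (mul_le_mul_of_nonneg_right hi0 (abs_nonneg _)).trans h5
    rw [le_div_iff₀ hB0, hA]
    linarith
  have hnndl : ∀ y, (mg x y : ℝ) * nn (z y) ≤ A * mu * dl x y / B := by
    intro y
    have h1 : (nn (fun k => (mg x y : ℤ) * z y k) : ℝ) ≤ A * mu * dl x y / B := by
      apply SB2_nn_le (by omega)
      intro k
      have := hzdl y k
      push_cast
      exact this
    rw [SB2_nn_mul (by omega)] at h1
    push_cast at h1
    exact h1
  have hnnB : ∀ y ∈ boxn n (2 * B), (mg x y : ℝ) * nn (z y) ≤ A * mu * B := by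
    intro y hy
    have h1 : (nn (fun k => (mg x y : ℤ) * z y k) : ℝ) ≤ A * mu * B := by
      apply SB2_nn_le (by omega)
      · intro k
        rw [← hz y k]
        push_cast
        calc |∑ i, (l k i : ℝ) * (y i : ℝ)| ≤ ∑ i : Fin (n + 1), |(l k i : ℝ) * (y i : ℝ)| :=
              Finset.abs_sum_le_sum_abs _ _
          _ ≤ ∑ _i : Fin (n + 1), mu * (2 * B) := by
              refine Finset.sum_le_sum fun a _ => ?_
              rw [abs_mul]
              have h6 : |(y a : ℝ)| ≤ 2 * (B : ℝ) := by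
                have := mem_boxn.1 hy a
                exact_mod_cast this
              exact mul_le_mul (hlmu k a) h6 (abs_nonneg _) hmu0.le
          _ = A * mu * B := by rw [hA]; simp; ring
    rw [SB2_nn_mul (by omega)] at h1
    push_cast at h1
    exact h1
  -- the general estimate
  have key : ∀ (S : Finset (Fin (n + 1) → ℤ)), (∀ y ∈ S, y ∈ boxn n (2 * B) ∧ 0 < dl x y) →
      ∑ y ∈ S, (mg x y : ℝ) / dl x y ≤ 17 * (A * mu / B) *
        ∑ p ∈ S.image (fun y => (mg x y, z y)), (1 : ℝ) / nn p.2 := by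
    intro S hS
    have h1 : ∑ y ∈ S, (mg x y : ℝ) / dl x y ≤
        ∑ y ∈ S, (A * mu / B) * ((1 : ℝ) / nn (z y)) := by
      refine Finset.sum_le_sum fun y hy => ?_
      have hd := (hS y hy).2
      have hd' : (0 : ℝ) < dl x y := by exact_mod_cast hd
      have hn : (0 : ℝ) < nn (z y) := by exact_mod_cast SB2_nn_pos _ (hzne y hd)
      rw [mul_one_div, div_le_div_iff₀ hd' hn]
      calc (mg x y : ℝ) * nn (z y) ≤ A * mu * dl x y / B := hnndl y
        _ = A * mu / B * dl x y := by ring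
    refine h1.trans ?_
    rw [← Finset.mul_sum]
    have h2 : ∑ y ∈ S, (1 : ℝ) / nn (z y) ≤ (17 : ℕ) *
        ∑ p ∈ S.image (fun y => (mg x y, z y)), (1 : ℝ) / nn p.2 := by
      refine SB2_sum_le_fibre S (fun y => (mg x y, z y)) (fun p => (1 : ℝ) / nn p.2) ?_ 17 ?_
      · intro p _
        positivity
      · intro p hp
        obtain ⟨y0, hy0, hyp⟩ := Finset.mem_image.1 hp
        have hsub : (S.filter fun a => (mg x a, z a) = p) ⊆
            (Finset.Icc (-8 : ℤ) 8).image (fun k => fun i => y0 i + k * x i) := by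
          intro y hy
          rw [Finset.mem_filter] at hy
          obtain ⟨hyS, hyp'⟩ := hy
          rw [← hyp] at hyp'
          have hm : mg x y = mg x y0 := congrArg Prod.fst hyp'
          have hzz : z y = z y0 := congrArg Prod.snd hyp'
          have horth : ∀ k, ∑ i, (l k i : ℝ) * ((y i : ℝ) - (y0 i : ℝ)) = 0 := by
            intro k
            have e1 := hz y k
            have e2 := hz y0 k
            rw [hm, hzz, ← e2] at e1
            have e3 : ∑ i, (l k i : ℝ) * (y i : ℝ) = ∑ i, (l k i : ℝ) * (y0 i : ℝ) := by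
              exact_mod_cast e1
            have e4 : ∑ i, (l k i : ℝ) * ((y i : ℝ) - (y0 i : ℝ)) =
                ∑ i, (l k i : ℝ) * (y i : ℝ) - ∑ i, (l k i : ℝ) * (y0 i : ℝ) := by
              rw [← Finset.sum_sub_distrib]
              exact Finset.sum_congr rfl fun i _ => by ring
            rw [e4, e3, sub_self]
          obtain ⟨c, hc⟩ := SB2_orth_prop _ hl _ (fun i => (y i : ℝ) - (y0 i : ℝ)) hx0 hlxR horth
          obtain ⟨u, hu⟩ := hx
          have hcint : c = ((∑ i, u i * (y i - y0 i) : ℤ) : ℝ) := by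
            push_cast
            have e5 : ∑ i, (u i : ℝ) * ((y i : ℝ) - (y0 i : ℝ)) = c * ∑ i, (u i : ℝ) * (x i : ℝ) := by
              rw [Finset.mul_sum]
              refine Finset.sum_congr rfl fun i _ => ?_
              have := hc i
              rw [this]
              ring
            have e6 : ∑ i, (u i : ℝ) * (x i : ℝ) = 1 := by exact_mod_cast hu
            rw [e5, e6, mul_one]
          set nz : ℤ := ∑ i, u i * (y i - y0 i) with hnz
          have hyx : ∀ i, y i = y0 i + nz * x i := by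
            intro i
            have := hc i
            rw [hcint] at this
            have e7 : ((y i : ℤ) : ℝ) = ((y0 i + nz * x i : ℤ) : ℝ) := by
              push_cast
              linarith
            exact_mod_cast e7
          have hyb := mem_boxn.1 (hS y hyS).1 i0
          have hyb0 := mem_boxn.1 (hS y0 hy0).1 i0
          have e8 : |(nz : ℝ)| * ((B : ℝ) / 2) ≤ 4 * B := by
            calc |(nz : ℝ)| * ((B : ℝ) / 2) ≤ |(nz : ℝ)| * |(x i0 : ℝ)| :=
                  mul_le_mul_of_nonneg_left hi0 (abs_nonneg _)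
              _ = |(nz : ℝ) * (x i0 : ℝ)| := (abs_mul _ _).symm
              _ = |(y i0 : ℝ) - (y0 i0 : ℝ)| := by
                  congr 1
                  rw [hyx i0]
                  push_cast
                  ring
              _ ≤ |(y i0 : ℝ)| + |(y0 i0 : ℝ)| := abs_sub _ _
              _ ≤ 2 * B + 2 * B := by
                  have a1 : |(y i0 : ℝ)| ≤ 2 * (B : ℝ) := by exact_mod_cast hyb
                  have a2 : |(y0 i0 : ℝ)| ≤ 2 * (B : ℝ) := by exact_mod_cast hyb0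
                  linarith
              _ = 4 * B := by ring
          have e9 : |(nz : ℝ)| ≤ 8 := by
            by_contra hcon
            push Not at hcon
            nlinarith
          have e10 : |nz| ≤ 8 := by exact_mod_cast e9
          rw [abs_le] at e10
          rw [Finset.mem_image]
          exact ⟨nz, Finset.mem_Icc.2 e10, by ext i; exact (hyx i).symm⟩
        calc (S.filter fun a => (mg x a, z a) = p).card ≤ _ := Finset.card_le_card hsub
          _ ≤ (Finset.Icc (-8 : ℤ) 8).card := Finset.card_image_le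
          _ = 17 := by rfl
    calc A * mu / B * ∑ y ∈ S, (1 : ℝ) / nn (z y)
        ≤ A * mu / B * ((17 : ℕ) *
          ∑ p ∈ S.image (fun y => (mg x y, z y)), (1 : ℝ) / nn p.2) :=
          mul_le_mul_of_nonneg_left h2 (by positivity)
      _ = 17 * (A * mu / B) * ∑ p ∈ S.image (fun y => (mg x y, z y)), (1 : ℝ) / nn p.2 := by
          push_cast
          ring
  -- the two parts
  set S := (boxn n (2 * B)).filter
        (fun y => 0 < dl x y ∧ (G < mg x y ∨ (dl x y : ℝ) < tau * (B : ℝ) ^ 2)) with hS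
  set S1 := S.filter (fun y => G < mg x y) with hS1
  set S2 := S.filter (fun y => ¬ G < mg x y) with hS2
  have hsplit : ∑ y ∈ S, (mg x y : ℝ) / dl x y =
      ∑ y ∈ S1, (mg x y : ℝ) / dl x y + ∑ y ∈ S2, (mg x y : ℝ) / dl x y :=
    (Finset.sum_filter_add_sum_filter_not S (fun y => G < mg x y) _).symm
  have hG0 : (0 : ℝ) < G := by exact_mod_cast hG
  have hb1 : ∑ y ∈ S1, (mg x y : ℝ) / dl x y ≤
      17 * (A * mu / B) * (Ca * (A * mu * B) ^ (n - 1) / G) := by
    refine (key S1 ?_).trans ?_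
    · intro y hy
      rw [hS1, Finset.mem_filter, hS, Finset.mem_filter] at hy
      exact ⟨hy.1.1, hy.1.2.1⟩
    · refine mul_le_mul_of_nonneg_left ?_ (by positivity)
      refine hzl G hG (A * mu * B) _ (by positivity) ?_
      intro p hp
      obtain ⟨y, hy, hyp⟩ := Finset.mem_image.1 hp
      rw [hS1, Finset.mem_filter, hS, Finset.mem_filter] at hy
      subst hyp
      exact ⟨hy.2, hzne y hy.1.2.1, hnnB y hy.1.1⟩
  have hb2 : ∑ y ∈ S2, (mg x y : ℝ) / dl x y ≤
      17 * (A * mu / B) * (Cb * (A * mu * tau * B) ^ (n - 1)) := by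
    refine (key S2 ?_).trans ?_
    · intro y hy
      rw [hS2, Finset.mem_filter, hS, Finset.mem_filter] at hy
      exact ⟨hy.1.1, hy.1.2.1⟩
    · refine mul_le_mul_of_nonneg_left ?_ (by positivity)
      refine hza (A * mu * tau * B) _ (by positivity) ?_
      intro p hp
      obtain ⟨y, hy, hyp⟩ := Finset.mem_image.1 hp
      rw [hS2, Finset.mem_filter, hS, Finset.mem_filter] at hy
      subst hyp
      have hd := hy.1.2.1
      have hm : 0 < mg x y := mg_pos_of_dl_pos x y hd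
      refine ⟨hm, hzne y hd, ?_⟩
      have h1 : (dl x y : ℝ) < tau * (B : ℝ) ^ 2 := by
        rcases hy.1.2.2 with h | h
        · exact absurd h hy.2
        · exact h
      calc (mg x y : ℝ) * nn (z y) ≤ A * mu * dl x y / B := hnndl y
        _ ≤ A * mu * (tau * (B : ℝ) ^ 2) / B := by
            apply div_le_div_of_nonneg_right _ hB0.le
            exact mul_le_mul_of_nonneg_left h1.le (by positivity)
        _ = A * mu * tau * B := by
            field_simp
  rw [hsplit]
  have hK0 : 0 < K := by linarith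
  obtain ⟨m, hm⟩ : ∃ m, n = m + 1 := ⟨n - 1, by omega⟩
  have hm1 : n - 1 = m := by omega
  have hbase : (A * mu / B) * (A * mu * B) ^ (n - 1) = A ^ n * K ^ n * (B : ℝ) ^ (n - 1) := by
    have h1 : (A * mu / B) * (A * mu * B) ^ (n - 1) = A ^ n * mu ^ n * (B : ℝ) ^ (n - 1) / B := by
      rw [hm1, mul_pow, mul_pow, hm, pow_succ A m, pow_succ mu m]
      ring
    rw [h1, hmu3]
    field_simp
  have e1 : 17 * (A * mu / B) * (Ca * (A * mu * B) ^ (n - 1) / G) =
      17 * Ca * (1 / G) * (A ^ n * K ^ n * (B : ℝ) ^ (n - 1)) := by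
    rw [← hbase]
    ring
  have e2 : 17 * (A * mu / B) * (Cb * (A * mu * tau * B) ^ (n - 1)) =
      17 * Cb * tau ^ (n - 1) * (A ^ n * K ^ n * (B : ℝ) ^ (n - 1)) := by
    rw [← hbase]
    have : A * mu * tau * B = tau * (A * mu * B) := by ring
    rw [this, mul_pow tau]
    ring
  rw [e1] at hb1
  rw [e2] at hb2
  have htau : tau ^ (n - 1) ≤ tau := by
    calc tau ^ (n - 1) ≤ tau ^ 1 := pow_le_pow_of_le_one ht.le ht1 (by omega)
      _ = tau := pow_one _
  have hX : 0 < A ^ n * K ^ n * (B : ℝ) ^ (n - 1) := by positivity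
  have hGi : 0 < 1 / (G : ℝ) := by positivity
  have e3 : 17 * Cb * tau ^ (n - 1) * (A ^ n * K ^ n * (B : ℝ) ^ (n - 1)) ≤
      17 * Cb * tau * (A ^ n * K ^ n * (B : ℝ) ^ (n - 1)) := by
    apply mul_le_mul_of_nonneg_right _ hX.le
    exact mul_le_mul_of_nonneg_left htau (by positivity)
  have e4 : 0 ≤ 17 * Cb * (1 / (G : ℝ)) * (A ^ n * K ^ n * (B : ℝ) ^ (n - 1)) := by positivity
  have e5 : 0 ≤ 17 * Ca * tau * (A ^ n * K ^ n * (B : ℝ) ^ (n - 1)) := by positivity
  calc _ ≤ 17 * Ca * (1 / G) * (A ^ n * K ^ n * (B : ℝ) ^ (n - 1)) +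
        17 * Cb * tau ^ (n - 1) * (A ^ n * K ^ n * (B : ℝ) ^ (n - 1)) := add_le_add hb1 hb2
    _ ≤ 17 * (Ca + Cb) * (1 / G + tau) * (A ^ n * K ^ n * (B : ℝ) ^ (n - 1)) := by
        have : 17 * (Ca + Cb) * (1 / G + tau) * (A ^ n * K ^ n * (B : ℝ) ^ (n - 1)) =
          17 * Ca * (1 / G) * (A ^ n * K ^ n * (B : ℝ) ^ (n - 1)) +
          17 * Cb * tau * (A ^ n * K ^ n * (B : ℝ) ^ (n - 1)) +
          17 * Cb * (1 / (G : ℝ)) * (A ^ n * K ^ n * (B : ℝ) ^ (n - 1)) +
          17 * Ca * tau * (A ^ n * K ^ n * (B : ℝ) ^ (n - 1)) := by ring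
        rw [this]
        linarith
    _ = 17 * (Ca + Cb) * A ^ n * K ^ n * (1 / G + tau) * (B : ℝ) ^ (n - 1) := by ring

end GenHP
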