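import Pool.Agent.Lib.MP_e426f4_ag.G.Alg

/-! Module HD: Hensel data from local data. -/

namespace GenHP

open Finset

private theorem hd_crt (S : Finset ℕ) (hS : ∀ p ∈ S, p.Prime) (m : ℕ) (f : ℕ → ℤ) :
    ∃ y : ℤ, ∀ p ∈ S, (p : ℤ) ^ m ∣ y - f p := by
  have hco : Pairwise
      (Function.onFun IsCoprime fun p : S => Ideal.span {(((p : ℕ) : ℤ) ^ m)}) := by
    intro p q hpq
    show IsCoprime (Ideal.span {(((p : ℕ) : ℤ) ^ m)}) (Ideal.span {(((q : ℕ) : ℤ) ^ m)})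
    rw [Ideal.isCoprime_span_singleton_iff]
    apply IsCoprime.pow
    exact Nat.isCoprime_iff_coprime.mpr ((Nat.coprime_primes (hS p p.2) (hS q q.2)).mpr
      fun h => hpq (Subtype.ext h))
  obtain ⟨y, hy⟩ := Ideal.exists_forall_sub_mem_ideal hco (fun p : S => f p)
  exact ⟨y, fun p hp => Ideal.mem_span_singleton.mp (hy ⟨p, hp⟩)⟩

private theorem hd_local_F {n d : ℕ} (p k c : ℕ) (hc : c < k) (A A0 : Idx n d → ℤ) (xp X : Fin (n + 1) → ℤ)
    (hA : ∀ m, (p : ℤ) ^ (2 * k) ∣ A m - A0 m) (hF : (p : ℤ) ^ (2 * k) ∣ F A0 xp)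
    (hD : ∀ j, (p : ℤ) ^ c ∣ D A0 xp j) (hX : ∀ i, (p : ℤ) ^ (2 * k - c) ∣ X i - xp i) :
    (p : ℤ) ^ (2 * k) ∣ F A X := by
  choose v hv using hX
  have hXe : X = fun i => xp i + (p : ℤ) ^ (2 * k - c) * v i := by
    funext i; rw [← hv i]; ring
  obtain ⟨r, hr⟩ := F_add_smul A xp v ((p : ℤ) ^ (2 * k - c))
  rw [hXe, hr]
  have hA2 : ∀ m, (p : ℤ) ^ c ∣ A m - A0 m := fun m =>
    (pow_dvd_pow _ (by omega)).trans (hA m)
  have h1 : (p : ℤ) ^ (2 * k) ∣ F A xp := by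
    have h2 := F_congr_mod ((p : ℤ) ^ (2 * k)) A A0 xp xp hA (fun i => by simp)
    have h3 := dvd_add h2 hF
    simpa using h3
  have h2 : ∀ j, (p : ℤ) ^ c ∣ D A xp j := by
    intro j
    have h2 := D_congr_mod ((p : ℤ) ^ c) A A0 xp xp j hA2 (fun i => by simp)
    have h3 := dvd_add h2 (hD j)
    simpa using h3
  have h3 : (p : ℤ) ^ (2 * k) ∣ (p : ℤ) ^ (2 * k - c) * ∑ j, D A xp j * v j := by
    have h4 : (p : ℤ) ^ (2 * k) = (p : ℤ) ^ (2 * k - c) * (p : ℤ) ^ c := by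
      rw [← pow_add]; congr 1; omega
    rw [h4]
    exact mul_dvd_mul_left _ (Finset.dvd_sum fun j _ => (h2 j).mul_right _)
  have h4 : (p : ℤ) ^ (2 * k) ∣ ((p : ℤ) ^ (2 * k - c)) ^ 2 * r := by
    rw [← pow_mul]
    exact (pow_dvd_pow _ (by omega)).mul_right _
  exact dvd_add (dvd_add h1 h3) h4

private theorem hd_local_D {n d : ℕ} (p k c : ℕ) (hc : c < k) (A A0 : Idx n d → ℤ) (xp X : Fin (n + 1) → ℤ)
    (hA : ∀ m, (p : ℤ) ^ (2 * k) ∣ A m - A0 m)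
    (hD : ∀ j, (p : ℤ) ^ c ∣ D A0 xp j) (hX : ∀ i, (p : ℤ) ^ (2 * k - c) ∣ X i - xp i)
    (jp : Fin (n + 1)) (hj : ¬ (p : ℤ) ^ (c + 1) ∣ D A0 xp jp) (h : Fin (n + 1) → ℤ)
    (hh : ∀ i, (p : ℤ) ∣ h i - if i = jp then 1 else 0) :
    (p : ℤ) ^ c ∣ ∑ j, D A X j * h j ∧ ¬ (p : ℤ) ^ (c + 1) ∣ ∑ j, D A X j * h j := by
  have hA2 : ∀ m, (p : ℤ) ^ (c + 1) ∣ A m - A0 m := fun m =>
    (pow_dvd_pow _ (by omega)).trans (hA m)
  have hX2 : ∀ i, (p : ℤ) ^ (c + 1) ∣ X i - xp i := fun i =>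
    (pow_dvd_pow _ (by omega)).trans (hX i)
  have h1 : ∀ j, (p : ℤ) ^ (c + 1) ∣ D A X j - D A0 xp j := fun j =>
    D_congr_mod _ A A0 X xp j hA2 hX2
  have h2 : ∀ j, (p : ℤ) ^ c ∣ D A X j := by
    intro j
    have h3 := dvd_add ((pow_dvd_pow _ (Nat.le_succ c)).trans (h1 j)) (hD j)
    simpa using h3
  have h3 : (p : ℤ) ^ (c + 1) ∣ ∑ j, D A X j * h j - D A X jp := by
    have h4 : ∑ j, D A X j * h j - D A X jp
        = ∑ j, D A X j * (h j - if j = jp then 1 else 0) := by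
      simp only [mul_sub, Finset.sum_sub_distrib]
      simp
    rw [h4]
    refine Finset.dvd_sum fun j _ => ?_
    rw [pow_succ]
    exact mul_dvd_mul (h2 j) (hh j)
  refine ⟨Finset.dvd_sum fun j _ => (h2 j).mul_right _, fun h4 => hj ?_⟩
  have h5 : D A0 xp jp = ∑ j, D A X j * h j - (∑ j, D A X j * h j - D A X jp)
      - (D A X jp - D A0 xp jp) := by ring
  rw [h5]
  exact dvd_sub (dvd_sub h4 h3) (h1 jp)

private theorem hd_local_E (p k c : ℕ) (hp : p.Prime) (hc : c < k) (P P' : ℤ)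
    (hP : P = (p : ℤ) ^ (2 * k - c) * P') (hP' : ¬ (p : ℤ) ∣ P') (S t r : ℤ)
    (hS : (p : ℤ) ^ c ∣ S) (hS' : ¬ (p : ℤ) ^ (c + 1) ∣ S) :
    (p : ℤ) ^ (2 * k) ∣ P * S + t * P ^ 2 * r ∧ ¬ (p : ℤ) ^ (2 * k + 1) ∣ P * S + t * P ^ 2 * r := by
  have hpp : Prime (p : ℤ) := Nat.prime_iff_prime_int.mp hp
  obtain ⟨s, hs⟩ := hS
  have hps : ¬ (p : ℤ) ∣ s := by
    intro h
    apply hS'
    rw [hs, pow_succ]
    exact mul_dvd_mul_left _ h
  have h1 : P * S = (p : ℤ) ^ (2 * k) * (P' * s) := by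
    have h4 : (p : ℤ) ^ (2 * k) = (p : ℤ) ^ (2 * k - c) * (p : ℤ) ^ c := by
      rw [← pow_add]; congr 1; omega
    rw [h4, hP, hs]; ring
  have h2 : (p : ℤ) ^ (2 * k + 1) ∣ t * P ^ 2 * r := by
    have h5 : (p : ℤ) ^ (2 * k + 1) ∣ P ^ 2 := by
      rw [hP, mul_pow, ← pow_mul]
      exact (pow_dvd_pow _ (by omega)).mul_right _
    exact (h5.mul_left t).mul_right r
  constructor
  · refine dvd_add ⟨_, h1⟩ ((pow_dvd_pow _ (Nat.le_succ _)).trans h2)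
  · intro h3
    have h4 : (p : ℤ) ^ (2 * k + 1) ∣ P * S := by
      have := dvd_sub h3 h2
      simpa using this
    rw [h1, pow_succ] at h4
    have h6 : (p : ℤ) ∣ P' * s :=
      (mul_dvd_mul_iff_left (pow_ne_zero _ hpp.ne_zero)).mp h4
    rcases hpp.dvd_or_dvd h6 with h | h
    · exact hP' h
    · exact hps h

theorem hens_of_local {n d : ℕ} (hd : 1 ≤ d) (w k : ℕ) (hw : 2 ≤ w) (hk : 1 ≤ k) (A0 : Idx n d → ℤ)
    (hloc : ∀ p : ℕ, p.Prime → p ≤ w → ∃ x : Fin (n + 1) → ℤ, (∃ i, ¬ (p : ℤ) ∣ x i) ∧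
      ((p : ℤ) ^ (2 * k)) ∣ F A0 x ∧ ∃ j, ¬ ((p : ℤ) ^ k ∣ D A0 x j)) :
    ∃ (P : ℕ) (x0 : Fin (n + 1) → ℤ), 0 < P ∧
      Hens P ((primorial w) ^ (2 * k)) (primorial w) A0 x0 := by
  classical
  set S : Finset ℕ := (Finset.range (w + 1)).filter Nat.Prime with hSdef
  have hSp : ∀ p ∈ S, p.Prime := fun p hp => (Finset.mem_filter.mp hp).2
  have hSw : ∀ p ∈ S, p ≤ w := fun p hp => by
    have := (Finset.mem_filter.mp hp).1
    rw [Finset.mem_range] at this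
    omega
  have hWS : primorial w = ∏ p ∈ S, p := rfl
  -- local data
  have hdat : ∀ p : ℕ, ∃ (x : Fin (n + 1) → ℤ) (i0 : Fin (n + 1)) (c : ℕ) (jp : Fin (n + 1)), p ∈ S →
      (¬ (p : ℤ) ∣ x i0 ∧ ((p : ℤ) ^ (2 * k)) ∣ F A0 x ∧ c < k ∧
        (∀ j, (p : ℤ) ^ c ∣ D A0 x j) ∧ ¬ (p : ℤ) ^ (c + 1) ∣ D A0 x jp) := by
    intro p
    by_cases hp : p ∈ S
    · obtain ⟨x, ⟨i0, hi0⟩, hF, ⟨j, hj⟩⟩ := hloc p (hSp p hp) (hSw p hp)
      -- least exponent at which some derivative is not divisible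
      have hex : ∃ a : ℕ, ∃ j, ¬ ((p : ℤ) ^ a ∣ D A0 x j) := ⟨k, j, hj⟩
      obtain ⟨jp, hjp⟩ := Nat.find_spec hex
      have hle : Nat.find hex ≤ k := Nat.find_min' hex ⟨j, hj⟩
      have hpos : 0 < Nat.find hex := by
        rcases Nat.eq_zero_or_pos (Nat.find hex) with h0 | h0
        · rw [h0, pow_zero] at hjp
          exact absurd (one_dvd _) hjp
        · exact h0
      refine ⟨x, i0, Nat.find hex - 1, jp, fun _ => ⟨hi0, hF, by omega, fun j' => ?_, ?_⟩⟩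
      · by_contra hcon
        exact Nat.find_min hex (m := Nat.find hex - 1) (by omega) ⟨j', hcon⟩
      · have : Nat.find hex - 1 + 1 = Nat.find hex := by omega
        rw [this]; exact hjp
    · exact ⟨0, 0, 0, 0, fun h => absurd h hp⟩
  choose xp ip c jp hprop using hdat
  -- the modulus for the points
  set P : ℕ := ∏ p ∈ S, p ^ (2 * k - c p) with hPdef
  have hPpos : 0 < P := Finset.prod_pos fun p hp => pow_pos (hSp p hp).pos _
  have hPfac : ∀ p ∈ S, ∃ P' : ℤ, (P : ℤ) = (p : ℤ) ^ (2 * k - c p) * P' ∧ ¬ (p : ℤ) ∣ P' := by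
    intro p hp
    refine ⟨((∏ q ∈ S.erase p, q ^ (2 * k - c q) : ℕ) : ℤ), ?_, ?_⟩
    · rw [hPdef, ← Finset.mul_prod_erase S _ hp]
      push_cast
      ring
    · intro hdiv
      have hdiv' : p ∣ ∏ q ∈ S.erase p, q ^ (2 * k - c q) := by exact_mod_cast hdiv
      rw [(Nat.Prime.prime (hSp p hp)).dvd_finsetProd_iff] at hdiv'
      obtain ⟨q, hq, hpq⟩ := hdiv'
      have h1 := (hSp p hp).dvd_of_dvd_pow hpq
      have h2 := (Nat.prime_dvd_prime_iff_eq (hSp p hp)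
        (hSp q (Finset.mem_of_mem_erase hq))).mp h1
      exact (Finset.ne_of_mem_erase hq) h2.symm
  have hcop : (S : Set ℕ).Pairwise fun p q => IsCoprime ((p : ℤ) ^ (2 * k)) ((q : ℤ) ^ (2 * k)) := by
    intro p hp q hq hpq
    apply IsCoprime.pow
    exact Nat.isCoprime_iff_coprime.mpr ((Nat.coprime_primes (hSp p hp) (hSp q hq)).mpr hpq)
  have hQ : ((primorial w ^ (2 * k) : ℕ) : ℤ) = ∏ p ∈ S, (p : ℤ) ^ (2 * k) := by
    rw [hWS]
    push_cast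
    rw [Finset.prod_pow]
  have hQdvd : ∀ z : ℤ, (∀ p ∈ S, (p : ℤ) ^ (2 * k) ∣ z) →
      ((primorial w ^ (2 * k) : ℕ) : ℤ) ∣ z := by
    intro z hz
    rw [hQ]
    exact Finset.prod_dvd_of_coprime hcop hz
  have hdvdQ : ∀ p ∈ S, (p : ℤ) ^ (2 * k) ∣ ((primorial w ^ (2 * k) : ℕ) : ℤ) := by
    intro p hp
    rw [hQ]
    exact Finset.dvd_prod_of_mem (fun p : ℕ => (p : ℤ) ^ (2 * k)) hp
  have hcopW : ∀ z : ℤ, (∀ p ∈ S, ¬ (p : ℤ) ∣ z) → IsCoprime z ((primorial w : ℕ) : ℤ) := by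
    intro z hz
    rw [hWS]
    push_cast
    refine IsCoprime.prod_right fun p hp => ?_
    have hpp : Prime (p : ℤ) := Nat.prime_iff_prime_int.mp (hSp p hp)
    exact (hpp.coprime_iff_not_dvd.mpr (hz p hp)).symm
  -- CRT
  have hx0 : ∀ i, ∃ y : ℤ, ∀ p ∈ S, (p : ℤ) ^ (2 * k) ∣ y - xp p i := fun i =>
    hd_crt S hSp (2 * k) fun p => xp p i
  choose x0 hx0 using hx0
  have hh : ∀ i : Fin (n + 1), ∃ y : ℤ, ∀ p ∈ S, (p : ℤ) ^ 1 ∣ y - if i = jp p then 1 else 0 := fun i =>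
    hd_crt S hSp 1 fun p => if i = jp p then 1 else 0
  choose h hh using hh
  have hc0 : ∀ i : Fin (n + 1), ∃ y : ℤ, ∀ p ∈ S, (p : ℤ) ^ 1 ∣ y - if i = ip p then 1 else 0 := fun i =>
    hd_crt S hSp 1 fun p => if i = ip p then 1 else 0
  choose c0 hc0 using hc0
  simp only [pow_one] at hh hc0
  have hX : ∀ p ∈ S, ∀ u : Fin (n + 1) → ℤ, ∀ i,
      (p : ℤ) ^ (2 * k - c p) ∣ (x0 i + P * u i) - xp p i := by
    intro p hp u i
    obtain ⟨P', hP', -⟩ := hPfac p hp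
    have h1 : (x0 i + P * u i) - xp p i = (x0 i - xp p i) + P * u i := by ring
    rw [h1]
    refine dvd_add ((pow_dvd_pow _ (Nat.sub_le _ _)).trans (hx0 i p hp)) ?_
    rw [hP', mul_assoc]
    exact dvd_mul_right _ _
  refine ⟨P, x0, hPpos, ?_, ⟨2 * k, rfl⟩, ?_, ?_, h, ?_⟩
  · rw [hPdef, hWS, ← Finset.prod_pow]
    exact Finset.prod_dvd_prod_of_dvd _ _ fun p _ => pow_dvd_pow _ (Nat.sub_le _ _)
  · intro A hA u
    refine hQdvd _ fun p hp => ?_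
    obtain ⟨-, hF, hc, hD, -⟩ := hprop p hp
    exact hd_local_F p k (c p) hc A A0 (xp p) _ (fun m => (hdvdQ p hp).trans (hA m)) hF hD
      (hX p hp u)
  · intro u
    refine ⟨c0, hcopW _ fun p hp hdiv => ?_⟩
    obtain ⟨hi, -, hc, -, -⟩ := hprop p hp
    apply hi
    have hXp : ∀ i, (p : ℤ) ∣ (x0 i + P * u i) - xp p i := fun i =>
      (dvd_pow_self _ (by omega)).trans (hX p hp u i)
    have h1 : (p : ℤ) ∣ ∑ i, c0 i * (x0 i + P * u i) - xp p (ip p) := by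
      have h2 : ∑ i, c0 i * (x0 i + P * u i) - xp p (ip p) =
          ∑ i, (c0 i * ((x0 i + P * u i) - xp p i)
            + (c0 i - if i = ip p then 1 else 0) * xp p i) := by
        have h3 : xp p (ip p) = ∑ i, (if i = ip p then 1 else 0) * xp p i := by simp
        rw [h3, ← Finset.sum_sub_distrib]
        exact Finset.sum_congr rfl fun i _ => by ring
      rw [h2]
      exact Finset.dvd_sum fun i _ => dvd_add ((hXp i).mul_left _) ((hc0 i p hp).mul_right _)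
    have := dvd_sub hdiv h1
    simpa using this
  · intro A hA u t
    obtain ⟨r, hr⟩ := F_add_smul A (fun i => x0 i + P * u i) h (t * P)
    set Sg : ℤ := ∑ j, D A (fun i => x0 i + P * u i) j * h j with hSg
    have hloc2 : ∀ p ∈ S, (p : ℤ) ^ (2 * k) ∣ (P : ℤ) * Sg + t * (P : ℤ) ^ 2 * r ∧
        ¬ (p : ℤ) ^ (2 * k + 1) ∣ (P : ℤ) * Sg + t * (P : ℤ) ^ 2 * r := by
      intro p hp
      obtain ⟨P', hP', hP''⟩ := hPfac p hp
      obtain ⟨-, hF, hc, hD, hj⟩ := hprop p hp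
      have h2 := hd_local_D p k (c p) hc A A0 (xp p) (fun i => x0 i + P * u i)
        (fun m => (hdvdQ p hp).trans (hA m)) hD (hX p hp u) (jp p) hj h (fun i => hh i p hp)
      exact hd_local_E p k (c p) (hSp p hp) hc P P' hP' hP'' Sg t r h2.1 h2.2
    obtain ⟨e, he⟩ := hQdvd _ fun p hp => (hloc2 p hp).1
    refine ⟨e, hcopW e fun p hp hdiv => (hloc2 p hp).2 ?_, ?_⟩
    · rw [he, pow_succ]
      exact mul_dvd_mul (hdvdQ p hp) hdiv
    · have h3 : (fun i => x0 i + (P : ℤ) * (u i + t * h i))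
          = fun i => (x0 i + P * u i) + (t * P) * h i := by
        funext i; ring
      rw [h3, hr]
      have h4 : F A (fun i => x0 i + P * u i) + t * P * Sg + (t * P) ^ 2 * r
          - F A (fun i => x0 i + P * u i) = t * ((P : ℤ) * Sg + t * (P : ℤ) ^ 2 * r) := by ring
      rw [h4, he]
      ring

end GenHP
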