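import Pool.Agent.Lib.MP_e426f4_ag.G.Defs

/-!
# Real estimates for polynomials with given exponents (module G-ALR)
-/

namespace GenHP

open Finset Filter Topology

namespace ALR

section monomials
variable {ι : Type*} [Fintype ι] [DecidableEq ι]

/-- Induction on exponent vectors, one variable at a time. -/
theorem induct (P : ℕ → (ι → ℕ) → Prop) (h0 : P 0 0)
    (hs : ∀ k t j, P k t → P (k + 1) (t + Pi.single j 1)) : ∀ t : ι → ℕ, P (∑ i, t i) t := by
  have key : ∀ k : ℕ, ∀ t : ι → ℕ, ∑ i, t i = k → P k t := by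
    intro k
    induction k with
    | zero =>
      intro t ht
      have : t = 0 := by
        funext i
        have := (Finset.sum_eq_zero_iff).mp ht i (mem_univ i)
        simpa using this
      rw [this]; exact h0
    | succ k ih =>
      intro t ht
      obtain ⟨j, hj⟩ : ∃ j, t j ≠ 0 := by
        by_contra hcon
        push Not at hcon
        rw [Finset.sum_eq_zero (fun i _ => hcon i)] at ht
        omega
      set t' : ι → ℕ := Function.update t j (t j - 1) with ht'
      have e : t = t' + Pi.single j 1 := by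
        funext i
        by_cases hi : i = j
        · subst hi
          simp [ht']; omega
        · simp [ht', hi]
      have hs' : ∑ i, t' i = k := by
        have : ∑ i, t i = ∑ i, t' i + 1 := by
          conv_lhs => rw [e]
          simp [Finset.sum_add_distrib]
        omega
      rw [e]
      exact hs k t' j (ih t' hs')
  intro t
  exact key _ t rfl

section ring
variable {R : Type*} [CommRing R]

theorem mon_zero (x : ι → R) : mon x (0 : ι → ℕ) = 1 := by
  simp [mon]

theorem dmon_zero (x : ι → R) (j : ι) : dmon x j (0 : ι → ℕ) = 0 := by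
  simp [dmon]

theorem mon_succ (x : ι → R) (t : ι → ℕ) (j : ι) :
    mon x (t + Pi.single j 1) = x j * mon x t := by
  unfold mon
  rw [← Finset.mul_prod_erase univ _ (mem_univ j), ← Finset.mul_prod_erase univ _ (mem_univ j)]
  rw [← mul_assoc]
  congr 1
  · simp [pow_succ, mul_comm]
  · refine Finset.prod_congr rfl fun i hi => ?_
    have : i ≠ j := (Finset.mem_erase.mp hi).1
    simp [this]

theorem dmon_succ (x : ι → R) (t : ι → ℕ) (i j : ι) :
    dmon x i (t + Pi.single j 1) = (if i = j then mon x t else 0) + x j * dmon x i t := by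
  by_cases hij : i = j
  · subst hij
    rw [if_pos rfl]
    unfold dmon mon
    rw [← Finset.mul_prod_erase univ _ (mem_univ i), ← Finset.mul_prod_erase univ _ (mem_univ i),
      ← Finset.mul_prod_erase univ _ (mem_univ i)]
    have e1 : ∏ l ∈ univ.erase i, x l ^ (if l = i then (t + Pi.single i 1 : ι → ℕ) l - 1
        else (t + Pi.single i 1 : ι → ℕ) l) = ∏ l ∈ univ.erase i, x l ^ t l := by
      refine Finset.prod_congr rfl fun l hl => ?_
      have : l ≠ i := (Finset.mem_erase.mp hl).1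
      simp [this]
    have e2 : ∏ l ∈ univ.erase i, x l ^ (if l = i then t l - 1 else t l)
        = ∏ l ∈ univ.erase i, x l ^ t l := by
      refine Finset.prod_congr rfl fun l hl => ?_
      have : l ≠ i := (Finset.mem_erase.mp hl).1
      simp [this]
    rw [e1, e2]
    rcases Nat.eq_zero_or_pos (t i) with h0 | h0
    · simp [h0]
    · obtain ⟨m, hm⟩ : ∃ m, t i = m + 1 := ⟨t i - 1, by omega⟩
      simp [hm]
      ring
  · rw [if_neg hij, zero_add]
    unfold dmon
    have e0 : (t + Pi.single j 1 : ι → ℕ) i = t i := by simp [hij]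
    rw [e0]
    rw [← Finset.mul_prod_erase univ _ (mem_univ j), ← Finset.mul_prod_erase univ
      (fun l => x l ^ (if l = i then t l - 1 else t l)) (mem_univ j)]
    have e1 : ∏ l ∈ univ.erase j, x l ^ (if l = i then (t + Pi.single j 1 : ι → ℕ) l - 1
        else (t + Pi.single j 1 : ι → ℕ) l)
        = ∏ l ∈ univ.erase j, x l ^ (if l = i then t l - 1 else t l) := by
      refine Finset.prod_congr rfl fun l hl => ?_
      have : l ≠ j := (Finset.mem_erase.mp hl).1
      simp [this]
    rw [e1]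
    have hji : ¬ j = i := fun h => hij h.symm
    rw [if_neg hji, if_neg hji]
    simp only [Pi.add_apply, Pi.single_eq_same]
    ring

end ring

/-- first order difference of a monomial -/
theorem mon_abs_le (x : ι → ℝ) (X : ℝ) (hX : 1 ≤ X) (hx : ∀ i, |x i| ≤ X) (t : ι → ℕ) :
    |mon x t| ≤ X ^ (∑ i, t i) := by
  refine induct (P := fun k t => |mon x t| ≤ X ^ k) ?_ ?_ t
  · rw [mon_zero]; simp
  · intro k t j h
    rw [mon_succ, abs_mul, pow_succ, mul_comm (X ^ k)]
    exact mul_le_mul (hx j) h (abs_nonneg _) (by linarith)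

theorem dmon_abs_le (x : ι → ℝ) (i : ι) (X : ℝ) (hX : 1 ≤ X) (hx : ∀ i, |x i| ≤ X)
    (t : ι → ℕ) : |dmon x i t| ≤ ((∑ l, t l : ℕ) : ℝ) * X ^ (∑ l, t l) := by
  have := induct (ι := ι) (P := fun k t => |mon x t| ≤ X ^ k ∧ |dmon x i t| ≤ (k : ℝ) * X ^ k)
    ?_ ?_ t
  · exact this.2
  · rw [mon_zero, dmon_zero]; simp
  · rintro k t j ⟨h1, h2⟩
    refine ⟨?_, ?_⟩
    · rw [mon_succ, abs_mul, pow_succ, mul_comm (X ^ k)]
      exact mul_le_mul (hx j) h1 (abs_nonneg _) (by linarith)
    · rw [dmon_succ]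
      have hX0 : 0 < X := by linarith
      have hk : X ^ k ≤ X ^ (k + 1) := pow_le_pow_right₀ hX (by omega)
      have e1 : |(if i = j then mon x t else 0)| ≤ X ^ (k + 1) := by
        split_ifs
        · exact h1.trans hk
        · simp; positivity
      have e2 : |x j * dmon x i t| ≤ X * ((k : ℝ) * X ^ k) := by
        rw [abs_mul]
        exact mul_le_mul (hx j) h2 (abs_nonneg _) hX0.le
      refine (abs_add_le _ _).trans ?_
      push_cast
      have e3 : X * ((k : ℝ) * X ^ k) = (k : ℝ) * X ^ (k + 1) := by ring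
      rw [e3] at e2
      linarith

theorem diffs (x y : ι → ℝ) (i : ι) (X Y : ℝ) (hX : 1 ≤ X) (hY : 0 ≤ Y) (hYX : Y ≤ X)
    (hx : ∀ i, |x i| ≤ X) (hy : ∀ i, |y i| ≤ Y) (t : ι → ℕ) :
    |mon (fun l => x l + y l) t - mon x t - ∑ j, dmon x j t * y j|
        ≤ 4 ^ (∑ l, t l) * X ^ (∑ l, t l) * Y ^ 2 ∧
    |dmon (fun l => x l + y l) i t - dmon x i t|
        ≤ ((∑ l, t l : ℕ) : ℝ) * 4 ^ (∑ l, t l) * X ^ (∑ l, t l) * Y := by
  have := induct (ι := ι) (P := fun k t =>
    |mon x t| ≤ X ^ k ∧ |dmon x i t| ≤ (k : ℝ) * X ^ k ∧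
    |mon (fun l => x l + y l) t - mon x t| ≤ (2 ^ k - 1) * X ^ k * Y ∧
    |mon (fun l => x l + y l) t - mon x t - ∑ j, dmon x j t * y j| ≤ 4 ^ k * X ^ k * Y ^ 2 ∧
    |dmon (fun l => x l + y l) i t - dmon x i t| ≤ (k : ℝ) * 4 ^ k * X ^ k * Y) ?_ ?_ t
  · exact ⟨this.2.2.2.1, this.2.2.2.2⟩
  · refine ⟨?_, ?_, ?_, ?_, ?_⟩
    · rw [mon_zero]; simp
    · rw [dmon_zero]; simp
    · rw [mon_zero, mon_zero]; simp
    · rw [mon_zero, mon_zero]
      simp only [dmon_zero]
      simp
      positivity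
    · rw [dmon_zero, dmon_zero]; simp
  · rintro k t j ⟨h1, h2, h3, h4, h5⟩
    have hX0 : 0 < X := by linarith
    have hk : X ^ k ≤ X ^ (k + 1) := pow_le_pow_right₀ hX (by omega)
    have hxj : |x j + y j| ≤ 2 * X := (abs_add_le _ _).trans (by linarith [hx j, hy j])
    have hXk : 0 < X ^ k := by positivity
    have h24 : (2 : ℝ) ^ k ≤ 4 ^ k := pow_le_pow_left₀ (by norm_num) (by norm_num) k
    have h2k : (1 : ℝ) ≤ 2 ^ k := one_le_pow₀ (by norm_num)
    have hk2 : (k : ℝ) ≤ 2 ^ k := by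
      have := (Nat.lt_two_pow_self (n := k)).le
      calc (k : ℝ) ≤ ((2 ^ k : ℕ) : ℝ) := by exact_mod_cast this
        _ = 2 ^ k := by push_cast; rfl
    refine ⟨?_, ?_, ?_, ?_, ?_⟩
    · rw [mon_succ, abs_mul, pow_succ, mul_comm (X ^ k)]
      exact mul_le_mul (hx j) h1 (abs_nonneg _) hX0.le
    · rw [dmon_succ]
      have e1 : |(if i = j then mon x t else 0)| ≤ X ^ (k + 1) := by
        split_ifs
        · exact h1.trans hk
        · simp; positivity
      have e2 : |x j * dmon x i t| ≤ X * ((k : ℝ) * X ^ k) := by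
        rw [abs_mul]
        exact mul_le_mul (hx j) h2 (abs_nonneg _) hX0.le
      refine (abs_add_le _ _).trans ?_
      push_cast
      have e3 : X * ((k : ℝ) * X ^ k) = (k : ℝ) * X ^ (k + 1) := by ring
      rw [e3] at e2
      linarith
    · -- first difference
      rw [mon_succ, mon_succ]
      have e : (x j + y j) * mon (fun l => x l + y l) t - x j * mon x t
          = (x j + y j) * (mon (fun l => x l + y l) t - mon x t)
            + y j * mon x t := by ring
      rw [e]
      refine (abs_add_le _ _).trans ?_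
      rw [abs_mul, abs_mul]
      have a1 : |x j + y j| * |mon (fun l => x l + y l) t - mon x t|
          ≤ (2 * X) * ((2 ^ k - 1) * X ^ k * Y) :=
        mul_le_mul hxj h3 (abs_nonneg _) (by linarith)
      have a2 : |y j| * |mon x t| ≤ Y * X ^ (k + 1) :=
        mul_le_mul (hy j) (h1.trans hk) (abs_nonneg _) hY
      have a3 : (2 * X) * ((2 ^ k - 1) * X ^ k * Y) + Y * X ^ (k + 1)
          = (2 ^ (k + 1) - 1) * X ^ (k + 1) * Y := by ring
      linarith
    · -- second order remainder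
      have e : mon (fun l => x l + y l) (t + Pi.single j 1) - mon x (t + Pi.single j 1)
          - ∑ l, dmon x l (t + Pi.single j 1) * y l
          = x j * (mon (fun l => x l + y l) t - mon x t - ∑ l, dmon x l t * y l)
            + y j * (mon (fun l => x l + y l) t - mon x t) := by
        rw [mon_succ, mon_succ]
        have e1 : ∑ l, dmon x l (t + Pi.single j 1) * y l
            = mon x t * y j + x j * ∑ l, dmon x l t * y l := by
          rw [Finset.mul_sum]
          have : ∀ l, dmon x l (t + Pi.single j 1) * y l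
              = (if l = j then mon x t * y l else 0) + x j * (dmon x l t * y l) := by
            intro l
            rw [dmon_succ]
            split_ifs <;> ring
          rw [Finset.sum_congr rfl fun l _ => this l, Finset.sum_add_distrib]
          simp
        rw [e1]; ring
      rw [e]
      refine (abs_add_le _ _).trans ?_
      rw [abs_mul, abs_mul]
      have a1 := mul_le_mul (hx j) h4 (abs_nonneg _) hX0.le
      have a2 := mul_le_mul (hy j) h3 (abs_nonneg _) hY
      have a3 : Y * ((2 ^ k - 1) * X ^ k * Y) ≤ 4 ^ k * X ^ (k + 1) * Y ^ 2 := by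
        have b1 : (2 ^ k - 1 : ℝ) * X ^ k ≤ 4 ^ k * X ^ (k + 1) :=
          mul_le_mul (by linarith) hk hXk.le (by positivity)
        calc Y * ((2 ^ k - 1) * X ^ k * Y) = ((2 ^ k - 1) * X ^ k) * Y ^ 2 := by ring
          _ ≤ 4 ^ k * X ^ (k + 1) * Y ^ 2 := mul_le_mul_of_nonneg_right b1 (by positivity)
      have a4 : 4 ^ (k + 1) * X ^ (k + 1) * Y ^ 2
          = X * (4 ^ k * X ^ k * Y ^ 2) + 3 * (4 ^ k * X ^ (k + 1) * Y ^ 2) := by ring
      have a5 : 0 ≤ 4 ^ k * X ^ (k + 1) * Y ^ 2 := by positivity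
      linarith
    · -- difference of the derivatives
      have e : dmon (fun l => x l + y l) i (t + Pi.single j 1) - dmon x i (t + Pi.single j 1)
          = (if i = j then mon (fun l => x l + y l) t - mon x t else 0)
            + (x j + y j) * (dmon (fun l => x l + y l) i t - dmon x i t)
            + y j * dmon x i t := by
        rw [dmon_succ, dmon_succ]
        split_ifs <;> ring
      rw [e]
      refine (abs_add_le _ _).trans ?_
      have a0 := abs_add_le (if i = j then mon (fun l => x l + y l) t - mon x t else 0)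
        ((x j + y j) * (dmon (fun l => x l + y l) i t - dmon x i t))
      have a1 : |(if i = j then mon (fun l => x l + y l) t - mon x t else 0)|
          ≤ (2 ^ k - 1) * X ^ k * Y := by
        split_ifs
        · exact h3
        · rw [abs_zero]
          have : (0 : ℝ) ≤ 2 ^ k - 1 := by linarith
          positivity
      have a2 : |(x j + y j) * (dmon (fun l => x l + y l) i t - dmon x i t)|
          ≤ (2 * X) * ((k : ℝ) * 4 ^ k * X ^ k * Y) := by
        rw [abs_mul]
        exact mul_le_mul hxj h5 (abs_nonneg _) (by linarith)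
      have a3 : |y j * dmon x i t| ≤ Y * ((k : ℝ) * X ^ k) := by
        rw [abs_mul]
        exact mul_le_mul (hy j) h2 (abs_nonneg _) hY
      have b1 : (2 ^ k - 1) * X ^ k * Y ≤ 4 ^ k * X ^ (k + 1) * Y :=
        mul_le_mul_of_nonneg_right
          (mul_le_mul (by linarith) hk hXk.le (by positivity)) hY
      have b2 : Y * ((k : ℝ) * X ^ k) ≤ 4 ^ k * X ^ (k + 1) * Y := by
        calc Y * ((k : ℝ) * X ^ k) = ((k : ℝ) * X ^ k) * Y := by ring
          _ ≤ 4 ^ k * X ^ (k + 1) * Y := mul_le_mul_of_nonneg_right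
              (mul_le_mul (hk2.trans h24) hk hXk.le (by positivity)) hY
      push_cast
      have b3 : ((k : ℝ) + 1) * 4 ^ (k + 1) * X ^ (k + 1) * Y
          = 2 * ((2 * X) * ((k : ℝ) * 4 ^ k * X ^ k * Y)) + 4 * (4 ^ k * X ^ (k + 1) * Y) := by ring
      have b4 : 0 ≤ (2 * X) * ((k : ℝ) * 4 ^ k * X ^ k * Y) := by positivity
      have b5 : 0 ≤ 4 ^ k * X ^ (k + 1) * Y := by positivity
      linarith

/-- the derivative of a monomial along a coordinate line -/
theorem hasDerivAt_mon_line (x : ι → ℝ) (j : ι) (s : ℝ) (t : ι → ℕ) :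
    HasDerivAt (fun s : ℝ => mon (Function.update x j s) t)
      (dmon (Function.update x j s) j t) s := by
  refine induct (P := fun _ t => HasDerivAt (fun s : ℝ => mon (Function.update x j s) t)
      (dmon (Function.update x j s) j t) s) ?_ ?_ t
  · simp only [mon_zero, dmon_zero]
    exact hasDerivAt_const _ _
  · intro _ t l h
    simp only [mon_succ, dmon_succ]
    by_cases hl : j = l
    · subst hl
      simp only [Function.update_self, if_true]
      have := (hasDerivAt_id' s).fun_mul h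
      simpa using this
    · have hl' : l ≠ j := fun h => hl h.symm
      simp only [Function.update_of_ne hl', if_neg hl, zero_add]
      exact h.const_mul (x l)

end monomials

theorem sum_bound {I : Type*} [Fintype I] (A B : I → ℝ) (a b : ℝ) (hA : ∀ m, |A m| ≤ a)
    (hB : ∀ m, |B m| ≤ b) : |∑ m, A m * B m| ≤ Fintype.card I * (a * b) := by
  calc |∑ m, A m * B m| ≤ ∑ m, |A m * B m| := Finset.abs_sum_le_sum_abs _ _
    _ ≤ ∑ _m : I, a * b := by
        refine Finset.sum_le_sum fun m _ => ?_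
        rw [abs_mul]
        exact mul_le_mul (hA m) (hB m) (abs_nonneg _) ((abs_nonneg _).trans (hA m))
    _ = Fintype.card I * (a * b) := by
        rw [Finset.sum_const, nsmul_eq_mul, Finset.card_univ]

end ALR

section ALR

theorem Fg_abs_le {I ι : Type*} [Fintype I] [Fintype ι] (e : I → ι → ℕ) (dd : ℕ)
    (he : ∀ t, ∑ i, e t i ≤ dd) (A : I → ℝ) (x : ι → ℝ) (a X : ℝ) (hX : 1 ≤ X)
    (hA : ∀ m, |A m| ≤ a) (hx : ∀ i, |x i| ≤ X) :
    |Fg e A x| ≤ Fintype.card I * a * X ^ dd := by
  classical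
  rw [mul_assoc]
  exact ALR.sum_bound A _ a _ hA fun m =>
    (ALR.mon_abs_le x X hX hx (e m)).trans (pow_le_pow_right₀ hX (he m))

theorem Dg_abs_le {I ι : Type*} [Fintype I] [Fintype ι] [DecidableEq ι] (e : I → ι → ℕ) (dd : ℕ)
    (he : ∀ t, ∑ i, e t i ≤ dd) (A : I → ℝ) (x : ι → ℝ) (j : ι) (a X : ℝ) (hX : 1 ≤ X)
    (hA : ∀ m, |A m| ≤ a) (hx : ∀ i, |x i| ≤ X) :
    |Dg e A x j| ≤ Fintype.card I * dd * a * X ^ dd := by
  have h := ALR.sum_bound A (fun m => dmon x j (e m)) a ((dd : ℝ) * X ^ dd) hA fun m =>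
    (ALR.dmon_abs_le x j X hX hx (e m)).trans
      (mul_le_mul (by exact_mod_cast he m) (pow_le_pow_right₀ hX (he m)) (by positivity)
        (by positivity))
  calc |Dg e A x j| ≤ Fintype.card I * (a * ((dd : ℝ) * X ^ dd)) := h
    _ = Fintype.card I * dd * a * X ^ dd := by ring

theorem Fg_taylor {I ι : Type*} [Fintype I] [Fintype ι] [DecidableEq ι] (e : I → ι → ℕ) (dd : ℕ)
    (he : ∀ t, ∑ i, e t i ≤ dd) (A : I → ℝ) (x y : ι → ℝ) (a X Y : ℝ) (hX : 1 ≤ X) (hY : 0 ≤ Y)
    (hYX : Y ≤ X) (hA : ∀ m, |A m| ≤ a) (hx : ∀ i, |x i| ≤ X) (hy : ∀ i, |y i| ≤ Y) :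
    |Fg e A (fun i => x i + y i) - Fg e A x - ∑ j, Dg e A x j * y j| ≤
      Fintype.card I * 4 ^ dd * a * X ^ dd * Y ^ 2 := by
  rcases isEmpty_or_nonempty ι with hι | ⟨⟨i0⟩⟩
  · have e1 : ∀ m, e m = 0 := fun m => funext fun i => (hι.false i).elim
    have e2 : Fg e A (fun i => x i + y i) = Fg e A x := by
      unfold Fg
      simp [e1, ALR.mon_zero]
    rw [e2, sub_self, zero_sub, abs_neg]
    simp only [Finset.univ_eq_empty, Finset.sum_empty, abs_zero]
    rcases isEmpty_or_nonempty I with hI | ⟨⟨m0⟩⟩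
    · simp
    · have : 0 ≤ a := (abs_nonneg _).trans (hA m0)
      positivity
  · have h := ALR.sum_bound A
      (fun m => mon (fun l => x l + y l) (e m) - mon x (e m) - ∑ j, dmon x j (e m) * y j) a
      (4 ^ dd * X ^ dd * Y ^ 2) hA fun m =>
        (ALR.diffs x y i0 X Y hX hY hYX hx hy (e m)).1.trans
        (mul_le_mul_of_nonneg_right (mul_le_mul (pow_le_pow_right₀ (by norm_num) (he m))
          (pow_le_pow_right₀ hX (he m)) (by positivity) (by positivity)) (by positivity))
    have e1 : Fg e A (fun i => x i + y i) - Fg e A x - ∑ j, Dg e A x j * y j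
        = ∑ m, A m * (mon (fun l => x l + y l) (e m) - mon x (e m)
          - ∑ j, dmon x j (e m) * y j) := by
      unfold Fg Dg
      have e2 : ∑ j, (∑ t, A t * dmon x j (e t)) * y j
          = ∑ t, A t * ∑ j, dmon x j (e t) * y j := by
        simp_rw [Finset.sum_mul, Finset.mul_sum]
        rw [Finset.sum_comm]
        refine Finset.sum_congr rfl fun t _ => Finset.sum_congr rfl fun j _ => by ring
      rw [e2, ← Finset.sum_sub_distrib, ← Finset.sum_sub_distrib]
      refine Finset.sum_congr rfl fun t _ => by ring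
    rw [e1]
    refine h.trans (le_of_eq ?_)
    ring

theorem Dg_taylor {I ι : Type*} [Fintype I] [Fintype ι] [DecidableEq ι] (e : I → ι → ℕ) (dd : ℕ)
    (he : ∀ t, ∑ i, e t i ≤ dd) (A : I → ℝ) (x y : ι → ℝ) (j : ι) (a X Y : ℝ) (hX : 1 ≤ X)
    (hY : 0 ≤ Y) (hYX : Y ≤ X) (hA : ∀ m, |A m| ≤ a) (hx : ∀ i, |x i| ≤ X) (hy : ∀ i, |y i| ≤ Y) :
    |Dg e A (fun i => x i + y i) j - Dg e A x j| ≤
      Fintype.card I * dd * 4 ^ dd * a * X ^ dd * Y := by
  have h := ALR.sum_bound A (fun m => dmon (fun l => x l + y l) j (e m) - dmon x j (e m)) a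
    ((dd : ℝ) * 4 ^ dd * X ^ dd * Y) hA fun m =>
      (ALR.diffs x y j X Y hX hY hYX hx hy (e m)).2.trans
      (mul_le_mul_of_nonneg_right (mul_le_mul (mul_le_mul (by exact_mod_cast he m)
        (pow_le_pow_right₀ (by norm_num) (he m)) (by positivity) (by positivity))
        (pow_le_pow_right₀ hX (he m)) (by positivity) (by positivity)) hY)
  have e1 : Dg e A (fun i => x i + y i) j - Dg e A x j
      = ∑ m, A m * (dmon (fun l => x l + y l) j (e m) - dmon x j (e m)) := by
    unfold Dg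
    rw [← Finset.sum_sub_distrib]
    refine Finset.sum_congr rfl fun t _ => by ring
  rw [e1]
  refine h.trans (le_of_eq ?_)
  ring

theorem hasDerivAt_Fg_line {I ι : Type*} [Fintype I] [Fintype ι] [DecidableEq ι] (e : I → ι → ℕ)
    (A : I → ℝ) (x : ι → ℝ) (j : ι) (t : ℝ) :
    HasDerivAt (fun s : ℝ => Fg e A (Function.update x j s)) (Dg e A (Function.update x j t) j) t := by
  unfold Fg Dg
  exact HasDerivAt.fun_sum fun m _ => (ALR.hasDerivAt_mon_line x j t (e m)).const_mul (A m)

variable {n d : ℕ}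

theorem F_abs_le (A : Idx n d → ℝ) (x : Fin (n + 1) → ℝ) (a X : ℝ) (hX : 1 ≤ X)
    (hA : ∀ m, |A m| ≤ a) (hx : ∀ i, |x i| ≤ X) : |F A x| ≤ NN n d * a * X ^ d :=
  Fg_abs_le (fun t : Idx n d => t.1) d (fun t => t.2.le) A x a X hX hA hx

theorem D_abs_le (A : Idx n d → ℝ) (x : Fin (n + 1) → ℝ) (j : Fin (n + 1)) (a X : ℝ) (hX : 1 ≤ X)
    (hA : ∀ m, |A m| ≤ a) (hx : ∀ i, |x i| ≤ X) : |D A x j| ≤ NN n d * d * a * X ^ d :=
  Dg_abs_le (fun t : Idx n d => t.1) d (fun t => t.2.le) A x j a X hX hA hx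

theorem F_taylor_real (A : Idx n d → ℝ) (x y : Fin (n + 1) → ℝ) (a X Y : ℝ) (hX : 1 ≤ X)
    (hY : 0 ≤ Y) (hYX : Y ≤ X) (hA : ∀ m, |A m| ≤ a) (hx : ∀ i, |x i| ≤ X) (hy : ∀ i, |y i| ≤ Y) :
    |F A (fun i => x i + y i) - F A x - ∑ j, D A x j * y j| ≤
      NN n d * 4 ^ d * a * X ^ d * Y ^ 2 :=
  Fg_taylor (fun t : Idx n d => t.1) d (fun t => t.2.le) A x y a X Y hX hY hYX hA hx hy

theorem D_taylor_real (A : Idx n d → ℝ) (x y : Fin (n + 1) → ℝ) (j : Fin (n + 1)) (a X Y : ℝ)
    (hX : 1 ≤ X) (hY : 0 ≤ Y) (hYX : Y ≤ X) (hA : ∀ m, |A m| ≤ a) (hx : ∀ i, |x i| ≤ X)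
    (hy : ∀ i, |y i| ≤ Y) :
    |D A (fun i => x i + y i) j - D A x j| ≤ NN n d * d * 4 ^ d * a * X ^ d * Y :=
  Dg_taylor (fun t : Idx n d => t.1) d (fun t => t.2.le) A x y j a X Y hX hY hYX hA hx hy

theorem hasDerivAt_F_line (A : Idx n d → ℝ) (x : Fin (n + 1) → ℝ) (j : Fin (n + 1)) (t : ℝ) :
    HasDerivAt (fun s : ℝ => F A (Function.update x j s)) (D A (Function.update x j t) j) t :=
  hasDerivAt_Fg_line (fun t : Idx n d => t.1) A x j t

end ALR

end GenHP
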