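import Pool.Agent.Lib.MP_e426f4_ag.G.Defs
import Pool.Agent.Lib.MP_e426f4_ag.G.Basic
import Pool.Agent.Lib.MP_e426f4_ag.G.Alg
import Pool.Agent.Lib.MP_e426f4_ag.G.AlgReal
import Pool.Agent.Lib.MP_e426f4_ag.AP
import Pool.Agent.Lib.MP_e426f4_ag.Interval

/-! Real counting for forms of degree `d` in `n + 1` variables: G-RE2. -/

namespace GenHP

open Finset Filter Topology

/-- counting in fibres -/
theorem ncard_fiber_bounds {α β : Type*} (S : Set α) (hS : S.Finite) (g : α → β) (Y : Set β)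
    (hY : Y.Finite) (hg : ∀ x ∈ S, g x ∈ Y) (c C : ℝ)
    (h : ∀ y ∈ Y, c ≤ (Set.ncard {x | x ∈ S ∧ g x = y} : ℝ) ∧
      (Set.ncard {x | x ∈ S ∧ g x = y} : ℝ) ≤ C) :
    c * Y.ncard ≤ (S.ncard : ℝ) ∧ (S.ncard : ℝ) ≤ C * Y.ncard := by
  classical
  have h1 : S.ncard = ∑ y ∈ hY.toFinset, Set.ncard {x | x ∈ S ∧ g x = y} := by
    rw [Set.ncard_eq_toFinset_card S hS]
    rw [Finset.card_eq_sum_card_fiberwise (f := g) (t := hY.toFinset)]
    · refine Finset.sum_congr rfl fun y _ => ?_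
      rw [← Set.ncard_coe_finset]
      congr 1
      ext x
      simp
    · intro x hx
      have hx' : x ∈ S := by simpa using hx
      simpa using hg x hx'
  rw [h1, Set.ncard_eq_toFinset_card Y hY]
  push_cast
  constructor
  · calc c * (hY.toFinset.card : ℝ) = ∑ y ∈ hY.toFinset, c := by
          rw [Finset.sum_const, nsmul_eq_mul, mul_comm]
      _ ≤ _ := Finset.sum_le_sum fun y hy => (h y (by simpa using hy)).1
  · calc (∑ y ∈ hY.toFinset, (Set.ncard {x | x ∈ S ∧ g x = y} : ℝ))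
        ≤ ∑ y ∈ hY.toFinset, C := Finset.sum_le_sum fun y hy => (h y (by simpa using hy)).2
      _ = _ := by rw [Finset.sum_const, nsmul_eq_mul, mul_comm]

/-- counting in products -/
theorem ncard_pi_bounds (n : ℕ) (s : Fin n → Set ℤ) (hs : ∀ k, (s k).Finite) (a b : ℝ)
    (ha : 0 ≤ a) (h : ∀ k, a ≤ ((s k).ncard : ℝ) ∧ ((s k).ncard : ℝ) ≤ b) :
    {y : Fin n → ℤ | ∀ k, y k ∈ s k}.Finite ∧
    a ^ n ≤ (Set.ncard {y : Fin n → ℤ | ∀ k, y k ∈ s k} : ℝ) ∧
      (Set.ncard {y : Fin n → ℤ | ∀ k, y k ∈ s k} : ℝ) ≤ b ^ n := by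
  classical
  have h1 : {y : Fin n → ℤ | ∀ k, y k ∈ s k} =
      ((Fintype.piFinset fun k => (hs k).toFinset : Finset (Fin n → ℤ)) : Set (Fin n → ℤ)) := by
    ext y
    simp
  have h2 : (Set.ncard {y : Fin n → ℤ | ∀ k, y k ∈ s k} : ℝ) = ∏ k, ((s k).ncard : ℝ) := by
    rw [h1, Set.ncard_coe_finset, Fintype.card_piFinset]
    push_cast
    refine Finset.prod_congr rfl fun k _ => ?_
    rw [Set.ncard_eq_toFinset_card (s k) (hs k)]
  refine ⟨by rw [h1]; exact Finset.finite_toSet _, ?_, ?_⟩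
  · rw [h2]
    calc a ^ n = ∏ _k : Fin n, a := by rw [Finset.prod_const, Finset.card_univ, Fintype.card_fin]
      _ ≤ _ := Finset.prod_le_prod (fun _ _ => ha) (fun k _ => (h k).1)
  · rw [h2]
    calc (∏ k, ((s k).ncard : ℝ)) ≤ ∏ _k : Fin n, b :=
          Finset.prod_le_prod (fun _ _ => Nat.cast_nonneg _) (fun k _ => (h k).2)
      _ = _ := by rw [Finset.prod_const, Finset.card_univ, Fintype.card_fin]

/-- estimates for the form near the real zero -/
theorem near_zero_estimates {n d : ℕ} (Ainf A' : Idx n d → ℝ) (xi q : Fin (n + 1) → ℝ)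
    (j : Fin (n + 1)) (kap rho : ℝ)
    (hk : 0 < kap) (hk1 : kap ≤ 1 / 10) (hrho : 0 ≤ rho) (hrho2 : rho ≤ kap ^ 2)
    (hAinf : ∀ m, |Ainf m| ≤ 1)
    (hA' : ∀ m, |A' m - Ainf m| ≤ 3 * rho) (hxi : ∀ i, |xi i| ≤ 1)
    (hq : ∀ i, |q i - xi i| ≤ kap) :
    |D A' q j - D Ainf xi j| ≤ 2 * (NN n d * d * 4 ^ d) * kap := by
  have h1 : D A' q j = D Ainf q j + D (fun m => A' m - Ainf m) q j := by
    simp only [D, ← Finset.sum_add_distrib]
    refine Finset.sum_congr rfl fun t _ => ?_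
    ring
  have hq2 : ∀ i, |q i| ≤ 2 := by
    intro i
    calc |q i| = |(q i - xi i) + xi i| := by ring_nf
      _ ≤ |q i - xi i| + |xi i| := abs_add_le _ _
      _ ≤ 2 := by linarith [hq i, hxi i]
  have h2 := D_abs_le (fun m => A' m - Ainf m) q j (3 * rho) 2 (by norm_num) hA' hq2
  have h3 := D_taylor_real Ainf xi (fun i => q i - xi i) j 1 1 kap le_rfl hk.le (by linarith)
    hAinf hxi hq
  have h4 : (fun i => xi i + (q i - xi i)) = q := by
    ext i
    ring
  rw [h4, one_pow, mul_one, mul_one] at h3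
  have h5 : (2 : ℝ) ^ d ≤ 4 ^ d := pow_le_pow_left₀ (by norm_num) (by norm_num) d
  have h6 : (0 : ℝ) ≤ NN n d * d := by (clear * -; positivity)
  have h7 : (NN n d : ℝ) * d * (3 * rho) * 2 ^ d ≤ (NN n d * d * 4 ^ d) * kap := by
    have h8 : 3 * rho ≤ kap := by nlinarith only [hk, hk1, hrho2]
    calc (NN n d : ℝ) * d * (3 * rho) * 2 ^ d ≤ (NN n d : ℝ) * d * kap * 4 ^ d := by
          apply mul_le_mul _ h5 (by positivity) (by (clear * - hk; positivity))
          exact mul_le_mul_of_nonneg_left h8 h6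
      _ = _ := by ring
  calc |D A' q j - D Ainf xi j| = |(D (fun m => A' m - Ainf m) q j) +
        (D Ainf q j - D Ainf xi j)| := by rw [h1]; ring_nf
    _ ≤ |D (fun m => A' m - Ainf m) q j| + |D Ainf q j - D Ainf xi j| := abs_add_le _ _
    _ ≤ 2 * (NN n d * d * 4 ^ d) * kap := by linarith

theorem near_zero_value {n d : ℕ} (Ainf A' : Idx n d → ℝ) (xi q : Fin (n + 1) → ℝ)
    (kap rho : ℝ)
    (hk : 0 < kap) (hk1 : kap ≤ 1 / 10) (hrho : 0 ≤ rho) (hrho2 : rho ≤ kap ^ 2)
    (hAinf : ∀ m, |Ainf m| ≤ 1)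
    (hA' : ∀ m, |A' m - Ainf m| ≤ 3 * rho) (hxi : ∀ i, |xi i| ≤ 1) (hF : |F Ainf xi| ≤ kap ^ 2)
    (hq : ∀ i, |q i - xi i| ≤ kap ^ 2) :
    |F A' q| ≤ (1 + ((n : ℝ) + 1) * (NN n d * d) + 4 * (NN n d * 4 ^ d)) * kap ^ 2 := by
  have hk2 : kap ^ 2 ≤ 1 / 100 := by nlinarith only [hk, hk1]
  have h1 : F A' q = F Ainf q + F (fun m => A' m - Ainf m) q := by
    simp only [F, ← Finset.sum_add_distrib]
    refine Finset.sum_congr rfl fun t _ => ?_
    ring
  have hq2 : ∀ i, |q i| ≤ 2 := by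
    intro i
    calc |q i| = |(q i - xi i) + xi i| := by ring_nf
      _ ≤ |q i - xi i| + |xi i| := abs_add_le _ _
      _ ≤ 2 := by linarith only [hk, hk1, hk2, hq, hxi, hq i, hxi i]
  have h2 := F_abs_le (fun m => A' m - Ainf m) q (3 * rho) 2 (by norm_num) hA' hq2
  have h3 := F_taylor_real Ainf xi (fun i => q i - xi i) 1 1 (kap ^ 2) le_rfl (by positivity)
    (by linarith) hAinf hxi hq
  have h4 : (fun i => xi i + (q i - xi i)) = q := by
    ext i
    ring
  rw [h4, one_pow, mul_one, mul_one] at h3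
  have h5 : |∑ i, D Ainf xi i * (q i - xi i)| ≤ ((n : ℝ) + 1) * (NN n d * d) * kap ^ 2 := by
    refine (Finset.abs_sum_le_sum_abs _ _).trans ?_
    have : ∀ i ∈ (Finset.univ : Finset (Fin (n + 1))), |D Ainf xi i * (q i - xi i)| ≤
        (NN n d * d) * kap ^ 2 := by
      intro i _
      rw [abs_mul]
      have h6 := D_abs_le Ainf xi i 1 1 le_rfl hAinf hxi
      have h7 := hq i
      rw [one_pow, mul_one, mul_one] at h6
      exact mul_le_mul h6 h7 (abs_nonneg _) (by (clear * -; positivity))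
    refine (Finset.sum_le_sum this).trans ?_
    rw [Finset.sum_const, Finset.card_univ, Fintype.card_fin, nsmul_eq_mul]
    push_cast
    apply le_of_eq
    ring
  have h9 : |F Ainf q| ≤ kap ^ 2 + ((n : ℝ) + 1) * (NN n d * d) * kap ^ 2 +
      NN n d * 4 ^ d * (kap ^ 2) ^ 2 := by
    calc |F Ainf q| = |(F Ainf q - F Ainf xi - ∑ i, D Ainf xi i * (q i - xi i)) +
          (F Ainf xi + ∑ i, D Ainf xi i * (q i - xi i))| := by ring_nf
      _ ≤ |(F Ainf q - F Ainf xi - ∑ i, D Ainf xi i * (q i - xi i))| +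
          |(F Ainf xi + ∑ i, D Ainf xi i * (q i - xi i))| := abs_add_le _ _
      _ ≤ |(F Ainf q - F Ainf xi - ∑ i, D Ainf xi i * (q i - xi i))| +
          (|F Ainf xi| + |∑ i, D Ainf xi i * (q i - xi i)|) :=
          add_le_add le_rfl (abs_add_le _ _)
      _ ≤ _ := by linarith only [h3, h5, hF]
  have h10 : (NN n d : ℝ) * 4 ^ d * (kap ^ 2) ^ 2 ≤ NN n d * 4 ^ d * kap ^ 2 := by
    apply mul_le_mul_of_nonneg_left _ (by (clear * -; positivity))
    nlinarith only [hk2, sq_nonneg kap]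
  have h11 : (2 : ℝ) ^ d ≤ 4 ^ d := pow_le_pow_left₀ (by norm_num) (by norm_num) d
  have h12 : (NN n d : ℝ) * (3 * rho) * 2 ^ d ≤ 3 * (NN n d * 4 ^ d) * kap ^ 2 := by
    calc (NN n d : ℝ) * (3 * rho) * 2 ^ d ≤ NN n d * (3 * kap ^ 2) * 4 ^ d := by
          apply mul_le_mul _ h11 (by positivity) (by (clear * - hk; positivity))
          apply mul_le_mul_of_nonneg_left _ (by positivity)
          linarith
      _ = _ := by ring
  rw [h1]
  refine (abs_add_le _ _).trans ?_
  have h13 : (1 + ((n : ℝ) + 1) * (NN n d * d) + 4 * (NN n d * 4 ^ d)) * kap ^ 2 =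
      kap ^ 2 + ((n : ℝ) + 1) * (NN n d * d) * kap ^ 2 + NN n d * 4 ^ d * kap ^ 2 +
      3 * (NN n d * 4 ^ d) * kap ^ 2 := by ring
  rw [h13]
  linarith only [h10, h12, h2, h9]

/-- the constant of the real counting -/
noncomputable def C0 (n d : ℕ) : ℝ :=
  10 + 16 * (NN n d * d * 4 ^ d) + 100 * (1 + ((n : ℝ) + 1) * (NN n d * d) + 4 * (NN n d * 4 ^ d))

theorem C0_ge (n d : ℕ) : 110 ≤ C0 n d := by
  unfold C0
  have h1 : (0 : ℝ) ≤ NN n d * d * 4 ^ d := by positivity
  have h2 : (0 : ℝ) ≤ ((n : ℝ) + 1) * (NN n d * d) := by positivity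
  have h3 : (0 : ℝ) ≤ NN n d * 4 ^ d := by positivity
  linarith only [h1, h2, h3]

/-- the fibre over the other coordinates is an interval -/
theorem fiber_interval {n d : ℕ} (eps bet kap rho : ℝ) (he : 0 < eps) (he1 : eps ≤ 1 / 10) (hb : 0 < bet)
    (hb1 : bet ≤ 1) (hkap : kap = eps * bet / C0 n d) (hrho : 0 ≤ rho) (hrho2 : rho ≤ kap ^ 2)
    (Ainf : Idx n d → ℝ) (xi : Fin (n + 1) → ℝ) (j : Fin (n + 1)) (hAinf : ∀ m, |Ainf m| ≤ 1)
    (hxi : ∀ i, |xi i| ≤ 1) (hF : |F Ainf xi| ≤ kap ^ 2) (hD : bet ≤ |D Ainf xi j|) (th : ℝ)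
    (hth : 0 < th) (hth2 : th ≤ kap * bet / 4) (B : ℕ) (hB : 0 < B) (H : ℝ) (hH : 0 < H)
    (A : Idx n d → ℤ) (hA : ∀ m, |(A m : ℝ) - H * Ainf m| ≤ 3 * rho * H) (y : Fin n → ℤ)
    (hy : ∀ k, |(y k : ℝ) - B * xi (j.succAbove k)| ≤ kap ^ 2 * B) :
    ∃ u v : ℝ, -kap < u ∧ u ≤ v ∧ v < kap ∧
      2 * th / ((1 + eps / 8) * |D Ainf xi j|) ≤ v - u ∧
      v - u ≤ 2 * th / ((1 - eps / 8) * |D Ainf xi j|) ∧
      ∀ t : ℤ, (|(t : ℝ) - B * xi j| ≤ kap * B ∧
        |((F A (j.insertNth t y) : ℤ) : ℝ)| ≤ th * H * (B : ℝ) ^ d) ↔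
          ((B : ℝ) * (xi j + u) ≤ t ∧ (t : ℝ) ≤ B * (xi j + v)) := by
  have hB' : (0 : ℝ) < B := by exact_mod_cast hB
  have hC := C0_ge n d
  have hCpos : 0 < C0 n d := by linarith only [hC, he, he1]
  have hkpos : 0 < kap := by rw [hkap]; positivity
  have hkeb : kap * C0 n d = eps * bet := by rw [hkap]; field_simp
  have hebl : eps * bet ≤ 1 / 10 * 1 := mul_le_mul he1 hb1 hb.le (by norm_num)
  have hk1 : kap ≤ 1 / 100 := by
    by_contra hcon
    push Not at hcon
    nlinarith only [hC, hb, hcon, he, he1, hebl, hkeb, hth, hth2]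
  have hC1 : 16 * (NN n d * d * 4 ^ d) * kap ≤ eps * bet := by
    rw [← hkeb, C0]
    have h2 : (0 : ℝ) ≤ ((n : ℝ) + 1) * (NN n d * d) * kap := by (clear * - hkpos; positivity)
    have h3 : (0 : ℝ) ≤ NN n d * 4 ^ d * kap := by positivity
    nlinarith only [h2, h3, hkpos]
  have hC2 : 100 * (1 + ((n : ℝ) + 1) * (NN n d * d) + 4 * (NN n d * 4 ^ d)) * kap ≤
      eps * bet := by
    rw [← hkeb, C0]
    have h1 : (0 : ℝ) ≤ NN n d * d * 4 ^ d * kap := by (clear * - hkpos; positivity)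
    nlinarith only [h1, hkpos]
  let A' : Idx n d → ℝ := fun m => (A m : ℝ) / H
  have hA' : ∀ m, |A' m - Ainf m| ≤ 3 * rho := by
    intro m
    have h1 : A' m - Ainf m = ((A m : ℝ) - H * Ainf m) / H := by
      simp only [A']
      field_simp
    rw [h1, abs_div, abs_of_pos hH, div_le_iff₀ hH]
    exact hA m
  let p : Fin (n + 1) → ℝ := fun i => (((j.insertNth (0 : ℤ) y : Fin (n + 1) → ℤ) i : ℤ) : ℝ) / B
  have hp : ∀ k, p (j.succAbove k) = (y k : ℝ) / B := by
    intro k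
    simp [p]
  have hps : ∀ k, |p (j.succAbove k) - xi (j.succAbove k)| ≤ kap ^ 2 := by
    intro k
    rw [hp]
    have h1 : (y k : ℝ) / B - xi (j.succAbove k) =
        ((y k : ℝ) - B * xi (j.succAbove k)) / B := by
      field_simp
    rw [h1, abs_div, abs_of_pos hB', div_le_iff₀ hB']
    exact hy k
  let gam := D Ainf xi j
  have hgam : gam ≠ 0 := by
    intro h
    have : |gam| = 0 := by rw [h, abs_zero]
    have h2 : bet ≤ |gam| := hD
    linarith only [hD, hb, this]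
  have hgb : bet ≤ |gam| := hD
  obtain ⟨u, v, hu, huv, hv, hiff, hlo, hup⟩ := CubicHP.interval_of_deriv
    (fun s => F A' (Function.update p j (xi j + s)))
    (fun s => D A' (Function.update p j (xi j + s)) j) kap gam (eps / 8) th hkpos hgam
    (by positivity) (by linarith) hth
    (by
      intro t
      exact HasDerivAt.comp_const_add (xi j) t (hasDerivAt_F_line A' p j (xi j + t)))
    (by
      intro t ht
      have hq : ∀ i, |Function.update p j (xi j + t) i - xi i| ≤ kap := by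
        intro i
        rcases eq_or_ne i j with rfl | hij
        · rw [Function.update_self]
          simpa using ht
        · obtain ⟨k, rfl⟩ := Fin.exists_succAbove_eq hij
          rw [Function.update_of_ne hij]
          refine (hps k).trans ?_
          nlinarith only [hb, hk1, hkpos, hth, hth2]
      have h1 := near_zero_estimates Ainf A' xi _ j kap rho hkpos (by linarith) hrho hrho2 hAinf
        hA' hxi hq
      refine h1.trans ?_
      have h2 : eps * bet ≤ eps * |gam| := mul_le_mul_of_nonneg_left hgb he.le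
      linarith only [h2, hC1])
    (by
      have hq : ∀ i, |Function.update p j (xi j + 0) i - xi i| ≤ kap ^ 2 := by
        intro i
        rcases eq_or_ne i j with rfl | hij
        · rw [Function.update_self]
          simp
          positivity
        · obtain ⟨k, rfl⟩ := Fin.exists_succAbove_eq hij
          rw [Function.update_of_ne hij]
          exact hps k
      have h1 := near_zero_value Ainf A' xi _ kap rho hkpos (by linarith only [hk1, hkpos]) hrho hrho2 hAinf hA'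
        hxi hF hq
      have h2 : (1 + ((n : ℝ) + 1) * (NN n d * d) + 4 * (NN n d * 4 ^ d)) * kap ^ 2 ≤
          kap * bet / 100 := by
        have h20 : eps * bet ≤ bet := by nlinarith only [hb, he1]
        have h21 : 100 * (1 + ((n : ℝ) + 1) * (NN n d * d) + 4 * (NN n d * 4 ^ d)) * kap ≤ bet :=
          hC2.trans h20
        have h22 := mul_le_mul_of_nonneg_left h21 hkpos.le
        nlinarith only [h22]
      have h3 : (1 - 1 / 80) * bet * kap ≤ (1 - eps / 8) * |gam| * kap := by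
        apply mul_le_mul_of_nonneg_right _ hkpos.le
        apply mul_le_mul _ hgb hb.le (by linarith only [he1, hk1, hkpos])
        linarith only [he1]
      have h4 : 0 < kap * bet := mul_pos hkpos hb
      change |F A' (Function.update p j (xi j + 0))| + th < _
      nlinarith only [h1, h2, h3, hth, hth2])
  refine ⟨u, v, hu, huv, hv, hlo, hup, ?_⟩
  intro t
  have hval : ((F A (j.insertNth t y) : ℤ) : ℝ) =
      H * (B : ℝ) ^ d * F A' (Function.update p j (xi j + ((t : ℝ) / B - xi j))) := by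
    rw [← F_cast]
    have h1 : (fun m => ((A m : ℤ) : ℝ)) = fun m => H * A' m := by
      ext m
      simp only [A']
      field_simp
    have h2 : (fun i => (((j.insertNth t y : Fin (n + 1) → ℤ) i : ℤ) : ℝ)) =
        fun i => (B : ℝ) * (Function.update p j (xi j + ((t : ℝ) / B - xi j))) i := by
      ext i
      rcases eq_or_ne i j with rfl | hij
      · rw [Function.update_self]
        simp
        field_simp
      · obtain ⟨k, rfl⟩ := Fin.exists_succAbove_eq hij
        rw [Function.update_of_ne hij, hp]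
        simp
        field_simp
    rw [h1, h2, F_smul, F_scale]
    ring
  have hs : |(t : ℝ) - B * xi j| ≤ kap * B ↔ |(t : ℝ) / B - xi j| ≤ kap := by
    have h1 : (t : ℝ) / B - xi j = ((t : ℝ) - B * xi j) / B := by
      field_simp
    rw [h1, abs_div, abs_of_pos hB', div_le_iff₀ hB']
  have hf : |((F A (j.insertNth t y) : ℤ) : ℝ)| ≤ th * H * (B : ℝ) ^ d ↔
      |F A' (Function.update p j (xi j + ((t : ℝ) / B - xi j)))| ≤ th := by
    rw [hval, abs_mul, abs_of_pos (by positivity : (0 : ℝ) < H * (B : ℝ) ^ d)]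
    rw [show th * H * (B : ℝ) ^ d = H * (B : ℝ) ^ d * th by ring]
    exact mul_le_mul_iff_right₀ (by positivity)
  have hs1 : u ≤ (t : ℝ) / B - xi j ↔ (B : ℝ) * (xi j + u) ≤ t := by
    rw [le_sub_iff_add_le, le_div_iff₀ hB', add_comm u, mul_comm]
  have hs2 : (t : ℝ) / B - xi j ≤ v ↔ (t : ℝ) ≤ B * (xi j + v) := by
    rw [sub_le_iff_le_add, div_le_iff₀ hB', add_comm v, mul_comm]
  rw [hs, hf, ← hs1, ← hs2]
  constructor
  · rintro ⟨h1, h2⟩
    exact (hiff _ h1).1 h2
  · rintro ⟨h1, h2⟩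
    have h3 : |(t : ℝ) / B - xi j| ≤ kap := by
      rw [abs_le]
      constructor <;> linarith
    exact ⟨h3, (hiff _ h3).2 ⟨h1, h2⟩⟩

theorem num_lower (n : ℕ) (eps e : ℝ) (he : 0 < eps) (he1 : eps ≤ 1 / 10)
    (hedef : e = eps / (8 * ((n : ℝ) + 1))) :
    (1 - eps) * (1 + eps / 8) ≤ (1 - e) ^ (n + 1) := by
  have hn : (0 : ℝ) < (n : ℝ) + 1 := by positivity
  have h1 : ((n : ℝ) + 1) * e = eps / 8 := by
    rw [hedef]
    field_simp
  have he2 : e ≤ 1 := by
    rw [hedef, div_le_one (by positivity)]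
    have : (0 : ℝ) ≤ n := Nat.cast_nonneg n
    nlinarith only [he, he1]
  have h3 : 1 - ((n : ℝ) + 1) * e ≤ (1 - e) ^ (n + 1) := by
    have h0 := one_add_mul_le_pow (a := -e) (by linarith only [he, he1, he2]) (n + 1)
    calc 1 - ((n : ℝ) + 1) * e = 1 + ((n + 1 : ℕ) : ℝ) * -e := by push_cast; ring
      _ ≤ (1 + -e) ^ (n + 1) := h0
      _ = (1 - e) ^ (n + 1) := by ring
  have h4 : (1 - eps) * (1 + eps / 8) ≤ 1 - ((n : ℝ) + 1) * e := by
    rw [h1]
    nlinarith only [he]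
  linarith

theorem num_upper (n : ℕ) (eps e : ℝ) (he : 0 < eps) (he1 : eps ≤ 1 / 10)
    (hedef : e = eps / (8 * ((n : ℝ) + 1))) :
    (1 + e) ^ (n + 1) ≤ (1 + eps) * (1 - eps / 8) := by
  have hn : (0 : ℝ) < (n : ℝ) + 1 := by positivity
  have h1 : ((n : ℝ) + 1) * e = eps / 8 := by
    rw [hedef]
    field_simp
  have hepos : 0 < e := by rw [hedef]; positivity
  have he2 : e ≤ 1 := by
    rw [hedef, div_le_one (by positivity)]
    have : (0 : ℝ) ≤ n := Nat.cast_nonneg n
    nlinarith only [he, he1]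
  have h3 : 1 - eps / 8 ≤ (1 - e) ^ (n + 1) := by
    have h0 := one_add_mul_le_pow (a := -e) (by linarith) (n + 1)
    calc 1 - eps / 8 = 1 + ((n + 1 : ℕ) : ℝ) * -e := by push_cast; rw [← h1]; ring
      _ ≤ (1 + -e) ^ (n + 1) := h0
      _ = (1 - e) ^ (n + 1) := by ring
  have h4 : (1 + e) ^ (n + 1) * (1 - e) ^ (n + 1) ≤ 1 := by
    rw [← mul_pow]
    apply pow_le_one₀
    · nlinarith only [h1, he, he1, hepos]
    · nlinarith only [h1, he, he1, hepos]
  have h5 : 0 < 1 - eps / 8 := by linarith only [he, he1]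
  have h6 : (1 + e) ^ (n + 1) * (1 - eps / 8) ≤ 1 :=
    (mul_le_mul_of_nonneg_left h3 (by positivity)).trans h4
  have h7 : 1 ≤ (1 + eps) * (1 - eps / 8) * (1 - eps / 8) := by
    have h70 : (1 + eps) * (1 - eps / 8) * (1 - eps / 8) - 1 =
        eps * (3 / 4 - 15 / 64 * eps + eps ^ 2 / 64) := by ring
    have h71 : 0 ≤ eps * (3 / 4 - 15 / 64 * eps + eps ^ 2 / 64) := by
      apply mul_nonneg he.le
      have := sq_nonneg eps
      linarith only [he, he1, this]
    linarith only [h71]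
  have h8 : (1 + e) ^ (n + 1) * (1 - eps / 8) ≤ (1 + eps) * (1 - eps / 8) * (1 - eps / 8) :=
    h6.trans h7
  exact le_of_mul_le_mul_right h8 h5

/-- RE2 -/
theorem real_count (n d : ℕ) (hn : 1 ≤ n) (hd : 1 ≤ d) (eps bet : ℝ) (he : 0 < eps)
    (he1 : eps ≤ 1 / 10) (hb : 0 < bet) (hb1 : bet ≤ 1) :
    ∃ kap : ℝ, 0 < kap ∧ kap ≤ 1 / 10 ∧ ∃ rho0 : ℝ, 0 < rho0 ∧ rho0 ≤ 1 ∧
      ∀ rho : ℝ, 0 < rho → rho ≤ rho0 →
      ∀ (Ainf : Idx n d → ℝ) (xi : Fin (n + 1) → ℝ) (j : Fin (n + 1)), (∀ m, |Ainf m| ≤ 1) →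
      (∀ i, |xi i| ≤ 1) → (∃ i, |xi i| = 1) → |F Ainf xi| ≤ rho0 → bet ≤ |D Ainf xi j| →
      RC Ainf xi j kap rho bet eps := by
  have hC := C0_ge n d
  have hCpos : 0 < C0 n d := by linarith
  have hkpos : 0 < eps * bet / C0 n d := by positivity
  have hk1 : eps * bet / C0 n d ≤ 1 / 10 ^ 2 := by
    have : eps * bet ≤ 1 / 10 * 1 := mul_le_mul he1 hb1 hb.le (by norm_num)
    rw [div_le_iff₀ hCpos]
    linarith only [hC, he, he1, this]
  refine ⟨eps * bet / C0 n d, hkpos, by linarith, (eps * bet / C0 n d) ^ 2, by positivity,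
    by nlinarith only [he, he1, hk1, hkpos], ?_⟩
  intro rho hrho hrho2 Ainf xi j hAinf hxi _ hF hD th hth hth2 M hM
  obtain ⟨kap, hkap⟩ : ∃ kap, kap = eps * bet / C0 n d := ⟨_, rfl⟩
  rw [← hkap] at hkpos hk1 hrho2 hth2 hF ⊢
  obtain ⟨G, hG⟩ : ∃ G, G = |D Ainf xi j| := ⟨_, rfl⟩
  have hGpos : 0 < G := by rw [hG]; linarith
  have hM' : (0 : ℝ) < M := by exact_mod_cast hM
  obtain ⟨e, hedef⟩ : ∃ e, e = eps / (8 * ((n : ℝ) + 1)) := ⟨_, rfl⟩
  have hepos : 0 < e := by rw [hedef]; positivity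
  obtain ⟨a, hadef⟩ : ∃ a, a = 2 * kap ^ 2 / M := ⟨_, rfl⟩
  have hapos : 0 < a := by rw [hadef]; positivity
  obtain ⟨clo, hclo⟩ : ∃ c, c = 2 * th / ((1 + eps / 8) * G) / M := ⟨_, rfl⟩
  have hclopos : 0 < clo := by rw [hclo]; positivity
  obtain ⟨cup, hcup⟩ : ∃ c, c = 2 * th / ((1 - eps / 8) * G) / M := ⟨_, rfl⟩
  have h8 : 0 < 1 - eps / 8 := by linarith only [he1, hk1, hkpos]
  have hcuppos : 0 < cup := by rw [hcup]; (clear * - h8 hGpos hM hth; positivity)
  have hclocup : clo ≤ cup := by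
    rw [hclo, hcup]
    apply div_le_div_of_nonneg_right _ hM'.le
    apply div_le_div_of_nonneg_left (by positivity) (by (clear * - h8 hGpos; positivity))
    apply mul_le_mul_of_nonneg_right _ hGpos.le
    linarith only [he]
  refine ⟨⌈1 / (e * a)⌉₊ + ⌈1 / (e * clo)⌉₊ + 1, ?_⟩
  intro B hB H hH A hA r
  have hBpos : 0 < B := by omega
  have hB' : (0 : ℝ) < B := by exact_mod_cast hBpos
  have hea : 1 ≤ e * a * B := by
    have h1 : 1 / (e * a) ≤ (⌈1 / (e * a)⌉₊ : ℝ) := Nat.le_ceil _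
    have h2 : ((⌈1 / (e * a)⌉₊ : ℕ) : ℝ) ≤ B := by exact_mod_cast (by omega)
    have h3 : 1 / (e * a) ≤ B := h1.trans h2
    rw [div_le_iff₀ (by positivity)] at h3
    linarith only [h3]
  have hec : 1 ≤ e * clo * B := by
    have h1 : 1 / (e * clo) ≤ (⌈1 / (e * clo)⌉₊ : ℝ) := Nat.le_ceil _
    have h2 : ((⌈1 / (e * clo)⌉₊ : ℕ) : ℝ) ≤ B := by exact_mod_cast (by omega)
    have h3 : 1 / (e * clo) ≤ B := h1.trans h2
    rw [div_le_iff₀ (by positivity)] at h3
    linarith only [h3]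
  have hec2 : 1 ≤ e * cup * B := by
    refine hec.trans ?_
    apply mul_le_mul_of_nonneg_right _ hB'.le
    exact mul_le_mul_of_nonneg_left hclocup hepos.le
  -- the sets
  obtain ⟨S, hS⟩ : ∃ S : Set (Fin (n + 1) → ℤ), S = {x : Fin (n + 1) → ℤ | x ∈ Reg xi j kap B ∧
      (∀ i, (M : ℤ) ∣ x i - r i) ∧ |((F A x : ℤ) : ℝ)| ≤ th * H * (B : ℝ) ^ d} := ⟨_, rfl⟩
  have hSfin : S.Finite := by
    rw [hS]
    exact (Reg_finite xi j kap B).subset fun x hx => hx.1
  let s : Fin n → Set ℤ := fun k => {t : ℤ | (B : ℝ) * xi (j.succAbove k) - kap ^ 2 * B ≤ t ∧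
    (t : ℝ) ≤ B * xi (j.succAbove k) + kap ^ 2 * B ∧ (M : ℤ) ∣ t - r (j.succAbove k)}
  have hs := fun k => CubicHP.ncard_AP ((B : ℝ) * xi (j.succAbove k) - kap ^ 2 * B)
    (B * xi (j.succAbove k) + kap ^ 2 * B) (by nlinarith only [sq_nonneg kap]) M hM
    (r (j.succAbove k))
  have hsb : ∀ k, (1 - e) * (a * B) ≤ ((s k).ncard : ℝ) ∧
      ((s k).ncard : ℝ) ≤ (1 + e) * (a * B) := by
    intro k
    have h1 := (hs k).2.1
    have h2 := (hs k).2.2
    have h3 : ((B : ℝ) * xi (j.succAbove k) + kap ^ 2 * B -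
        (B * xi (j.succAbove k) - kap ^ 2 * B)) / M = a * B := by
      rw [hadef]
      field_simp
      ring
    rw [h3] at h1 h2
    constructor
    · refine le_trans ?_ h1
      nlinarith only [hea]
    · refine h2.trans ?_
      nlinarith only [hea]
  have he32 : e ≤ 1 / 80 := by
    rw [hedef, div_le_iff₀ (by positivity)]
    have : (0 : ℝ) ≤ n := Nat.cast_nonneg n
    nlinarith only [he1]
  obtain ⟨hYfin, hYlo, hYup⟩ := ncard_pi_bounds n s (fun k => (hs k).1) _ _
    (mul_nonneg (by linarith) (by positivity)) hsb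
  obtain ⟨Y, hY⟩ : ∃ Y : Set (Fin n → ℤ), Y = {y : Fin n → ℤ | ∀ k, y k ∈ s k} := ⟨_, rfl⟩
  rw [← hY] at hYfin hYlo hYup
  have hfib := ncard_fiber_bounds S hSfin (fun x k => x (j.succAbove k)) Y hYfin (by
      intro x hx
      rw [hY]
      rw [hS] at hx
      intro k
      have h1 := hx.1 (j.succAbove k)
      rw [if_neg (Fin.succAbove_ne j k), abs_le] at h1
      exact ⟨by linarith [h1.1], by linarith [h1.2], hx.2.1 _⟩)
    ((1 - e) * (clo * B)) ((1 + e) * (cup * B)) (by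
      intro y hy
      rw [hY] at hy
      obtain ⟨u, v, hu, huv, hv, hlo, hup, hiff⟩ := fiber_interval eps bet kap rho he he1 hb hb1
        hkap hrho.le hrho2 Ainf xi j hAinf hxi hF hD th hth hth2 B hBpos H hH A hA y (by
          intro k
          have h1 := hy k
          rw [abs_le]
          exact ⟨by linarith [h1.1], by linarith [h1.2.1]⟩)
      have hset : {x | x ∈ S ∧ (fun k => x (j.succAbove k)) = y} =
          (fun t : ℤ => (j.insertNth t y : Fin (n + 1) → ℤ)) ''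
            {t : ℤ | (B : ℝ) * (xi j + u) ≤ t ∧ (t : ℝ) ≤ B * (xi j + v) ∧ (M : ℤ) ∣ t - r j} := by
        ext x
        rw [hS]
        simp only [Set.mem_ofPred_eq, Set.mem_image]
        constructor
        · rintro ⟨⟨h1, h2, h3⟩, h4⟩
          have hx : x = j.insertNth (x j) y := by
            rw [← h4]
            exact (Fin.insertNth_self_removeNth j x).symm
          refine ⟨x j, ?_, hx.symm⟩
          have h5 := h1 j
          rw [if_pos rfl] at h5
          have h6 := (hiff (x j)).1 ⟨h5, by rw [← hx]; exact h3⟩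
          exact ⟨h6.1, h6.2, h2 j⟩
        · rintro ⟨t, ⟨h1, h2, h3⟩, rfl⟩
          obtain ⟨h4, h5⟩ := (hiff t).2 ⟨h1, h2⟩
          refine ⟨⟨?_, ?_, h5⟩, ?_⟩
          · intro i
            rcases eq_or_ne i j with rfl | hij
            · rw [if_pos rfl]
              simpa using h4
            · obtain ⟨k, rfl⟩ := Fin.exists_succAbove_eq hij
              rw [if_neg hij]
              have h6 := hy k
              simp only [Fin.insertNth_apply_succAbove]
              rw [abs_le]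
              exact ⟨by linarith only [h6, h6.1], by linarith [h6.2.1]⟩
          · intro i
            rcases eq_or_ne i j with rfl | hij
            · simpa using h3
            · obtain ⟨k, rfl⟩ := Fin.exists_succAbove_eq hij
              simpa using (hy k).2.2
          · ext k
            simp
      rw [hset, Set.ncard_image_of_injective _ (by
        intro t t' htt
        have := congrFun htt j
        simpa using this)]
      obtain ⟨-, h1, h2⟩ := CubicHP.ncard_AP ((B : ℝ) * (xi j + u)) (B * (xi j + v)) (by nlinarith only [huv]) M hM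
        (r j)
      have h3 : ((B : ℝ) * (xi j + v) - B * (xi j + u)) / M = (v - u) / M * B := by
        field_simp
        ring
      rw [h3] at h1 h2
      rw [← hG] at hlo hup
      have h4 : clo ≤ (v - u) / M := by
        rw [hclo]
        exact div_le_div_of_nonneg_right hlo hM'.le
      have h5 : (v - u) / M ≤ cup := by
        rw [hcup]
        exact div_le_div_of_nonneg_right hup hM'.le
      have h6 : clo * B ≤ (v - u) / M * B := mul_le_mul_of_nonneg_right h4 hB'.le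
      have h7 : (v - u) / M * B ≤ cup * B := mul_le_mul_of_nonneg_right h5 hB'.le
      constructor
      · refine le_trans ?_ h1
        nlinarith only [h6, hec]
      · refine h2.trans ?_
        nlinarith only [h7, hec2])
  obtain ⟨hlo, hup⟩ := hfib
  rw [← hS]
  have hVlo : a ^ n * clo * (B : ℝ) ^ (n + 1) * (1 + eps / 8) =
      Vol n (D Ainf xi j) kap th B / (M : ℝ) ^ (n + 1) := by
    have h9 : (1 + eps / 8) ≠ 0 := by positivity
    have h10 : (kap ^ 2) ^ n = kap ^ (2 * n) := by rw [← pow_mul]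
    rw [Vol, ← hG, hadef, hclo, div_pow, mul_pow, h10, pow_succ 2 n, pow_succ (M : ℝ) n]
    field_simp
  have hVup : a ^ n * cup * (B : ℝ) ^ (n + 1) * (1 - eps / 8) =
      Vol n (D Ainf xi j) kap th B / (M : ℝ) ^ (n + 1) := by
    have h9 : (1 - eps / 8) ≠ 0 := h8.ne'
    have h10 : (kap ^ 2) ^ n = kap ^ (2 * n) := by rw [← pow_mul]
    have h11 : cup * (1 - eps / 8) = 2 * th / G / M := by
      rw [hcup]
      obtain ⟨u, hu⟩ : ∃ u, u = 1 - eps / 8 := ⟨_, rfl⟩
      rw [← hu] at h9 ⊢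
      field_simp
    calc a ^ n * cup * (B : ℝ) ^ (n + 1) * (1 - eps / 8) =
          a ^ n * (cup * (1 - eps / 8)) * (B : ℝ) ^ (n + 1) := by ring
      _ = _ := by
          rw [h11, Vol, ← hG, hadef, div_pow, mul_pow, h10, pow_succ 2 n, pow_succ (M : ℝ) n]
          field_simp
  constructor
  · rw [mul_div_assoc, ← hVlo]
    refine le_trans ?_ hlo
    refine le_trans ?_ (mul_le_mul_of_nonneg_left hYlo
      (mul_nonneg (by linarith only [he32, hk1, hkpos]) (by positivity)))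
    have h1 : (1 - e) * (clo * B) * ((1 - e) * (a * B)) ^ n =
        (1 - e) ^ (n + 1) * (a ^ n * clo * (B : ℝ) ^ (n + 1)) := by
      rw [mul_pow, mul_pow]
      ring
    have h2 : (1 - eps) * (a ^ n * clo * (B : ℝ) ^ (n + 1) * (1 + eps / 8)) =
        ((1 - eps) * (1 + eps / 8)) * (a ^ n * clo * (B : ℝ) ^ (n + 1)) := by ring
    rw [h1, h2]
    apply mul_le_mul_of_nonneg_right _ (by positivity)
    exact num_lower n eps e he he1 hedef
  · rw [mul_div_assoc, ← hVup]
    refine hup.trans ?_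
    refine (mul_le_mul_of_nonneg_left hYup (by positivity)).trans ?_
    have h1 : (1 + e) * (cup * B) * ((1 + e) * (a * B)) ^ n =
        (1 + e) ^ (n + 1) * (a ^ n * cup * (B : ℝ) ^ (n + 1)) := by
      rw [mul_pow, mul_pow]
      ring
    have h2 : (1 + eps) * (a ^ n * cup * (B : ℝ) ^ (n + 1) * (1 - eps / 8)) =
        ((1 + eps) * (1 - eps / 8)) * (a ^ n * cup * (B : ℝ) ^ (n + 1)) := by ring
    rw [h1, h2]
    apply mul_le_mul_of_nonneg_right _ (by positivity)
    exact num_upper n eps e he he1 hedef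

end GenHP
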