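import Pool.Agent.Lib.MP_e426f4_ag.G.Span1

/-! Module G-SPAN2: forms vanishing at two points are spanned by products with two factors, one orthogonal to the
first and one orthogonal to the second point. -/

namespace GenHP

open Finset

section SPAN
variable {n d : ℕ}

private theorem dot_smul_sub (z u v w : Fin (n + 1) → ℝ) (r s : ℝ) :
    ∑ i, (u - r • v - s • w) i * z i =
      (∑ i, u i * z i) - r * (∑ i, v i * z i) - s * (∑ i, w i * z i) := by
  rw [Finset.mul_sum, Finset.mul_sum, ← Finset.sum_sub_distrib, ← Finset.sum_sub_distrib]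
  refine Finset.sum_congr rfl fun i _ => ?_
  simp only [Pi.sub_apply, Pi.smul_apply, smul_eq_mul]
  ring

private theorem dot_smul (z u : Fin (n + 1) → ℝ) (r : ℝ) :
    ∑ i, (r • u) i * z i = r * (∑ i, u i * z i) := by
  rw [Finset.mul_sum]
  refine Finset.sum_congr rfl fun i _ => ?_
  simp only [Pi.smul_apply, smul_eq_mul]
  ring

/-- G-SPAN2 -/
theorem span_pair (hd : 2 ≤ d) (x y : Fin (n + 1) → ℤ) (h : 0 < dl x y) (mu : ℝ) (hmu : 1 ≤ mu)
    (hgx : Ortho mu x) (hgy : Ortho mu y) :
    ∃ g : Fin n × Fin n × (Fin (d - 2) → Fin (n + 1)) → Idx n d → ℤ,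
      (∀ q, F (g q) x = 0 ∧ F (g q) y = 0) ∧
      (∀ q m, |(g q m : ℝ)| ≤ ((n : ℝ) + 1) ^ 2 * mu ^ 2) ∧
      ∀ A : Idx n d → ℝ, F A (fun i => (x i : ℝ)) = 0 → F A (fun i => (y i : ℝ)) = 0 →
        ∃ r : Fin n × Fin n × (Fin (d - 2) → Fin (n + 1)) → ℝ,
          ∀ m, A m = ∑ q, r q * (g q m : ℝ) := by
  obtain ⟨m, rfl⟩ : ∃ m, d = m + 1 + 1 := ⟨d - 2, by omega⟩
  obtain ⟨l, hl, hlx, hlmu⟩ := hgx
  obtain ⟨l', hl', hly, hlmu'⟩ := hgy
  -- a nonzero minor
  obtain ⟨a, b, hab⟩ : ∃ a b, minor x y a b ≠ 0 := by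
    by_contra hcon
    push Not at hcon
    have : dl x y = 0 := by
      unfold dl
      simp [hcon]
    omega
  set xr : Fin (n + 1) → ℝ := fun i => (x i : ℝ) with hxr
  set yr : Fin (n + 1) → ℝ := fun i => (y i : ℝ) with hyr
  set lr : Fin n → Fin (n + 1) → ℝ := fun k i => (l k i : ℝ) with hlr
  set lr' : Fin n → Fin (n + 1) → ℝ := fun k i => (l' k i : ℝ) with hlr'
  have hlrx : ∀ k, ∑ i, lr k i * xr i = 0 := by
    intro k
    have h2 : ((∑ i, l k i * x i : ℤ) : ℝ) = 0 := by rw [hlx k]; simp
    push_cast at h2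
    exact h2
  have hlry : ∀ k, ∑ i, lr' k i * yr i = 0 := by
    intro k
    have h2 : ((∑ i, l' k i * y i : ℤ) : ℝ) = 0 := by rw [hly k]; simp
    push_cast at h2
    exact h2
  set δ : ℝ := xr a * yr b - xr b * yr a with hδ
  have hδ0 : δ ≠ 0 := by
    have : ((minor x y a b : ℤ) : ℝ) ≠ 0 := by exact_mod_cast hab
    unfold minor at this
    push_cast at this
    exact this
  have hxr0 : xr ≠ 0 := by
    intro h0
    apply hδ0
    rw [hδ, h0]
    simp
  have hyr0 : yr ≠ 0 := by
    intro h0
    apply hδ0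
    rw [hδ, h0]
    simp
  set g : Fin n × Fin n × (Fin m → Fin (n + 1)) → Idx n (m + 1 + 1) → ℤ := fun q =>
    T (Fin.cons (l q.1) (Fin.cons (l' q.2.1) (fun i => Pi.single (q.2.2 i) 1)) :
      Fin (m + 1 + 1) → Fin (n + 1) → ℤ) with hg
  have hcast : ∀ q, (fun t => ((g q t : ℤ) : ℝ)) =
      T (Fin.cons (lr q.1) (Fin.cons (lr' q.2.1) (fun i => Pi.single (q.2.2 i) 1)) :
        Fin (m + 1 + 1) → Fin (n + 1) → ℝ) := by
    intro q
    funext t
    rw [hg]
    simp only
    rw [← T_cast]
    congr 1
    funext i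
    refine Fin.cases ?_ (fun j => ?_) i
    · simp [hlr]
    · rw [Fin.cons_succ, Fin.cons_succ]
      refine Fin.cases ?_ (fun j => ?_) j
      · simp [hlr']
      · funext a
        simp only [Fin.cons_succ]
        by_cases ha : a = q.2.2 j
        · subst ha; simp
        · rw [Pi.single_eq_of_ne ha, Pi.single_eq_of_ne ha]; simp
  refine ⟨g, ?_, ?_, ?_⟩
  · intro q
    constructor
    · refine F_T_eq_zero _ x 0 ?_
      rw [Fin.cons_zero]
      exact hlx q.1
    · refine F_T_eq_zero _ y (Fin.succ 0) ?_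
      rw [Fin.cons_succ, Fin.cons_zero]
      exact hly q.2.1
  · intro q t
    have h1 := congrFun (hcast q) t
    rw [h1]
    refine (T_abs_le _ t).trans ?_
    rw [Fin.prod_univ_succ, Fin.prod_univ_succ]
    simp only [Fin.cons_zero, Fin.cons_succ]
    have h2 : ∀ j : Fin m, ∑ a, |(Pi.single (q.2.2 j) (1 : ℝ) : Fin (n + 1) → ℝ) a| = 1 := by
      intro j
      rw [Finset.sum_eq_single (q.2.2 j)]
      · simp
      · intro a _ ha
        rw [Pi.single_eq_of_ne ha, abs_zero]
      · simp
    rw [Finset.prod_congr rfl fun j _ => h2 j, Finset.prod_const_one, mul_one]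
    have h3 : ∑ a, |lr q.1 a| ≤ ((n : ℝ) + 1) * mu := by
      calc ∑ a, |lr q.1 a| ≤ ∑ _a : Fin (n + 1), mu := Finset.sum_le_sum fun a _ => hlmu q.1 a
        _ = ((n : ℝ) + 1) * mu := by simp
    have h4 : ∑ a, |lr' q.2.1 a| ≤ ((n : ℝ) + 1) * mu := by
      calc ∑ a, |lr' q.2.1 a| ≤ ∑ _a : Fin (n + 1), mu := Finset.sum_le_sum fun a _ => hlmu' q.2.1 a
        _ = ((n : ℝ) + 1) * mu := by simp
    calc (∑ a, |lr q.1 a|) * ∑ a, |lr' q.2.1 a| ≤ (((n : ℝ) + 1) * mu) * (((n : ℝ) + 1) * mu) :=
          mul_le_mul h3 h4 (Finset.sum_nonneg fun _ _ => abs_nonneg _) (by positivity)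
      _ = ((n : ℝ) + 1) ^ 2 * mu ^ 2 := by ring
  · intro A hAx hAy
    set S : Submodule ℝ (Idx n (m + 1 + 1) → ℝ) :=
      Submodule.span ℝ (Set.range fun q => fun t => ((g q t : ℤ) : ℝ)) with hS
    have h1 : ∀ (k k' : Fin n) (N : Fin m → Fin (n + 1) → ℝ),
        ((TM n (m + 1 + 1) ℝ).curryLeft (lr k)).curryLeft (lr' k') N ∈ S := by
      intro k k' N
      refine mem_of_basis _ S (fun c => ?_) N
      refine Submodule.subset_span ⟨(k, k', c), ?_⟩
      simp only
      rw [hcast (k, k', c)]
      rfl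
    have h1' : ∀ (k : Fin n) (v : Fin (n + 1) → ℝ), ∑ i, v i * yr i = 0 →
        ∀ N : Fin m → Fin (n + 1) → ℝ,
        ((TM n (m + 1 + 1) ℝ).curryLeft (lr k)).curryLeft v N ∈ S := by
      intro k v hv N
      have hv' := mem_span_of_ortho yr hyr0 lr' hl' hlry v hv
      clear hv
      induction hv' using Submodule.span_induction with
      | mem v hv =>
        obtain ⟨k', rfl⟩ := hv
        exact h1 k k' N
      | zero => simp
      | add v w _ _ hv hw =>
        rw [map_add, add_apply]
        exact Submodule.add_mem _ hv hw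
      | smul c v _ hv =>
        rw [map_smul, smul_apply]
        exact Submodule.smul_mem _ _ hv
    have h2 : ∀ u v : Fin (n + 1) → ℝ, ∑ i, u i * xr i = 0 → ∑ i, v i * yr i = 0 →
        ∀ N : Fin m → Fin (n + 1) → ℝ,
        (TM n (m + 1 + 1) ℝ).curryLeft u (Fin.cons v N) ∈ S := by
      intro u v hu hv N
      have hu' := mem_span_of_ortho xr hxr0 lr hl hlrx u hu
      clear hu
      induction hu' using Submodule.span_induction with
      | mem u hu =>
        obtain ⟨k, rfl⟩ := hu
        exact h1' k v hv N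
      | zero => simp
      | add u w _ _ hu hw =>
        rw [map_add, add_apply]
        exact Submodule.add_mem _ hu hw
      | smul c u _ hu =>
        rw [map_smul, smul_apply]
        exact Submodule.smul_mem _ _ hu
    have h3 : ∀ (M : Fin (m + 1 + 1) → Fin (n + 1) → ℝ) (i j : Fin (m + 1 + 1)), i ≠ j →
        ∑ a, M i a * xr a = 0 → ∑ a, M j a * yr a = 0 → T M ∈ S := by
      intro M i j hij hi hj
      -- a permutation with `0 ↦ i`, `1 ↦ j`
      obtain ⟨σ, hσ0, hσ1⟩ : ∃ σ : Equiv.Perm (Fin (m + 1 + 1)), σ 0 = i ∧ σ (Fin.succ 0) = j := by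
        refine ⟨(Equiv.swap (Equiv.swap 0 i (Fin.succ 0)) j) * (Equiv.swap 0 i), ?_, ?_⟩
        · rw [Equiv.Perm.mul_apply, Equiv.swap_apply_left]
          refine Equiv.swap_apply_of_ne_of_ne ?_ hij
          intro hcon
          have h5 : Equiv.swap (0 : Fin (m + 1 + 1)) i (Fin.succ 0) = Equiv.swap 0 i 0 := by
            rw [Equiv.swap_apply_left]
            exact hcon.symm
          have h6 := (Equiv.swap (0 : Fin (m + 1 + 1)) i).injective h5
          exact absurd h6 (Fin.succ_ne_zero 0)
        · rw [Equiv.Perm.mul_apply, Equiv.swap_apply_left]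
      have e : T M = T (fun k => M (σ k)) := (T_perm M σ).symm
      rw [e]
      have h4 := h2 (M i) (M j) hi hj (fun k => M (σ k.succ.succ))
      rw [MultilinearMap.curryLeft_apply, TM_apply] at h4
      have e2 : (Fin.cons (M i) (Fin.cons (M j) (fun k => M (σ k.succ.succ))) :
          Fin (m + 1 + 1) → Fin (n + 1) → ℝ) = fun k => M (σ k) := by
        funext k
        refine Fin.cases ?_ (fun k => ?_) k
        · rw [Fin.cons_zero, hσ0]
        · rw [Fin.cons_succ]
          refine Fin.cases ?_ (fun k => ?_) k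
          · rw [Fin.cons_zero, hσ1]
          · rw [Fin.cons_succ]
      rw [e2] at h4
      exact h4
    -- dual vectors
    set L0 : Fin (n + 1) → ℝ := (0 : Fin (n + 1) → ℝ) - (-(yr b / δ)) • Pi.single a 1 - (yr a / δ) • Pi.single b 1
      with hL0
    set L1 : Fin (n + 1) → ℝ := (0 : Fin (n + 1) → ℝ) - (xr b / δ) • Pi.single a 1 - (-(xr a / δ)) • Pi.single b 1
      with hL1
    have hz : ∀ z : Fin (n + 1) → ℝ, ∑ i, (0 : Fin (n + 1) → ℝ) i * z i = 0 := fun z => by simp
    have d00 : ∑ i, L0 i * xr i = 1 := by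
      rw [hL0, dot_smul_sub, dot_single', dot_single', hz]
      field_simp
      rw [hδ]
      ring
    have d01 : ∑ i, L0 i * yr i = 0 := by
      rw [hL0, dot_smul_sub, dot_single', dot_single', hz]
      ring
    have d10 : ∑ i, L1 i * xr i = 0 := by
      rw [hL1, dot_smul_sub, dot_single', dot_single', hz]
      ring
    have d11 : ∑ i, L1 i * yr i = 1 := by
      rw [hL1, dot_smul_sub, dot_single', dot_single', hz]
      field_simp
      rw [hδ]
      ring
    clear_value L0 L1
    have hkey : ∀ M : Fin (m + 1 + 1) → Fin (n + 1) → ℝ,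
        T M - (∏ i, ∑ a, M i a * xr a) • T (fun _ => L0) -
          (∏ i, ∑ a, M i a * yr a) • T (fun _ => L1) ∈ S := by
      intro M
      set w : Fin (m + 1 + 1) → Fin 3 → (Fin (n + 1) → ℝ) := fun i =>
        ![(∑ a, M i a * xr a) • L0, (∑ a, M i a * yr a) • L1,
          M i - (∑ a, M i a * xr a) • L0 - (∑ a, M i a * yr a) • L1] with hw
      have hw0y : ∀ i, ∑ a, w i 0 a * yr a = 0 := by
        intro i
        have : w i 0 = (∑ a, M i a * xr a) • L0 := rfl
        rw [this, dot_smul, d01, mul_zero]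
      have hw1x : ∀ i, ∑ a, w i 1 a * xr a = 0 := by
        intro i
        have : w i 1 = (∑ a, M i a * yr a) • L1 := rfl
        rw [this, dot_smul, d10, mul_zero]
      have hw2x : ∀ i, ∑ a, w i 2 a * xr a = 0 := by
        intro i
        have : w i 2 = M i - (∑ a, M i a * xr a) • L0 - (∑ a, M i a * yr a) • L1 := rfl
        rw [this, dot_smul_sub, d00, d10]
        ring
      have hw2y : ∀ i, ∑ a, w i 2 a * yr a = 0 := by
        intro i
        have : w i 2 = M i - (∑ a, M i a * xr a) • L0 - (∑ a, M i a * yr a) • L1 := rfl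
        rw [this, dot_smul_sub, d01, d11]
        ring
      have hsum : ∀ i, M i = ∑ r, w i r := by
        intro i
        rw [Fin.sum_univ_three]
        show M i = (∑ a, M i a * xr a) • L0 + (∑ a, M i a * yr a) • L1 +
          (M i - (∑ a, M i a * xr a) • L0 - (∑ a, M i a * yr a) • L1)
        abel
      have e : T M = ∑ r : Fin (m + 1 + 1) → Fin 3, T (fun i => w i (r i)) := by
        have := MultilinearMap.map_sum (TM n (m + 1 + 1) ℝ) w
        simp only [TM_apply] at this
        rw [← this]
        congr 1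
        funext i
        exact hsum i
      have e0 : T (fun i => w i 0) = (∏ i, ∑ a, M i a * xr a) • T (fun _ => L0) := by
        have := MultilinearMap.map_smul_univ (TM n (m + 1 + 1) ℝ) (fun i => ∑ a, M i a * xr a)
          (fun _ => L0)
        simp only [TM_apply] at this
        rw [← this]
        rfl
      have e1 : T (fun i => w i 1) = (∏ i, ∑ a, M i a * yr a) • T (fun _ => L1) := by
        have := MultilinearMap.map_smul_univ (TM n (m + 1 + 1) ℝ) (fun i => ∑ a, M i a * yr a)
          (fun _ => L1)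
        simp only [TM_apply] at this
        rw [← this]
        rfl
      have hne : (fun _ => (1 : Fin 3)) ≠ (fun _ : Fin (m + 1 + 1) => (0 : Fin 3)) := by
        intro hcon
        have := congrFun hcon 0
        exact absurd this (by decide)
      rw [e, ← Finset.add_sum_erase _ _ (Finset.mem_univ (fun _ => (0 : Fin 3))),
        ← Finset.add_sum_erase _ _ (Finset.mem_erase.mpr ⟨hne, Finset.mem_univ (fun _ => (1 : Fin 3))⟩)]
      rw [e0, e1]
      have e3 : ∀ P Q R : Idx n (m + 1 + 1) → ℝ, P + (Q + R) - P - Q = R := fun P Q R => by abel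
      rw [e3]
      refine Submodule.sum_mem _ fun r hr => ?_
      have hr1 := Finset.ne_of_mem_erase hr
      have hr0 := Finset.ne_of_mem_erase (Finset.mem_of_mem_erase hr)
      -- two positions
      by_cases h2ex : ∃ i, r i = 2
      · obtain ⟨i, hi⟩ := h2ex
        obtain ⟨j, hj⟩ := exists_ne i
        rcases (show r j = 0 ∨ r j = 1 ∨ r j = 2 by omega) with hrj | hrj | hrj
        · refine h3 _ i j hj.symm ?_ ?_
          · simp only [hi]; exact hw2x i
          · simp only [hrj]; exact hw0y j
        · refine h3 _ j i hj ?_ ?_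
          · simp only [hrj]; exact hw1x j
          · simp only [hi]; exact hw2y i
        · refine h3 _ i j hj.symm ?_ ?_
          · simp only [hi]; exact hw2x i
          · simp only [hrj]; exact hw2y j
      · push Not at h2ex
        obtain ⟨i, hi⟩ := Function.ne_iff.mp hr0
        obtain ⟨j, hj⟩ := Function.ne_iff.mp hr1
        have hri : r i = 1 := by
          have := h2ex i
          omega
        have hrj : r j = 0 := by
          have := h2ex j
          omega
        have hij : i ≠ j := by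
          rintro rfl
          rw [hri] at hrj
          exact absurd hrj (by decide)
        refine h3 _ i j hij ?_ ?_
        · simp only [hri]; exact hw1x i
        · simp only [hrj]; exact hw0y j
    have hAS : A ∈ S := by
      have e : A = ∑ t : Idx n (m + 1 + 1), A t •
          (T (fun i => Pi.single ((exists_mk t).choose i) (1 : ℝ)) - mon xr t.1 • T (fun _ => L0) -
            mon yr t.1 • T (fun _ => L1)) := by
        have h5 : ∑ t : Idx n (m + 1 + 1), A t •
            (T (fun i => Pi.single ((exists_mk t).choose i) (1 : ℝ)) - mon xr t.1 • T (fun _ => L0) -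
              mon yr t.1 • T (fun _ => L1)) =
            ∑ t : Idx n (m + 1 + 1), A t • T (fun i => Pi.single ((exists_mk t).choose i) (1 : ℝ)) -
              (F A xr) • T (fun _ => L0) - (F A yr) • T (fun _ => L1) := by
          unfold F
          rw [Finset.sum_smul, Finset.sum_smul, ← Finset.sum_sub_distrib, ← Finset.sum_sub_distrib]
          refine Finset.sum_congr rfl fun t _ => ?_
          rw [smul_sub, smul_sub, smul_smul, smul_smul]
        rw [h5, hAx, hAy, zero_smul, zero_smul, sub_zero, sub_zero]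
        exact eq_sum_T A
      rw [e]
      refine Submodule.sum_mem _ fun t _ => Submodule.smul_mem _ _ ?_
      have h6 := hkey (fun i => Pi.single ((exists_mk t).choose i) (1 : ℝ))
      simp only [dot_single'] at h6
      rw [mon_eq_prod_choose, mon_eq_prod_choose]
      exact h6
    obtain ⟨r, hr⟩ := (Submodule.mem_span_range_iff_exists_fun ℝ).mp hAS
    refine ⟨r, fun t => ?_⟩
    rw [← hr, Finset.sum_apply]
    exact Finset.sum_congr rfl fun q _ => by rw [Pi.smul_apply, smul_eq_mul]

end SPAN

end GenHP
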