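import Pool.Agent.Lib.MP_e426f4_ag.G.ShortOne
import Pool.Agent.Lib.MP_e426f4_ag.G.Span2

/-! Module B2: short vectors for two points. -/

namespace GenHP

open Finset

/-- the largest minor is at most eight times the largest minor in the row of a large coordinate -/
theorem exists_large_minor {n : ℕ} (B : ℕ) (hB : 1 ≤ B) (x y : Fin (n + 1) → ℤ)
    (i0 : Fin (n + 1)) (hi0 : (B : ℝ) / 2 ≤ |(x i0 : ℝ)|) (hx2 : ∀ i, |(x i : ℝ)| ≤ 2 * B) :
    ∃ l : Fin (n + 1), (dl x y : ℝ) ≤ 8 * |((minor x y i0 l : ℤ) : ℝ)| := by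
  have hBpos : (0 : ℝ) < B := by exact_mod_cast hB
  obtain ⟨l, -, hl⟩ := Finset.exists_max_image (univ : Finset (Fin (n + 1)))
    (fun l => |((minor x y i0 l : ℤ) : ℝ)|) ⟨0, mem_univ _⟩
  obtain ⟨a, b, hab, -⟩ := exists_minor_eq_dl x y
  refine ⟨l, ?_⟩
  have h1 : (dl x y : ℝ) = |((minor x y a b : ℤ) : ℝ)| := by
    rw [← hab, Nat.cast_natAbs, Int.cast_abs]
  have h2 : (x i0 : ℝ) * ((minor x y a b : ℤ) : ℝ) =
      x a * ((minor x y i0 b : ℤ) : ℝ) - x b * ((minor x y i0 a : ℤ) : ℝ) := by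
    simp only [minor]
    push_cast
    ring
  have h3 : |(x i0 : ℝ)| * |((minor x y a b : ℤ) : ℝ)| ≤
      2 * B * |((minor x y i0 l : ℤ) : ℝ)| + 2 * B * |((minor x y i0 l : ℤ) : ℝ)| := by
    rw [← abs_mul, h2]
    refine (abs_sub _ _).trans ?_
    rw [abs_mul, abs_mul]
    have ha := hl a (mem_univ _)
    have hb := hl b (mem_univ _)
    exact add_le_add (mul_le_mul (hx2 a) hb (abs_nonneg _) (by positivity))
      (mul_le_mul (hx2 b) ha (abs_nonneg _) (by positivity))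
  have h4 : (B : ℝ) / 2 * |((minor x y a b : ℤ) : ℝ)| ≤
      |(x i0 : ℝ)| * |((minor x y a b : ℤ) : ℝ)| := by gcongr
  rw [h1]
  have h5 : (B : ℝ) * |((minor x y a b : ℤ) : ℝ)| ≤
      B * (8 * |((minor x y i0 l : ℤ) : ℝ)|) := by linarith
  exact le_of_mul_le_mul_left h5 hBpos

theorem mk_cons_ne {n e : ℕ} (i0 j : Fin (n + 1)) (h : j ≠ i0) :
    mk (Fin.cons j fun _ => i0 : Fin (e + 1) → Fin (n + 1)) ≠ mk fun _ : Fin (e + 1) => i0 := by
  intro h0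
  have h1 := congrArg (fun m : Idx n (e + 1) => mon (fun i => if i = j then (0 : ℤ) else 1) m.1) h0
  simp only [mon_mk] at h1
  rw [Fin.prod_univ_succ] at h1
  simp [h.symm] at h1

theorem short_pair {n d : ℕ} (hd : 2 ≤ d) (B : ℕ) (hB : 1 ≤ B) (x y : Fin (n + 1) → ℤ)
    (hx : Prim x) (hy : Prim y) (mu : ℝ) (hmu : 1 ≤ mu) (hgx : Ortho mu x) (hgy : Ortho mu y)
    (i0 : Fin (n + 1)) (hi0 : (B : ℝ) / 2 ≤ |(x i0 : ℝ)|) (hi0' : (B : ℝ) / 2 ≤ |(y i0 : ℝ)|)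
    (hx2 : ∀ i, |(x i : ℝ)| ≤ 2 * B) (hy2 : ∀ i, |(y i : ℝ)| ≤ 2 * B)
    (h : 0 < dl x y) (s : ℤ) (hs : (mg x y : ℤ) ∣ s) :
    ∃ t : Idx n d → ℤ, F t x = 0 ∧ F t y = s ∧
      ∀ m, |(t m : ℝ)| ≤ 2 ^ (d + 3) * |(s : ℝ)| / ((B : ℝ) ^ (d - 2) * dl x y) +
        c2 n d * mu ^ 2 := by
  have hBpos : (0 : ℝ) < B := by exact_mod_cast hB
  have hdpos : (0 : ℝ) < dl x y := by exact_mod_cast h
  have hy0 : (y i0 : ℝ) ≠ 0 := by
    intro h
    rw [h, abs_zero] at hi0'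
    linarith
  obtain ⟨j, hj⟩ := exists_large_minor B hB x y i0 hi0 hx2
  obtain ⟨t1, ht1x, ht1y⟩ := exists_vec_mg (d := d) (by omega) x y hx hy h
  obtain ⟨s', hs'⟩ := hs
  obtain ⟨g, hg0, hgm, hgs⟩ := span_pair hd x y h mu hmu hgx hgy
  obtain ⟨e, rfl⟩ : ∃ e, d = e + 2 := ⟨d - 2, by omega⟩
  -- the real solution
  set δ : ℝ := ((minor x y i0 j : ℤ) : ℝ) with hδ
  have hδ0 : δ ≠ 0 := by
    intro h
    rw [h, abs_zero] at hj
    linarith
  have hji : j ≠ i0 := by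
    rintro rfl
    apply hδ0
    rw [hδ, minor]
    simp
  have hδe : δ = (x i0 : ℝ) * y j - x j * y i0 := by
    rw [hδ, minor]
    push_cast
    ring
  set m1 : Idx n (e + 2) := mk fun _ => i0 with hm1
  set m2 : Idx n (e + 2) := mk (Fin.cons j fun _ => i0 : Fin (e + 1 + 1) → Fin (n + 1)) with hm2
  have hm12 : m2 ≠ m1 := mk_cons_ne i0 j hji
  set tR : Idx n (e + 2) → ℝ := fun m => (s : ℝ) / ((y i0 : ℝ) ^ (e + 1) * δ) *
    ((Pi.single m2 (x i0 : ℝ) : Idx n (e + 2) → ℝ) m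
      - (Pi.single m1 (x j : ℝ) : Idx n (e + 2) → ℝ) m) with htR
  have hFR : ∀ z : Fin (n + 1) → ℝ, F tR z = (s : ℝ) / ((y i0 : ℝ) ^ (e + 1) * δ) *
      (x i0 * (z j * z i0 ^ (e + 1)) - x j * (z i0 ^ (e + 2))) := by
    intro z
    rw [htR, F_smul]
    congr 1
    have h3 : F (fun m => (Pi.single m2 (x i0 : ℝ) : Idx n (e + 2) → ℝ) m
      - (Pi.single m1 (x j : ℝ) : Idx n (e + 2) → ℝ) m) z =
      F (Pi.single m2 (x i0 : ℝ) : Idx n (e + 2) → ℝ) z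
        - F (Pi.single m1 (x j : ℝ) : Idx n (e + 2) → ℝ) z := by
      simp only [F, sub_mul, Finset.sum_sub_distrib]
    rw [h3, F_single, F_single, hm1, hm2, mon_mk, mon_mk, Fin.prod_univ_succ]
    simp
  have hRx : F tR (fun i => (x i : ℝ)) = 0 := by
    rw [hFR]
    ring
  have hRy : F tR (fun i => (y i : ℝ)) = s := by
    rw [hFR]
    have : (x i0 : ℝ) * (y j * y i0 ^ (e + 1)) - x j * (y i0 ^ (e + 2)) =
        (y i0 : ℝ) ^ (e + 1) * δ := by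
      rw [hδe]
      ring
    rw [this]
    field_simp
  obtain ⟨r, hr⟩ := hgs
    (fun m => (((fun m => s' * t1 m : Idx n (e + 2) → ℤ) m : ℤ) : ℝ) - tR m)
    (by rw [F_cast_sub, hRx, F_smul, ht1x]; simp)
    (by
      rw [F_cast_sub, hRy, F_smul, ht1y, hs']
      push_cast
      ring)
  obtain ⟨t, ht1, ht2⟩ := round_family g (((n : ℝ) + 1) ^ 2 * mu ^ 2) hgm
    (fun m => s' * t1 m) tR r hr
  refine ⟨t, ?_, ?_, fun m => (ht2 m).trans ?_⟩
  · rw [ht1 x (fun q => (hg0 q).1), F_smul, ht1x, mul_zero]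
  · rw [ht1 y (fun q => (hg0 q).2), F_smul, ht1y, hs', mul_comm]
  · have h1 : |tR m| ≤ 2 ^ (e + 2 + 3) * |(s : ℝ)| / ((B : ℝ) ^ (e + 2 - 2) * dl x y) := by
      rw [htR]
      simp only
      rw [abs_mul, abs_div, abs_mul, abs_pow]
      have h2 : |(Pi.single m2 (x i0 : ℝ) : Idx n (e + 2) → ℝ) m
          - (Pi.single m1 (x j : ℝ) : Idx n (e + 2) → ℝ) m| ≤ 2 * B := by
        by_cases h3 : m = m1
        · subst h3
          rw [Pi.single_eq_of_ne hm12.symm, Pi.single_eq_same, zero_sub, abs_neg]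
          exact hx2 j
        · rw [Pi.single_eq_of_ne h3, sub_zero]
          by_cases h4 : m = m2
          · subst h4
            rw [Pi.single_eq_same]
            exact hx2 i0
          · rw [Pi.single_eq_of_ne h4, abs_zero]
            positivity
      have h3 : (B : ℝ) ^ (e + 1) ≤ 2 ^ (e + 1) * |(y i0 : ℝ)| ^ (e + 1) := by
        rw [← mul_pow]
        gcongr
        linarith
      have hy0' : 0 < |(y i0 : ℝ)| := abs_pos.mpr hy0
      have hδ' : 0 < |δ| := abs_pos.mpr hδ0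
      rw [show e + 2 - 2 = e by omega]
      calc |(s : ℝ)| / (|(y i0 : ℝ)| ^ (e + 1) * |δ|) *
            |(Pi.single m2 (x i0 : ℝ) : Idx n (e + 2) → ℝ) m
              - (Pi.single m1 (x j : ℝ) : Idx n (e + 2) → ℝ) m|
          ≤ |(s : ℝ)| / (|(y i0 : ℝ)| ^ (e + 1) * |δ|) * (2 * B) := by gcongr
        _ = |(s : ℝ)| * (2 * B) / (|(y i0 : ℝ)| ^ (e + 1) * |δ|) := by ring
        _ ≤ 2 ^ (e + 2 + 3) * |(s : ℝ)| / ((B : ℝ) ^ e * dl x y) := by
            rw [div_le_div_iff₀ (by positivity) (by positivity)]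
            have h5 : (B : ℝ) ^ (e + 1) * dl x y ≤
                2 ^ (e + 1) * |(y i0 : ℝ)| ^ (e + 1) * (8 * |δ|) :=
              mul_le_mul h3 hj hdpos.le (by positivity)
            calc |(s : ℝ)| * (2 * B) * ((B : ℝ) ^ e * dl x y)
                = 2 * |(s : ℝ)| * ((B : ℝ) ^ (e + 1) * dl x y) := by ring
              _ ≤ 2 * |(s : ℝ)| * (2 ^ (e + 1) * |(y i0 : ℝ)| ^ (e + 1) * (8 * |δ|)) := by gcongr
              _ = 2 ^ (e + 2 + 3) * |(s : ℝ)| * (|(y i0 : ℝ)| ^ (e + 1) * |δ|) := by ring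
    have h2 : (Fintype.card (Fin n × Fin n × (Fin (e + 2 - 2) → Fin (n + 1))) : ℝ) =
        n * (n * ((n : ℝ) + 1) ^ (e + 2 - 2)) := by
      rw [Fintype.card_prod, Fintype.card_prod, card_fin_fun]
      simp
    rw [h2, c2]
    linarith

end GenHP
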