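import Pool.Agent.Lib.MP_e426f4_ag.G.BadA
import Pool.Agent.Lib.MP_e426f4_ag.AP

/-! G-BPb: points divisible by a large prime contribute little. -/

namespace GenHP

open Finset Filter Topology

theorem bp_ncard_multiples_le (n B l : ℕ) (hl : 1 ≤ l) (hlB : l ≤ 2 * B) :
    (Set.ncard {x : Fin (n + 1) → ℤ | x ∈ boxn n (2 * B) ∧ ∀ i, (l : ℤ) ∣ x i} : ℝ) ≤
      (6 * B / l) ^ (n + 1) := by
  classical
  have hp' : (0 : ℝ) < l := by exact_mod_cast hl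
  obtain ⟨hfin, -, hle⟩ := CubicHP.ncard_AP (-(2 * B : ℝ)) (2 * B) (by
    have : (0 : ℝ) ≤ B := Nat.cast_nonneg B
    linarith) l hl 0
  have hset : {x : Fin (n + 1) → ℤ | x ∈ boxn n (2 * B) ∧ ∀ i, (l : ℤ) ∣ x i} =
      ((Fintype.piFinset fun _ : Fin (n + 1) => hfin.toFinset : Finset (Fin (n + 1) → ℤ)) :
        Set (Fin (n + 1) → ℤ)) := by
    ext x
    simp only [Finset.mem_coe, Fintype.mem_piFinset, Set.Finite.mem_toFinset, mem_boxn,
      Set.mem_ofPred_eq, sub_zero]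
    constructor
    · rintro ⟨h1, h2⟩ i
      have h3 := abs_le.1 (h1 i)
      have h4 : ((-(2 * B : ℕ) : ℤ) : ℝ) ≤ (x i : ℝ) := by exact_mod_cast h3.1
      have h5 : (x i : ℝ) ≤ ((2 * B : ℕ) : ℝ) := by exact_mod_cast h3.2
      push_cast at h4 h5
      exact ⟨h4, h5, h2 i⟩
    · intro h
      refine ⟨fun i => ?_, fun i => (h i).2.2⟩
      rw [abs_le]
      constructor
      · have := (h i).1
        have h4 : ((-(2 * B : ℕ) : ℤ) : ℝ) ≤ (x i : ℝ) := by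
          push_cast
          exact this
        exact_mod_cast h4
      · have := (h i).2.1
        have h4 : (x i : ℝ) ≤ (((2 * B : ℕ) : ℤ) : ℝ) := by
          push_cast
          exact this
        exact_mod_cast h4
  rw [hset, Set.ncard_coe_finset, Fintype.card_piFinset]
  simp only [Finset.prod_const, Finset.card_univ, Fintype.card_fin]
  push_cast
  rw [← Set.ncard_eq_toFinset_card _ hfin]
  apply pow_le_pow_left₀ (Nat.cast_nonneg _)
  refine hle.trans ?_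
  have h1 : (1 : ℝ) ≤ 2 * B / l := by
    rw [one_le_div hp']
    exact_mod_cast hlB
  have h2 : (2 * (B : ℝ) - -(2 * B)) / l = 2 * (2 * B / l) := by
    field_simp
    ring
  have h3 : 6 * (B : ℝ) / l = 3 * (2 * B / l) := by
    field_simp
    ring
  rw [h2, h3]
  linarith

theorem bp_sum_inv_pow_le (n z N : ℕ) (hn : 1 ≤ n) (hz : 1 ≤ z) :
    ∑ l ∈ Finset.Ioc z N, (1 : ℝ) / (l : ℝ) ^ (n + 1) ≤ 1 / z := by
  rcases le_or_gt z N with h | h
  · have h1 : ∀ l ∈ Finset.Ioc z N, (1 : ℝ) / (l : ℝ) ^ (n + 1) ≤ ((l : ℝ) ^ 2)⁻¹ := by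
      intro l hl
      rw [Finset.mem_Ioc] at hl
      have hp1 : (1 : ℝ) ≤ l := by exact_mod_cast (by omega : 1 ≤ l)
      rw [← one_div]
      apply one_div_le_one_div_of_le (by positivity)
      exact pow_le_pow_right₀ hp1 (by omega)
    refine (Finset.sum_le_sum h1).trans ?_
    refine (sum_Ioc_inv_sq_le_sub (by omega : z ≠ 0) h).trans ?_
    rw [one_div]
    have : (0 : ℝ) ≤ (N : ℝ)⁻¹ := by positivity
    linarith
  · rw [Finset.Ioc_eq_empty (by omega), Finset.sum_empty]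
    positivity

/-- BPb (BadB.lean): points divisible by a large prime -/
theorem bad_large_prime {n d : ℕ} (p : Par n d) (eps bet : ℝ) (w : ℕ) (hp : p.Valid eps bet w) :
    ∃ z : ℕ, ∀ th : ℝ, 0 < th → ∀ s : ℕ, p.Q ∣ p.W ^ s →
      ∀ᶠ H : ℝ in atTop,
        ((p.LP p.rho th s {x | x ∈ p.XX (Bf n d H) ∧ ∃ l : ℕ, l.Prime ∧ z < l ∧
          ∀ i, (l : ℤ) ∣ x i} H).ncard : ℝ) ≤ eps / 2 * p.MT th s H := by
  classical
  obtain ⟨e, he, hfew⟩ := bp_few_points_le p eps bet w hp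
  refine ⟨⌈6 ^ (n + 1) / e⌉₊ + 1, ?_⟩
  intro th hth s hs
  filter_upwards [hfew th hth s hs, eventually_ge_atTop 1] with H hH hH1
  refine hH _ (fun x hx => hx.1) ?_
  obtain ⟨z, hz⟩ : ∃ z, z = ⌈(6 : ℝ) ^ (n + 1) / e⌉₊ + 1 := ⟨_, rfl⟩
  rw [← hz]
  have hB1 := bp_one_le_Bf hp.n_ge hp.d_ge hp.d_le hH1
  obtain ⟨B, hB⟩ : ∃ B, B = Bf n d H := ⟨_, rfl⟩
  rw [← hB] at hB1 ⊢
  have hB' : (1 : ℝ) ≤ B := by exact_mod_cast hB1
  let T : ℕ → Finset (Fin (n + 1) → ℤ) := fun l =>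
    (boxn n (2 * B)).filter fun x => ∀ i, (l : ℤ) ∣ x i
  have hT : ∀ l : ℕ, (({x : Fin (n + 1) → ℤ | x ∈ boxn n (2 * B) ∧ ∀ i, (l : ℤ) ∣ x i} :
      Set (Fin (n + 1) → ℤ))) = (T l : Set (Fin (n + 1) → ℤ)) := by
    intro l
    ext x
    simp [T]
  have hsub : {x | x ∈ p.XX B ∧ ∃ l : ℕ, l.Prime ∧ z < l ∧ ∀ i, (l : ℤ) ∣ x i} ⊆
      (((Finset.Ioc z (2 * B)).biUnion T : Finset (Fin (n + 1) → ℤ)) :
        Set (Fin (n + 1) → ℤ)) := by
    rintro x ⟨hx, l, hl, hzl, hlx⟩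
    have hx4 := bp_XX_sub_boxn p eps bet w hp B x hx
    rw [Finset.mem_coe, Finset.mem_biUnion]
    refine ⟨l, ?_, ?_⟩
    · rw [Finset.mem_Ioc]
      refine ⟨hzl, ?_⟩
      obtain ⟨i, hi⟩ := hp.xi_eq
      have h1 := (mem_XX_bounds p eps bet w hp B x hx i).2 hi
      have hxi : x i ≠ 0 := by
        intro h0
        rw [h0] at h1
        simp at h1
        linarith
      have h2 := Int.le_of_dvd (abs_pos.2 hxi) ((dvd_abs _ _).2 (hlx i))
      have h3 := (mem_boxn.1 hx4) i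
      exact_mod_cast h2.trans h3
    · simp only [T, Finset.mem_filter]
      exact ⟨hx4, hlx⟩
  have h1 := Set.ncard_le_ncard hsub (Finset.finite_toSet _)
  rw [Set.ncard_coe_finset] at h1
  have h2 : (((Finset.Ioc z (2 * B)).biUnion T).card : ℝ) ≤
      ∑ l ∈ Finset.Ioc z (2 * B), ((T l).card : ℝ) := by
    exact_mod_cast Finset.card_biUnion_le
  have h3 : ∀ l ∈ Finset.Ioc z (2 * B), ((T l).card : ℝ) ≤ 6 ^ (n + 1) * (B : ℝ) ^ (n + 1) *
      (1 / (l : ℝ) ^ (n + 1)) := by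
    intro l hl
    rw [Finset.mem_Ioc] at hl
    have h4 := bp_ncard_multiples_le n B l (by omega) hl.2
    rw [hT, Set.ncard_coe_finset] at h4
    refine h4.trans (le_of_eq ?_)
    rw [div_pow, mul_pow]
    ring
  have hzpos : 1 ≤ z := by omega
  have hn1 : 1 ≤ n := by have := hp.n_ge; omega
  have h5 := bp_sum_inv_pow_le n z (2 * B) hn1 hzpos
  have h6 : 6 ^ (n + 1) * (1 / (z : ℝ)) ≤ e := by
    have hz' : (0 : ℝ) < z := by exact_mod_cast hzpos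
    have h7 : 6 ^ (n + 1) / e ≤ z := by
      refine (Nat.le_ceil _).trans ?_
      rw [hz]
      push_cast
      linarith
    rw [div_le_iff₀ he] at h7
    rw [mul_one_div, div_le_iff₀ hz']
    linarith
  calc ((Set.ncard {x | x ∈ p.XX B ∧ ∃ l : ℕ, l.Prime ∧ z < l ∧ ∀ i, (l : ℤ) ∣ x i} : ℕ) : ℝ)
      ≤ (((Finset.Ioc z (2 * B)).biUnion T).card : ℝ) := by exact_mod_cast h1
    _ ≤ ∑ l ∈ Finset.Ioc z (2 * B), ((T l).card : ℝ) := h2
    _ ≤ ∑ l ∈ Finset.Ioc z (2 * B), 6 ^ (n + 1) * (B : ℝ) ^ (n + 1) * (1 / (l : ℝ) ^ (n + 1)) :=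
        Finset.sum_le_sum h3
    _ = 6 ^ (n + 1) * (B : ℝ) ^ (n + 1) *
        ∑ l ∈ Finset.Ioc z (2 * B), (1 / (l : ℝ) ^ (n + 1)) := by
        rw [Finset.mul_sum]
    _ ≤ 6 ^ (n + 1) * (B : ℝ) ^ (n + 1) * (1 / z) := mul_le_mul_of_nonneg_left h5 (by positivity)
    _ = (6 ^ (n + 1) * (1 / (z : ℝ))) * (B : ℝ) ^ (n + 1) := by ring
    _ ≤ e * (B : ℝ) ^ (n + 1) := mul_le_mul_of_nonneg_right h6 (by positivity)

end GenHP
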