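import Pool.Agent.Lib.MP_e426f4_ag.G.BadB
import Pool.Agent.Lib.MP_e426f4_ag.G.CardCl
import Pool.Agent.Lib.MP_e426f4_ag.G.NLoc

/-! G-BPc: points divisible by a medium prime contribute little. -/

namespace GenHP

open Finset Filter Topology

/-- counting in fibres -/
theorem bp_ncard_fiber_le {α β : Type*} (S : Set α) (hS : S.Finite) (g : α → β) (Y : Set β)
    (hY : Y.Finite) (hg : ∀ x ∈ S, g x ∈ Y) (C : ℝ)
    (h : ∀ y ∈ Y, (Set.ncard {x | x ∈ S ∧ g x = y} : ℝ) ≤ C) :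
    (S.ncard : ℝ) ≤ C * Y.ncard := by
  classical
  have h1 : S.ncard = ∑ y ∈ hY.toFinset, Set.ncard {x | x ∈ S ∧ g x = y} := by
    rw [Set.ncard_eq_toFinset_card S hS]
    rw [Finset.card_eq_sum_card_fiberwise (f := g) (t := hY.toFinset)]
    · refine Finset.sum_congr rfl fun y _ => ?_
      rw [← Set.ncard_coe_finset]
      congr 1
      ext x
      simp
    · intro x hx
      have hx' : x ∈ S := by simpa using hx
      simpa using hg x hx'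
  rw [h1, Set.ncard_eq_toFinset_card Y hY]
  push_cast
  calc (∑ y ∈ hY.toFinset, (Set.ncard {x | x ∈ S ∧ g x = y} : ℝ))
      ≤ ∑ y ∈ hY.toFinset, C := Finset.sum_le_sum fun y hy => h y (by simpa using hy)
    _ = _ := by rw [Finset.sum_const, nsmul_eq_mul, mul_comm]

theorem bp_coprime_of_gt {n d : ℕ} (p : Par n d) (eps bet : ℝ) (w : ℕ) (hp : p.Valid eps bet w)
    (l : ℕ) (hl : l.Prime) (hlw : w < l) : Nat.Coprime l p.W := by
  rw [Nat.Prime.coprime_iff_not_dvd hl]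
  intro h
  have := (hp.W_primes l hl).1 h
  omega

theorem bp_Cl_near {n d : ℕ} (p : Par n d) (eps bet : ℝ) (w : ℕ) (hp : p.Valid eps bet w)
    (r H : ℝ) (hH : 0 ≤ H) (hr : r ≤ 2 * p.rho) (A : Idx n d → ℤ) (hA : A ∈ p.Cl r H)
    (m : Idx n d) : |(A m : ℝ) - H * p.Ainf m| ≤ 3 * p.rho * H := by
  calc |(A m : ℝ) - H * p.Ainf m| = |((A m : ℝ) - H * p.AC m) + H * (p.AC m - p.Ainf m)| := by
        ring_nf
    _ ≤ |(A m : ℝ) - H * p.AC m| + |H * (p.AC m - p.Ainf m)| := abs_add_le _ _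
    _ ≤ r * H + H * p.rho := by
        refine add_le_add (hA.1 m) ?_
        rw [abs_mul, abs_of_nonneg hH]
        exact mul_le_mul_of_nonneg_left (hp.AC_near m) hH
    _ ≤ 3 * p.rho * H := by nlinarith

/-- BPc (BadC.lean): points divisible by a prime in `(w, z]` -/
theorem bad_medium_prime {n d : ℕ} (p : Par n d) (eps bet : ℝ) (w : ℕ) (hp : p.Valid eps bet w)
    (z : ℕ) (th : ℝ) (hth : 0 < th) (hth2 : th ≤ p.kap * bet / 4) (s : ℕ) (hs : p.Q ∣ p.W ^ s) :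
    ∀ᶠ H : ℝ in atTop,
      ((p.LP p.rho th s {x | x ∈ p.XX (Bf n d H) ∧ ∃ l : ℕ, l.Prime ∧ w < l ∧ l ≤ z ∧
          ∀ i, (l : ℤ) ∣ x i} H).ncard : ℝ) ≤ 2 / w * p.MT th s H := by
  classical
  have hg : 0 < |p.gam| := lt_of_lt_of_le hp.bet_pos hp.gam_ge
  have hP : (0 : ℝ) < p.P := by exact_mod_cast hp.P_pos
  have hQ : (0 : ℝ) < p.Q := by exact_mod_cast hp.Q_pos
  have hW : (0 : ℝ) < p.W := by exact_mod_cast hp.W_pos
  have hk := hp.kap_pos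
  have hr := hp.rho_pos
  have he := hp.eps_pos
  have he1 := hp.eps_le
  have hw2 := hp.w_two
  let PP : Finset ℕ := (Finset.Ioc w z).filter Nat.Prime
  have hall : ∀ l ∈ PP, ∀ᶠ H : ℝ in atTop, ∀ A ∈ p.Cl p.rho H,
      (Set.ncard {x : Fin (n + 1) → ℤ | x ∈ p.XX (Bf n d H) ∧ ((p.W : ℤ) ^ s) ∣ F A x ∧
          |((F A x : ℤ) : ℝ)| ≤ th * H * (Bf n d H : ℝ) ^ d ∧ ∀ i, (l : ℤ) ∣ x i - 0} : ℝ) ≤
        (1 + eps) * (Vol n p.gam p.kap th (Bf n d H) * p.Q /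
          ((p.P : ℝ) ^ (n + 1) * (p.W : ℝ) ^ s)) / (l : ℝ) ^ (n + 1) := by
    intro l hl
    simp only [PP, Finset.mem_filter, Finset.mem_Ioc] at hl
    obtain ⟨B0, hB0⟩ := nloc p eps bet w hp th hth hth2 s hs l hl.2.pos
      (bp_coprime_of_gt p eps bet w hp l hl.2 hl.1.1)
    filter_upwards [eventually_gt_atTop 0, (Bf_atTop n d hp.n_ge hp.d_ge hp.d_le).eventually
      (eventually_ge_atTop B0)] with H hH hB A hA
    exact (hB0 (Bf n d H) hB H hH A (fun m => bp_Cl_near p eps bet w hp p.rho H hH.le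
      (by linarith) A hA m) hA.2 (fun _ => 0)).2
  have hall' := (Filter.eventually_all_finset PP).2 hall
  filter_upwards [hall', card_Cl p hp.Q_pos p.rho eps hr he, eventually_ge_atTop 0]
    with H hH hCl hH0
  have hXn : 0 ≤ p.Xn H := by
    rw [Par.Xn]
    positivity
  have hCl2 : ((p.Cl p.rho H).ncard : ℝ) ≤ (1 + eps) * p.Xn H := hCl.2
  obtain ⟨T, hT⟩ : ∃ T, T = Vol n p.gam p.kap th (Bf n d H) * p.Q /
      ((p.P : ℝ) ^ (n + 1) * (p.W : ℝ) ^ s) := ⟨_, rfl⟩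
  have hT0 : 0 ≤ T := by
    rw [hT, Vol]
    positivity
  rw [← hT] at hH
  let U : ℕ → Set ((Idx n d → ℤ) × (Fin (n + 1) → ℤ)) := fun l =>
    {q | q.1 ∈ p.Cl p.rho H ∧ q.2 ∈ p.XX (Bf n d H) ∧ ((p.W : ℤ) ^ s) ∣ F q.1 q.2 ∧
      |((F q.1 q.2 : ℤ) : ℝ)| ≤ th * H * (Bf n d H : ℝ) ^ d ∧ ∀ i, (l : ℤ) ∣ q.2 i - 0}
  have hUfin : ∀ l, (U l).Finite := fun l =>
    ((Cl_finite p p.rho H).prod (XX_finite p (Bf n d H))).subset fun q hq => ⟨hq.1, hq.2.1⟩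
  have hU : ∀ l ∈ PP, ((U l).ncard : ℝ) ≤
      (1 + eps) * T / (l : ℝ) ^ (n + 1) * (p.Cl p.rho H).ncard := by
    intro l hl
    refine bp_ncard_fiber_le (U l) (hUfin l) Prod.fst (p.Cl p.rho H) (Cl_finite p p.rho H)
      (fun q hq => hq.1) _ ?_
    intro A hA
    have hset : {q | q ∈ U l ∧ q.1 = A} = (fun x : Fin (n + 1) → ℤ => (A, x)) ''
        {x : Fin (n + 1) → ℤ | x ∈ p.XX (Bf n d H) ∧ ((p.W : ℤ) ^ s) ∣ F A x ∧
          |((F A x : ℤ) : ℝ)| ≤ th * H * (Bf n d H : ℝ) ^ d ∧ ∀ i, (l : ℤ) ∣ x i - 0} := by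
      ext q
      constructor
      · rintro ⟨⟨h1, h2⟩, rfl⟩
        exact ⟨q.2, h2, rfl⟩
      · rintro ⟨x, hx, rfl⟩
        exact ⟨⟨hA, hx⟩, rfl⟩
    rw [hset, Set.ncard_image_of_injective _ (fun x y hxy => (Prod.mk.inj hxy).2)]
    exact hH l hl A hA
  have hsub : p.LP p.rho th s {x | x ∈ p.XX (Bf n d H) ∧ ∃ l : ℕ, l.Prime ∧ w < l ∧ l ≤ z ∧
      ∀ i, (l : ℤ) ∣ x i} H ⊆
      ((PP.biUnion fun l => (hUfin l).toFinset :
        Finset ((Idx n d → ℤ) × (Fin (n + 1) → ℤ))) :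
        Set ((Idx n d → ℤ) × (Fin (n + 1) → ℤ))) := by
    rintro q ⟨h1, ⟨h2, l, hl, hwl, hlz, hlx⟩, h3, h4⟩
    rw [Finset.mem_coe, Finset.mem_biUnion]
    refine ⟨l, ?_, ?_⟩
    · simp only [PP, Finset.mem_filter, Finset.mem_Ioc]
      exact ⟨⟨hwl, hlz⟩, hl⟩
    · rw [Set.Finite.mem_toFinset]
      exact ⟨h1, h2, h3, h4, fun i => by rw [sub_zero]; exact hlx i⟩
  have h1 := Set.ncard_le_ncard hsub (Finset.finite_toSet _)
  rw [Set.ncard_coe_finset] at h1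
  have h2 : ((PP.biUnion fun l => (hUfin l).toFinset).card : ℝ) ≤
      ∑ l ∈ PP, ((U l).ncard : ℝ) := by
    have h3 : ((PP.biUnion fun l => (hUfin l).toFinset).card : ℝ) ≤
        ∑ l ∈ PP, (((hUfin l).toFinset).card : ℝ) := by
      exact_mod_cast Finset.card_biUnion_le
    refine h3.trans (le_of_eq ?_)
    refine Finset.sum_congr rfl fun l _ => ?_
    rw [Set.ncard_eq_toFinset_card _ (hUfin l)]
  have hn1 : 1 ≤ n := by have := hp.n_ge; omega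
  have h4 : ∑ l ∈ PP, (1 : ℝ) / (l : ℝ) ^ (n + 1) ≤ 1 / w := by
    refine le_trans ?_ (bp_sum_inv_pow_le n w z hn1 (by omega))
    refine Finset.sum_le_sum_of_subset_of_nonneg (Finset.filter_subset _ _) ?_
    intro l _ _
    positivity
  have hMT : p.MT th s H = T * p.Xn H := by rw [Par.MT, hT]
  rw [hMT]
  have hw' : (0 : ℝ) < w := by exact_mod_cast (by omega : 0 < w)
  calc ((p.LP p.rho th s {x | x ∈ p.XX (Bf n d H) ∧ ∃ l : ℕ, l.Prime ∧ w < l ∧ l ≤ z ∧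
          ∀ i, (l : ℤ) ∣ x i} H).ncard : ℝ)
      ≤ ((PP.biUnion fun l => (hUfin l).toFinset).card : ℝ) := by exact_mod_cast h1
    _ ≤ ∑ l ∈ PP, ((U l).ncard : ℝ) := h2
    _ ≤ ∑ l ∈ PP, (1 + eps) * T / (l : ℝ) ^ (n + 1) * (p.Cl p.rho H).ncard :=
        Finset.sum_le_sum hU
    _ = (1 + eps) * T * (p.Cl p.rho H).ncard * ∑ l ∈ PP, (1 : ℝ) / (l : ℝ) ^ (n + 1) := by
        rw [Finset.mul_sum]
        refine Finset.sum_congr rfl fun l _ => ?_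
        ring
    _ ≤ (1 + eps) * T * (p.Cl p.rho H).ncard * (1 / w) :=
        mul_le_mul_of_nonneg_left h4 (by positivity)
    _ ≤ (1 + eps) * T * ((1 + eps) * p.Xn H) * (1 / w) := by
        apply mul_le_mul_of_nonneg_right _ (by positivity)
        exact mul_le_mul_of_nonneg_left hCl2 (by positivity)
    _ = (1 + eps) ^ 2 * (T * p.Xn H * (1 / w)) := by ring
    _ ≤ 2 * (T * p.Xn H * (1 / w)) := by
        apply mul_le_mul_of_nonneg_right _ (by positivity)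
        nlinarith
    _ = 2 / w * (T * p.Xn H) := by ring

end GenHP
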