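import Pool.Agent.Lib.MP_e426f4_ag.G.ShortTwo

/-! Module CP: crude count of the forms vanishing at a pair of points. -/

namespace GenHP

open Finset

variable {n d : ℕ}

/-- counting by translation along the levels `s ∈ m ℤ`, `|s| ≤ L` -/
theorem levels_count (S U : Set (Idx n d → ℤ)) (hT : U.Finite) (z : Fin (n + 1) → ℤ) (m : ℕ)
    (hm : 0 < m) (L : ℝ) (hL : 0 ≤ L) (hS : ∀ A ∈ S, F A z = 0)
    (h : ∀ s : ℤ, (m : ℤ) ∣ s → |(s : ℝ)| ≤ L →
      ∃ t : Idx n d → ℤ, F t z = s ∧ ∀ A ∈ S, (fun i => A i + t i) ∈ U) :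
    (S.ncard : ℝ) * (L / m) ≤ U.ncard := by
  have hm' : (0 : ℝ) < m := by exact_mod_cast hm
  set K : ℕ := ⌊L / m⌋₊ with hK
  have hK1 : (K : ℝ) ≤ L / m := Nat.floor_le (by positivity)
  have hK2 : L / m < K + 1 := Nat.lt_floor_add_one _
  have hlev : ∀ k : ℤ, ∃ t : Idx n d → ℤ, k ∈ Set.Icc (-(K : ℤ)) K →
      (F t z = m * k ∧ ∀ A ∈ S, (fun i => A i + t i) ∈ U) := by
    intro k
    by_cases hk : k ∈ Set.Icc (-(K : ℤ)) K
    · obtain ⟨t, h1, h2⟩ := h (m * k) (dvd_mul_right _ _) (by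
        have h3 : |(k : ℝ)| ≤ K := by
          rw [abs_le]
          exact ⟨by exact_mod_cast hk.1, by exact_mod_cast hk.2⟩
        push_cast
        rw [abs_mul, abs_of_pos hm']
        calc (m : ℝ) * |(k : ℝ)| ≤ m * (L / m) := by gcongr; linarith
          _ = L := by field_simp)
      exact ⟨t, fun _ => ⟨h1, h2⟩⟩
    · exact ⟨0, fun h => absurd h hk⟩
  choose t ht using hlev
  have hle : (S ×ˢ Set.Icc (-(K : ℤ)) K).ncard ≤ U.ncard := by
    refine Set.ncard_le_ncard_of_injOn (fun p i => p.1 i + t p.2 i) ?_ ?_ hT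
    · rintro ⟨A, k⟩ ⟨hA, hk⟩
      exact (ht k hk).2 A hA
    · rintro ⟨A, k⟩ ⟨hA, hk⟩ ⟨A', k'⟩ ⟨hA', hk'⟩ heq
      simp only at heq hA hk hA' hk'
      have e1 : F (fun i => A i + t k i) z = m * k := by
        rw [F_add, hS A hA, (ht k hk).1, zero_add]
      have e2 : F (fun i => A' i + t k' i) z = m * k' := by
        rw [F_add, hS A' hA', (ht k' hk').1, zero_add]
      have e3 : (m : ℤ) * k = m * k' := by
        rw [← e1, ← e2, heq]
      have e4 : k = k' := mul_left_cancel₀ (by exact_mod_cast hm.ne') e3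
      subst e4
      congr 1
      funext i
      have := congrFun heq i
      simpa using this
  have hcard : (Set.Icc (-(K : ℤ)) K).ncard = 2 * K + 1 := by
    rw [← Finset.coe_Icc, Set.ncard_coe_finset, Int.card_Icc]
    omega
  rw [Set.ncard_prod, hcard] at hle
  have hle' : (S.ncard : ℝ) * (2 * K + 1) ≤ U.ncard := by exact_mod_cast hle
  refine le_trans ?_ hle'
  gcongr
  have : (0 : ℝ) ≤ K := Nat.cast_nonneg _
  linarith

theorem bdd_finite (H : ℝ) (p : (Idx n d → ℤ) → Prop) :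
    {A : Idx n d → ℤ | (∀ m, |(A m : ℝ)| ≤ H) ∧ p A}.Finite :=
  finite_of_abs_le _ H fun _ hA m => hA.1 m

/-- number of integer vectors in a cube -/
theorem card_bdd {ι : Type*} [Fintype ι] (H : ℝ) (hH : 0 ≤ H) :
    ({A : ι → ℤ | ∀ m, |(A m : ℝ)| ≤ H}.ncard : ℝ) ≤ (2 * H + 1) ^ Fintype.card ι := by
  classical
  set b : Finset (ι → ℤ) := Fintype.piFinset fun _ => Icc (-(⌊H⌋₊ : ℤ)) ⌊H⌋₊ with hb
  have h1 : {A : ι → ℤ | ∀ m, |(A m : ℝ)| ≤ H} ⊆ (b : Set (ι → ℤ)) := by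
    intro A hA
    rw [Finset.mem_coe, hb, Fintype.mem_piFinset]
    intro m
    have h2 : |(A m : ℝ)| ≤ H := hA m
    have h3 : ((A m).natAbs : ℝ) ≤ H := by
      rw [Nat.cast_natAbs, Int.cast_abs]
      exact h2
    have h4 : (A m).natAbs ≤ ⌊H⌋₊ := Nat.le_floor h3
    rw [Finset.mem_Icc]
    omega
  have h2 : {A : ι → ℤ | ∀ m, |(A m : ℝ)| ≤ H}.ncard ≤ b.card := by
    rw [← Set.ncard_coe_finset]
    exact Set.ncard_le_ncard h1 (Finset.finite_toSet _)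
  have h3 : b.card = (2 * ⌊H⌋₊ + 1) ^ Fintype.card ι := by
    rw [hb, Fintype.card_piFinset]
    simp only [Int.card_Icc, Finset.prod_const, Finset.card_univ]
    congr 1
    omega
  rw [h3] at h2
  calc ({A : ι → ℤ | ∀ m, |(A m : ℝ)| ≤ H}.ncard : ℝ)
      ≤ (((2 * ⌊H⌋₊ + 1) ^ Fintype.card ι : ℕ) : ℝ) := by exact_mod_cast h2
    _ = (2 * (⌊H⌋₊ : ℝ) + 1) ^ Fintype.card ι := by push_cast; ring
    _ ≤ (2 * H + 1) ^ Fintype.card ι := by
        have h5 := Nat.floor_le hH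
        gcongr

theorem crude_pair {n d : ℕ} (hd : 2 ≤ d) (B : ℕ) (hB : 1 ≤ B) (x y : Fin (n + 1) → ℤ)
    (hx : Prim x) (hy : Prim y) (mu : ℝ) (hmu : 1 ≤ mu) (hgx : Ortho mu x) (hgy : Ortho mu y)
    (i0 : Fin (n + 1)) (hi0 : (B : ℝ) / 2 ≤ |(x i0 : ℝ)|) (hi0' : (B : ℝ) / 2 ≤ |(y i0 : ℝ)|)
    (hx2 : ∀ i, |(x i : ℝ)| ≤ 2 * B) (hy2 : ∀ i, |(y i : ℝ)| ≤ 2 * B)
    (h : 0 < dl x y) (H : ℝ) (hH : 1 ≤ H) (h1 : 2 * c2 n d * mu ^ 2 ≤ H)
    (h2 : 2 * c1 n d * mu ≤ H) :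
    (Set.ncard {A : Idx n d → ℤ | (∀ m, |(A m : ℝ)| ≤ H) ∧ F A x = 0 ∧ F A y = 0} : ℝ) ≤
      7 ^ NN n d * 2 ^ (2 * d + 5) * H ^ NN n d * mg x y /
        (H ^ 2 * (B : ℝ) ^ (2 * d - 2) * dl x y) := by
  have hBpos : (0 : ℝ) < B := by exact_mod_cast hB
  have hdpos : (0 : ℝ) < dl x y := by exact_mod_cast h
  have hmg := mg_pos_of_dl_pos x y h
  have hmpos : (0 : ℝ) < mg x y := by exact_mod_cast hmg
  have hHpos : 0 < H := by linarith
  set L1 : ℝ := H * (B : ℝ) ^ (d - 2) * dl x y / 2 ^ (d + 4) with hL1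
  set L2 : ℝ := H * (B : ℝ) ^ d / 2 ^ (d + 1) with hL2
  have hstep1 := levels_count
    {A : Idx n d → ℤ | (∀ m, |(A m : ℝ)| ≤ H) ∧ F A x = 0 ∧ F A y = 0}
    {A : Idx n d → ℤ | (∀ m, |(A m : ℝ)| ≤ 2 * H) ∧ F A x = 0} (bdd_finite _ _) y (mg x y) hmg
    L1 (by positivity) (fun A hA => hA.2.2) (by
      intro s hs hsL
      obtain ⟨t, htx, hty, htm⟩ := short_pair hd B hB x y hx hy mu hmu hgx hgy i0 hi0 hi0' hx2 hy2
        h s hs
      refine ⟨t, hty, fun A hA => ⟨fun m => ?_, ?_⟩⟩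
      · have h3 : 2 ^ (d + 3) * |(s : ℝ)| / ((B : ℝ) ^ (d - 2) * dl x y) ≤ H / 2 := by
          rw [div_le_div_iff₀ (by positivity) (by norm_num)]
          rw [hL1, le_div_iff₀ (by positivity)] at hsL
          calc 2 ^ (d + 3) * |(s : ℝ)| * 2 = |(s : ℝ)| * 2 ^ (d + 4) := by ring
            _ ≤ H * (B : ℝ) ^ (d - 2) * dl x y := hsL
            _ = H * ((B : ℝ) ^ (d - 2) * dl x y) := by ring
        have h4 := htm m
        have h5 := hA.1 m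
        push_cast
        refine (abs_add_le _ _).trans ?_
        linarith
      · rw [F_add, hA.2.1, htx, add_zero])
  have hstep2 := levels_count {A : Idx n d → ℤ | (∀ m, |(A m : ℝ)| ≤ 2 * H) ∧ F A x = 0}
    {A : Idx n d → ℤ | ∀ m, |(A m : ℝ)| ≤ 3 * H}
    (finite_of_abs_le _ (3 * H) fun _ hA m => hA m) x 1 one_pos
    L2 (by positivity) (fun A hA => hA.2) (by
      intro s _ hsL
      obtain ⟨t, htx, htm⟩ := short_single (by omega : 1 ≤ d) B hB x hx mu hmu hgx i0 hi0 s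
      refine ⟨t, htx, fun A hA m => ?_⟩
      have h3 : 2 ^ d * |(s : ℝ)| / (B : ℝ) ^ d ≤ H / 2 := by
        rw [div_le_div_iff₀ (by positivity) (by norm_num)]
        rw [hL2, le_div_iff₀ (by positivity)] at hsL
        calc 2 ^ d * |(s : ℝ)| * 2 = |(s : ℝ)| * 2 ^ (d + 1) := by ring
          _ ≤ H * (B : ℝ) ^ d := hsL
      have h4 := htm m
      have h5 := hA.1 m
      push_cast
      refine (abs_add_le _ _).trans ?_
      linarith)
  have hbox := card_bdd (ι := Idx n d) (3 * H) (by linarith)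
  change _ ≤ (2 * (3 * H) + 1) ^ NN n d at hbox
  set N0 : ℝ :=
    (Set.ncard {A : Idx n d → ℤ | (∀ m, |(A m : ℝ)| ≤ H) ∧ F A x = 0 ∧ F A y = 0} : ℝ)
  set N1 : ℝ := (Set.ncard {A : Idx n d → ℤ | (∀ m, |(A m : ℝ)| ≤ 2 * H) ∧ F A x = 0} : ℝ)
  set N2 : ℝ := (Set.ncard {A : Idx n d → ℤ | ∀ m, |(A m : ℝ)| ≤ 3 * H} : ℝ)
  rw [Nat.cast_one, div_one] at hstep2
  have h3 : N0 * (L1 / mg x y) * L2 ≤ (7 * H) ^ NN n d := by
    calc N0 * (L1 / mg x y) * L2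
        ≤ N1 * L2 := by gcongr
      _ ≤ N2 := hstep2
      _ ≤ (2 * (3 * H) + 1) ^ NN n d := hbox
      _ ≤ (7 * H) ^ NN n d := by
          gcongr
          linarith
  rw [le_div_iff₀ (by positivity)]
  have h4 : L1 * L2 = H ^ 2 * (B : ℝ) ^ (2 * d - 2) * dl x y / 2 ^ (2 * d + 5) := by
    obtain ⟨e, rfl⟩ : ∃ e, d = e + 2 := ⟨d - 2, by omega⟩
    rw [hL1, hL2, show e + 2 - 2 = e by omega, show 2 * (e + 2) - 2 = e + (e + 2) by omega,
      div_mul_div_comm]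
    congr 1
    · ring
    · ring
  have h5 : N0 * (H ^ 2 * (B : ℝ) ^ (2 * d - 2) * dl x y) =
      N0 * (L1 / mg x y) * L2 * (2 ^ (2 * d + 5) * mg x y) := by
    have h6 : H ^ 2 * (B : ℝ) ^ (2 * d - 2) * dl x y = L1 * L2 * 2 ^ (2 * d + 5) := by
      rw [h4]
      field_simp
    rw [h6]
    field_simp
  rw [h5]
  calc N0 * (L1 / mg x y) * L2 * (2 ^ (2 * d + 5) * mg x y)
      ≤ (7 * H) ^ NN n d * (2 ^ (2 * d + 5) * mg x y) := by gcongr
    _ = 7 ^ NN n d * 2 ^ (2 * d + 5) * H ^ NN n d * mg x y := by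
        rw [mul_pow]
        ring

end GenHP
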