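import Pool.Agent.Lib.MP_e426f4_ag.G.Basic

/-! Module G-TL: symmetry and multilinearity of `T`. -/

namespace GenHP

open Finset

section TL
variable {n d : ℕ} {R : Type*} [CommRing R]

theorem mk_perm (c : Fin d → Fin (n + 1)) (σ : Equiv.Perm (Fin d)) :
    mk (fun i => c (σ i)) = mk c := by
  apply Subtype.ext
  funext j
  show ((univ : Finset (Fin d)).filter fun i => c (σ i) = j).card =
    ((univ : Finset (Fin d)).filter fun i => c i = j).card
  refine Finset.card_bij (fun i _ => σ i) ?_ ?_ ?_
  · intro i hi
    simpa using hi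
  · intro i _ i' _ h
    exact σ.injective h
  · intro i hi
    exact ⟨σ.symm i, by simpa using hi, by simp⟩

theorem T_perm (l : Fin d → Fin (n + 1) → R) (σ : Equiv.Perm (Fin d)) :
    T (fun i => l (σ i)) = T l := by
  funext t
  unfold T
  refine Finset.sum_bij' (fun c _ => fun i => c (σ.symm i)) (fun c _ => fun i => c (σ i))
    (fun _ _ => Finset.mem_univ _) (fun _ _ => Finset.mem_univ _) ?_ ?_ ?_
  · intro c _
    funext i
    simp
  · intro c _
    funext i
    simp
  · intro c _
    have h1 : mk (fun i => c (σ.symm i)) = mk c := mk_perm c σ.symm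
    rw [h1]
    refine if_congr Iff.rfl ?_ rfl
    rw [← Equiv.prod_comp σ (fun i => l i (c (σ.symm i)))]
    simp

theorem T_update_add (l : Fin d → Fin (n + 1) → R) (i : Fin d) (u v : Fin (n + 1) → R) :
    T (Function.update l i (u + v)) = T (Function.update l i u) + T (Function.update l i v) := by
  funext t
  rw [Pi.add_apply]
  unfold T
  rw [← Finset.sum_add_distrib]
  refine Finset.sum_congr rfl fun c _ => ?_
  split_ifs
  · rw [← Finset.mul_prod_erase _ _ (Finset.mem_univ i), ← Finset.mul_prod_erase _ _ (Finset.mem_univ i),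
      ← Finset.mul_prod_erase _ _ (Finset.mem_univ i)]
    simp only [Function.update_self, Pi.add_apply]
    have h : ∀ w : Fin (n + 1) → R, ∏ x ∈ univ.erase i, Function.update l i w x (c x) =
        ∏ x ∈ univ.erase i, l x (c x) := fun w =>
      Finset.prod_congr rfl fun x hx => by rw [Function.update_of_ne (Finset.ne_of_mem_erase hx)]
    rw [h, h, h]
    ring
  · ring

theorem T_update_smul (l : Fin d → Fin (n + 1) → R) (i : Fin d) (c : R) (u : Fin (n + 1) → R) :
    T (Function.update l i (c • u)) = c • T (Function.update l i u) := by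
  funext t
  rw [Pi.smul_apply, smul_eq_mul]
  unfold T
  rw [Finset.mul_sum]
  refine Finset.sum_congr rfl fun e _ => ?_
  split_ifs
  · rw [← Finset.mul_prod_erase _ _ (Finset.mem_univ i), ← Finset.mul_prod_erase _ _ (Finset.mem_univ i)]
    simp only [Function.update_self, Pi.smul_apply, smul_eq_mul]
    have h : ∀ w : Fin (n + 1) → R, ∏ x ∈ univ.erase i, Function.update l i w x (e x) =
        ∏ x ∈ univ.erase i, l x (e x) := fun w =>
      Finset.prod_congr rfl fun x hx => by rw [Function.update_of_ne (Finset.ne_of_mem_erase hx)]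
    rw [h, h]
    ring
  · ring

/-- `T` as a multilinear map -/
def TM (n d : ℕ) (R : Type*) [CommRing R] :
    MultilinearMap R (fun _ : Fin d => Fin (n + 1) → R) (Idx n d → R) where
  toFun := T
  map_update_add' := by
    intro inst l i u v
    have : inst = instDecidableEqFin d := Subsingleton.elim _ _
    subst this
    exact T_update_add l i u v
  map_update_smul' := by
    intro inst l i c u
    have : inst = instDecidableEqFin d := Subsingleton.elim _ _
    subst this
    exact T_update_smul l i c u

@[simp] theorem TM_apply (l : Fin d → Fin (n + 1) → R) : TM n d R l = T l := rfl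

theorem T_single (c : Fin d → Fin (n + 1)) :
    T (fun i => Pi.single (c i) (1 : R)) = (Pi.single (mk c) 1 : Idx n d → R) := by
  funext t
  unfold T
  rw [Finset.sum_eq_single c]
  · by_cases h : mk c = t
    · subst h
      simp
    · rw [if_neg h, Pi.single_eq_of_ne (Ne.symm h)]
  · intro c' _ hc'
    obtain ⟨i, hi⟩ := Function.ne_iff.mp hc'
    rw [Finset.prod_eq_zero (Finset.mem_univ i)
      (show (Pi.single (c i) (1 : R) : Fin (n + 1) → R) (c' i) = 0 from Pi.single_eq_of_ne hi _)]
    simp
  · simp

/-- every coefficient vector is a combination of the `T (e_{c_1}, …, e_{c_d})` -/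
theorem eq_sum_T (A : Idx n d → R) :
    A = ∑ t : Idx n d, A t • T (fun i => Pi.single ((exists_mk t).choose i) (1 : R)) := by
  funext s
  simp only [T_single, (exists_mk _).choose_spec, Finset.sum_apply, Pi.smul_apply, smul_eq_mul,
    Pi.single_apply, mul_ite, mul_one, mul_zero]
  simp

theorem T_cast (l : Fin d → Fin (n + 1) → ℤ) (t : Idx n d) :
    T (fun i a => ((l i a : ℤ) : ℝ)) t = ((T l t : ℤ) : ℝ) := by
  unfold T
  push_cast
  refine Finset.sum_congr rfl fun c _ => ?_
  split_ifs <;> simp

theorem T_abs_le (l : Fin d → Fin (n + 1) → ℝ) (t : Idx n d) :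
    |T l t| ≤ ∏ i, ∑ a, |l i a| := by
  unfold T
  rw [Finset.prod_univ_sum, Fintype.piFinset_univ]
  refine (Finset.abs_sum_le_sum_abs _ _).trans (Finset.sum_le_sum fun c _ => ?_)
  split_ifs
  · rw [Finset.abs_prod]
  · rw [abs_zero]
    exact Finset.prod_nonneg fun i _ => abs_nonneg _

end TL

end GenHP
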