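import Pool.Agent.Lib.MP_e426f4_ag.G.Heights
import Pool.Agent.Lib.MP_e426f4_ag.G.OmegaLoc

/-! Local pairs over few points are few. -/

namespace GenHP

open Finset Filter Topology

theorem xx_unimod {n d : ℕ} (p : Par n d) (eps bet : ℝ) (w : ℕ) (hp : p.Valid eps bet w) (B : ℕ)
    (x : Fin (n + 1) → ℤ) (hx : x ∈ p.XX B) :
    ∃ c : Fin (n + 1) → ℤ, IsCoprime (∑ i, c i * x i) (p.W : ℤ) := by
  have h1 : ∀ i, ∃ u : ℤ, x i - p.x0 i = p.P * u := fun i => hx.2 i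
  choose u hu using h1
  obtain ⟨c, hc⟩ := hp.hens.2.2.2.1 u
  refine ⟨c, ?_⟩
  have : (fun i => c i * (p.x0 i + (p.P : ℤ) * u i)) = fun i => c i * x i := by
    funext i
    rw [← hu i]; ring
  rw [this] at hc
  exact hc

/-- the local count over one point -/
theorem loc_one_le {n d : ℕ} (p : Par n d) (eps bet : ℝ) (w : ℕ) (hp : p.Valid eps bet w)
    (th : ℝ) (hth : 0 < th) (s : ℕ) (hs : p.Q ∣ p.W ^ s) :
    ∀ᶠ H : ℝ in atTop, ∀ x ∈ p.XX (Bf n d H),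
      (Set.ncard {A : Idx n d → ℤ | A ∈ p.Cl p.rho H ∧ ((p.W : ℤ) ^ s) ∣ F A x ∧
          |((F A x : ℤ) : ℝ)| ≤ th * H * (Bf n d H : ℝ) ^ d} : ℝ) ≤
        (2 ^ (d + 2) * th * p.Q / (p.rho * (p.W : ℝ) ^ s)) * p.Xn H := by
  set M : ℝ := (p.W : ℝ) ^ s with hM
  have hW : 0 < p.W := hp.W_pos
  have hWR : (0 : ℝ) < p.W := by exact_mod_cast hW
  have hMpos : 0 < M := by positivity
  have hrho : 0 < p.rho := hp.rho_pos
  have hQ : (0 : ℝ) < p.Q := by exact_mod_cast hp.Q_pos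
  have hNN := NN_pos n d
  obtain ⟨N1, hN1⟩ : ∃ N1, NN n d = N1 + 1 := ⟨NN n d - 1, by omega⟩
  have hB : ∀ᶠ H : ℝ in atTop, 1 ≤ Bf n d H :=
    (Bf_atTop n d hp.n_ge hp.d_ge hp.d_le).eventually_ge_atTop 1
  have hlarge : ∀ᶠ H : ℝ in atTop,
      max (M * (2 * NN n d) / (2 * p.rho)) (M / (2 ^ (d + 1) * th)) ≤ (H : ℝ) :=
    eventually_ge_atTop _
  filter_upwards [hB, hlarge, eventually_gt_atTop (0 : ℝ)] with H hB1 hH hHpos
  intro x hx
  have hBpos : (0 : ℝ) < Bf n d H := by exact_mod_cast hB1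
  obtain ⟨i0, hi0⟩ := hp.xi_eq
  have hxi0 := (mem_XX_bounds p eps bet w hp (Bf n d H) x hx i0).2 hi0
  have h1 := omega_loc_le (by have := hp.d_ge; omega) (Bf n d H) hB1 p.W p.Q s hW hs p.A0 x
    (xx_unimod p eps bet w hp _ x hx)
    i0 hxi0 (fun m => H * p.AC m) (p.rho * H) (th * H * (Bf n d H : ℝ) ^ d) (by positivity)
    (by positivity)
  have hset : {A : Idx n d → ℤ | A ∈ p.Cl p.rho H ∧ ((p.W : ℤ) ^ s) ∣ F A x ∧
          |((F A x : ℤ) : ℝ)| ≤ th * H * (Bf n d H : ℝ) ^ d} =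
      {A : Idx n d → ℤ | (∀ m, |(A m : ℝ) - H * p.AC m| ≤ p.rho * H) ∧
        (∀ m, (p.Q : ℤ) ∣ A m - p.A0 m) ∧
        ((p.W : ℤ) ^ s) ∣ F A x ∧ |((F A x : ℤ) : ℝ)| ≤ th * H * (Bf n d H : ℝ) ^ d} := by
    ext A
    simp only [Par.Cl, Set.mem_ofPred_eq]
    tauto
  rw [hset]
  refine h1.trans ?_
  have hdiv : (((p.W ^ s / p.Q : ℕ) : ℝ)) = M / p.Q := by
    rw [Nat.cast_div hs hQ.ne', hM]
    push_cast
    rfl
  rw [hdiv]
  have h16 : 2 ^ (d + 1) * (th * H * (Bf n d H : ℝ) ^ d) / ((Bf n d H : ℝ) ^ d * (p.W : ℝ) ^ s) =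
      2 ^ (d + 1) * th * H / M := by
    rw [← hM]
    field_simp
  rw [h16, ← hM]
  have hNr : (0 : ℝ) < NN n d := by exact_mod_cast hNN
  have hH1' : M * (2 * NN n d) / (2 * p.rho) ≤ H := (le_max_left _ _).trans hH
  have hH2' : M / (2 ^ (d + 1) * th) ≤ H := (le_max_right _ _).trans hH
  rw [div_le_iff₀ (by positivity)] at hH1' hH2'
  have e1 : 2 * (p.rho * H) / M + 1 ≤ (1 + 1 / (2 * NN n d)) * (2 * p.rho * H / M) := by
    have : 1 ≤ (1 / (2 * NN n d)) * (2 * p.rho * H / M) := by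
      rw [div_mul_div_comm, one_mul, le_div_iff₀ (by positivity)]
      linarith
    have h3 : 2 * (p.rho * H) / M = 2 * p.rho * H / M := by ring
    rw [h3]
    linarith
  have e2 : 2 ^ (d + 1) * th * H / M + 1 ≤ 2 * (2 ^ (d + 1) * th * H / M) := by
    have : 1 ≤ 2 ^ (d + 1) * th * H / M := by
      rw [le_div_iff₀ hMpos]
      linarith
    linarith
  have e4 : (1 + 1 / (2 * (NN n d : ℝ))) ^ N1 ≤ 2 := by
    have h2 : 1 + 1 / (2 * (NN n d : ℝ)) ≤ Real.exp (1 / (2 * (NN n d : ℝ))) := by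
      have := Real.add_one_le_exp (1 / (2 * (NN n d : ℝ)))
      linarith
    have h3 : (1 + 1 / (2 * (NN n d : ℝ))) ^ N1 ≤ Real.exp (1 / (2 * (NN n d : ℝ))) ^ N1 :=
      pow_le_pow_left₀ (by positivity) h2 N1
    rw [← Real.exp_nat_mul] at h3
    have h4 : (N1 : ℝ) * (1 / (2 * (NN n d : ℝ))) ≤ 1 / 2 := by
      have h5 : (N1 : ℝ) ≤ NN n d := by rw [hN1]; push_cast; linarith
      rw [mul_one_div, div_le_div_iff₀ (by positivity) (by norm_num)]
      linarith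
    have h5 : Real.exp (1 / 2) ≤ 2 := by
      have h6 : Real.exp (1 / 2) ^ 2 = Real.exp 1 := by
        rw [← Real.exp_nat_mul]
        norm_num
      have h7 := Real.exp_one_lt_d9
      have h8 := Real.exp_pos (1 / 2)
      nlinarith
    exact h3.trans ((Real.exp_le_exp.2 h4).trans h5)
  have e3 : (2 * (p.rho * H) / M + 1) ^ N1 ≤ 2 * (2 * p.rho * H / M) ^ N1 := by
    calc (2 * (p.rho * H) / M + 1) ^ N1 ≤
        ((1 + 1 / (2 * NN n d)) * (2 * p.rho * H / M)) ^ N1 :=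
          pow_le_pow_left₀ (by positivity) e1 N1
      _ = (1 + 1 / (2 * (NN n d : ℝ))) ^ N1 * (2 * p.rho * H / M) ^ N1 := by rw [mul_pow]
      _ ≤ 2 * (2 * p.rho * H / M) ^ N1 :=
          mul_le_mul_of_nonneg_right e4 (by positivity)
  have hN2 : NN n d - 1 = N1 := by omega
  rw [hN2]
  calc (M / p.Q) ^ N1 * (2 * (p.rho * H) / M + 1) ^ N1 * (2 ^ (d + 1) * th * H / M + 1)
      ≤ (M / p.Q) ^ N1 * (2 * (2 * p.rho * H / M) ^ N1) * (2 * (2 ^ (d + 1) * th * H / M)) := by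
        refine mul_le_mul (mul_le_mul_of_nonneg_left e3 (by positivity)) e2 (by positivity)
          (by positivity)
    _ = (2 ^ (d + 2) * th * p.Q / (p.rho * M)) * p.Xn H := by
        unfold Par.Xn
        rw [hN1, pow_succ (2 * p.rho * H / p.Q), pow_succ (2 : ℝ) (d + 1), div_pow, div_pow, div_pow]
        field_simp

theorem loc_pairs_le {n d : ℕ} (p : Par n d) (eps bet : ℝ) (w : ℕ) (hp : p.Valid eps bet w)
    (th : ℝ) (hth : 0 < th) (s : ℕ) (hs : p.Q ∣ p.W ^ s) :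
    ∀ᶠ H : ℝ in atTop, ∀ S : Set (Fin (n + 1) → ℤ), S ⊆ p.XX (Bf n d H) →
      ((p.LP p.rho th s S H).ncard : ℝ) ≤
        (S.ncard : ℝ) * (2 ^ (d + 2) * th * p.Q / (p.rho * (p.W : ℝ) ^ s)) * p.Xn H := by
  classical
  filter_upwards [loc_one_le p eps bet w hp th hth s hs] with H hone
  intro S hS
  have hSfin : S.Finite := (XX_finite p (Bf n d H)).subset hS
  have hLfin := LP_finite p p.rho th s S hSfin H
  rw [Set.ncard_eq_toFinset_card _ hLfin, Set.ncard_eq_toFinset_card _ hSfin]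
  have hmap : ∀ q ∈ hLfin.toFinset, q.2 ∈ hSfin.toFinset := by
    intro q hq
    rw [Set.Finite.mem_toFinset] at hq ⊢
    exact hq.2.1
  rw [Finset.card_eq_sum_card_fiberwise hmap]
  push_cast
  have hfib : ∀ x ∈ hSfin.toFinset, ((hLfin.toFinset.filter (fun q => q.2 = x)).card : ℝ) ≤
      (2 ^ (d + 2) * th * p.Q / (p.rho * (p.W : ℝ) ^ s)) * p.Xn H := by
    intro x hx
    rw [Set.Finite.mem_toFinset] at hx
    refine le_trans ?_ (hone x (hS hx))
    have hfin : {A : Idx n d → ℤ | A ∈ p.Cl p.rho H ∧ ((p.W : ℤ) ^ s) ∣ F A x ∧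
          |((F A x : ℤ) : ℝ)| ≤ th * H * (Bf n d H : ℝ) ^ d}.Finite :=
      (Cl_finite p p.rho H).subset fun A hA => hA.1
    rw [Set.ncard_eq_toFinset_card _ hfin]
    refine Nat.cast_le.2 ?_
    refine Finset.card_le_card_of_injOn (fun q => q.1) ?_ ?_
    · intro q hq
      rw [Finset.mem_coe, Finset.mem_filter, Set.Finite.mem_toFinset] at hq
      rw [Finset.mem_coe, Set.Finite.mem_toFinset]
      obtain ⟨⟨h1, h2, h3, h4⟩, h5⟩ := hq
      rw [← h5]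
      exact ⟨h1, h3, h4⟩
    · intro q hq q' hq' h
      rw [Finset.mem_coe, Finset.mem_filter] at hq hq'
      exact Prod.ext h (hq.2.trans hq'.2.symm)
  refine (Finset.sum_le_sum hfib).trans ?_
  rw [Finset.sum_const, nsmul_eq_mul]
  exact le_of_eq (by ring)

end GenHP
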