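import Pool.Agent.Lib.MP_e426f4_ag.G.Heights
import Pool.Agent.Lib.MP_e426f4_ag.G.FewNotGood
import Pool.Agent.Lib.MP_e426f4_ag.G.LocPairs

/-! G-BPa: points that are not well-rounded contribute little. -/

namespace GenHP

open Finset Filter Topology

theorem bp_one_le_Bf {n d : ℕ} (hn : 3 ≤ n) (hd : 2 ≤ d) (hdn : d ≤ n) {H : ℝ} (hH : 1 ≤ H) :
    1 ≤ Bf n d H := by
  rw [Bf]
  apply Nat.le_floor
  push_cast
  exact Real.one_le_rpow hH (cc_pos n d hn hd hdn).le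

theorem bp_XX_sub_boxn {n d : ℕ} (p : Par n d) (eps bet : ℝ) (w : ℕ) (hp : p.Valid eps bet w)
    (B : ℕ) (x : Fin (n + 1) → ℤ) (hx : x ∈ p.XX B) : x ∈ boxn n (2 * B) := by
  rw [mem_boxn]
  intro i
  have h1 := (mem_XX_bounds p eps bet w hp B x hx i).1
  have h2 : ((|x i| : ℤ) : ℝ) ≤ ((2 * B : ℕ) : ℝ) := by
    push_cast
    exact h1
  exact_mod_cast h2

/-- the comparison of the error term with the main term -/
theorem bp_few_points_le {n d : ℕ} (p : Par n d) (eps bet : ℝ) (w : ℕ) (hp : p.Valid eps bet w) :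
    ∃ e : ℝ, 0 < e ∧ ∀ th : ℝ, 0 < th → ∀ s : ℕ, p.Q ∣ p.W ^ s →
      ∀ᶠ H : ℝ in atTop, ∀ S : Set (Fin (n + 1) → ℤ), S ⊆ p.XX (Bf n d H) →
        (S.ncard : ℝ) ≤ e * (Bf n d H : ℝ) ^ (n + 1) →
        ((p.LP p.rho th s S H).ncard : ℝ) ≤ eps / 2 * p.MT th s H := by
  have hg : 0 < |p.gam| := lt_of_lt_of_le hp.bet_pos hp.gam_ge
  have hP : (0 : ℝ) < p.P := by exact_mod_cast hp.P_pos
  have hQ : (0 : ℝ) < p.Q := by exact_mod_cast hp.Q_pos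
  have hW : (0 : ℝ) < p.W := by exact_mod_cast hp.W_pos
  have hk := hp.kap_pos
  have hr := hp.rho_pos
  have he := hp.eps_pos
  refine ⟨eps * 2 ^ n * p.kap ^ (2 * n) * p.rho / (2 ^ (d + 2) * |p.gam| * (p.P : ℝ) ^ (n + 1)),
    by positivity, ?_⟩
  intro th hth s hs
  filter_upwards [loc_pairs_le p eps bet w hp th hth s hs, eventually_ge_atTop 0]
    with H hH hH0 S hS hcard
  refine (hH S hS).trans ?_
  have hX : 0 ≤ p.Xn H := by
    rw [Par.Xn]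
    positivity
  have h1 : eps / 2 * p.MT th s H =
      (eps * 2 ^ n * p.kap ^ (2 * n) * p.rho / (2 ^ (d + 2) * |p.gam| * (p.P : ℝ) ^ (n + 1)) *
        (Bf n d H : ℝ) ^ (n + 1)) *
        (2 ^ (d + 2) * th * p.Q / (p.rho * (p.W : ℝ) ^ s)) * p.Xn H := by
    rw [Par.MT, Vol, pow_succ (2 : ℝ) n]
    field_simp
  rw [h1]
  apply mul_le_mul_of_nonneg_right _ hX
  apply mul_le_mul_of_nonneg_right hcard
  positivity

/-- BPa (BadA.lean): points that are not well-rounded -/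
theorem bad_not_good {n d : ℕ} (p : Par n d) (eps bet : ℝ) (w : ℕ) (hp : p.Valid eps bet w) :
    ∃ K0 : ℝ, 1 ≤ K0 ∧ ∀ K, K0 ≤ K → ∀ th : ℝ, 0 < th → ∀ s : ℕ, p.Q ∣ p.W ^ s →
      ∀ᶠ H : ℝ in atTop,
        ((p.LP p.rho th s {x | x ∈ p.XX (Bf n d H) ∧ ¬ Good K (Bf n d H) x} H).ncard : ℝ) ≤
          eps / 2 * p.MT th s H := by
  obtain ⟨e, he, hfew⟩ := bp_few_points_le p eps bet w hp
  obtain ⟨K0, hK0, hK⟩ := few_not_good n (by have := hp.n_ge; omega) e he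
  refine ⟨K0, hK0, ?_⟩
  intro K hKK th hth s hs
  filter_upwards [hfew th hth s hs, eventually_ge_atTop 1] with H hH hH1
  refine hH _ (fun x hx => hx.1) ?_
  refine le_trans ?_ (hK K hKK (Bf n d H) (bp_one_le_Bf hp.n_ge hp.d_ge hp.d_le hH1))
  have hfin : {x : Fin (n + 1) → ℤ | x ∈ boxn n (2 * Bf n d H) ∧ ¬ Good K (Bf n d H) x}.Finite :=
    (boxn n (2 * Bf n d H)).finite_toSet.subset fun x hx => hx.1
  have hsub : {x | x ∈ p.XX (Bf n d H) ∧ ¬ Good K (Bf n d H) x} ⊆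
      {x : Fin (n + 1) → ℤ | x ∈ boxn n (2 * Bf n d H) ∧ ¬ Good K (Bf n d H) x} :=
    fun x hx => ⟨bp_XX_sub_boxn p eps bet w hp _ x hx.1, hx.2⟩
  exact_mod_cast Set.ncard_le_ncard hsub hfin

end GenHP
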