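import Pool.Agent.Lib.MP_e426f4_ag.G.NLoc
import Pool.Agent.Lib.MP_e426f4_ag.G.CardCl
import Pool.Agent.Lib.MP_e426f4_ag.G.Heights
import Pool.Agent.Lib.MP_e426f4_ag.G.Trans
import Pool.Agent.Lib.MP_e426f4_ag.G.FirstAux

/-! Upper bound for the first moment. -/

namespace GenHP

open Finset Filter Topology

private theorem s1b_num (N : ℕ) (hN : 0 < N) (e : ℝ) (he : 0 < e) (he1 : e ≤ 1 / 10) :
    (1 + e) * (1 + e / N) ^ N * (1 + e) ≤ (1 - e) * (1 + 8 * e) := by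
  have h1 := pow_le_quad N hN e he (by linarith)
  have h2 : (1 + e) * (1 + e) ≤ 1 + 21 / 10 * e := by nlinarith
  have h3 : 1 + e + e ^ 2 ≤ 1 + 11 / 10 * e := by nlinarith
  calc (1 + e) * (1 + e / N) ^ N * (1 + e) = (1 + e) * (1 + e) * (1 + e / N) ^ N := by ring
    _ ≤ (1 + 21 / 10 * e) * (1 + 11 / 10 * e) :=
        mul_le_mul h2 (h1.trans h3) (by positivity) (by positivity)
    _ ≤ (1 - e) * (1 + 8 * e) := by nlinarith

theorem S1_upper {n d : ℕ} (p : Par n d) (eps bet : ℝ) (w : ℕ) (hp : p.Valid eps bet w) (K : ℝ)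
    (hK : 1 ≤ K) (r : ℝ) (hr : p.rho ≤ r) (hr2 : r ≤ 3 / 2 * p.rho) :
    ∀ᶠ H : ℝ in atTop,
      ((p.Pairs r K H).ncard : ℝ) ≤ (1 + 8 * eps) * p.TT H * (2 * r * H / p.Q) ^ NN n d := by
  have he := hp.eps_pos
  have he1 := hp.eps_le
  have hbet := hp.bet_pos
  have hkap := hp.kap_pos
  have hrho := hp.rho_pos
  have hW := hp.W_pos
  have hQ := hp.Q_pos
  have hP := hp.P_pos
  have hWr : (0 : ℝ) < p.W := by exact_mod_cast hW
  have hQr : (0 : ℝ) < p.Q := by exact_mod_cast hQ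
  have hPr : (0 : ℝ) < p.P := by exact_mod_cast hP
  have hgam : 0 < |p.gam| := lt_of_lt_of_le hbet hp.gam_ge
  have hr0 : 0 < r := hrho.trans_le hr
  obtain ⟨s, hs⟩ := hp.hens.2.1
  have hnQ : p.Q ∣ p.W ^ s := by rw [hs]
  have hN : 0 < NN n d := NN_pos n d
  have hNr : (1 : ℝ) ≤ NN n d := by exact_mod_cast hN
  have hN0 : (0 : ℝ) < NN n d := by linarith
  have hc2 : (0 : ℝ) < 2 ^ d + 1 := by positivity
  obtain ⟨th, hth, hth2, hth3⟩ : ∃ th : ℝ, 0 < th ∧ th ≤ p.kap * bet / 4 ∧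
      th ≤ eps * p.rho / ((2 ^ d + 1) * NN n d) :=
    ⟨min (p.kap * bet / 4) (eps * p.rho / ((2 ^ d + 1) * NN n d)),
      lt_min (by positivity) (by positivity), min_le_left _ _, min_le_right _ _⟩
  have hct : (2 ^ d + 1) * th ≤ p.rho * (eps / NN n d) := by
    rw [le_div_iff₀ (by positivity)] at hth3
    rw [mul_div_assoc', le_div_iff₀ hN0]
    linarith
  have heN : eps / NN n d ≤ eps := div_le_self he.le hNr
  have heN0 : 0 < eps / NN n d := by positivity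
  have hr9 : r + (2 ^ d + 1) * th ≤ r * (1 + eps / NN n d) := by
    have := mul_le_mul_of_nonneg_right hr heN0.le
    linarith
  have hr9b : r + (2 ^ d + 1) * th ≤ 2 * p.rho := by
    have h1 : p.rho * (eps / NN n d) ≤ p.rho * (1 / 10) :=
      mul_le_mul_of_nonneg_left (heN.trans he1) hrho.le
    linarith
  obtain ⟨B0, hB0⟩ := nloc p eps bet w hp th hth hth2 s hnQ 1 one_pos (Nat.coprime_one_left _)
  have hBt := Bf_atTop n d hp.n_ge hp.d_ge hp.d_le
  have hev1 : ∀ᶠ H : ℝ in atTop, 1 ≤ Bf n d H := hBt.eventually_ge_atTop 1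
  have hev3 : ∀ᶠ H : ℝ in atTop, B0 ≤ Bf n d H := hBt.eventually_ge_atTop B0
  filter_upwards [trans_upper p eps bet w hp K hK r th hth s hnQ,
    card_Cl p hQ (r + (2 ^ d + 1) * th) eps (by positivity) he, hev1, hev3,
    eventually_ge_atTop ((p.W : ℝ) ^ s / (2 * th * eps)),
    eventually_ge_atTop (1 : ℝ)] with H hTR hCl hB1 hB0' hH2 hH1
  have hH0 : (0 : ℝ) < H := by linarith
  have hB1' : (1 : ℝ) ≤ Bf n d H := by exact_mod_cast hB1
  have hBpos : (0 : ℝ) < Bf n d H := by linarith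
  have hy := one_le_eps_y (n := n) (d := d) th eps hth he p.W s hW H hH0 hB1' hH2
  have hlev := Lev_lower n d eps th (p.W ^ s) H hy
  have hmt := main_term_eq p hp.d_le th s H hH0 hW
  set T' : ℝ := Vol n p.gam p.kap th (Bf n d H) * p.Q / ((p.P : ℝ) ^ (n + 1) * (p.W : ℝ) ^ s) with hT'
  have hT'nn : 0 ≤ T' := by
    rw [hT', Vol]
    positivity
  have hTT0 : 0 ≤ p.TT H := by
    simp only [Par.TT]
    positivity
  -- number of local pairs
  have hLP : ((p.LP (r + (2 ^ d + 1) * th) th s (p.GG K (Bf n d H)) H).ncard : ℝ) ≤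
      ((p.Cl (r + (2 ^ d + 1) * th) H).ncard : ℝ) * ((1 + eps) * T') := by
    refine ncard_pairs_le (p.Cl (r + (2 ^ d + 1) * th) H) (Cl_finite p _ H) (p.GG K (Bf n d H))
      (GG_finite p K (Bf n d H)) (fun A x => ((p.W : ℤ) ^ s) ∣ F A x ∧
        |((F A x : ℤ) : ℝ)| ≤ th * H * (Bf n d H : ℝ) ^ d) _ ?_
    intro A hA
    have h1 := (hB0 (Bf n d H) hB0' H hH0 A
      (near_Ainf p eps bet w hp (r + (2 ^ d + 1) * th) H hH0.le hr9b A hA) hA.2 (fun _ => 0)).2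
    have h2 : (((1 : ℕ) : ℝ)) ^ (n + 1) = 1 := by simp
    rw [h2, div_one] at h1
    refine le_trans ?_ h1
    have h3 : {x | x ∈ p.GG K (Bf n d H) ∧ ((p.W : ℤ) ^ s) ∣ F A x ∧
        |((F A x : ℤ) : ℝ)| ≤ th * H * (Bf n d H : ℝ) ^ d} ⊆
        {x : Fin (n + 1) → ℤ | x ∈ p.XX (Bf n d H) ∧ ((p.W : ℤ) ^ s) ∣ F A x ∧
          |((F A x : ℤ) : ℝ)| ≤ th * H * (Bf n d H : ℝ) ^ d ∧ ∀ i, ((1 : ℕ) : ℤ) ∣ x i - 0} := by
      intro x hx
      exact ⟨hx.1.1, hx.2.1, hx.2.2, fun i => by simp⟩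
    have h4 := Set.ncard_le_ncard h3 ((XX_finite p (Bf n d H)).subset fun _ hx => hx.1)
    exact_mod_cast h4
  have hX : (2 * (r + (2 ^ d + 1) * th) * H / p.Q) ^ NN n d ≤
      (1 + eps / NN n d) ^ NN n d * (2 * r * H / p.Q) ^ NN n d := by
    rw [← mul_pow]
    refine pow_le_pow_left₀ (by positivity) ?_ _
    rw [mul_div_assoc', div_le_div_iff_of_pos_right hQr]
    nlinarith [mul_le_mul_of_nonneg_right hr9 hH0.le]
  set X : ℝ := (2 * r * H / p.Q) ^ NN n d with hXdef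
  have hX0 : 0 ≤ X := by positivity
  have hP0 : (0 : ℝ) ≤ ((p.Pairs r K H).ncard : ℝ) := Nat.cast_nonneg _
  push_cast at hlev
  set y : ℝ := th * H * (Bf n d H : ℝ) ^ d / (p.W : ℝ) ^ s with hydef
  have hy0 : 0 < y := by positivity
  have h5 : (1 - eps) * (2 * y) * ((p.Pairs r K H).ncard : ℝ) ≤
      (1 - eps) * (2 * y) * ((1 + 8 * eps) * p.TT H * X) := by
    calc (1 - eps) * (2 * y) * ((p.Pairs r K H).ncard : ℝ) ≤
        Lev n d th (p.W ^ s) H * ((p.Pairs r K H).ncard : ℝ) := mul_le_mul_of_nonneg_right hlev hP0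
      _ ≤ _ := hTR
      _ ≤ _ := hLP
      _ ≤ ((1 + eps) * (2 * (r + (2 ^ d + 1) * th) * H / p.Q) ^ NN n d) * ((1 + eps) * T') :=
          mul_le_mul_of_nonneg_right hCl.2 (by positivity)
      _ ≤ ((1 + eps) * ((1 + eps / NN n d) ^ NN n d * X)) * ((1 + eps) * T') := by gcongr
      _ = (1 + eps) * (1 + eps / NN n d) ^ NN n d * (1 + eps) * (2 * y * p.TT H * X) := by
          rw [hmt]
          ring
      _ ≤ (1 - eps) * (1 + 8 * eps) * (2 * y * p.TT H * X) :=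
          mul_le_mul_of_nonneg_right (s1b_num _ hN eps he he1) (by positivity)
      _ = _ := by ring
  have h6 : 0 < (1 - eps) * (2 * y) := mul_pos (by linarith) (by positivity)
  exact le_of_mul_le_mul_left h5 h6

end GenHP
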