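import Pool.Agent.Lib.MP_e426f4_ag.G.Basic
import Pool.Agent.Lib.MP_e426f4_ag.G.Crude
import Pool.Agent.Lib.MP_e426f4_ag.G.SumBad
import Pool.Agent.Lib.MP_e426f4_ag.G.Heights

/-! Module G-S2B: bad pairs of points contribute little to the second moment. -/

namespace GenHP

open Finset Filter Topology

variable {n d : ℕ}

theorem s2b_Cl_abs_le (p : Par n d) (eps bet : ℝ) (w : ℕ) (hp : p.Valid eps bet w) (H : ℝ)
    (hH : 0 ≤ H) (A : Idx n d → ℤ) (hA : A ∈ p.Cl p.rho H) (m : Idx n d) :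
    |(A m : ℝ)| ≤ 3 * H := by
  have h1 := hA.1 m
  have h2 := hp.AC_near m
  have h3 := hp.Ainf_le m
  have h4 := hp.rho_le
  have h5 : |p.AC m| ≤ 1 + p.rho := by
    calc |p.AC m| = |(p.AC m - p.Ainf m) + p.Ainf m| := by ring_nf
      _ ≤ |p.AC m - p.Ainf m| + |p.Ainf m| := abs_add_le _ _
      _ ≤ 1 + p.rho := by linarith
  calc |(A m : ℝ)| = |((A m : ℝ) - H * p.AC m) + H * p.AC m| := by ring_nf
    _ ≤ |(A m : ℝ) - H * p.AC m| + |H * p.AC m| := abs_add_le _ _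
    _ ≤ p.rho * H + H * (1 + p.rho) := by
        rw [abs_mul, abs_of_nonneg hH]
        exact add_le_add h1 (mul_le_mul_of_nonneg_left h5 hH)
    _ ≤ 3 * H := by nlinarith

theorem s2b_count (p : Par n d) (eps bet : ℝ) (w : ℕ) (hp : p.Valid eps bet w) (K : ℝ)
    (hK : 1 ≤ K) (C : ℝ) (hC : 0 < C)
    (hsum : ∀ (K : ℝ), 1 ≤ K → ∀ B : ℕ, 1 ≤ B →
      ∀ x : Fin (n + 1) → ℤ, Prim x → (∀ i, |(x i : ℝ)| ≤ 2 * B) →
      ∀ i0 : Fin (n + 1), (B : ℝ) / 2 ≤ |(x i0 : ℝ)| → Good K B x → ∀ G : ℕ, 1 ≤ G →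
      ∀ tau : ℝ, 0 < tau → tau ≤ 1 →
      ∑ y ∈ (boxn n (2 * B)).filter
          (fun y => 0 < dl x y ∧ (G < mg x y ∨ (dl x y : ℝ) < tau * (B : ℝ) ^ 2)),
        (mg x y : ℝ) / dl x y ≤ C * K ^ n * (1 / G + tau) * (B : ℝ) ^ (n - 1))
    (G : ℕ) (hG : 1 ≤ G) (tau : ℝ) (ht : 0 < tau) (ht1 : tau ≤ 1) (H : ℝ) (hH : 1 ≤ H)
    (hB : 1 ≤ Bf n d H)
    (h1 : 2 * c2 n d * (K * (Bf n d H : ℝ) ^ (1 / (n : ℝ))) ^ 2 ≤ 3 * H)
    (h2 : 2 * c1 n d * (K * (Bf n d H : ℝ) ^ (1 / (n : ℝ))) ≤ 3 * H) :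
    ((p.TBad K G tau H).ncard : ℝ) ≤
      (5 ^ (n + 1) * (7 ^ NN n d * 2 ^ (2 * d + 5) * 3 ^ NN n d / 9) * C * K ^ n) *
        (1 / G + tau) * (H ^ NN n d * ((Bf n d H : ℝ) ^ (n + 1 - d) / H) ^ 2) := by
  classical
  set B := Bf n d H with hBdef
  obtain ⟨i0, hi0⟩ := hp.xi_eq
  have hB1 : (1 : ℝ) ≤ B := by exact_mod_cast hB
  have hmu : 1 ≤ K * (B : ℝ) ^ (1 / (n : ℝ)) := by
    have : (1 : ℝ) ≤ (B : ℝ) ^ (1 / (n : ℝ)) := Real.one_le_rpow hB1 (by positivity)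
    nlinarith
  set GF : Finset (Fin (n + 1) → ℤ) := (GG_finite p K B).toFinset with hGF
  set S : Finset ((Idx n d → ℤ) × (Fin (n + 1) → ℤ) × (Fin (n + 1) → ℤ)) :=
    (TBad_finite p K G tau H).toFinset with hS
  set cst : ℝ := 7 ^ NN n d * 2 ^ (2 * d + 5) * (3 * H) ^ NN n d /
    ((3 * H) ^ 2 * (B : ℝ) ^ (2 * d - 2)) with hcst
  have hcst0 : 0 ≤ cst := by positivity
  set T : Finset ((Fin (n + 1) → ℤ) × (Fin (n + 1) → ℤ)) := (GF ×ˢ boxn n (2 * B)).filter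
    (fun b => 0 < dl b.1 b.2 ∧ (G < mg b.1 b.2 ∨ (dl b.1 b.2 : ℝ) < tau * (B : ℝ) ^ 2)) with hT
  have hmemS : ∀ q, q ∈ S ↔ q ∈ p.TBad K G tau H := fun q => by simp [hS]
  have hxb : ∀ x ∈ p.GG K B, ∀ i, |(x i : ℝ)| ≤ 2 * B := fun x hx i =>
    (mem_XX_bounds p eps bet w hp B x hx.1 i).1
  have hmap : ∀ q ∈ S, (q.2.1, q.2.2) ∈ T := by
    intro q hq
    rw [hmemS] at hq
    obtain ⟨_, hx, hy, _, _, hne, hbad⟩ := hq
    rw [hT, Finset.mem_filter, Finset.mem_product]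
    refine ⟨⟨by simpa [hGF] using hx, ?_⟩, dl_pos_of_mem_GG p eps bet w hp K B hB _ _ hx hy hne,
      hbad⟩
    rw [mem_boxn]
    intro i
    have := hxb _ hy i
    exact_mod_cast this
  have hcard : (S.card : ℝ) ≤ ∑ b ∈ T, cst * ((mg b.1 b.2 : ℝ) / dl b.1 b.2) := by
    rw [Finset.card_eq_sum_card_fiberwise (f := fun q => (q.2.1, q.2.2)) (t := T)
      (fun q hq => hmap q hq)]
    push_cast
    refine Finset.sum_le_sum fun b hb => ?_
    by_cases hyG : b.2 ∈ p.GG K B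
    · rw [hT, Finset.mem_filter, Finset.mem_product] at hb
      obtain ⟨⟨hx, _⟩, hdl, _⟩ := hb
      have hx' : b.1 ∈ p.GG K B := by simpa [hGF] using hx
      have hcp := crude_pair hp.d_ge B hB b.1 b.2 hx'.2.1 hyG.2.1
        (K * (B : ℝ) ^ (1 / (n : ℝ))) hmu hx'.2.2
        hyG.2.2 i0 ((mem_XX_bounds p eps bet w hp B _ hx'.1 i0).2 hi0)
        ((mem_XX_bounds p eps bet w hp B _ hyG.1 i0).2 hi0) (hxb _ hx') (hxb _ hyG) hdl
        (3 * H) (by linarith) h1 h2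
      have hcp' : (Set.ncard {A : Idx n d → ℤ | (∀ m, |(A m : ℝ)| ≤ 3 * H) ∧ F A b.1 = 0 ∧
          F A b.2 = 0} : ℝ) ≤ cst * ((mg b.1 b.2 : ℝ) / dl b.1 b.2) := by
        refine hcp.trans (le_of_eq ?_)
        rw [hcst, div_mul_div_comm]
      refine le_trans ?_ hcp'
      have hfin : {A : Idx n d → ℤ | (∀ m, |(A m : ℝ)| ≤ 3 * H) ∧ F A b.1 = 0 ∧
          F A b.2 = 0}.Finite := finite_of_abs_le _ (3 * H) fun A hA i => hA.1 i
      rw [Set.ncard_eq_toFinset_card _ hfin]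
      refine Nat.cast_le.mpr (Finset.card_le_card_of_injOn
        (fun q : (Idx n d → ℤ) × (Fin (n + 1) → ℤ) × (Fin (n + 1) → ℤ) => q.1)
        (fun q hq => by
          simp only [Finset.coe_filter, Set.mem_ofPred_eq, hmemS] at hq
          obtain ⟨hq, hqb⟩ := hq
          simp only [Set.Finite.coe_toFinset, Set.mem_ofPred_eq]
          obtain ⟨hA, _, _, hF1, hF2, _, _⟩ := hq
          rw [← hqb]
          exact ⟨fun m => s2b_Cl_abs_le p eps bet w hp H (by linarith) _ hA m, hF1, hF2⟩)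
        (fun q hq q' hq' h => by
          simp only [Finset.coe_filter, Set.mem_ofPred_eq, hmemS] at hq hq'
          have e := hq.2.trans hq'.2.symm
          simp only [Prod.mk.injEq] at e
          exact Prod.ext h (Prod.ext e.1 e.2)))
    · have : (Finset.filter (fun a => (a.2.1, a.2.2) = b) S) = ∅ := by
        rw [Finset.filter_eq_empty_iff]
        intro q hq hqb
        rw [hmemS] at hq
        apply hyG
        rw [← hqb]
        exact hq.2.2.1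
      rw [this]
      simp only [Finset.card_empty, Nat.cast_zero]
      positivity
  have hsumT : ∑ b ∈ T, cst * ((mg b.1 b.2 : ℝ) / dl b.1 b.2) ≤ ∑ _x ∈ GF, cst *
      (C * K ^ n * (1 / G + tau) * (B : ℝ) ^ (n - 1)) := by
    rw [hT, Finset.sum_filter, Finset.sum_product]
    refine Finset.sum_le_sum fun x hx => ?_
    have hx' : x ∈ p.GG K B := by simpa [hGF] using hx
    have hsb := hsum K hK B hB x hx'.2.1 (hxb _ hx') i0
      ((mem_XX_bounds p eps bet w hp B _ hx'.1 i0).2 hi0) hx'.2.2 G hG tau ht ht1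
    rw [← Finset.sum_filter, ← Finset.mul_sum]
    exact mul_le_mul_of_nonneg_left hsb hcst0
  have hGFc : (GF.card : ℝ) ≤ 5 ^ (n + 1) * (B : ℝ) ^ (n + 1) := by
    have h3 : GF ⊆ boxn n (2 * B) := by
      intro x hx
      have hx' : x ∈ p.GG K B := by simpa [hGF] using hx
      rw [mem_boxn]
      intro i
      have := hxb _ hx' i
      exact_mod_cast this
    have h4 : GF.card ≤ (4 * B + 1) ^ (n + 1) := by
      refine (Finset.card_le_card h3).trans ?_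
      rw [card_boxn]
      apply le_of_eq
      ring
    have h5 : (GF.card : ℝ) ≤ (4 * (B : ℝ) + 1) ^ (n + 1) := by exact_mod_cast h4
    refine h5.trans ?_
    calc (4 * (B : ℝ) + 1) ^ (n + 1) ≤ (5 * (B : ℝ)) ^ (n + 1) := by
          apply pow_le_pow_left₀ (by positivity); linarith
      _ = 5 ^ (n + 1) * (B : ℝ) ^ (n + 1) := by rw [mul_pow]
  rw [Set.ncard_eq_toFinset_card _ (TBad_finite p K G tau H)]
  refine (hcard.trans hsumT).trans ?_
  rw [Finset.sum_const, nsmul_eq_mul]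
  have hpos : (0 : ℝ) ≤ cst * (C * K ^ n * (1 / G + tau) * (B : ℝ) ^ (n - 1)) := by positivity
  refine (mul_le_mul_of_nonneg_right hGFc hpos).trans (le_of_eq ?_)
  have hBne : (B : ℝ) ≠ 0 := by positivity
  have hHne : H ≠ 0 := by positivity
  have hd := hp.d_ge
  have hdn := hp.d_le
  have hn := hp.n_ge
  have e1 : (B : ℝ) ^ (n + 1) * (B : ℝ) ^ (n - 1) =
      (B : ℝ) ^ (2 * d - 2) * ((B : ℝ) ^ (n + 1 - d)) ^ 2 := by
    rw [← pow_mul, ← pow_add, ← pow_add]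
    congr 1
    omega
  rw [hcst, mul_pow, mul_pow, div_pow]
  calc 5 ^ (n + 1) * (B : ℝ) ^ (n + 1) * (7 ^ NN n d * 2 ^ (2 * d + 5) *
        (3 ^ NN n d * H ^ NN n d) / (3 ^ 2 * H ^ 2 * (B : ℝ) ^ (2 * d - 2)) *
        (C * K ^ n * (1 / G + tau) * (B : ℝ) ^ (n - 1)))
      = (5 ^ (n + 1) * (7 ^ NN n d * 2 ^ (2 * d + 5) * 3 ^ NN n d / 9) * C * K ^ n) *
        (1 / G + tau) * H ^ NN n d * ((B : ℝ) ^ (n + 1) * (B : ℝ) ^ (n - 1)) /
        (H ^ 2 * (B : ℝ) ^ (2 * d - 2)) := by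
        field_simp
        ring
    _ = _ := by
        rw [e1]
        have : (B : ℝ) ^ (2 * d - 2) ≠ 0 := pow_ne_zero _ hBne
        field_simp

theorem S2_bad {n d : ℕ} (p : Par n d) (eps bet : ℝ) (w : ℕ) (hp : p.Valid eps bet w) (K : ℝ)
    (hK : 1 ≤ K) :
    ∃ (G : ℕ) (tau : ℝ), 1 ≤ G ∧ 0 < tau ∧ tau ≤ 1 ∧ ∀ᶠ H : ℝ in atTop,
      ((p.TBad K G tau H).ncard : ℝ) ≤ eps * p.TT H ^ 2 * p.Xn H := by
  have hQ : (0 : ℝ) < p.Q := by exact_mod_cast hp.Q_pos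
  have hP : (0 : ℝ) < p.P := by exact_mod_cast hp.P_pos
  have hgam : 0 < |p.gam| := lt_of_lt_of_le hp.bet_pos hp.gam_ge
  have hkap := hp.kap_pos
  have hrho := hp.rho_pos
  have heps := hp.eps_pos
  obtain ⟨C, hC, hsum⟩ := sum_bad n hp.n_ge
  set c2' : ℝ := (2 ^ n * p.kap ^ (2 * n) * p.Q / (|p.gam| * (p.P : ℝ) ^ (n + 1))) ^ 2 *
    (2 * p.rho / p.Q) ^ NN n d with hc2
  have hc2pos : 0 < c2' := by positivity
  set C1 : ℝ := 5 ^ (n + 1) * (7 ^ NN n d * 2 ^ (2 * d + 5) * 3 ^ NN n d / 9) * C * K ^ n with hC1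
  have hC1pos : 0 < C1 := by positivity
  set δ : ℝ := eps * c2' / (2 * C1) with hδ
  have hδpos : 0 < δ := by positivity
  obtain ⟨G0, hG0⟩ := exists_nat_gt (1 / δ)
  set tau : ℝ := min 1 δ with htau
  have htpos : 0 < tau := lt_min one_pos hδpos
  have ht1 : tau ≤ 1 := min_le_left _ _
  have hG0pos : (0 : ℝ) < G0 := lt_trans (by positivity) hG0
  have hG1 : 1 ≤ G0 := by
    have : 0 < G0 := by exact_mod_cast hG0pos
    exact this
  refine ⟨G0, tau, hG1, htpos, ht1, ?_⟩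
  have hkey : C1 * (1 / G0 + tau) ≤ eps * c2' := by
    have e1 : 1 / (G0 : ℝ) ≤ δ := by
      rw [div_le_iff₀ hG0pos]
      rw [div_lt_iff₀ hδpos] at hG0
      linarith
    have e2 : tau ≤ δ := min_le_right _ _
    calc C1 * (1 / G0 + tau) ≤ C1 * (δ + δ) :=
          mul_le_mul_of_nonneg_left (add_le_add e1 e2) hC1pos.le
      _ = eps * c2' := by rw [hδ]; field_simp; ring
  have hn := hp.n_ge
  have hnpos : (0 : ℝ) < n := by
    have : 0 < n := by omega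
    exact_mod_cast this
  have hc1 : 0 ≤ c1 n d := by unfold c1; positivity
  have hc2n : 0 ≤ c2 n d := by unfold c2; positivity
  filter_upwards [(Bf_atTop n d hp.n_ge hp.d_ge hp.d_le).eventually_ge_atTop 1,
    eventually_ge_atTop (1 : ℝ), Bf_small n d hp.n_ge hp.d_ge hp.d_le (2 * c2 n d * K ^ 2),
    Bf_small n d hp.n_ge hp.d_ge hp.d_le (2 * c1 n d * K)]
    with H hB hH hs1 hs2
  have hB1 : (1 : ℝ) ≤ Bf n d H := by exact_mod_cast hB
  have hpow : ((Bf n d H : ℝ) ^ (1 / (n : ℝ))) ^ 2 = (Bf n d H : ℝ) ^ (2 / (n : ℝ)) := by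
    rw [← Real.rpow_natCast, ← Real.rpow_mul (by positivity)]
    congr 1
    push_cast
    ring
  have hpow2 : (Bf n d H : ℝ) ^ (1 / (n : ℝ)) ≤ (Bf n d H : ℝ) ^ (2 / (n : ℝ)) := by
    refine Real.rpow_le_rpow_of_exponent_le hB1 ?_
    exact div_le_div_of_nonneg_right (by norm_num) hnpos.le
  have hcount := s2b_count p eps bet w hp K hK C hC hsum G0 hG1 tau htpos ht1 H hH hB
    (by rw [mul_pow, hpow, ← mul_assoc]; linarith)
    (by
      have : 2 * c1 n d * (K * (Bf n d H : ℝ) ^ (1 / (n : ℝ))) ≤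
          2 * c1 n d * K * (Bf n d H : ℝ) ^ (2 / (n : ℝ)) := by
        rw [← mul_assoc]
        exact mul_le_mul_of_nonneg_left hpow2 (by positivity)
      linarith)
  refine hcount.trans ?_
  calc C1 * (1 / (G0 : ℝ) + tau) * (H ^ NN n d * ((Bf n d H : ℝ) ^ (n + 1 - d) / H) ^ 2)
      ≤ (eps * c2') * (H ^ NN n d * ((Bf n d H : ℝ) ^ (n + 1 - d) / H) ^ 2) :=
        mul_le_mul_of_nonneg_right hkey (by positivity)
    _ = eps * p.TT H ^ 2 * p.Xn H := by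
        have hHne : H ≠ 0 := by positivity
        have e1 : p.TT H = (2 ^ n * p.kap ^ (2 * n) * p.Q / (|p.gam| * (p.P : ℝ) ^ (n + 1))) *
            ((Bf n d H : ℝ) ^ (n + 1 - d) / H) := by
          rw [Par.TT]
          field_simp
        have e2 : p.Xn H = (2 * p.rho / p.Q) ^ NN n d * H ^ NN n d := by
          rw [Par.Xn, ← mul_pow]
          congr 1
          ring
        rw [hc2, e1, e2]
        ring

end GenHP
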