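import Pool.Agent.Lib.MP_e426f4_ag.G.Defs
import Pool.Agent.Lib.MP_e426f4_ag.G.Basic
import Pool.Agent.Lib.MP_e426f4_ag.G.CardCl
import Pool.Agent.Lib.MP_e426f4_ag.G.Heights
import Pool.Agent.Lib.MP_e426f4_ag.G.FirstLower
import Pool.Agent.Lib.MP_e426f4_ag.G.FirstUpper
import Pool.Agent.Lib.MP_e426f4_ag.G.SecondBad
import Pool.Agent.Lib.MP_e426f4_ag.G.SecondMain

/-! Module CT1: second moment and Cauchy-Schwarz. -/

namespace GenHP

open Finset Filter Topology

private theorem ct_algebra (u v S N X Y : ℝ) (hu : 0 ≤ u) (hv : 0 ≤ v) (hu1 : u ≤ 1) (hX : 0 ≤ X)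
    (hS : (1 - u) * X ≤ S) (hN : N ≤ (1 + v) * X) (hCS : S ^ 2 ≤ Y * N) (hY : 0 ≤ Y) :
    (1 - 2 * u - v) * X ≤ Y := by
  rcases hX.eq_or_lt with rfl | hXp
  · simpa using hY
  have h1 : ((1 - u) * X) ^ 2 ≤ S ^ 2 := pow_le_pow_left₀ (mul_nonneg (by linarith) hX) hS 2
  have h2 : Y * N ≤ Y * ((1 + v) * X) := mul_le_mul_of_nonneg_left hN hY
  have h3 : (1 - u) ^ 2 * X ≤ Y * (1 + v) := by
    have h4 : (1 - u) ^ 2 * X * X ≤ Y * (1 + v) * X := by nlinarith
    exact le_of_mul_le_mul_right h4 hXp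
  have h5 : (1 - 2 * u - v) * (1 + v) ≤ (1 - u) ^ 2 := by nlinarith [mul_nonneg hu hv]
  have h6 : (1 - 2 * u - v) * X * (1 + v) ≤ Y * (1 + v) := by
    calc (1 - 2 * u - v) * X * (1 + v) = (1 - 2 * u - v) * (1 + v) * X := by ring
      _ ≤ (1 - u) ^ 2 * X := mul_le_mul_of_nonneg_right h5 hX
      _ ≤ Y * (1 + v) := h3
  exact le_of_mul_le_mul_right h6 (by linarith)

theorem second_moment {n d : ℕ} (p : Par n d) (eps bet : ℝ) (w : ℕ) (hp : p.Valid eps bet w) :
    ∀ᶠ H : ℝ in atTop,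
      (Set.ncard {A | A ∈ p.Cl p.rho H ∧ ¬ Soluble A} : ℝ) ≤
        (100 * eps + 10 / w) * p.Xn H := by
  classical
  have heps := hp.eps_pos
  have hw0 : (0 : ℝ) < w := by
    have := hp.w_two
    have : 0 < w := by omega
    exact_mod_cast this
  obtain ⟨K0, hK0, hlow⟩ := S1_lower p eps bet w hp
  have hlow' := hlow K0 le_rfl
  have hup := S1_upper p eps bet w hp K0 hK0 p.rho le_rfl (by linarith [hp.rho_pos])
  obtain ⟨G, tau, hG, htau, htau1, hbad⟩ := S2_bad p eps bet w hp K0 hK0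
  have hmain := S2_main p eps bet w hp K0 hK0 G hG tau htau htau1
  have hcl := card_Cl p hp.Q_pos p.rho eps hp.rho_pos heps
  -- TT tends to infinity
  have hTT : Tendsto (fun H : ℝ => p.TT H) atTop atTop := by
    have hgam : 0 < |p.gam| := lt_of_lt_of_le hp.bet_pos hp.gam_ge
    have hP : (0 : ℝ) < p.P := by exact_mod_cast hp.P_pos
    have hQ : (0 : ℝ) < p.Q := by exact_mod_cast hp.Q_pos
    have hk := hp.kap_pos
    have hc : 0 < 2 ^ n * p.kap ^ (2 * n) * p.Q / (|p.gam| * (p.P : ℝ) ^ (n + 1)) := by positivity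
    have h1 := (Bf_tendsto n d hp.n_ge hp.d_ge hp.d_le).const_mul_atTop hc
    refine h1.congr fun H => ?_
    unfold Par.TT
    ring
  have hTT' := hTT.eventually_ge_atTop ((1 + 8 * eps) / eps)
  filter_upwards [hlow', hup, hbad, hmain, hcl, hTT', Filter.eventually_ge_atTop 0] with H hlow hup hbad hmain
    hcl hTT hH0
  obtain ⟨-, hcl2⟩ := hcl
  set X : ℝ := p.Xn H with hX
  have hXeq : (2 * p.rho * H / p.Q) ^ NN n d = X := rfl
  rw [hXeq] at hup hcl2
  have hX0 : 0 ≤ X := by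
    rw [hX]
    unfold Par.Xn
    have := hp.rho_pos
    positivity
  set T : ℝ := p.TT H with hT
  have hT0 : 0 < T := lt_of_lt_of_le (by positivity) hTT
  -- finsets
  set CL : Finset (Idx n d → ℤ) := (Cl_finite p p.rho H).toFinset with hCL
  set GF : Finset (Fin (n + 1) → ℤ) := (GG_finite p K0 (Bf n d H)).toFinset with hGF
  set N : (Idx n d → ℤ) → ℕ := fun A => (GF.filter (fun x => F A x = 0)).card with hN
  have hPairs : (p.Pairs p.rho K0 H).ncard = ∑ A ∈ CL, N A := by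
    have e1 : p.Pairs p.rho K0 H = (((CL ×ˢ GF).filter (fun q => F q.1 q.2 = 0) :
        Finset ((Idx n d → ℤ) × (Fin (n + 1) → ℤ))) : Set ((Idx n d → ℤ) × (Fin (n + 1) → ℤ))) := by
      ext q
      simp [Par.Pairs, hCL, hGF, and_assoc]
    rw [e1, Set.ncard_coe_finset, Finset.card_filter, Finset.sum_product]
    exact Finset.sum_congr rfl fun A _ => (Finset.card_filter _ _).symm
  have hTrip : ∑ A ∈ CL, (N A) ^ 2 ≤ (p.Pairs p.rho K0 H).ncard + (p.TBad K0 G tau H).ncard +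
      (p.TMain K0 G tau H).ncard := by
    set TR : Finset ((Idx n d → ℤ) × (Fin (n + 1) → ℤ) × (Fin (n + 1) → ℤ)) :=
      (CL ×ˢ (GF ×ˢ GF)).filter (fun q => F q.1 q.2.1 = 0 ∧ F q.1 q.2.2 = 0) with hTR
    have hcard : ∑ A ∈ CL, (N A) ^ 2 = TR.card := by
      rw [hTR, Finset.card_filter, Finset.sum_product]
      refine Finset.sum_congr rfl fun A _ => ?_
      rw [hN, sq]
      simp only
      rw [← Finset.card_product, Finset.card_eq_sum_ones, ← Finset.sum_filter, ← Finset.filter_product,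
        Finset.sum_const]
    rw [hcard]
    have hsub : (TR : Set ((Idx n d → ℤ) × (Fin (n + 1) → ℤ) × (Fin (n + 1) → ℤ))) ⊆
        ((fun q : (Idx n d → ℤ) × (Fin (n + 1) → ℤ) => (q.1, q.2, q.2)) '' p.Pairs p.rho K0 H) ∪
          p.TBad K0 G tau H ∪ p.TMain K0 G tau H := by
      rintro ⟨A, x, y⟩ hq
      simp only [hTR, Finset.coe_filter, Finset.mem_product, hCL, hGF, Set.Finite.mem_toFinset] at hq
      obtain ⟨⟨hA, hx, hy⟩, hFx, hFy⟩ := hq
      by_cases hxy : x = y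
      · subst hxy
        exact Or.inl (Or.inl ⟨(A, x), ⟨hA, hx, hFx⟩, rfl⟩)
      by_cases hbad : G < mg x y ∨ (dl x y : ℝ) < tau * (Bf n d H : ℝ) ^ 2
      · exact Or.inl (Or.inr ⟨hA, hx, hy, hFx, hFy, hxy, hbad⟩)
      · push Not at hbad
        exact Or.inr ⟨hA, hx, hy, hFx, hFy, hbad.1, hbad.2⟩
    have hfinP := (Pairs_finite p p.rho K0 H).image (fun q : (Idx n d → ℤ) × (Fin (n + 1) → ℤ) => (q.1, q.2, q.2))
    have hfinB := TBad_finite p K0 G tau H
    have hfinM := TMain_finite p K0 G tau H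
    calc TR.card = (TR : Set ((Idx n d → ℤ) × (Fin (n + 1) → ℤ) × (Fin (n + 1) → ℤ))).ncard := (Set.ncard_coe_finset _).symm
      _ ≤ _ := Set.ncard_le_ncard hsub ((hfinP.union hfinB).union hfinM)
      _ ≤ _ := Set.ncard_union_le _ _
      _ ≤ _ := Nat.add_le_add_right (Set.ncard_union_le _ _) _
      _ ≤ _ := Nat.add_le_add_right (Nat.add_le_add_right
          (Set.ncard_image_le (Pairs_finite p p.rho K0 H)) _) _
  -- positive part
  set CP : Finset (Idx n d → ℤ) := CL.filter (fun A => 0 < N A) with hCP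
  have hCS : (∑ A ∈ CL, (N A : ℝ)) ^ 2 ≤ (CP.card : ℝ) * ∑ A ∈ CL, (N A : ℝ) ^ 2 := by
    have e1 : ∑ A ∈ CL, (N A : ℝ) = ∑ A ∈ CP, (N A : ℝ) := by
      symm
      refine Finset.sum_subset (Finset.filter_subset _ _) fun A hA hA' => ?_
      have : ¬ 0 < N A := fun h => hA' (Finset.mem_filter.mpr ⟨hA, h⟩)
      have h0 : N A = 0 := by omega
      rw [h0]
      simp
    rw [e1]
    refine (sq_sum_le_card_mul_sum_sq).trans (mul_le_mul_of_nonneg_left ?_ (by positivity))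
    exact Finset.sum_le_sum_of_subset_of_nonneg (Finset.filter_subset _ _) fun _ _ _ => by positivity
  -- nonsoluble forms
  have hns : (Set.ncard {A | A ∈ p.Cl p.rho H ∧ ¬ Soluble A} : ℝ) ≤ (p.Cl p.rho H).ncard - CP.card := by
    have e1 : (p.Cl p.rho H).ncard = CL.card := Set.ncard_eq_toFinset_card _ (Cl_finite p p.rho H)
    have hsub : {A | A ∈ p.Cl p.rho H ∧ ¬ Soluble A} ⊆ ((CL \ CP : Finset (Idx n d → ℤ)) : Set (Idx n d → ℤ)) := by
      intro A hA
      have hA1 : A ∈ CL := by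
        rw [hCL, Set.Finite.mem_toFinset]
        exact hA.1
      rw [Finset.mem_coe, Finset.mem_sdiff]
      refine ⟨hA1, fun hAP => hA.2 ?_⟩
      have hpos := (Finset.mem_filter.mp hAP).2
      obtain ⟨x, hx⟩ := Finset.card_pos.mp hpos
      rw [Finset.mem_filter, hGF, Set.Finite.mem_toFinset] at hx
      obtain ⟨⟨-, ⟨c, hc⟩, -⟩, hFx⟩ := hx
      refine ⟨fun i => (x i : ℚ), ?_, ?_⟩
      · intro h0
        have hx0 : ∀ i, x i = 0 := fun i => by
          have := congrFun h0 i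
          simpa using this
        simp [hx0] at hc
      · have h2 : F (fun t => (A t : ℚ)) (fun i => (x i : ℚ)) = ((F A x : ℤ) : ℚ) := by
          unfold F mon
          push_cast
          rfl
        rw [h2, hFx]
        simp
    have h3 : Set.ncard {A | A ∈ p.Cl p.rho H ∧ ¬ Soluble A} ≤ (CL \ CP).card := by
      rw [← Set.ncard_coe_finset]
      exact Set.ncard_le_ncard hsub (Finset.finite_toSet _)
    have h4 : (CL \ CP).card + CP.card = CL.card :=
      Finset.card_sdiff_add_card_eq_card (Finset.filter_subset _ _)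
    rw [e1]
    have h5 : Set.ncard {A | A ∈ p.Cl p.rho H ∧ ¬ Soluble A} + CP.card ≤ CL.card := by omega
    have h6 : ((Set.ncard {A | A ∈ p.Cl p.rho H ∧ ¬ Soluble A} : ℕ) : ℝ) + (CP.card : ℝ) ≤ CL.card := by
      exact_mod_cast h5
    linarith
  refine hns.trans ?_
  set u : ℝ := 8 * eps + 2 / w with hu
  set v : ℝ := 42 * eps + 3 / w with hv
  have hu0 : 0 ≤ u := by positivity
  have hv0 : 0 ≤ v := by positivity
  have hw' : 0 < 1 / (w : ℝ) := by positivity
  have e2 : 2 / (w : ℝ) = 2 * (1 / w) := by ring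
  have e3 : 3 / (w : ℝ) = 3 * (1 / w) := by ring
  have e10 : 10 / (w : ℝ) = 10 * (1 / w) := by ring
  by_cases hu1 : u ≤ 1
  · have hS : (1 - u) * (T * X) ≤ ∑ A ∈ CL, (N A : ℝ) := by
      have : ((∑ A ∈ CL, N A : ℕ) : ℝ) = ∑ A ∈ CL, (N A : ℝ) := by push_cast; rfl
      rw [← this, ← hPairs]
      refine le_trans (le_of_eq ?_) hlow
      rw [hu]; ring
    have hN2 : ∑ A ∈ CL, (N A : ℝ) ^ 2 ≤ (1 + v) * (T ^ 2 * X) := by
      have h1 : ((∑ A ∈ CL, (N A) ^ 2 : ℕ) : ℝ) ≤ ((p.Pairs p.rho K0 H).ncard : ℝ) + (p.TBad K0 G tau H).ncard +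
          (p.TMain K0 G tau H).ncard := by exact_mod_cast hTrip
      have h2 : ((∑ A ∈ CL, (N A) ^ 2 : ℕ) : ℝ) = ∑ A ∈ CL, (N A : ℝ) ^ 2 := by push_cast; rfl
      rw [h2] at h1
      have h3 : (1 + 8 * eps) * T ≤ eps * T ^ 2 := by
        rw [div_le_iff₀ heps] at hTT
        nlinarith
      have h4 : (1 + 8 * eps) * T * X ≤ eps * T ^ 2 * X := mul_le_mul_of_nonneg_right h3 hX0
      rw [hv]
      nlinarith
    -- scale out T
    have hCP0 : (0 : ℝ) ≤ CP.card := by positivity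
    have hkey := ct_algebra u v ((∑ A ∈ CL, (N A : ℝ)) / T) ((∑ A ∈ CL, (N A : ℝ) ^ 2) / T ^ 2) X CP.card
      hu0 hv0 hu1 hX0 ?_ ?_ ?_ hCP0
    · have h5 : ((p.Cl p.rho H).ncard : ℝ) - CP.card ≤ (1 + eps) * X - (1 - 2 * u - v) * X := by linarith
      refine h5.trans ?_
      have h6 : (1 + eps) * X - (1 - 2 * u - v) * X = (eps + 2 * u + v) * X := by ring
      rw [h6]
      refine mul_le_mul_of_nonneg_right ?_ hX0
      rw [hu, hv, e2, e3, e10]
      linarith
    · rw [le_div_iff₀ hT0]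
      linarith
    · rw [div_le_iff₀ (by positivity)]
      linarith
    · rw [div_pow, ← mul_div_assoc]
      exact div_le_div_of_nonneg_right hCS (by positivity)
  · push Not at hu1
    have h7 : ((p.Cl p.rho H).ncard : ℝ) - CP.card ≤ (1 + eps) * X := by
      have : (0 : ℝ) ≤ CP.card := by positivity
      linarith
    refine h7.trans (mul_le_mul_of_nonneg_right ?_ hX0)
    have := hp.eps_le
    rw [hu, e2] at hu1
    rw [e10]
    linarith

end GenHP
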