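import Pool.Agent.Lib.MP_e426f4_ag.G.Defs
import Pool.Agent.Lib.MP_e426f4_ag.G.Basic
import Pool.Agent.Lib.MP_e426f4_ag.G.CoordControl

/-! Module G-NG1: points which are not well-rounded are orthogonal to a short vector. -/

namespace GenHP

open Finset

/-- If no `k` elements of a family of vectors are independent, its span has dimension less
than `k`. -/
theorem finrank_span_lt_of_not_indep {m : ℕ} (S : Set (Fin m → ℝ)) (k : ℕ)
    (h : ∀ l : Fin k → Fin m → ℝ, (∀ i, l i ∈ S) → ¬ LinearIndependent ℝ l) :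
    Module.finrank ℝ (Submodule.span ℝ S) < k := by
  by_contra hcon
  push Not at hcon
  obtain ⟨b, hbS, hbspan, hbli⟩ := exists_linearIndependent ℝ S
  have hfin : Finite b := hbli.finite
  have : Fintype b := Fintype.ofFinite b
  have hcard : Fintype.card b = Module.finrank ℝ (Submodule.span ℝ S) := by
    rw [← hbspan]
    exact (finrank_span_set_eq_card hbli).symm ▸ (by simp)
  have h3 : k ≤ Fintype.card b := by omega
  obtain ⟨f⟩ : Nonempty (Fin k ↪ b) := by
    apply Function.Embedding.nonempty_of_card_le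
    simpa using h3
  exact h (fun i => (f i : Fin m → ℝ)) (fun i => hbS (f i).2) (hbli.comp f f.injective)

/-- A point which is not well-rounded is orthogonal to a short nonzero vector. -/
theorem short_of_not_good (n : ℕ) (hn : 2 ≤ n) : ∃ C K1 : ℝ, 0 < C ∧ 1 ≤ K1 ∧ ∀ K : ℝ, K1 ≤ K →
    ∀ B : ℕ, 1 ≤ B → ∀ x : Fin (n + 1) → ℤ, (∀ i, |(x i : ℝ)| ≤ 2 * B) → ¬ Good K B x →
    ∃ l : Fin (n + 1) → ℤ, l ≠ 0 ∧ ∑ i, l i * x i = 0 ∧
      ∀ i, |(l i : ℝ)| * K ^ (1 / ((n : ℝ) - 1)) ≤ C * (B : ℝ) ^ (1 / (n : ℝ)) := by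
  refine ⟨8 * ((n : ℝ) + 1) ^ (n + 2), 4 * ((n : ℝ) + 1), by positivity, ?_, ?_⟩
  · have : (0 : ℝ) ≤ n := Nat.cast_nonneg n
    linarith
  intro K hK B hB x hx h
  have hn0 : (0 : ℝ) ≤ n := Nat.cast_nonneg n
  have hn2 : (2 : ℝ) ≤ n := by exact_mod_cast hn
  have hnne : (n : ℝ) ≠ 0 := by positivity
  obtain ⟨β, hβ⟩ : ∃ β : ℝ, β = (B : ℝ) ^ (1 / (n : ℝ)) := ⟨_, rfl⟩
  have hB1 : (1 : ℝ) ≤ B := by exact_mod_cast hB
  have hβ0 : 0 < β := by rw [hβ]; positivity
  have hβn : β ^ n = B := by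
    rw [hβ, ← Real.rpow_natCast, ← Real.rpow_mul (by positivity)]
    rw [one_div, inv_mul_cancel₀ hnne, Real.rpow_one]
  have hK1 : 1 ≤ K := by linarith
  have hK0 : 0 < K := by linarith
  obtain ⟨s, hs⟩ : ∃ s : ℝ, s = K ^ (1 / ((n : ℝ) - 1)) := ⟨_, rfl⟩
  have hs1 : 1 ≤ s := by
    rw [hs]
    apply Real.one_le_rpow hK1
    apply div_nonneg zero_le_one
    linarith
  have hs0 : 0 < s := by linarith
  have hsn1 : s ^ (n - 1) = K := by
    rw [hs, ← Real.rpow_natCast, ← Real.rpow_mul hK0.le, Nat.cast_sub (by omega), Nat.cast_one,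
      one_div, inv_mul_cancel₀ (by linarith), Real.rpow_one]
  have hsn : s ^ n = K * s := by
    calc s ^ n = s ^ (n - 1 + 1) := by congr 1; omega
      _ = K * s := by rw [pow_succ, hsn1]
  have hsnK : K ≤ s ^ n := by
    rw [hsn]
    nlinarith only [hK, hs1]
  obtain ⟨R, hR⟩ : ∃ R : ℕ, R = ⌊K * β⌋₊ := ⟨_, rfl⟩
  have hRle : (R : ℝ) ≤ K * β := by rw [hR]; exact Nat.floor_le (by positivity)
  have hRlt : K * β < (R : ℝ) + 1 := by rw [hR]; exact Nat.lt_floor_add_one _
  obtain ⟨g, hg⟩ : ∃ g : ℕ, g = ⌊s ^ n / (4 * ((n : ℝ) + 1))⌋₊ := ⟨_, rfl⟩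
  have hgle : (g : ℝ) ≤ s ^ n / (4 * ((n : ℝ) + 1)) := by
    rw [hg]; exact Nat.floor_le (by positivity)
  have hggt : s ^ n / (4 * ((n : ℝ) + 1)) < (g : ℝ) + 1 := by rw [hg]; exact Nat.lt_floor_add_one _
  have hq1 : 1 ≤ s ^ n / (4 * ((n : ℝ) + 1)) := by
    rw [one_le_div (by positivity)]
    linarith
  have hg0 : 0 < g := by
    rw [hg]
    exact Nat.floor_pos.2 hq1
  have hg1 : (1 : ℝ) ≤ g := by exact_mod_cast hg0
  have hg12 : s ^ n / (8 * ((n : ℝ) + 1)) ≤ (g : ℝ) := by
    have : s ^ n / (8 * ((n : ℝ) + 1)) = s ^ n / (4 * ((n : ℝ) + 1)) / 2 := by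
      rw [div_div]
      congr 1
      ring
    rw [this]
    linarith
  -- first pigeonhole
  let L0 : Finset (Fin (n + 1) → ℤ) := Fintype.piFinset fun _ => Icc (0 : ℤ) R
  have hL0card : L0.card = (R + 1) ^ (n + 1) := by
    simp only [L0, Fintype.card_piFinset, Int.card_Icc, Finset.prod_const, Finset.card_univ,
      Fintype.card_fin]
    congr 1
  have hL0 : ∀ l ∈ L0, ∀ i, 0 ≤ l i ∧ l i ≤ R := by
    intro l hl i
    have := (Fintype.mem_piFinset.1 hl) i
    exact Finset.mem_Icc.1 this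
  have hxi : ∀ i, |x i| ≤ 2 * B := by
    intro i
    have := hx i
    exact_mod_cast this
  let T : Finset ℤ := Icc (-((n + 1) * (R * (2 * B)) : ℕ) : ℤ) ((n + 1) * (R * (2 * B)) : ℕ)
  have hTcard : T.card = 2 * ((n + 1) * (R * (2 * B))) + 1 := by
    simp only [T, Int.card_Icc]
    have : (((n + 1) * (R * (2 * B)) : ℕ) : ℤ) + 1 - (-(((n + 1) * (R * (2 * B)) : ℕ) : ℤ)) =
        ((2 * ((n + 1) * (R * (2 * B))) + 1 : ℕ) : ℤ) := by
      push_cast
      ring
    rw [this, Int.toNat_natCast]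
  have hmap : ∀ l ∈ L0, (∑ i, l i * x i) ∈ T := by
    intro l hl
    have h1 : |∑ i, l i * x i| ≤ ((n + 1) * (R * (2 * B)) : ℕ) := by
      refine (Finset.abs_sum_le_sum_abs _ _).trans ?_
      have h2 : ∀ i ∈ (univ : Finset (Fin (n + 1))), |l i * x i| ≤ (R : ℤ) * (2 * B) := by
        intro i _
        rw [abs_mul]
        refine mul_le_mul ?_ (hxi i) (abs_nonneg _) (by positivity)
        rw [abs_of_nonneg (hL0 l hl i).1]
        exact (hL0 l hl i).2
      refine (Finset.sum_le_sum h2).trans ?_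
      simp only [Finset.sum_const, Finset.card_univ, Fintype.card_fin]
      push_cast
      apply le_of_eq
      simp only [nsmul_eq_mul]
      push_cast
      ring
    rw [Finset.mem_Icc]
    exact abs_le.1 h1
  have hcount : T.card * g ^ (n - 1) < L0.card := by
    rw [hTcard, hL0card]
    have h1 : (((2 * ((n + 1) * (R * (2 * B))) + 1) * g ^ (n - 1) : ℕ) : ℝ) <
        (((R + 1) ^ (n + 1) : ℕ) : ℝ) := by
      push_cast
      have hR0 : (0 : ℝ) ≤ R := by positivity
      have h2 : (2 * (((n : ℝ) + 1) * (R * (2 * B))) + 1) ≤ (4 * ((n : ℝ) + 1)) * ((R + 1) * B) := by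
        have : 1 ≤ (4 * ((n : ℝ) + 1)) * B := by nlinarith only [hB1]
        nlinarith only [this]
      have h3 : (g : ℝ) ^ (n - 1) ≤ K ^ n / (4 * ((n : ℝ) + 1)) := by
        have h4 : (g : ℝ) ^ (n - 1) ≤ (s ^ n / (4 * ((n : ℝ) + 1))) ^ (n - 1) :=
          pow_le_pow_left₀ (by positivity) hgle _
        have h5 : (s ^ n / (4 * ((n : ℝ) + 1))) ^ (n - 1) = K ^ n / (4 * ((n : ℝ) + 1)) ^ (n - 1) := by
          rw [div_pow, ← pow_mul, mul_comm n, pow_mul, hsn1]
        have h6 : K ^ n / (4 * ((n : ℝ) + 1)) ^ (n - 1) ≤ K ^ n / (4 * ((n : ℝ) + 1)) := by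
          apply div_le_div_of_nonneg_left (by positivity) (by positivity)
          calc 4 * ((n : ℝ) + 1) = (4 * ((n : ℝ) + 1)) ^ 1 := (pow_one _).symm
            _ ≤ (4 * ((n : ℝ) + 1)) ^ (n - 1) :=
                pow_le_pow_right₀ (by linarith) (by omega)
        linarith
      have h6 : (K * β) ^ n < ((R : ℝ) + 1) ^ n :=
        pow_lt_pow_left₀ hRlt (by positivity) (by omega)
      calc (2 * (((n : ℝ) + 1) * (R * (2 * B))) + 1) * (g : ℝ) ^ (n - 1) ≤
            ((4 * ((n : ℝ) + 1)) * ((R + 1) * B)) * (K ^ n / (4 * ((n : ℝ) + 1))) := by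
            exact mul_le_mul h2 h3 (by positivity) (by positivity)
        _ = (R + 1) * (K * β) ^ n := by
            rw [← hβn, mul_pow]
            field_simp
        _ < (R + 1) * (R + 1) ^ n := by
            apply mul_lt_mul_of_pos_left h6
            positivity
        _ = ((R : ℝ) + 1) ^ (n + 1) := by ring
    exact_mod_cast h1
  obtain ⟨y, -, hy⟩ := Finset.exists_lt_card_fiber_of_mul_lt_card_of_maps_to hmap hcount
  let L : Finset (Fin (n + 1) → ℤ) := L0.filter fun l => ∑ i, l i * x i = y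
  have hLcard : g ^ (n - 1) < L.card := hy
  have hL : ∀ l ∈ L, l ∈ L0 ∧ ∑ i, l i * x i = y := fun l hl => Finset.mem_filter.1 hl
  obtain ⟨l0, hl0⟩ : ∃ l0, l0 ∈ L := by
    apply Finset.card_pos.1
    omega
  -- span of the differences
  let S : Set (Fin (n + 1) → ℝ) := {v | ∃ l ∈ L, v = fun i => ((l i - l0 i : ℤ) : ℝ)}
  have hS : ∀ l : Fin n → Fin (n + 1) → ℝ, (∀ k, l k ∈ S) → ¬ LinearIndependent ℝ l := by
    intro l hl hli
    choose m hm hml using hl
    apply h
    refine ⟨fun k i => m k i - l0 i, ?_, ?_, ?_⟩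
    · have : l = (fun k : Fin n => fun i => ((m k i - l0 i : ℤ) : ℝ)) := by
        funext k
        exact hml k
      rw [← this]
      exact hli
    · intro k
      have h1 := (hL _ (hm k)).2
      have h2 := (hL _ hl0).2
      have h3 : ∑ i, (m k i - l0 i) * x i = ∑ i, m k i * x i - ∑ i, l0 i * x i := by
        rw [← Finset.sum_sub_distrib]
        exact Finset.sum_congr rfl fun i _ => by ring
      rw [h3, h1, h2, sub_self]
    · intro k i
      rw [← hβ]
      refine le_trans ?_ hRle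
      have h1 := hL0 _ (hL _ (hm k)).1 i
      have h2 := hL0 _ (hL _ hl0).1 i
      have h3 : |m k i - l0 i| ≤ (R : ℤ) := by
        rw [abs_le]
        constructor <;> linarith only [h1, h2, h1.1, h1.2, h2.1, h2.2]
      have h4 : |((m k i - l0 i : ℤ) : ℝ)| ≤ (R : ℝ) := by exact_mod_cast h3
      exact h4
  obtain ⟨J, hJcard, hJ⟩ := coord_control (Submodule.span ℝ S)
  have hJn : J.card ≤ n - 1 := by
    have := finrank_span_lt_of_not_indep S n hS
    omega
  -- second pigeonhole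
  let f : (Fin (n + 1) → ℤ) → (J → ℤ) := fun l j => (g * l j) / (R + 1)
  have hf : ∀ l ∈ L, f l ∈ Fintype.piFinset (fun _ : J => Icc (0 : ℤ) (g - 1)) := by
    intro l hl
    have key : ∀ c, 0 ≤ (g * l c) / ((R : ℤ) + 1) ∧ (g * l c) / ((R : ℤ) + 1) ≤ g - 1 := by
      intro c
      have h1 := hL0 _ (hL _ hl).1 c
      have hgz : (0 : ℤ) < g := by exact_mod_cast hg0
      constructor
      · exact Int.ediv_nonneg (mul_nonneg hgz.le h1.1) (by positivity)
      · have h2 : (g * l c) / ((R : ℤ) + 1) < g := by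
          apply Int.ediv_lt_of_lt_mul (by positivity)
          have : (g : ℤ) * l c ≤ g * R := mul_le_mul_of_nonneg_left h1.2 hgz.le
          nlinarith only [hg0, this]
        omega
    rw [Fintype.mem_piFinset]
    intro j
    rw [Finset.mem_Icc]
    exact key j
  have hcard2 : (Fintype.piFinset (fun _ : J => Icc (0 : ℤ) (g - 1))).card < L.card := by
    rw [Fintype.card_piFinset]
    simp only [Int.card_Icc, Finset.prod_const, Finset.card_univ, Fintype.card_coe]
    have : ((g : ℤ) - 1 + 1 - 0).toNat = g := by simp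
    rw [this]
    exact lt_of_le_of_lt (Nat.pow_le_pow_right hg0 hJn) hLcard
  obtain ⟨l, hl, l', hl', hne, hfl⟩ := Finset.exists_ne_map_eq_of_card_lt_of_maps_to hcard2 hf
  refine ⟨fun i => l i - l' i, ?_, ?_, ?_⟩
  · intro h0
    apply hne
    funext i
    have := congrFun h0 i
    simp only [Pi.zero_apply] at this
    linarith only [this]
  · have h3 : ∑ i, (l i - l' i) * x i = ∑ i, l i * x i - ∑ i, l' i * x i := by
      rw [← Finset.sum_sub_distrib]
      exact Finset.sum_congr rfl fun i _ => by ring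
    rw [h3, (hL _ hl).2, (hL _ hl').2, sub_self]
  · -- the difference lies in the span
    have hmem : (fun i => ((l i - l' i : ℤ) : ℝ)) ∈ Submodule.span ℝ S := by
      have h1 : (fun i => ((l i - l0 i : ℤ) : ℝ)) ∈ Submodule.span ℝ S :=
        Submodule.subset_span ⟨l, hl, rfl⟩
      have h2 : (fun i => ((l' i - l0 i : ℤ) : ℝ)) ∈ Submodule.span ℝ S :=
        Submodule.subset_span ⟨l', hl', rfl⟩
      have h3 := Submodule.sub_mem _ h1 h2
      have h4 : (fun i => ((l i - l' i : ℤ) : ℝ)) =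
          (fun i => ((l i - l0 i : ℤ) : ℝ)) - (fun i => ((l' i - l0 i : ℤ) : ℝ)) := by
        funext i
        simp only [Pi.sub_apply]
        push_cast
        ring
      rw [h4]
      exact h3
    have hbd : ∀ c, (g * l c) / ((R : ℤ) + 1) = (g * l' c) / ((R : ℤ) + 1) →
        (g : ℝ) * |((l c - l' c : ℤ) : ℝ)| ≤ R := by
      intro c hc
      have hR1 : (0 : ℤ) < (R : ℤ) + 1 := by positivity
      have e1 := Int.mul_ediv_add_emod (g * l c) ((R : ℤ) + 1)
      have e2 := Int.mul_ediv_add_emod (g * l' c) ((R : ℤ) + 1)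
      have r1 := Int.emod_nonneg (g * l c) hR1.ne'
      have r2 := Int.emod_nonneg (g * l' c) hR1.ne'
      have r3 := Int.emod_lt_of_pos (g * l c) hR1
      have r4 := Int.emod_lt_of_pos (g * l' c) hR1
      have h5 : |(g : ℤ) * (l c - l' c)| ≤ R := by
        rw [hc] at e1
        have h6 : (g : ℤ) * (l c - l' c) = (g * l c) % ((R : ℤ) + 1) - (g * l' c) % ((R : ℤ) + 1) := by
          linear_combination -e1 + e2
        rw [h6, abs_le]
        constructor <;> linarith
      rw [abs_mul] at h5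
      have h7 : ((|(g : ℤ)| * |l c - l' c| : ℤ) : ℝ) ≤ ((R : ℤ) : ℝ) := by exact_mod_cast h5
      push_cast at h7
      rw [Nat.abs_cast] at h7
      push_cast
      exact h7
    have hM : ∀ j ∈ J, |((l j - l' j : ℤ) : ℝ)| ≤ K * β / g := by
      intro j hj
      have h1 := congrFun hfl ⟨j, hj⟩
      have h2 := hbd j h1
      rw [le_div_iff₀ (by linarith only [hggt, hq1]), mul_comm]
      exact h2.trans hRle
    intro i
    have h1 := hJ _ hmem (K * β / g) (by positivity) hM i
    rw [Fintype.card_fin] at h1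
    rw [← hβ, ← hs]
    have h2 : K * β / g ≤ 8 * ((n : ℝ) + 1) * β / s := by
      rw [div_le_div_iff₀ (by linarith) hs0]
      have h3 : K * s ≤ 8 * ((n : ℝ) + 1) * g := by
        rw [← hsn]
        rw [div_le_iff₀ (by positivity)] at hg12
        linarith only [hg12]
      calc K * β * s = β * (K * s) := by ring
        _ ≤ β * (8 * ((n : ℝ) + 1) * g) := mul_le_mul_of_nonneg_left h3 hβ0.le
        _ = 8 * ((n : ℝ) + 1) * β * g := by ring
    have h3 : |((l i - l' i : ℤ) : ℝ)| ≤ ((n : ℝ) + 1) ^ (n + 1) * (8 * ((n : ℝ) + 1) * β / s) := by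
      refine h1.trans ?_
      push_cast
      exact mul_le_mul_of_nonneg_left h2 (by positivity)
    calc |((l i - l' i : ℤ) : ℝ)| * s ≤ (((n : ℝ) + 1) ^ (n + 1) * (8 * ((n : ℝ) + 1) * β / s)) * s :=
          mul_le_mul_of_nonneg_right h3 hs0.le
      _ = 8 * ((n : ℝ) + 1) ^ (n + 2) * β := by
          field_simp
          ring

end GenHP
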